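import Mathlib
import Pool.Agent.TH314.PD.Core
import Pool.Agent.Y201.LI.Stm
import Pool.Agent.R845.T2.Stm

/-! # Project E3: very general cubic hypersurfaces have no birational parametrization of degree
at most three (statements)

The variables are `u_0, ..., u_k, y_0, ..., y_m` (`n = k + m`, cubics of dimension `n`). `F` is a
cubic form which vanishes on `W = (y = 0)`. The projection from `W` is a fibration in quadrics over
the projective space with coordinates `y`; `Iso K F` says that its generic fibre has a rational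
point over `K(y)`, `y = (1, y_1, ..., y_m)`.
-/

set_option autoImplicit false

namespace Pool.Agent.R845.E3

open MvPolynomial Pool.Agent.TH314.PD IntermediateField Module FF

noncomputable section

/-- the point `(1, Y_1, ..., Y_m)` -/
def yv (K : Type) [Field K] (m : ℕ) : Fin (m + 1) → MvPolynomial (Fin m) K := Fin.cons 1 X

/-- `F` vanishes on the linear subspace `y = 0`: `F(u, 0) = 0` -/
def VanW {k m : ℕ} {K : Type} [Field K] (F : MvPolynomial (Fin (k + 1 + (m + 1))) K) : Prop :=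
  aeval (Fin.append (X : Fin (k + 1) → MvPolynomial (Fin (k + 1)) K) 0) F = 0

/-- the quadratic form `F(c, l y) / l` has a nontrivial zero `(c, l)` over `K(y)`,
`y = (1, Y_1, ..., Y_m)` -/
def Iso {k m : ℕ} {K : Type} [Field K] (F : MvPolynomial (Fin (k + 1 + (m + 1))) K) : Prop :=
  ∃ (c : Fin (k + 1) → MvPolynomial (Fin m) K) (l : MvPolynomial (Fin m) K),
    (l ≠ 0 ∧ aeval (Fin.append c (fun j => l * yv K m j)) F = 0) ∨
    (c ≠ 0 ∧ ∑ j, yv K m j * aeval (Fin.append c 0) (pderiv (Fin.natAdd (k + 1) j) F) = 0)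

/-- the change of coordinates `(u, y) ↦ (u, y + u U)` -/
def shear {k m : ℕ} {K : Type} [Field K] (U : Fin (k + 1) → Fin (m + 1) → K)
    (F : MvPolynomial (Fin (k + 1 + (m + 1))) K) : MvPolynomial (Fin (k + 1 + (m + 1))) K :=
  aeval (Fin.append (fun i => X (Fin.castAdd (m + 1) i))
    (fun j => X (Fin.natAdd (k + 1) j) + ∑ i, C (U i j) * X (Fin.castAdd (m + 1) i))) F

/-- smooth -/
def Sm {r : ℕ} (F : MvPolynomial (Fin r) ℂ) : Prop :=
  ∀ z : Fin r → ℂ, (∀ i, eval z (pderiv i F) = 0) → z = 0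

/-- generic point -/
def Gp {r : ℕ} {M : Type} [Field M] [Algebra ℂ M] (F : MvPolynomial (Fin r) ℂ) (x : Fin r → M) :
    Prop :=
  aeval x F = 0 ∧ ∀ (e : ℕ) (H : MvPolynomial (Fin r) ℂ), H.IsHomogeneous e → aeval x H = 0 →
    F ∣ H

/-- the exponents of the cubic monomials which involve one of the variables `y` -/
abbrev MonY (k m : ℕ) : Type :=
  {β : Fin (k + 1 + (m + 1)) →₀ ℕ // β.degree = 3 ∧ ∃ j, β (Fin.natAdd (k + 1) j) ≠ 0}

/-- the special cubic form `∑_{i ≤ k} y_i u_i ^ 2 + y_0 ^ 2 y_{k + 1}` -/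
def spc (k m : ℕ) (h : k + 1 ≤ m) (K : Type) [Field K] :
    MvPolynomial (Fin (k + 1 + (m + 1))) K :=
  ∑ i : Fin (k + 1), X (Fin.natAdd (k + 1) (Fin.castLE (Nat.le_succ_of_le h) i)) *
      X (Fin.castAdd (m + 1) i) ^ 2 +
    X (Fin.natAdd (k + 1) 0) ^ 2 * X (Fin.natAdd (k + 1) ⟨k + 1, Nat.lt_succ_of_le h⟩)

/-- job ANI: the special cubic form -/
def S_ANI : Prop :=
  ∀ (k m : ℕ) (h : k + 1 ≤ m) (K : Type) [Field K], ¬ Iso (spc k m h K)

/-- job SPEC: specialization of a solution -/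
def S_SPEC : Prop :=
  ∀ (k m : ℕ) (K : Type) [Field K] [CharZero K]
    (F : MvPolynomial (Fin (k + 1 + (m + 1))) K), F.IsHomogeneous 3 → VanW F →
    AlgebraicIndependent ℚ (fun β : MonY k m => coeff β.1 F) → Iso F →
    ∀ F0 : MvPolynomial (Fin (k + 1 + (m + 1))) ℚ, F0.IsHomogeneous 3 → VanW F0 →
    ∃ (κ : Type) (_ : Field κ) (_ : Algebra ℚ κ), Iso (map (algebraMap ℚ κ) F0)

/-- job GEN (from `S_ANI`, `S_SPEC`): the generic cubic form vanishing on `W` -/
def S_GEN : Prop :=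
  ∀ (k m : ℕ), k + 1 ≤ m → ∀ (K : Type) [Field K] [CharZero K]
    (F : MvPolynomial (Fin (k + 1 + (m + 1))) K), F.IsHomogeneous 3 → VanW F →
    AlgebraicIndependent ℚ (fun β : MonY k m => coeff β.1 F) → ¬ Iso F

/-- job SPR: the theorem of Springer on extensions of odd degree, applied to `F(c, l y) / l` -/
def S_SPR : Prop :=
  ∀ (k m : ℕ) (K E : Type) [Field K] [CharZero K] [Field E] [Algebra K E] (y : Fin m → E),
    AlgebraicIndependent K y → Odd (finrank (adjoin K (Set.range y)) E) →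
    ∀ F : MvPolynomial (Fin (k + 1 + (m + 1))) K, F.IsHomogeneous 3 → VanW F →
    ∀ c : Fin (k + 1) → E, aeval (Fin.append c (Fin.cons 1 y)) F = 0 → Iso F

/-- job CRVA: an integral curve through the origin -/
def S_CRVA : Prop :=
  ∀ (Ω : Type) [Field Ω] [IsAlgClosed Ω] (D s : ℕ), s < D →
    ∀ p : Fin s → MvPolynomial (Fin D) Ω, (∀ l, eval 0 (p l) = 0) →
    ∃ (K : Type) (_ : Field K) (_ : Algebra Ω K) (V : Fin D → K),
      adjoin Ω (Set.range V) = ⊤ ∧ Algebra.trdeg Ω K = 1 ∧ (∀ l, aeval V (p l) = 0) ∧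
      ∀ q : MvPolynomial (Fin D) Ω, aeval V q = 0 → eval 0 q = 0

/-- job CRVB: a place of a curve over the origin -/
def S_CRVB : Prop :=
  ∀ (Ω K : Type) [Field Ω] [IsAlgClosed Ω] [CharZero Ω] [Field K] [Algebra Ω K] (D : ℕ)
    (V : Fin D → K), adjoin Ω (Set.range V) = ⊤ → Algebra.trdeg Ω K = 1 →
    (∀ q : MvPolynomial (Fin D) Ω, aeval V q = 0 → eval 0 q = 0) →
    ∃ P : Place Ω K, ∀ τ, V τ = 0 ∨ 0 < P.ord (V τ)

/-- job CURVE (from `S_CRVA`, `S_CRVB`): fewer than `D` equations in `D` unknowns which are satisfied by the origin are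
satisfied by a curve through the origin -/
def S_CURVE : Prop :=
  ∀ (Ω : Type) [Field Ω] [IsAlgClosed Ω] [CharZero Ω] (D s : ℕ), s < D →
    ∀ p : Fin s → MvPolynomial (Fin D) Ω, (∀ l, eval 0 (p l) = 0) →
    ∃ (K : Type) (_ : Field K) (_ : Algebra Ω K) (P : Place Ω K) (V : Fin D → K),
      (∀ τ, V τ = 0 ∨ 0 < P.ord (V τ)) ∧ V ≠ 0 ∧ ∀ l, aeval V (p l) = 0

/-- job GFI: the fundamental identity for the Gauss extension of a place -/
def S_GFI : Prop :=
  ∀ (Ω K E : Type) [Field Ω] [CharZero Ω] [Field K] [Field E] [Algebra Ω K] [Algebra K E]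
    [Algebra Ω E] [IsScalarTower Ω K E] (m : ℕ) (P : Place Ω K) (ϖ : K) (y : Fin m → E),
    ϖ ≠ 0 → P.ord ϖ = 1 → AlgebraicIndependent K y →
    FiniteDimensional (adjoin K (Set.range y)) E →
    ∃ S : Finset (Place Ω E),
      (∀ w, w ∈ S ↔ (∀ a : K, P.Reg a → w.Reg (algebraMap K E a)) ∧
        0 < w.ord (algebraMap K E ϖ) ∧ (∀ j, w.Reg (y j)) ∧
        ∀ p : MvPolynomial (Fin m) K, (∀ α, P.Reg (coeff α p)) →
          (∃ α, coeff α p ≠ 0 ∧ P.ord (coeff α p) = 0) → w.red (aeval y p) ≠ 0) ∧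
      ∑ w ∈ S, (w.ord (algebraMap K E ϖ)).toNat *
        finrank (Subfield.closure ({c : w.RF | ∃ a : K, P.Reg a ∧ w.red (algebraMap K E a) = c} ∪
          Set.range fun j => w.red (y j))) w.RF = finrank (adjoin K (Set.range y)) E

/-- job EVN (from `S_ONE`): a point of the fibre `l = 0` has even degree -/
def S_EVN : Prop :=
  ∀ (k m : ℕ) (F : MvPolynomial (Fin (k + 1 + (m + 1))) ℂ), F.IsHomogeneous 3 → Sm F → VanW F →
    ∀ (R : Type) [Field R] [Algebra ℂ R] (A : Set R), (∀ c : ℂ, algebraMap ℂ R c ∈ A) →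
    ∀ y : Fin m → R, AlgebraicIndependent (Subfield.closure A) y →
    ∀ v : Fin (k + 1) → R, v ≠ 0 →
      ∑ j, (Fin.cons 1 y : Fin (m + 1) → R) j *
        aeval (Fin.append v (0 : Fin (m + 1) → R)) (pderiv (Fin.natAdd (k + 1) j) F) = 0 →
      2 ∣ finrank (Subfield.closure (A ∪ Set.range y)) R

/-- job TRANS (from `S_GFI`, `S_EVN`, `S_SPR`): a rational section of the projection from `W` gives
a rational point of the generic fibre of the projection from a linear space which specializes to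
`W` -/
def S_TRANS : Prop :=
  ∀ (k m : ℕ) (F : MvPolynomial (Fin (k + 1 + (m + 1))) ℂ), F.IsHomogeneous 3 → Sm F → VanW F →
    Iso F → ∀ (Ω K : Type) [Field Ω] [Algebra ℂ Ω] [Field K] [Algebra ℂ K] [Algebra Ω K]
      [IsScalarTower ℂ Ω K] (P : Place Ω K) (V : Fin (k + 1) → Fin (m + 1) → K),
      (∀ i j, V i j = 0 ∨ 0 < P.ord (V i j)) → VanW (shear V (map (algebraMap ℂ K) F)) →
      Iso (shear V (map (algebraMap ℂ K) F))

/-- job TRDA: counting of transcendence degrees -/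
def S_TRDA : Prop :=
  ∀ (k m : ℕ) (F : MvPolynomial (Fin (k + 1 + (m + 1))) ℂ), F.IsHomogeneous 3 →
    AlgebraicIndependent ℚ
      (fun β : {β : Fin (k + 1 + (m + 1)) →₀ ℕ // β.degree = 3} => coeff β.1 F) →
    ∀ (K : Type) [Field K] [CharZero K] [Algebra ℂ K] (U : Fin (k + 1) → Fin (m + 1) → K)
      (Θ : Finset (Fin (k + 1) × Fin (m + 1))),
      AlgebraicIndependent ℂ (fun τ : Θ => U τ.1.1 τ.1.2) →
      (k + 1) * (m + 1) ≤ Θ.card + (k + 3).choose 3 →
      VanW (shear U (map (algebraMap ℂ K) F)) →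
      (k + 1) * (m + 1) = Θ.card + (k + 3).choose 3 ∧
      AlgebraicIndependent ℚ
        (fun β : MonY k m => coeff β.1 (shear U (map (algebraMap ℂ K) F)))

/-- job TRDB: generic linear equations -/
def S_TRDB : Prop :=
  ∀ (ι κ : Type) [Fintype ι] [DecidableEq ι] [Fintype κ] [DecidableEq κ] (Ω K : Type) [Field Ω]
    [Algebra ℂ Ω] [Field K] [Algebra ℂ K] [Algebra Ω K] [IsScalarTower ℂ Ω K]
    (a : κ → ι → Ω) (U0 : ι → ℂ) (V : ι → K),
    AlgebraicIndependent ℂ (fun q : κ × ι => a q.1 q.2) →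
    (∃ i, Transcendental Ω (V i)) → (∀ l, ∑ i, algebraMap Ω K (a l i) * V i = 0) →
    ∃ Θ : Finset ι, Fintype.card κ + 1 ≤ Θ.card ∧
      AlgebraicIndependent ℂ (fun τ : Θ => algebraMap ℂ K (U0 τ.1) + V τ.1)

/-- job DESC: descent from an extension field to the complex numbers -/
def S_DESC : Prop :=
  ∀ (k m : ℕ) (F : MvPolynomial (Fin (k + 1 + (m + 1))) ℂ) (K : Type) [Field K] [Algebra ℂ K],
    Iso (map (algebraMap ℂ K) F) → Iso F

/-- job AT (from `S_GEN`, `S_CURVE`, `S_TRANS`, `S_TRDA`, `S_TRDB`): very general cubics -/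
def S_AT : Prop :=
  ∀ (k m : ℕ), 3 ≤ k + m → ∀ F : MvPolynomial (Fin (k + 1 + (m + 1))) ℂ, F.IsHomogeneous 3 →
    Sm F →
    AlgebraicIndependent ℚ
      (fun β : {β : Fin (k + 1 + (m + 1)) →₀ ℕ // β.degree = 3} => coeff β.1 F) →
    ∀ U : Fin (k + 1) → Fin (m + 1) → ℂ, VanW (shear U F) → ¬ Iso (shear U F)

/-- job P3: parity of the degree for a line which meets the cubic in three different points -/
def S_P3 : Prop :=
  ∀ (r : ℕ) (F : MvPolynomial (Fin (r + 1)) ℂ), F.IsHomogeneous 3 → Sm F →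
    ∀ (M : Type) [Field M] [Algebra ℂ M] (x p : Fin (r + 1) → M) (A B : M),
      LinearIndependent M ![x, p] → Gp F x → Odd (finrank (ratioField x) M) → ¬ Gp F p →
      A ≠ 0 → B ≠ 0 →
      aeval (fun j => Polynomial.C (x j) + Polynomial.X * Polynomial.C (p j)) F =
        Polynomial.C A * Polynomial.X + Polynomial.C B * Polynomial.X ^ 2 →
      (Gp F (fun j => B * x j - A * p j) → 2 ∣ finrank (ratioField fun j => B * x j - A * p j) M) →
      (∀ (e : ℕ) (H : MvPolynomial (Fin (r + 1)) ℂ), H.IsHomogeneous e →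
        aeval (fun j => algebraMap (Polynomial M) (FractionRing (Polynomial M))
          (Polynomial.C (x j) + Polynomial.X * Polynomial.C (p j))) H = 0 → H = 0) ∧
      Odd (finrank (ratioField fun j => algebraMap (Polynomial M) (FractionRing (Polynomial M))
        (Polynomial.C (x j) + Polynomial.X * Polynomial.C (p j))) (FractionRing (Polynomial M)))

/-- job CC (from `S_P3`, `S_TAN`, `S_T1`, `S_SPR`): conics which meet `W` -/
def S_CC : Prop :=
  ∀ (k m : ℕ) (F : MvPolynomial (Fin (k + 1 + (m + 1))) ℂ), F.IsHomogeneous 3 → Sm F → VanW F →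
    ∀ (M : Type) [Field M] [Algebra ℂ M] (L : IntermediateField ℂ M) (t : M),
      Transcendental L t → ∀ (α : Fin (k + 1) → M) (β γ : Fin (k + 1 + (m + 1)) → M),
      (∀ i, α i ∈ L) → (∀ i, β i ∈ L) → (∀ i, γ i ∈ L) →
      Gp F (fun i => t ^ 2 * Fin.append α (0 : Fin (m + 1) → M) i + t * β i + γ i) →
      Odd (finrank (ratioField fun i =>
        t ^ 2 * Fin.append α (0 : Fin (m + 1) → M) i + t * β i + γ i) M) → Iso F

/-- job BASE: a birational parametrization by cubic forms has a base point -/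
def S_BASE : Prop :=
  ∀ (n : ℕ), 3 ≤ n → ∀ F : MvPolynomial (Fin (n + 2)) ℂ, F.IsHomogeneous 3 → Sm F →
    ∀ G : Fin (n + 2) → MvPolynomial (Fin (n + 1)) ℂ, (∀ i, (G i).IsHomogeneous 3) →
    Gp F (fun i => algebraMap (MvPolynomial (Fin (n + 1)) ℂ)
      (FractionRing (MvPolynomial (Fin (n + 1)) ℂ)) (G i)) →
    (∀ i j, algebraMap (MvPolynomial (Fin (n + 1)) ℂ)
        (FractionRing (MvPolynomial (Fin (n + 1)) ℂ)) (X i) /
        algebraMap (MvPolynomial (Fin (n + 1)) ℂ)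
        (FractionRing (MvPolynomial (Fin (n + 1)) ℂ)) (X j) ∈
      ratioField fun i => algebraMap (MvPolynomial (Fin (n + 1)) ℂ)
        (FractionRing (MvPolynomial (Fin (n + 1)) ℂ)) (G i)) →
    ∃ b : Fin (n + 1) → ℂ, b ≠ 0 ∧ ∀ i, eval b (G i) = 0

/-- job HOM: homogenization -/
def S_HOM : Prop :=
  ∀ (n : ℕ) (F : MvPolynomial (Fin (n + 2)) ℂ), F.IsHomogeneous 3 →
    ∀ G : Fin (n + 2) → MvPolynomial (Fin n) ℂ, (∀ i, (G i).totalDegree ≤ 3) →
    Gp F (fun i => algebraMap (MvPolynomial (Fin n) ℂ) (FractionRing (MvPolynomial (Fin n) ℂ))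
      (G i)) →
    (ratioField fun i => algebraMap (MvPolynomial (Fin n) ℂ)
      (FractionRing (MvPolynomial (Fin n) ℂ)) (G i)) = ⊤ →
    ∃ H : Fin (n + 2) → MvPolynomial (Fin (n + 1)) ℂ, (∀ i, (H i).IsHomogeneous 3) ∧
      Gp F (fun i => algebraMap (MvPolynomial (Fin (n + 1)) ℂ)
        (FractionRing (MvPolynomial (Fin (n + 1)) ℂ)) (H i)) ∧
      ∀ i j, algebraMap (MvPolynomial (Fin (n + 1)) ℂ)
          (FractionRing (MvPolynomial (Fin (n + 1)) ℂ)) (X i) /
          algebraMap (MvPolynomial (Fin (n + 1)) ℂ)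
          (FractionRing (MvPolynomial (Fin (n + 1)) ℂ)) (X j) ∈
        ratioField fun i => algebraMap (MvPolynomial (Fin (n + 1)) ℂ)
          (FractionRing (MvPolynomial (Fin (n + 1)) ℂ)) (H i)

/-- job CONE: the conics given by the lines through a base point -/
def S_CONE : Prop :=
  ∀ (n : ℕ), 3 ≤ n → ∀ F : MvPolynomial (Fin (n + 2)) ℂ, F.IsHomogeneous 3 →
    ∀ G : Fin (n + 2) → MvPolynomial (Fin (n + 1)) ℂ, (∀ i, (G i).IsHomogeneous 3) →
    Gp F (fun i => algebraMap (MvPolynomial (Fin (n + 1)) ℂ)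
      (FractionRing (MvPolynomial (Fin (n + 1)) ℂ)) (G i)) →
    (∀ i j, algebraMap (MvPolynomial (Fin (n + 1)) ℂ)
        (FractionRing (MvPolynomial (Fin (n + 1)) ℂ)) (X i) /
        algebraMap (MvPolynomial (Fin (n + 1)) ℂ)
        (FractionRing (MvPolynomial (Fin (n + 1)) ℂ)) (X j) ∈
      ratioField fun i => algebraMap (MvPolynomial (Fin (n + 1)) ℂ)
        (FractionRing (MvPolynomial (Fin (n + 1)) ℂ)) (G i)) →
    ∀ b : Fin (n + 1) → ℂ, b ≠ 0 → (∀ i, eval b (G i) = 0) →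
    ∃ A : Fin (n + 2) → Fin (n + 1) → ℂ, (∀ a : Fin (n + 1) → ℂ,
        eval (fun i => ∑ l, a l * A i l) F = 0) ∧
      ∃ (M : Type) (_ : Field M) (_ : Algebra ℂ M) (L : IntermediateField ℂ M) (t : M),
        Transcendental L t ∧ ∃ (w : Fin (n + 1) → M) (β γ : Fin (n + 2) → M),
          (∀ i, w i ∈ L) ∧ (∀ i, β i ∈ L) ∧ (∀ i, γ i ∈ L) ∧
          Gp F (fun i => t ^ 2 * (∑ l, w l * algebraMap ℂ M (A i l)) + t * β i + γ i) ∧
          finrank (ratioField fun i =>
            t ^ 2 * (∑ l, w l * algebraMap ℂ M (A i l)) + t * β i + γ i) M = 1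

end

end Pool.Agent.R845.E3
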