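import Pool.Agent.R845.E3.Stm

/-! Job ANI: an anisotropic quadratic form over `K(Y)`. -/

set_option autoImplicit false

namespace Pool.Agent.R845.E3

open MvPolynomial

noncomputable section

open MonomialOrder in
/-- a sum of monomials with pairwise different parity vectors times squares vanishes only
trivially -/
theorem sum_sq_zero {σ ι K : Type} [Field K] [LinearOrder σ] [WellFoundedGT σ] [Fintype ι]
    (a : ι → (σ →₀ ℕ))
    (ha : ∀ i j, i ≠ j → ∀ d e : σ →₀ ℕ, a i + 2 • d ≠ a j + 2 • e) (p : ι → MvPolynomial σ K)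
    (h : ∑ i, monomial (a i) (1 : K) * p i ^ 2 = 0) : ∀ i, p i = 0 := by
  classical
  by_contra hcon
  push Not at hcon
  let m : MonomialOrder σ := MonomialOrder.lex
  let S : Finset ι := Finset.univ.filter fun i => p i ≠ 0
  have hS : S.Nonempty := by
    obtain ⟨i, hi⟩ := hcon
    exact ⟨i, by simp [S, hi]⟩
  obtain ⟨i0, hi0, hmax⟩ := S.exists_max_image
    (fun i => m.toSyn (m.degree (monomial (a i) (1 : K) * p i ^ 2))) hS
  have hdeg : ∀ i, p i ≠ 0 → m.degree (monomial (a i) (1 : K) * p i ^ 2) = a i + 2 • m.degree (p i) := by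
    intro i hi
    rw [degree_mul _ (pow_ne_zero 2 hi), degree_monomial, if_neg one_ne_zero, degree_pow]
    rw [Ne, monomial_eq_zero]
    exact one_ne_zero
  have hp0 : p i0 ≠ 0 := by
    simp only [S, Finset.mem_filter, Finset.mem_univ, true_and] at hi0
    exact hi0
  have hc := congrArg (coeff (m.degree (monomial (a i0) (1 : K) * p i0 ^ 2))) h
  rw [coeff_sum, coeff_zero, Finset.sum_eq_single i0] at hc
  · have h1 : monomial (a i0) (1 : K) * p i0 ^ 2 ≠ 0 := by
      apply mul_ne_zero _ (pow_ne_zero 2 hp0)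
      rw [Ne, monomial_eq_zero]
      exact one_ne_zero
    exact (m.coeff_degree_ne_zero_iff.2 h1) hc
  · intro i _ hi
    by_cases hpi : p i = 0
    · rw [hpi, zero_pow two_ne_zero, mul_zero, coeff_zero]
    · apply m.coeff_eq_zero_of_lt
      have h1 := hmax i (by simp [S, hpi])
      refine lt_of_le_of_ne h1 ?_
      intro h2
      have h3 := m.toSyn.injective h2
      rw [hdeg i hpi, hdeg i0 hp0] at h3
      exact ha i i0 hi _ _ h3
  · intro h1
    exact absurd (Finset.mem_univ _) h1

/-- the exponents of `yv` -/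
def ye (m : ℕ) : Fin (m + 1) → (Fin m →₀ ℕ) := Fin.cons 0 (fun j => Finsupp.single j 1)

theorem yv_eq (K : Type) [Field K] (m : ℕ) (j : Fin (m + 1)) : yv K m j = monomial (ye m j) 1 := by
  unfold yv ye
  refine Fin.cases ?_ (fun j => ?_) j
  · simp
  · simp [X]

theorem ye_parity (m : ℕ) (i j : Fin (m + 1)) (hij : i ≠ j) (d e : Fin m →₀ ℕ) :
    ye m i + 2 • d ≠ ye m j + 2 • e := by
  intro h
  apply hij
  revert h
  unfold ye
  refine Fin.cases ?_ (fun i => ?_) i <;> refine Fin.cases ?_ (fun j => ?_) j
  · intro _; rfl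
  · intro h
    have h1 := DFunLike.congr_fun h j
    simp at h1
    omega
  · intro h
    have h1 := DFunLike.congr_fun h i
    simp at h1
    omega
  · intro h
    by_contra hne
    have hne' : i ≠ j := fun h2 => hne (by rw [h2])
    have h1 := DFunLike.congr_fun h j
    simp [hne'] at h1
    omega

variable {k m : ℕ}

/-- no nontrivial solution -/
theorem no_zero (K : Type) [Field K] (h : k + 1 ≤ m) (c : Fin (k + 1) → MvPolynomial (Fin m) K)
    (l : MvPolynomial (Fin m) K)
    (hz : ∑ i : Fin (k + 1), yv K m (Fin.castLE (Nat.le_succ_of_le h) i) * c i ^ 2 +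
      yv K m ⟨k + 1, Nat.lt_succ_of_le h⟩ * l ^ 2 = 0) : (∀ i, c i = 0) ∧ l = 0 := by
  have key := sum_sq_zero (ι := Fin (k + 1 + 1)) (K := K)
    (fun i => ye m (Fin.castLE (Nat.succ_le_succ h) i)) (fun i j hij d e =>
      ye_parity m _ _ (fun h2 => hij (Fin.castLE_injective _ h2)) d e)
    (Fin.snoc c l) (by
      rw [Fin.sum_univ_castSucc]
      simp only [Fin.snoc_castSucc, Fin.snoc_last]
      rw [← hz]
      congr 1
      refine Finset.sum_congr rfl fun i _ => ?_
      rw [yv_eq]
      rfl)
  refine ⟨fun i => ?_, ?_⟩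
  · have := key i.castSucc
    rwa [Fin.snoc_castSucc] at this
  · have := key (Fin.last _)
    rwa [Fin.snoc_last] at this

theorem yv_zero (K : Type) [Field K] (m : ℕ) : yv K m 0 = 1 := rfl

theorem ani : S_ANI := by
  classical
  intro k m h K _ hiso
  obtain ⟨c, l, hcl⟩ := hiso
  rcases hcl with ⟨hl, hz⟩ | ⟨hc, hz⟩
  · unfold spc at hz
    simp only [map_add, map_sum, map_mul, map_pow, aeval_X, Fin.append_left, Fin.append_right] at hz
    rw [yv_zero] at hz
    have h1 : l * (∑ i : Fin (k + 1), yv K m (Fin.castLE (Nat.le_succ_of_le h) i) * c i ^ 2 +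
      yv K m ⟨k + 1, Nat.lt_succ_of_le h⟩ * l ^ 2) = 0 := by
      rw [← hz, mul_add, Finset.mul_sum]
      congr 1
      · refine Finset.sum_congr rfl fun i _ => ?_
        ring
      · ring
    have h2 := (mul_eq_zero.1 h1).resolve_left hl
    exact hl (no_zero K h c l h2).2
  · apply hc
    have h0 : ∀ j : Fin (m + 1), aeval (Fin.append c (0 : Fin (m + 1) → MvPolynomial (Fin m) K))
        (pderiv (Fin.natAdd (k + 1) j) (spc k m h K)) =
        ∑ i : Fin (k + 1), if Fin.castLE (Nat.le_succ_of_le h) i = j then c i ^ 2 else 0 := by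
      intro j
      unfold spc
      rw [map_add, map_sum, map_add, map_sum]
      have e1 : aeval (Fin.append c (0 : Fin (m + 1) → MvPolynomial (Fin m) K))
          (pderiv (Fin.natAdd (k + 1) j) (X (Fin.natAdd (k + 1) (0 : Fin (m + 1))) ^ 2 *
            X (Fin.natAdd (k + 1) (⟨k + 1, Nat.lt_succ_of_le h⟩ : Fin (m + 1))) :
              MvPolynomial (Fin (k + 1 + (m + 1))) K)) = 0 := by
        rw [Derivation.leibniz, Derivation.leibniz_pow]
        simp
      rw [e1, add_zero]
      refine Finset.sum_congr rfl fun i _ => ?_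
      rw [Derivation.leibniz, Derivation.leibniz_pow, pderiv_X, pderiv_X]
      have hne : Fin.castAdd (m + 1) i ≠ Fin.natAdd (k + 1) j := by
        intro h2
        have := congrArg Fin.val h2
        simp at this
        omega
      rw [Pi.single_eq_of_ne hne]
      by_cases hij : Fin.castLE (Nat.le_succ_of_le h) i = j
      · rw [if_pos hij, hij, Pi.single_eq_same]
        simp
      · rw [if_neg hij, Pi.single_eq_of_ne]
        · simp
        · intro h2
          apply hij
          have := congrArg Fin.val h2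
          simp only [Fin.val_natAdd] at this
          apply Fin.ext
          omega
    have h1 : ∑ i : Fin (k + 1), yv K m (Fin.castLE (Nat.le_succ_of_le h) i) * c i ^ 2 +
        yv K m ⟨k + 1, Nat.lt_succ_of_le h⟩ * (0 : MvPolynomial (Fin m) K) ^ 2 = 0 := by
      rw [zero_pow two_ne_zero, mul_zero, add_zero, ← hz]
      simp_rw [h0, Finset.mul_sum]
      rw [Finset.sum_comm]
      refine Finset.sum_congr rfl fun i _ => ?_
      simp
    funext i
    exact (no_zero K h c 0 h1).1 i

end

end Pool.Agent.R845.E3
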