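import Pool.Agent.R845.E3.Stm

/-! Job SPEC: specialization of a solution by a valuation ring. -/

set_option autoImplicit false

namespace Pool.Agent.R845.E3

open MvPolynomial

noncomputable section

/-- a valuation ring of `K` which dominates the point `a0` -/
theorem exists_place {ι K : Type} [Field K] [Algebra ℚ K] (f : ι → K) (hf : AlgebraicIndependent ℚ f)
    (a0 : ι → ℚ) : ∃ (V : ValuationSubring K) (ψ : MvPolynomial ι ℚ →+* V),
      (∀ p, (ψ p : K) = aeval f p) ∧
      ∀ p, IsLocalRing.residue V (ψ p) = IsLocalRing.residue V (ψ (C (eval a0 p))) := by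
  let φ : MvPolynomial ι ℚ →+* K := (aeval f : MvPolynomial ι ℚ →ₐ[ℚ] K).toRingHom
  let A : Subring K := φ.range
  let I : Ideal A := Ideal.map φ.rangeRestrict (RingHom.ker (eval a0))
  have hI : I ≠ ⊤ := by
    intro h
    have h1 : (1 : A) ∈ I := by rw [h]; trivial
    rw [Ideal.mem_map_iff_of_surjective _ φ.rangeRestrict_surjective] at h1
    obtain ⟨p, hp, hp1⟩ := h1
    have h2 : φ p = 1 := congrArg Subtype.val hp1
    have h3 : aeval f p = aeval f (1 : MvPolynomial ι ℚ) := by
      rw [map_one]; exact h2
    have h4 := hf h3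
    rw [RingHom.mem_ker, h4, map_one] at hp
    exact one_ne_zero hp
  obtain ⟨V, hV1, hV2⟩ := Ideal.image_subset_nonunits_valuationSubring I hI
  have hmem : ∀ p, φ p ∈ V := fun p => hV1 ⟨p, rfl⟩
  refine ⟨V, φ.codRestrict V hmem, fun p => rfl, fun p => ?_⟩
  rw [← sub_eq_zero, ← map_sub, ← map_sub, IsLocalRing.residue_eq_zero_iff,
    ValuationSubring.valuation_lt_one_iff]
  have hker : p - C (eval a0 p) ∈ RingHom.ker (eval a0) := by
    rw [RingHom.mem_ker, map_sub, eval_C, sub_self]
  have h1 : φ (p - C (eval a0 p)) ∈ V.nonunits := by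
    apply hV2
    exact ⟨φ.rangeRestrict (p - C (eval a0 p)), Ideal.mem_map_of_mem _ hker, rfl⟩
  exact (ValuationSubring.mem_nonunits_iff _).1 h1

/-- the Taylor expansion modulo `s ^ 2` -/
theorem taylor2 {σ B R : Type} [CommRing B] [CommRing R] [Algebra B R] [Fintype σ] [DecidableEq σ]
    (F : MvPolynomial σ B) (x h : σ → R) (s : R) : ∃ T : R, aeval (fun i => x i + s * h i) F =
      aeval x F + s * ∑ i, h i * aeval x (pderiv i F) + s ^ 2 * T := by
  induction F using MvPolynomial.induction_on with
  | C a => exact ⟨0, by simp⟩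
  | add p q hp hq =>
    obtain ⟨T1, h1⟩ := hp
    obtain ⟨T2, h2⟩ := hq
    refine ⟨T1 + T2, ?_⟩
    rw [map_add, h1, h2]
    have e : ∑ i, h i * aeval x (pderiv i (p + q)) =
        ∑ i, h i * aeval x (pderiv i p) + ∑ i, h i * aeval x (pderiv i q) := by
      rw [← Finset.sum_add_distrib]
      refine Finset.sum_congr rfl fun i _ => ?_
      rw [map_add, map_add, mul_add]
    rw [e, map_add]
    ring
  | mul_X p j hp =>
    obtain ⟨T, h1⟩ := hp
    refine ⟨(∑ i, h i * aeval x (pderiv i p)) * h j + T * (x j + s * h j), ?_⟩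
    have e : ∑ i, h i * aeval x (pderiv i (p * X j)) =
        (∑ i, h i * aeval x (pderiv i p)) * x j + aeval x p * h j := by
      have e1 : ∀ i, h i * aeval x (pderiv i (p * X j)) =
          h i * aeval x (pderiv i p) * x j + (if i = j then aeval x p * h j else 0) := by
        intro i
        rw [Derivation.leibniz, pderiv_X]
        by_cases hij : i = j
        · subst hij
          rw [Pi.single_eq_same, if_pos rfl]
          simp
          ring
        · rw [if_neg hij, Pi.single_eq_of_ne (Ne.symm hij)]
          simp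
          ring
      rw [Finset.sum_congr rfl fun i _ => e1 i, Finset.sum_add_distrib, ← Finset.sum_mul]
      congr 1
      simp
    rw [map_mul, map_mul, h1, e, aeval_X, aeval_X]
    ring

/-- scaling a family of polynomials by a valuation ring -/
theorem exists_scale {ι σ K : Type} [Field K] [Fintype ι] (V : ValuationSubring K)
    (g : ι → MvPolynomial σ K) (hg : ∃ i, g i ≠ 0) : ∃ (s : K) (g' : ι → MvPolynomial σ V),
      s ≠ 0 ∧ (∀ i, g i = C s * map V.subtype (g' i)) ∧
      ∃ i, map (IsLocalRing.residue V) (g' i) ≠ 0 := by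
  classical
  let T : Finset (Σ _ : ι, (σ →₀ ℕ)) := Finset.univ.sigma fun i => (g i).support
  have hT : T.Nonempty := by
    obtain ⟨i, hi⟩ := hg
    obtain ⟨α, hα⟩ := MvPolynomial.support_nonempty.2 hi
    exact ⟨⟨i, α⟩, by simp only [T, Finset.mem_sigma, Finset.mem_univ, true_and]; exact hα⟩
  obtain ⟨⟨i0, α0⟩, h0, hmax⟩ := T.exists_max_image (fun q => V.valuation (coeff q.2 (g q.1))) hT
  obtain ⟨s, hs⟩ : ∃ s, s = coeff α0 (g i0) := ⟨_, rfl⟩
  have hs0 : s ≠ 0 := by
    rw [hs]
    simp only [T, Finset.mem_sigma, Finset.mem_univ, true_and] at h0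
    exact mem_support_iff.1 h0
  have hv0 : V.valuation s ≠ 0 := (Valuation.ne_zero_iff _).2 hs0
  have hmem : ∀ i α, s⁻¹ * coeff α (g i) ∈ V := by
    intro i α
    rw [← ValuationSubring.valuation_le_one_iff, map_mul, map_inv₀]
    by_cases hc : coeff α (g i) = 0
    · rw [hc, map_zero, mul_zero]
      exact zero_le
    · have h1 := hmax ⟨i, α⟩ (by
        simp only [T, Finset.mem_sigma, Finset.mem_univ, true_and]
        exact mem_support_iff.2 hc)
      simp only at h1
      rw [← hs] at h1
      calc (V.valuation s)⁻¹ * V.valuation (coeff α (g i)) ≤ (V.valuation s)⁻¹ * V.valuation s :=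
            mul_le_mul_right h1 _
        _ = 1 := inv_mul_cancel₀ hv0
  have hex : ∀ i, ∃ q : MvPolynomial σ V, map V.subtype q = C s⁻¹ * g i := by
    intro i
    have h1 : C s⁻¹ * g i ∈ Set.range (MvPolynomial.map V.subtype) := by
      rw [mem_range_map_iff_coeffs_subset]
      intro c hc
      rw [Finset.mem_coe, mem_coeffs_iff] at hc
      obtain ⟨α, -, rfl⟩ := hc
      rw [coeff_C_mul]
      exact ⟨⟨_, hmem i α⟩, rfl⟩
    exact h1
  choose g' hg' using hex
  refine ⟨s, g', hs0, fun i => ?_, i0, ?_⟩
  · rw [hg', ← mul_assoc, ← C_mul, mul_inv_cancel₀ hs0, C_1, one_mul]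
  · intro h1
    have h2 := congrArg (coeff α0) h1
    rw [coeff_map, coeff_zero] at h2
    have h3 := congrArg (coeff α0) (hg' i0)
    rw [coeff_map, coeff_C_mul, ← hs, inv_mul_cancel₀ hs0] at h3
    have h4 : coeff α0 (g' i0) = 1 := Subtype.ext h3
    rw [h4, map_one] at h2
    exact one_ne_zero h2

variable {k m : ℕ}

theorem aeval_append_monomial {K : Type} [Field K] (γ : Fin (k + 1 + (m + 1)) →₀ ℕ) (c : K) :
    aeval (Fin.append (X : Fin (k + 1) → MvPolynomial (Fin (k + 1)) K) 0) (monomial γ c) =
      if ∀ j, γ (Fin.natAdd (k + 1) j) = 0 then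
        monomial (Finsupp.equivFunOnFinite.symm fun i => γ (Fin.castAdd (m + 1) i)) c else 0 := by
  classical
  rw [aeval_monomial, Finsupp.prod_fintype _ _ (fun i => pow_zero _), Fin.prod_univ_add]
  simp only [Fin.append_left, Fin.append_right, Pi.zero_apply]
  split_ifs with h
  · rw [Finset.prod_eq_one (s := Finset.univ) (f := fun j : Fin (m + 1) => _)]
    · rw [mul_one, algebraMap_eq, MvPolynomial.monomial_eq]
      congr 1
      rw [Finsupp.prod_fintype _ _ (fun i => pow_zero _)]
      rfl
    · intro j _
      rw [h j, pow_zero]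
  · push Not at h
    obtain ⟨j, hj⟩ := h
    rw [Finset.prod_eq_zero (Finset.mem_univ j) (zero_pow hj), mul_zero, mul_zero]

/-- the coefficients of a form vanishing on `W` at the monomials without `y` vanish -/
theorem vanW_coeff {K : Type} [Field K] {F : MvPolynomial (Fin (k + 1 + (m + 1))) K} (hF : VanW F)
    {β : Fin (k + 1 + (m + 1)) →₀ ℕ} (hβ : ∀ j, β (Fin.natAdd (k + 1) j) = 0) : coeff β F = 0 := by
  classical
  have key : ∀ F : MvPolynomial (Fin (k + 1 + (m + 1))) K,
      coeff (Finsupp.equivFunOnFinite.symm fun i => β (Fin.castAdd (m + 1) i))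
        (aeval (Fin.append (X : Fin (k + 1) → MvPolynomial (Fin (k + 1)) K) 0) F) = coeff β F := by
    intro F
    induction F using MvPolynomial.induction_on' with
    | monomial γ c =>
      rw [aeval_append_monomial]
      by_cases h : γ = β
      · subst h
        rw [if_pos hβ, coeff_monomial, if_pos rfl, coeff_monomial, if_pos rfl]
      · rw [coeff_monomial, if_neg h]
        split_ifs with h1
        · rw [coeff_monomial, if_neg]
          intro h2
          apply h
          ext i
          refine Fin.addCases (fun i => ?_) (fun j => ?_) i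
          · have := DFunLike.congr_fun h2 i
            simpa using this
          · rw [h1 j, hβ j]
        · rw [coeff_zero]
    | add p q hp hq => rw [map_add, coeff_add, coeff_add, hp, hq]
  rw [← key F]
  unfold VanW at hF
  rw [hF, coeff_zero]

theorem map_aeval' {σ τ A B : Type} [CommRing A] [CommRing B] (θ : A →+* B)
    (c : σ → MvPolynomial τ A) (G : MvPolynomial σ A) :
    map θ (aeval c G) = aeval (fun i => map θ (c i)) (map θ G) := by
  induction G using MvPolynomial.induction_on with
  | C a => simp [algebraMap_eq]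
  | add p q hp hq => rw [map_add, map_add, hp, hq, map_add, map_add]
  | mul_X p i hp => rw [map_mul, map_mul, hp, map_mul, map_mul, aeval_X, map_X, aeval_X]

theorem aeval_scale {σ A R : Type} [CommRing A] [CommRing R] [Algebra A R] {n : ℕ}
    {G : MvPolynomial σ A} (hG : G.IsHomogeneous n) (t : R) (x : σ → R) :
    aeval (fun i => t * x i) G = t ^ n * aeval x G := by
  rw [aeval_def, aeval_def, eval₂_eq, eval₂_eq, Finset.mul_sum]
  refine Finset.sum_congr rfl fun d hd => ?_
  have h1 : d.degree = n := by
    by_contra hne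
    exact (mem_support_iff.1 hd) (hG.coeff_eq_zero hne)
  have h2 : ∏ i ∈ d.support, (t * x i) ^ d i = t ^ n * ∏ i ∈ d.support, x i ^ d i := by
    simp_rw [mul_pow]
    rw [Finset.prod_mul_distrib, Finset.prod_pow_eq_pow_sum, ← h1]
    rfl
  rw [h2]
  ring

/-- the point `(1, Y)` over any ring -/
def yw (R : Type) [CommRing R] (m : ℕ) : Fin (m + 1) → MvPolynomial (Fin m) R := Fin.cons 1 X

theorem map_yw {R S : Type} [CommRing R] [CommRing S] (θ : R →+* S) (m : ℕ) (j : Fin (m + 1)) :
    map θ (yw R m j) = yw S m j := by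
  unfold yw
  refine Fin.cases ?_ (fun j => ?_) j <;> simp

theorem append_mapS {A B : Type} {a b : ℕ} (θ : A → B) (u : Fin a → A) (v : Fin b → A) :
    (fun i => θ (Fin.append u v i)) = Fin.append (fun i => θ (u i)) (fun j => θ (v j)) := by
  funext i
  refine Fin.addCases (fun i => ?_) (fun j => ?_) i <;> simp

theorem vanW_aevalS {K R : Type} [Field K] [CommRing R] [Algebra K R]
    {F : MvPolynomial (Fin (k + 1 + (m + 1))) K} (hF : VanW F) (u : Fin (k + 1) → R) :
    aeval (Fin.append u (0 : Fin (m + 1) → R)) F = 0 := by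
  have h1 := congrArg (aeval u : MvPolynomial (Fin (k + 1)) K → R) hF
  rw [map_zero, comp_aeval_apply, append_mapS] at h1
  have e1 : (fun i => aeval u (X i : MvPolynomial (Fin (k + 1)) K)) = u := by
    funext i; rw [aeval_X]
  have e2 : (fun j => aeval u ((0 : Fin (m + 1) → MvPolynomial (Fin (k + 1)) K) j)) =
      (0 : Fin (m + 1) → R) := by
    funext j; simp
  rw [e1, e2] at h1
  exact h1

theorem yv_eq_yw (K : Type) [Field K] (m : ℕ) : yv K m = yw K m := rfl

theorem sum_append {R : Type} [CommRing R] (y : Fin (m + 1) → R)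
    (G : Fin (k + 1 + (m + 1)) → R) :
    ∑ i, Fin.append (0 : Fin (k + 1) → R) y i * G i = ∑ j, y j * G (Fin.natAdd (k + 1) j) := by
  rw [Fin.sum_univ_add]
  simp

theorem spec : S_SPEC := by
  classical
  intro k m K _ _ F hF hW hind hiso F0 hF0 hW0
  obtain ⟨V, ψ, hψ, hψ0⟩ := exists_place (fun β : MonY k m => coeff β.1 F) hind
    (fun β => coeff β.1 F0)
  let κ := IsLocalRing.ResidueField V
  let r : V →+* κ := IsLocalRing.residue V
  let _ : Algebra ℚ κ := (r.comp (ψ.comp C)).toAlgebra
  refine ⟨κ, inferInstance, inferInstance, ?_⟩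
  have hex : ∀ β, ∃ v : V, (v : K) = coeff β F ∧ r v = algebraMap ℚ κ (coeff β F0) := by
    intro β
    by_cases h3 : β.degree = 3
    · by_cases hy : ∃ j, β (Fin.natAdd (k + 1) j) ≠ 0
      · refine ⟨ψ (X ⟨β, h3, hy⟩), ?_, ?_⟩
        · rw [hψ, aeval_X]
        · have h1 := hψ0 (X ⟨β, h3, hy⟩)
          rw [eval_X] at h1
          exact h1
      · push Not at hy
        refine ⟨0, ?_, ?_⟩
        · rw [vanW_coeff hW hy]; rfl
        · rw [vanW_coeff hW0 hy, map_zero, map_zero]
    · refine ⟨0, ?_, ?_⟩
      · rw [hF.coeff_eq_zero h3]; rfl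
      · rw [hF0.coeff_eq_zero h3, map_zero, map_zero]
  obtain ⟨FV, hFV⟩ : ∃ FV : MvPolynomial (Fin (k + 1 + (m + 1))) V, map V.subtype FV = F := by
    have h1 : F ∈ Set.range (MvPolynomial.map V.subtype) := by
      rw [mem_range_map_iff_coeffs_subset]
      intro c hc
      rw [Finset.mem_coe, mem_coeffs_iff] at hc
      obtain ⟨β, -, rfl⟩ := hc
      obtain ⟨v, hv, -⟩ := hex β
      exact ⟨v, hv⟩
    exact h1
  have hFr : map r FV = map (algebraMap ℚ κ) F0 := by
    ext β
    rw [coeff_map, coeff_map]
    obtain ⟨v, hv, hv2⟩ := hex β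
    have h1 : coeff β FV = v := by
      apply Subtype.ext
      rw [hv, ← hFV, coeff_map]
      rfl
    rw [h1, hv2]
  rw [← hFr]
  have hinj : Function.Injective (map V.subtype : MvPolynomial (Fin m) V → MvPolynomial (Fin m) K) :=
    map_injective _ Subtype.val_injective
  have hu0 : ∀ c' : Fin (k + 1) → MvPolynomial (Fin m) V,
      aeval (Fin.append c' (0 : Fin (m + 1) → MvPolynomial (Fin m) V)) FV = 0 := by
    intro c'
    apply hinj
    rw [map_zero, map_aeval', hFV, append_mapS]
    have e : (fun j => map V.subtype ((0 : Fin (m + 1) → MvPolynomial (Fin m) V) j)) =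
        (0 : Fin (m + 1) → MvPolynomial (Fin m) K) := by
      funext j; simp
    rw [e]
    exact vanW_aevalS hW _
  have hder : ∀ (θ : V →+* κ) (c' : Fin (k + 1) → MvPolynomial (Fin m) V) (i : Fin (k + 1 + (m + 1))),
      map θ (aeval (Fin.append c' (0 : Fin (m + 1) → MvPolynomial (Fin m) V)) (pderiv i FV)) =
        aeval (Fin.append (fun i => map θ (c' i)) (0 : Fin (m + 1) → MvPolynomial (Fin m) κ))
          (pderiv i (map θ FV)) := by
    intro θ c' i
    have e : (fun j => map θ ((0 : Fin (m + 1) → MvPolynomial (Fin m) V) j)) =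
        (0 : Fin (m + 1) → MvPolynomial (Fin m) κ) := by
      funext j; simp
    rw [map_aeval', append_mapS, pderiv_map, e]
  have hderK : ∀ (c' : Fin (k + 1) → MvPolynomial (Fin m) V) (i : Fin (k + 1 + (m + 1))),
      map V.subtype (aeval (Fin.append c' (0 : Fin (m + 1) → MvPolynomial (Fin m) V)) (pderiv i FV)) =
        aeval (Fin.append (fun i => map V.subtype (c' i)) (0 : Fin (m + 1) → MvPolynomial (Fin m) K))
          (pderiv i F) := by
    intro c' i
    have e : (fun j => map V.subtype ((0 : Fin (m + 1) → MvPolynomial (Fin m) V) j)) =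
        (0 : Fin (m + 1) → MvPolynomial (Fin m) K) := by
      funext j; simp
    rw [map_aeval', append_mapS, ← pderiv_map, hFV, e]
  -- reduction of the second alternative
  have hred : ∀ c' : Fin (k + 1) → MvPolynomial (Fin m) V, ∀ T : MvPolynomial (Fin m) V, map r T = 0 →
      ∑ j, yw V m j * aeval (Fin.append c' (0 : Fin (m + 1) → MvPolynomial (Fin m) V))
        (pderiv (Fin.natAdd (k + 1) j) FV) + T = 0 →
      ∑ j, yv κ m j * aeval (Fin.append (fun i => map r (c' i)) 0)
        (pderiv (Fin.natAdd (k + 1) j) (map r FV)) = 0 := by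
    intro c' T hT h1
    have h2 := congrArg (map r) h1
    rw [map_zero, map_add, hT, add_zero, map_sum] at h2
    rw [← h2]
    refine Finset.sum_congr rfl fun j _ => ?_
    rw [map_mul, map_yw, hder, yv_eq_yw]
  obtain ⟨c, l, hcl⟩ := hiso
  rcases hcl with ⟨hl, hz⟩ | ⟨hc, hz⟩
  · -- first alternative
    obtain ⟨s, g', hs0, hg', i0, hi0⟩ := exists_scale V
      (fun o : Option (Fin (k + 1)) => o.elim l c) ⟨none, hl⟩
    obtain ⟨l', hl'⟩ : ∃ l', l' = g' none := ⟨_, rfl⟩
    obtain ⟨c', hc'⟩ : ∃ c' : Fin (k + 1) → MvPolynomial (Fin m) V, c' = fun i => g' (some i) := ⟨_, rfl⟩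
    have hls : l = C s * map V.subtype l' := by rw [hl']; exact hg' none
    have hcs : ∀ i, c i = C s * map V.subtype (c' i) := by intro i; rw [hc']; exact hg' (some i)
    have hCs : (C s : MvPolynomial (Fin m) K) ≠ 0 := by rwa [Ne, C_eq_zero]
    have hA : aeval (Fin.append c' (fun j => l' * yw V m j)) FV = 0 := by
      apply hinj
      rw [map_zero, map_aeval', hFV, append_mapS]
      have e1 : (Fin.append c (fun j => l * yv K m j)) = fun i => C s *
          Fin.append (fun i => map V.subtype (c' i)) (fun j => map V.subtype (l' * yw V m j)) i := by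
        funext i
        refine Fin.addCases (fun i => ?_) (fun j => ?_) i
        · rw [Fin.append_left, Fin.append_left, hcs]
        · rw [Fin.append_right, Fin.append_right, hls, map_mul, map_yw, mul_assoc]
          rfl
      rw [e1, aeval_scale hF] at hz
      exact (mul_eq_zero.1 hz).resolve_left (pow_ne_zero 3 hCs)
    refine ⟨fun i => map r (c' i), map r l', ?_⟩
    by_cases hlb : map r l' = 0
    · right
      constructor
      · intro h0
        rcases i0 with _ | i
        · rw [← hl'] at hi0
          exact hi0 hlb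
        · apply hi0
          have := congrFun h0 i
          rw [hc'] at this
          exact this
      · obtain ⟨T, hT⟩ := taylor2 FV (Fin.append c' (0 : Fin (m + 1) → MvPolynomial (Fin m) V))
          (Fin.append (0 : Fin (k + 1) → MvPolynomial (Fin m) V) (yw V m)) l'
        have e1 : (fun i => Fin.append c' (0 : Fin (m + 1) → MvPolynomial (Fin m) V) i +
            l' * Fin.append (0 : Fin (k + 1) → MvPolynomial (Fin m) V) (yw V m) i) =
            Fin.append c' (fun j => l' * yw V m j) := by
          funext i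
          refine Fin.addCases (fun i => ?_) (fun j => ?_) i <;> simp
        rw [e1, hA, hu0, zero_add, sum_append] at hT
        have hl'0 : l' ≠ 0 := by
          intro h0
          apply hl
          rw [hls, h0, map_zero, mul_zero]
        have h2 : l' * (∑ j, yw V m j * aeval (Fin.append c' (0 : Fin (m + 1) → MvPolynomial (Fin m) V))
            (pderiv (Fin.natAdd (k + 1) j) FV) + l' * T) = 0 := by
          rw [hT]
          ring
        have h3 := (mul_eq_zero.1 h2).resolve_left hl'0
        exact hred c' (l' * T) (by rw [map_mul, hlb, zero_mul]) h3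
    · left
      refine ⟨hlb, ?_⟩
      have h2 := congrArg (map r) hA
      have e2 : (fun j => map r (l' * yw V m j)) = fun j => map r l' * yv κ m j := by
        funext j
        rw [map_mul, map_yw]
        rfl
      rw [map_zero, map_aeval', append_mapS, e2] at h2
      exact h2
  · -- second alternative
    obtain ⟨s, c', hs0, hg', i0, hi0⟩ := exists_scale V c (by
      by_contra hcon
      push Not at hcon
      exact hc (funext hcon))
    have hCs : (C s : MvPolynomial (Fin m) K) ≠ 0 := by rwa [Ne, C_eq_zero]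
    refine ⟨fun i => map r (c' i), 0, Or.inr ⟨?_, ?_⟩⟩
    · intro h0
      exact hi0 (congrFun h0 i0)
    · apply hred c' 0 (map_zero _)
      rw [add_zero]
      apply hinj
      rw [map_zero, map_sum]
      have e1 : (Fin.append c (0 : Fin (m + 1) → MvPolynomial (Fin m) K)) = fun i => C s *
          Fin.append (fun i => map V.subtype (c' i)) (0 : Fin (m + 1) → MvPolynomial (Fin m) K) i := by
        funext i
        refine Fin.addCases (fun i => ?_) (fun j => ?_) i
        · rw [Fin.append_left, Fin.append_left, hg']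
        · simp
      have h2 : C s ^ 2 * ∑ j, map V.subtype (yw V m j *
          aeval (Fin.append c' (0 : Fin (m + 1) → MvPolynomial (Fin m) V))
            (pderiv (Fin.natAdd (k + 1) j) FV)) = 0 := by
        rw [← hz, Finset.mul_sum]
        refine Finset.sum_congr rfl fun j _ => ?_
        rw [map_mul, map_yw, hderK, e1, aeval_scale (hF.pderiv)]
        rw [yv_eq_yw]
        ring
      exact (mul_eq_zero.1 h2).resolve_left (pow_ne_zero 2 hCs)

end

end Pool.Agent.R845.E3
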