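import Mathlib

/-! # Project E3: the matroid of algebraic independence over a field (auxiliary file) -/

set_option autoImplicit false

namespace Pool.Agent.R845.E3.Trd

open Set

section

variable (k K : Type) [Field k] [Field K] [Algebra k K]

/-- the transcendence degree of a subset -/
noncomputable def rk (S : Set K) : ℕ∞ := (AlgebraicIndependent.matroid k K).eRk S

theorem rk_mono {S T : Set K} (h : S ⊆ T) : rk k K S ≤ rk k K T :=
  (AlgebraicIndependent.matroid k K).eRk_mono h

theorem adjoin_subset_closure (T : Set K) :
    (IntermediateField.adjoin k T : Set K) ⊆ (AlgebraicIndependent.matroid k K).closure T := by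
  rw [AlgebraicIndependent.matroid_closure_eq]
  intro x hx
  have hx' : x ∈ IntermediateField.adjoin k T := hx
  rw [IntermediateField.mem_adjoin_iff_div] at hx'
  obtain ⟨r, hr, s, hs, rfl⟩ := hx'
  rw [SetLike.mem_coe, Subalgebra.mem_algebraicClosure]
  have h1 : IsAlgebraic (Algebra.adjoin k T) r := by
    have := isAlgebraic_algebraMap (R := Algebra.adjoin k T) (A := K) ⟨r, hr⟩
    simpa using this
  have h2 : IsAlgebraic (Algebra.adjoin k T) s := by
    have := isAlgebraic_algebraMap (R := Algebra.adjoin k T) (A := K) ⟨s, hs⟩
    simpa using this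
  rw [div_eq_mul_inv]
  exact h1.mul h2.inv

theorem rk_le_of_subset_adjoin {S T : Set K} (h : S ⊆ (IntermediateField.adjoin k T : Set K)) :
    rk k K S ≤ rk k K T := by
  rw [rk, rk, ← (AlgebraicIndependent.matroid k K).eRk_closure_eq T]
  exact (AlgebraicIndependent.matroid k K).eRk_mono (h.trans (adjoin_subset_closure k K T))

theorem rk_union_le (S T : Set K) : rk k K (S ∪ T) ≤ rk k K S + T.encard :=
  (AlgebraicIndependent.matroid k K).eRk_union_le_eRk_add_encard S T

theorem rk_le_encard (S : Set K) : rk k K S ≤ S.encard :=
  (AlgebraicIndependent.matroid k K).eRk_le_encard S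

omit [Field K] in
theorem encard_range_le {ι : Type} (x : ι → K) : (range x).encard ≤ ENat.card ι := by
  rw [← image_univ, ← Set.encard_univ]
  exact Set.encard_image_le x univ

variable {k K}

theorem rk_range {ι : Type} {x : ι → K} (hx : AlgebraicIndependent k x) :
    rk k K (range x) = ENat.card ι := by
  have h1 : (AlgebraicIndependent.matroid k K).Indep (range x) := by
    rw [AlgebraicIndependent.matroid_indep_iff]
    exact hx.to_subtype_range
  rw [rk, h1.eRk_eq_encard]
  exact le_antisymm (encard_range_le K x) hx.injective.encard_range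

theorem rk_range_le {ι : Type} (x : ι → K) : rk k K (range x) ≤ ENat.card ι :=
  (rk_le_encard k K _).trans (encard_range_le K x)

theorem indep_of_le {ι : Type} [Finite ι] {x : ι → K} (h : ENat.card ι ≤ rk k K (range x)) :
    AlgebraicIndependent k x := by
  have h1 : (range x).encard ≤ ENat.card ι := encard_range_le K x
  have h2 : rk k K (range x) ≤ (range x).encard := rk_le_encard k K _
  have hfin : (range x).Finite := finite_range x
  have h3 : (AlgebraicIndependent.matroid k K).Indep (range x) := by
    rw [Matroid.indep_iff_eRk_eq_encard_of_finite hfin]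
    exact le_antisymm h2 (h1.trans h)
  have h4 : (range x).encard = ENat.card ι := le_antisymm h1 (h.trans h2)
  have h5 : Function.Injective x := by
    have : InjOn x univ := by
      refine Set.Finite.injOn_of_encard_image_eq finite_univ ?_
      rw [image_univ, h4, Set.encard_univ]
    exact injOn_univ.mp this
  rw [AlgebraicIndependent.matroid_indep_iff] at h3
  exact AlgebraicIndependent.of_subtype_range h5 h3

theorem exists_finset {ι : Type} [Finite ι] (x : ι → K) :
    ∃ Θ : Finset ι, (Θ.card : ℕ∞) = rk k K (range x) ∧
      AlgebraicIndependent k (fun τ : Θ => x τ.1) := by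
  classical
  obtain ⟨I, hI⟩ := (AlgebraicIndependent.matroid k K).exists_isBasis (range x)
  have hIsub : I ⊆ range x := hI.subset
  have hfin : I.Finite := (finite_range x).subset hIsub
  choose g hg using fun (i : I) => hIsub i.2
  have := hfin.fintype
  refine ⟨Finset.univ.image g, ?_, ?_⟩
  · have hginj : Function.Injective g := by
      intro a b hab
      apply Subtype.ext
      rw [← hg a, ← hg b, hab]
    rw [Finset.card_image_of_injective _ hginj, rk, hI.eRk_eq_encard, Finset.card_univ,
      ← ENat.card_eq_coe_fintype_card, ENat.card_coe_set_eq]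
  · have h1 : AlgebraicIndependent k ((↑) : I → K) := hI.indep
    have h2 : ∀ τ : ((Finset.univ.image g : Finset ι) : Type), x τ.1 ∈ I := by
      intro τ
      obtain ⟨i, -, hi⟩ := Finset.mem_image.mp τ.2
      rw [← hi, hg i]
      exact i.2
    have h3 := h1.comp (fun τ : ((Finset.univ.image g : Finset ι) : Type) => (⟨x τ.1, h2 τ⟩ : I)) (by
      intro a b hab
      obtain ⟨i, -, hi⟩ := Finset.mem_image.mp a.2
      obtain ⟨j, -, hj⟩ := Finset.mem_image.mp b.2
      have h4 : x a.1 = x b.1 := by simpa using hab
      rw [← hi, ← hj, hg i, hg j] at h4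
      apply Subtype.ext
      rw [← hi, ← hj, Subtype.ext h4])
    exact h3

end

end Pool.Agent.R845.E3.Trd
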