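import Mathlib
import Pool.Agent.R845.E3.Stm
import Pool.Agent.R845.E3.TrdAux

/-! # Project E3: counting transcendence degrees (job TRDA) -/

set_option autoImplicit false

namespace Pool.Agent.R845.E3

open Set Trd MvPolynomial

section

variable {k m : ℕ} {K L : Type} [Field K] [Field L]

theorem shear_map' (φ : K →+* L) (U : Fin (k + 1) → Fin (m + 1) → K)
    (F : MvPolynomial (Fin (k + 1 + (m + 1))) K) :
    map φ (shear U F) = shear (fun i j => φ (U i j)) (map φ F) := by
  unfold shear
  rw [aeval_eq_bind₁, aeval_eq_bind₁, map_bind₁]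
  congr 2
  funext i
  refine Fin.addCases (fun i => ?_) (fun j => ?_) i
  · simp only [Fin.append_left, map_X]
  · simp only [Fin.append_right, map_add, map_X, map_sum, map_mul, map_C]

theorem shear_neg' (U : Fin (k + 1) → Fin (m + 1) → K)
    (F : MvPolynomial (Fin (k + 1 + (m + 1))) K) :
    shear (fun i j => - U i j) (shear U F) = F := by
  unfold shear
  rw [comp_aeval_apply]
  conv_rhs => rw [← aeval_X_left_apply F]
  congr 2
  funext i
  refine Fin.addCases (fun i => ?_) (fun j => ?_) i
  · simp only [Fin.append_left, aeval_X]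
  · simp only [Fin.append_right, map_add, aeval_X, map_sum, map_mul, algHom_C, Fin.append_left,
      map_neg, neg_mul, Finset.sum_neg_distrib, algebraMap_eq]
    ring

theorem coeff_append (F : MvPolynomial (Fin (k + 1 + (m + 1))) K)
    (β : Fin (k + 1 + (m + 1)) →₀ ℕ) (hβ : ∀ j, β (Fin.natAdd (k + 1) j) = 0) :
    coeff (Finsupp.comapDomain (Fin.castAdd (m + 1)) β (Fin.castAdd_injective _ _).injOn)
      (aeval (Fin.append (X : Fin (k + 1) → MvPolynomial (Fin (k + 1)) K) 0) F) = coeff β F := by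
  classical
  induction F using MvPolynomial.induction_on' with
  | monomial γ c =>
    rw [aeval_monomial, Finsupp.prod_fintype _ _ (fun i => pow_zero _), Fin.prod_univ_add]
    simp only [Fin.append_left, Fin.append_right, Pi.zero_apply, algebraMap_eq]
    by_cases hγ : ∀ j, γ (Fin.natAdd (k + 1) j) = 0
    · have h1 : ∏ j : Fin (m + 1), (0 : MvPolynomial (Fin (k + 1)) K) ^
          γ (Fin.natAdd (k + 1) j) = 1 := by
        refine Finset.prod_eq_one fun j _ => ?_
        rw [hγ j, pow_zero]
      rw [h1, mul_one]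
      have h2 : (C c : MvPolynomial (Fin (k + 1)) K) *
          ∏ i : Fin (k + 1), X i ^ γ (Fin.castAdd (m + 1) i) =
          monomial (Finsupp.comapDomain (Fin.castAdd (m + 1)) γ
            (Fin.castAdd_injective _ _).injOn) c := by
        rw [monomial_eq, Finsupp.prod_fintype _ _ (fun i => pow_zero _)]
        simp only [Finsupp.comapDomain_apply]
      rw [h2, coeff_monomial, coeff_monomial]
      have h3 : (Finsupp.comapDomain (Fin.castAdd (m + 1)) γ (Fin.castAdd_injective _ _).injOn =
          Finsupp.comapDomain (Fin.castAdd (m + 1)) β (Fin.castAdd_injective _ _).injOn) ↔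
          γ = β := by
        constructor
        · intro h
          ext i
          refine Fin.addCases (fun i => ?_) (fun j => ?_) i
          · have := DFunLike.congr_fun h i
            simpa only [Finsupp.comapDomain_apply] using this
          · rw [hγ j, hβ j]
        · rintro rfl
          rfl
      simp only [h3]
    · push Not at hγ
      obtain ⟨j, hj⟩ := hγ
      have h1 : ∏ j : Fin (m + 1), (0 : MvPolynomial (Fin (k + 1)) K) ^
          γ (Fin.natAdd (k + 1) j) = 0 :=
        Finset.prod_eq_zero (Finset.mem_univ j) (zero_pow hj)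
      rw [h1, mul_zero, mul_zero, coeff_zero, coeff_monomial, if_neg]
      rintro rfl
      exact hj (hβ j)
  | add p q hp hq => rw [map_add, coeff_add, coeff_add, hp, hq]

theorem coeff_eq_zero_of_vanW {F : MvPolynomial (Fin (k + 1 + (m + 1))) K} (hF : VanW F)
    (β : Fin (k + 1 + (m + 1)) →₀ ℕ) (hβ : ∀ j, β (Fin.natAdd (k + 1) j) = 0) :
    coeff β F = 0 := by
  rw [← coeff_append F β hβ, hF, coeff_zero]

end

/-- homogeneity is preserved by `shear` -/
theorem shear_isHomogeneous' {k m : ℕ} {K : Type} [Field K] (U : Fin (k + 1) → Fin (m + 1) → K)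
    {F : MvPolynomial (Fin (k + 1 + (m + 1))) K} {d : ℕ} (hF : F.IsHomogeneous d) :
    (shear U F).IsHomogeneous d := by
  unfold shear
  have h := hF.aeval (fun i => (Fin.append (fun i => X (Fin.castAdd (m + 1) i))
    (fun j => X (Fin.natAdd (k + 1) j) + ∑ i, C (U i j) * X (Fin.castAdd (m + 1) i)) :
      Fin (k + 1 + (m + 1)) → MvPolynomial (Fin (k + 1 + (m + 1))) K) i) (n := 1) (by
    intro i
    refine Fin.addCases (fun i => ?_) (fun j => ?_) i
    · simp only [Fin.append_left]
      exact isHomogeneous_X _ _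
    · simp only [Fin.append_right]
      refine (isHomogeneous_X _ _).add ?_
      refine IsHomogeneous.sum _ _ _ fun i _ => ?_
      have := (isHomogeneous_C (Fin (k + 1 + (m + 1))) (U i j)).mul
        (isHomogeneous_X K (Fin.castAdd (m + 1) i : Fin (k + 1 + (m + 1))))
      simpa using this)
  simpa using h

theorem card_degree (k : ℕ) : Nat.card {γ : Fin (k + 1) →₀ ℕ // γ.degree = 3} =
    (k + 3).choose 3 := by
  classical
  have h : Nat.card {γ : Fin (k + 1) →₀ ℕ // γ.degree = 3} = Nat.card (Sym (Fin (k + 1)) 3) :=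
    Nat.card_congr (((Equiv.refl _).subtypeEquiv fun γ => by
      simp [Finsupp.degree_apply, Finsupp.sum]).trans (Sym.equivNatSum (Fin (k + 1)) 3).symm)
  rw [h, Nat.card_eq_fintype_card, Sym.card_sym_eq_choose, Fintype.card_fin]
  rfl

theorem finite_degree (n d : ℕ) : Finite {γ : Fin n →₀ ℕ // γ.degree = d} := by
  classical
  exact Finite.of_equiv _ (((Equiv.refl _).subtypeEquiv fun γ => by
      simp [Finsupp.degree_apply, Finsupp.sum]).trans (Sym.equivNatSum (Fin n) d).symm).symm

instance (k m : ℕ) : Finite (MonY k m) := by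
  have := finite_degree (k + 1 + (m + 1)) 3
  exact Finite.of_injective (fun β : MonY k m =>
    (⟨β.1, β.2.1⟩ : {γ : Fin (k + 1 + (m + 1)) →₀ ℕ // γ.degree = 3})) (by
      intro a b hab
      exact Subtype.ext (by simpa using hab))

theorem card_monY (k m : ℕ) : Nat.card (MonY k m) + (k + 3).choose 3 ≤
    Nat.card {γ : Fin (k + 1 + (m + 1)) →₀ ℕ // γ.degree = 3} := by
  classical
  have := finite_degree (k + 1 + (m + 1)) 3
  have := finite_degree (k + 1) 3
  rw [← card_degree k, ← Nat.card_sum]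
  refine Nat.card_le_card_of_injective (Sum.elim
    (fun β : MonY k m => (⟨β.1, β.2.1⟩ : {γ : Fin (k + 1 + (m + 1)) →₀ ℕ // γ.degree = 3}))
    (fun γ : {γ : Fin (k + 1) →₀ ℕ // γ.degree = 3} => ⟨γ.1.mapDomain (Fin.castAdd (m + 1)), by
      rw [Finsupp.degree_mapDomain]; exact γ.2⟩)) ?_
  have hv : ∀ (γ : Fin (k + 1) →₀ ℕ) (j : Fin (m + 1)),
      γ.mapDomain (Fin.castAdd (m + 1)) (Fin.natAdd (k + 1) j) = 0 := by
    intro γ j
    refine Finsupp.mapDomain_of_notMem_range _ _ ?_
    rintro ⟨i, hi⟩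
    have := congrArg Fin.val hi
    simp at this
    omega
  rintro (a | a) (b | b) hab
  · simp only [Sum.elim_inl, Subtype.mk.injEq] at hab
    exact congrArg Sum.inl (Subtype.ext hab)
  · simp only [Sum.elim_inl, Sum.elim_inr, Subtype.mk.injEq] at hab
    obtain ⟨j, hj⟩ := a.2.2
    exact absurd (by rw [hab]; exact hv _ _) hj
  · simp only [Sum.elim_inl, Sum.elim_inr, Subtype.mk.injEq] at hab
    obtain ⟨j, hj⟩ := b.2.2
    exact absurd (by rw [← hab]; exact hv _ _) hj
  · simp only [Sum.elim_inr, Subtype.mk.injEq] at hab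
    exact congrArg Sum.inr (Subtype.ext (Finsupp.mapDomain_injective
      (Fin.castAdd_injective _ _) hab))

theorem trda : Pool.Agent.R845.E3.S_TRDA := by
  classical
  intro k m F hF hind K _ _ _ U Θ hΘ hle hvan
  set FK := map (algebraMap ℂ K) F with hFK
  set F' := shear U FK with hF'
  have hFKh : FK.IsHomogeneous 3 := hF.map _
  have hF'h : F'.IsHomogeneous 3 := shear_isHomogeneous' U hFKh
  have hfin3 := finite_degree (k + 1 + (m + 1)) 3
  -- the independent family
  have hind2 : AlgebraicIndependent ℚ (Sum.elim (fun τ : Θ => U τ.1.1 τ.1.2)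
      (algebraMap ℂ K ∘ fun β : {β : Fin (k + 1 + (m + 1)) →₀ ℕ // β.degree = 3} =>
        coeff β.1 F)) := hind.sumElim_comp hΘ
  have hcard := rk_range hind2
  set f' : MonY k m → K := fun β => coeff β.1 F' with hf'
  set T : Set K := range (fun q : Fin (k + 1) × Fin (m + 1) => U q.1 q.2) with hT
  set L0 := IntermediateField.adjoin ℚ (range f' ∪ T) with hL0
  have hUm : ∀ i j, U i j ∈ L0 := fun i j =>
    IntermediateField.subset_adjoin ℚ _ (Or.inr ⟨(i, j), rfl⟩)
  have hF'c : ∀ β, coeff β F' ∈ L0 := by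
    intro β
    by_cases h1 : β.degree = 3
    · by_cases h2 : ∀ j, β (Fin.natAdd (k + 1) j) = 0
      · rw [coeff_eq_zero_of_vanW hvan β h2]
        exact zero_mem _
      · push Not at h2
        exact IntermediateField.subset_adjoin ℚ _ (Or.inl ⟨⟨β, h1, h2⟩, rfl⟩)
    · rw [hF'h.coeff_eq_zero h1]
      exact zero_mem _
  obtain ⟨F'', hF''⟩ : F' ∈ Set.range (MvPolynomial.map (algebraMap L0 K)) := by
    rw [mem_range_map_iff_coeffs_subset]
    intro c hc
    obtain ⟨β, -, rfl⟩ := mem_coeffs_iff.mp hc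
    exact ⟨⟨_, hF'c β⟩, rfl⟩
  have hFKc : ∀ β, coeff β FK ∈ L0 := by
    intro β
    have h1 : FK = map (algebraMap L0 K)
        (shear (fun i j => (⟨-U i j, neg_mem (hUm i j)⟩ : L0)) F'') := by
      rw [shear_map', hF'', hF']
      exact (shear_neg' U FK).symm
    rw [h1, coeff_map]
    exact (coeff β _ : L0).2
  have hsub : range (Sum.elim (fun τ : Θ => U τ.1.1 τ.1.2)
      (algebraMap ℂ K ∘ fun β : {β : Fin (k + 1 + (m + 1)) →₀ ℕ // β.degree = 3} =>
        coeff β.1 F)) ⊆ (L0 : Set K) := by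
    rintro _ ⟨(τ | β), rfl⟩
    · exact hUm _ _
    · have := hFKc β.1
      rw [hFK, coeff_map] at this
      exact this
  have h1 := (rk_le_of_subset_adjoin ℚ K hsub).trans (rk_union_le ℚ K (range f') T)
  rw [hcard] at h1
  have hTc : T.encard ≤ ENat.card (Fin (k + 1) × Fin (m + 1)) := encard_range_le K _
  have h2 := rk_range_le (k := ℚ) f'
  have h3 := h1.trans (add_le_add_right hTc _)
  have hmon := card_monY k m
  have e1 : ENat.card (Θ ⊕ {β : Fin (k + 1 + (m + 1)) →₀ ℕ // β.degree = 3}) =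
      ((Θ.card + Nat.card {β : Fin (k + 1 + (m + 1)) →₀ ℕ // β.degree = 3} : ℕ) : ℕ∞) := by
    rw [ENat.card_eq_coe_natCard, Nat.card_sum]
    simp
  have e2 : ENat.card (Fin (k + 1) × Fin (m + 1)) = (((k + 1) * (m + 1) : ℕ) : ℕ∞) := by
    rw [ENat.card_eq_coe_natCard]
    simp
  have e3 : ENat.card (MonY k m) = ((Nat.card (MonY k m) : ℕ) : ℕ∞) :=
    ENat.card_eq_coe_natCard _
  rw [e3] at h2
  obtain ⟨r, hr⟩ : ∃ r : ℕ, rk ℚ K (range f') = (r : ℕ∞) := by
    obtain ⟨r, hr, -⟩ := ENat.le_natCast_iff.mp h2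
    exact ⟨r, hr⟩
  rw [hr] at h2
  rw [e1, e2, hr] at h3
  have h2' : r ≤ Nat.card (MonY k m) := by exact_mod_cast h2
  have h3' : Θ.card + Nat.card {β : Fin (k + 1 + (m + 1)) →₀ ℕ // β.degree = 3} ≤
      r + (k + 1) * (m + 1) := by exact_mod_cast h3
  refine ⟨by omega, ?_⟩
  have h4 : ENat.card (MonY k m) ≤ rk ℚ K (range f') := by
    rw [e3, hr]
    have : Nat.card (MonY k m) ≤ r := by omega
    exact_mod_cast this
  exact indep_of_le h4

end Pool.Agent.R845.E3
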