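import Mathlib
import Pool.Agent.R845.E3.Stm

/-! # Job DESC of project E3: descent to the complex numbers -/

set_option autoImplicit false

namespace Pool.Agent.R845.E3

open MvPolynomial

noncomputable section

/-- a finitely generated nontrivial algebra over `ℂ` has a complex point -/
theorem exists_point (A : Type) [CommRing A] [Nontrivial A] [Algebra ℂ A]
    [Algebra.FiniteType ℂ A] : Nonempty (A →ₐ[ℂ] ℂ) := by
  obtain ⟨M, hM⟩ := Ideal.exists_maximal A
  let _ : Field (A ⧸ M) := Ideal.Quotient.field M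
  have : Algebra.FiniteType ℂ (A ⧸ M) :=
    Algebra.FiniteType.of_surjective (Ideal.Quotient.mkₐ ℂ M) Ideal.Quotient.mk_surjective
  have : Module.Finite ℂ (A ⧸ M) := finite_of_finite_type_of_isJacobsonRing ℂ (A ⧸ M)
  have hb : Function.Bijective (algebraMap ℂ (A ⧸ M)) :=
    IsAlgClosed.algebraMap_bijective_of_isIntegral
  let e : ℂ ≃ₐ[ℂ] (A ⧸ M) := AlgEquiv.ofBijective (Algebra.ofId ℂ (A ⧸ M)) hb
  exact ⟨(e.symm : (A ⧸ M) →ₐ[ℂ] ℂ).comp (Ideal.Quotient.mkₐ ℂ M)⟩

/-- the two expressions in the definition of `Iso`, over an arbitrary `ℂ`-algebra -/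
def eq1 {k m : ℕ} {A : Type} [CommRing A] [Algebra ℂ A]
    (F : MvPolynomial (Fin (k + 1 + (m + 1))) ℂ) (c : Fin (k + 1) → MvPolynomial (Fin m) A)
    (l : MvPolynomial (Fin m) A) : MvPolynomial (Fin m) A :=
  aeval (Fin.append c (fun j => l * (Fin.cons 1 X : Fin (m + 1) → MvPolynomial (Fin m) A) j)) F

/-- the second expression -/
def eq2 {k m : ℕ} {A : Type} [CommRing A] [Algebra ℂ A]
    (F : MvPolynomial (Fin (k + 1 + (m + 1))) ℂ) (c : Fin (k + 1) → MvPolynomial (Fin m) A) :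
    MvPolynomial (Fin m) A :=
  ∑ j, (Fin.cons 1 X : Fin (m + 1) → MvPolynomial (Fin m) A) j *
    aeval (Fin.append c 0) (pderiv (Fin.natAdd (k + 1) j) F)

theorem append_map {k m : ℕ} {α β : Type} (f : α → β) (u : Fin k → α) (v : Fin m → α) :
    (fun i => f (Fin.append u v i)) = Fin.append (fun i => f (u i)) (fun i => f (v i)) := by
  funext i
  refine Fin.addCases (fun i => ?_) (fun i => ?_) i <;> simp

theorem eq1_map {k m : ℕ} {A B : Type} [CommRing A] [Algebra ℂ A] [CommRing B] [Algebra ℂ B]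
    (f : A →ₐ[ℂ] B)
    (F : MvPolynomial (Fin (k + 1 + (m + 1))) ℂ) (c : Fin (k + 1) → MvPolynomial (Fin m) A)
    (l : MvPolynomial (Fin m) A) :
    map (f : A →+* B) (eq1 F c l) =
      eq1 F (fun i => map (f : A →+* B) (c i)) (map (f : A →+* B) l) := by
  have h := comp_aeval_apply (R := ℂ)
    (f := Fin.append c (fun j => l * (Fin.cons 1 X : Fin (m + 1) → MvPolynomial (Fin m) A) j))
    (mapAlgHom (σ := Fin m) f) F
  rw [mapAlgHom_apply] at h
  unfold eq1
  rw [h]
  congr 2
  rw [append_map]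
  congr 1
  funext j
  rw [mapAlgHom_apply, map_mul]
  refine Fin.cases ?_ (fun j => ?_) j <;> simp

theorem eq2_map {k m : ℕ} {A B : Type} [CommRing A] [Algebra ℂ A] [CommRing B] [Algebra ℂ B]
    (f : A →ₐ[ℂ] B)
    (F : MvPolynomial (Fin (k + 1 + (m + 1))) ℂ) (c : Fin (k + 1) → MvPolynomial (Fin m) A) :
    map (f : A →+* B) (eq2 F c) = eq2 F (fun i => map (f : A →+* B) (c i)) := by
  unfold eq2
  rw [map_sum]
  refine Finset.sum_congr rfl fun j _ => ?_
  rw [map_mul]
  congr 1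
  · refine Fin.cases ?_ (fun j => ?_) j <;> simp
  · have h := comp_aeval_apply (R := ℂ)
      (f := Fin.append c (0 : Fin (m + 1) → MvPolynomial (Fin m) A))
      (mapAlgHom (σ := Fin m) f) (pderiv (Fin.natAdd (k + 1) j) F)
    rw [mapAlgHom_apply] at h
    rw [h]
    congr 2
    rw [append_map]
    congr 1
    funext i
    simp

theorem iso_iff {k m : ℕ} {K : Type} [Field K] [Algebra ℂ K]
    (F : MvPolynomial (Fin (k + 1 + (m + 1))) ℂ) :
    Iso (map (algebraMap ℂ K) F) ↔
      ∃ (c : Fin (k + 1) → MvPolynomial (Fin m) K) (l : MvPolynomial (Fin m) K),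
        (l ≠ 0 ∧ eq1 F c l = 0) ∨ (c ≠ 0 ∧ eq2 F c = 0) := by
  unfold Iso eq1 eq2 yv
  simp only [aeval_map_algebraMap, pderiv_map]

theorem desc : S_DESC := by
  intro k m F K _ _ hK
  rw [iso_iff] at hK
  obtain ⟨c, l, hcl⟩ := hK
  classical
  -- a nonzero coefficient
  obtain ⟨g0, hg0, hg⟩ : ∃ g0 : K, g0 ≠ 0 ∧
      ((l ≠ 0 ∧ eq1 F c l = 0 ∧ ∃ α, coeff α l = g0) ∨
        (eq2 F c = 0 ∧ ∃ i α, coeff α (c i) = g0)) := by
    rcases hcl with ⟨h1, h2⟩ | ⟨h1, h2⟩
    · obtain ⟨α, hα⟩ := MvPolynomial.ne_zero_iff.1 h1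
      exact ⟨_, hα, Or.inl ⟨h1, h2, α, rfl⟩⟩
    · obtain ⟨i, hi⟩ := Function.ne_iff.1 h1
      obtain ⟨α, hα⟩ := MvPolynomial.ne_zero_iff.1 hi
      exact ⟨_, hα, Or.inr ⟨h2, i, α, rfl⟩⟩
  -- the finitely generated algebra
  let S : Finset K := (l.coeffs ∪ Finset.univ.biUnion fun i => (c i).coeffs) ∪ {g0⁻¹}
  let A : Subalgebra ℂ K := Algebra.adjoin ℂ (S : Set K)
  have : Algebra.FiniteType ℂ A := by
    rw [← Subalgebra.fg_iff_finiteType]
    exact ⟨S, rfl⟩
  have hS : ∀ x ∈ S, x ∈ A := fun x hx => Algebra.subset_adjoin hx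
  obtain ⟨l', hl'⟩ : ∃ l' : MvPolynomial (Fin m) A, map (A.val : A →+* K) l' = l := by
    have : l ∈ Set.range (map (A.val : A →+* K)) := by
      rw [mem_range_map_iff_coeffs_subset]
      intro x hx
      exact ⟨⟨x, hS x (Finset.mem_union_left _ (Finset.mem_union_left _ hx))⟩, rfl⟩
    exact this
  have hc' : ∀ i, ∃ c' : MvPolynomial (Fin m) A, map (A.val : A →+* K) c' = c i := by
    intro i
    have : c i ∈ Set.range (map (A.val : A →+* K)) := by
      rw [mem_range_map_iff_coeffs_subset]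
      intro x hx
      exact ⟨⟨x, hS x (Finset.mem_union_left _ (Finset.mem_union_right _
        (Finset.mem_biUnion.2 ⟨i, Finset.mem_univ i, hx⟩)))⟩, rfl⟩
    exact this
  choose c' hc' using hc'
  have hinj : Function.Injective (map (σ := Fin m) (A.val : A →+* K)) :=
    map_injective _ Subtype.val_injective
  obtain ⟨φ⟩ := exists_point A
  have hgi : g0⁻¹ ∈ A := hS _ (by simp [S])
  have hφ : ∀ x : A, (x : K) = g0 → φ x ≠ 0 := by
    intro x hx h0
    have : x * ⟨g0⁻¹, hgi⟩ = 1 := by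
      apply Subtype.ext
      simp [hx, hg0]
    have := congrArg φ this
    rw [map_mul, h0, zero_mul, map_one] at this
    exact zero_ne_one this
  have hmapl : map (A.val : A →+* K) l' = l := hl'
  have hmapc : (fun i => map (A.val : A →+* K) (c' i)) = c := funext hc'
  have hF : F = map (algebraMap ℂ ℂ) F := by
    rw [Algebra.algebraMap_self, map_id]
  rw [hF, iso_iff]
  refine ⟨fun i => map (φ : A →+* ℂ) (c' i), map (φ : A →+* ℂ) l', ?_⟩
  rcases hg with ⟨_, h2, α, hα⟩ | ⟨h2, i, α, hα⟩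
  · left
    constructor
    · intro h0
      have h1 : coeff α (map (φ : A →+* ℂ) l') = 0 := by rw [h0]; simp
      rw [coeff_map] at h1
      refine hφ (coeff α l') ?_ h1
      rw [← hα, ← hl', coeff_map]
      rfl
    · rw [← eq1_map]
      have : eq1 F c' l' = 0 := by
        apply hinj
        rw [eq1_map, map_zero, hmapc, hmapl, h2]
      rw [this, map_zero]
  · right
    constructor
    · intro h0
      have h1 : coeff α (map (φ : A →+* ℂ) (c' i)) = 0 := by
        have := congrFun h0 i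
        simp only [Pi.zero_apply] at this
        rw [this]; simp
      rw [coeff_map] at h1
      refine hφ (coeff α (c' i)) ?_ h1
      rw [← hα, ← hc' i, coeff_map]
      rfl
    · rw [← eq2_map]
      have : eq2 F c' = 0 := by
        apply hinj
        rw [eq2_map, map_zero, hmapc, h2]
      rw [this, map_zero]

end

end Pool.Agent.R845.E3
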