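import Mathlib
import Pool.Agent.R845.E3.Stm
import Pool.Agent.Y201.LI.Thm3

/-! # Project E3: job EVN -/

set_option autoImplicit false

namespace Pool.Agent.R845.E3

open MvPolynomial Pool.Agent.TH314.PD IntermediateField Module

noncomputable section

/-- dehomogenization is injective on forms -/
theorem dehom_inj {B : Type} [CommRing B] {m e : ℕ} {H : MvPolynomial (Fin (m + 1)) B}
    (hH : H.IsHomogeneous e)
    (h : aeval (Fin.cons 1 X : Fin (m + 1) → MvPolynomial (Fin m) B) H = 0) : H = 0 := by
  have h1 : aeval (Fin.cons 1 X : Fin (m + 1) → MvPolynomial (Fin m) B) H =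
      ∑ β ∈ H.support, monomial β.tail (coeff β H) := by
    conv_lhs => rw [H.as_sum]
    rw [map_sum]
    refine Finset.sum_congr rfl fun β _ => ?_
    rw [aeval_monomial, Finsupp.prod_fintype _ _ (fun i => pow_zero _), Fin.prod_univ_succ,
      Fin.cons_zero, one_pow, one_mul, monomial_eq, Finsupp.prod_fintype _ _ (fun i => pow_zero _)]
    rfl
  ext α
  rw [coeff_zero]
  by_contra hα
  have h2 := congrArg (coeff α.tail) h
  rw [h1, coeff_zero, coeff_sum, Finset.sum_eq_single α] at h2
  · rw [coeff_monomial, if_pos rfl] at h2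
    exact hα h2
  · intro β hβ hne
    rw [coeff_monomial, if_neg]
    intro ht
    apply hne
    have h3 : β.degree = e := by
      rw [Finsupp.degree_eq_weight_one]
      exact hH (mem_support_iff.1 hβ)
    have h4 : α.degree = e := by
      rw [Finsupp.degree_eq_weight_one]
      exact hH hα
    have h5 : ∀ γ : Fin (m + 1) →₀ ℕ, γ.degree = γ 0 + ∑ i : Fin m, γ.tail i := by
      intro γ
      rw [Finsupp.degree_eq_sum, Fin.sum_univ_succ]
      rfl
    rw [← Finsupp.cons_tail α, ← Finsupp.cons_tail β, ht]
    congr 1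
    rw [h5, ht] at h3
    rw [h5] at h4
    omega
  · intro h3
    rw [MvPolynomial.notMem_support_iff] at h3
    exact absurd h3 hα

/-- `H(t z) = t ^ e H(z)` -/
theorem aeval_smul_form' {B S : Type} [CommRing B] [CommRing S] [Algebra B S] {σ : Type}
    {H : MvPolynomial σ B} {e : ℕ} (hH : H.IsHomogeneous e) (t : S) (z : σ → S) :
    aeval (fun i => t * z i) H = t ^ e * aeval z H := by
  conv_lhs => rw [H.as_sum]
  conv_rhs => rw [H.as_sum]
  rw [map_sum, map_sum, Finset.mul_sum]
  refine Finset.sum_congr rfl fun β hβ => ?_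
  rw [aeval_monomial, aeval_monomial]
  have h3 : β.degree = e := by
    rw [Finsupp.degree_eq_weight_one]
    exact hH (mem_support_iff.1 hβ)
  have h4 : (β.prod fun i k => (t * z i) ^ k) = t ^ e * β.prod fun i k => z i ^ k := by
    rw [Finsupp.prod, Finsupp.prod, ← h3, Finsupp.degree_apply, ← Finset.prod_pow_eq_pow_sum,
      ← Finset.prod_mul_distrib]
    refine Finset.prod_congr rfl fun i _ => ?_
    rw [mul_pow]
  rw [h4]
  ring

/-- scaling by a transcendental element -/
theorem algInd_scale' {m : ℕ} {B R : Type} [Field B] [Field R] [Algebra B R] (y : Fin m → R)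
    (hy : AlgebraicIndependent B y) :
    AlgebraicIndependent B (fun j => (Polynomial.X : Polynomial R) *
      Polynomial.C ((Fin.cons 1 y : Fin (m + 1) → R) j)) := by
  rw [algebraicIndependent_iff]
  intro H hH
  have h1 : ∀ e : ℕ, aeval (fun j => (Polynomial.X : Polynomial R) *
      Polynomial.C ((Fin.cons 1 y : Fin (m + 1) → R) j)) (homogeneousComponent e H) =
      Polynomial.C (aeval (Fin.cons 1 y : Fin (m + 1) → R) (homogeneousComponent e H)) *
        Polynomial.X ^ e := by
    intro e
    rw [aeval_smul_form' (homogeneousComponent_isHomogeneous e H), mul_comm]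
    congr 1
    exact aeval_algebraMap_apply (Polynomial R) (Fin.cons 1 y : Fin (m + 1) → R) _
  have h3 : ∀ e, aeval (Fin.cons 1 y : Fin (m + 1) → R) (homogeneousComponent e H) = 0 := by
    intro e
    have h4 := hH
    rw [← sum_homogeneousComponent H, map_sum] at h4
    rw [Finset.sum_congr rfl fun e _ => h1 e] at h4
    by_cases he : e ∈ Finset.range (H.totalDegree + 1)
    · have h5 := congrArg (fun q => Polynomial.coeff q e) h4
      simp only [Polynomial.finsetSum_coeff, Polynomial.coeff_C_mul, Polynomial.coeff_X_pow,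
        Polynomial.coeff_zero] at h5
      rw [Finset.sum_eq_single e] at h5
      · simpa using h5
      · intro b _ hb
        rw [if_neg (Ne.symm hb), mul_zero]
      · intro h
        exact absurd he h
    · rw [homogeneousComponent_eq_zero]
      · simp
      · simpa [Nat.lt_succ_iff] using he
  rw [← sum_homogeneousComponent H]
  refine Finset.sum_eq_zero fun e _ => ?_
  apply dehom_inj (homogeneousComponent_isHomogeneous e H)
  have h6 : aeval y (aeval (Fin.cons 1 X : Fin (m + 1) → MvPolynomial (Fin m) B)
      (homogeneousComponent e H)) = 0 := by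
    rw [← h3 e, ← AlgHom.comp_apply]
    congr 1
    apply algHom_ext
    intro j
    refine Fin.cases ?_ (fun j => ?_) j
    · simp
    · simp
  exact hy.eq_zero_of_aeval_eq_zero _ h6

/-- the forms `d F / d y_j (u, 0)` have no common zero -/
theorem bpf_van {k m : ℕ} (F : MvPolynomial (Fin (k + 1 + (m + 1))) ℂ) (hF : F.IsHomogeneous 3)
    (hsm : Sm F) (hW : VanW F) {κ : Type} [Field κ] (φ : ℂ →+* κ) (z : Fin (k + 1) → κ)
    (hz : ∀ j : Fin (m + 1), eval₂ φ z (aeval (Fin.append (X : Fin (k + 1) →
      MvPolynomial (Fin (k + 1)) ℂ) 0) (pderiv (Fin.natAdd (k + 1) j) F)) = 0) : z = 0 := by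
  have hbpf := Pool.Agent.Y394.LI.bpf _ F hsm 3 hF κ φ (Fin.append z 0) (by simp)
  have hev : ∀ P : MvPolynomial (Fin (k + 1 + (m + 1))) ℂ,
      eval₂ φ (Fin.append z 0) P = eval₂ φ z (aeval (Fin.append (X : Fin (k + 1) →
      MvPolynomial (Fin (k + 1)) ℂ) 0) P) := by
    intro P
    induction P using MvPolynomial.induction_on with
    | C a => simp [algebraMap_eq]
    | add p q hp hq => rw [eval₂_add, map_add, eval₂_add, hp, hq]
    | mul_X p i hp =>
      rw [eval₂_mul, map_mul, eval₂_mul, hp, eval₂_X, aeval_X]
      congr 1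
      refine Fin.addCases (fun i => ?_) (fun i => ?_) i
      · simp
      · simp
  have h0 : (Fin.append z 0 : Fin (k + 1 + (m + 1)) → κ) = 0 := by
    apply hbpf
    intro i
    refine Fin.addCases (fun i => ?_) (fun i => ?_) i
    · rw [hev]
      have h1 := chain_rule (pderiv i : Derivation ℂ (MvPolynomial (Fin (k + 1)) ℂ) _)
        (Fin.append (X : Fin (k + 1) → MvPolynomial (Fin (k + 1)) ℂ) 0) F
      have h2 : aeval (Fin.append (X : Fin (k + 1) → MvPolynomial (Fin (k + 1)) ℂ) 0) F = 0 := hW
      rw [h2, map_zero, Fin.sum_univ_add] at h1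
      simp only [Fin.append_left, Fin.append_right, Pi.zero_apply, map_zero, mul_zero,
        Finset.sum_const_zero, add_zero] at h1
      rw [Finset.sum_eq_single i] at h1
      · rw [pderiv_X_self, mul_one] at h1
        rw [← h1, eval₂_zero]
      · intro b _ hb
        rw [pderiv_X_of_ne hb, mul_zero]
      · intro h
        exact absurd (Finset.mem_univ _) h
    · rw [hev]
      exact hz i
  funext i
  have := congrFun h0 (Fin.castAdd (m + 1) i)
  simpa using this

theorem evn : S_EVN := by
  intro k m F hF hsm hW R _ _ A hA y hy v hv hpol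
  have hone := Pool.Agent.Y201.LI.hone
  have hext := Pool.Agent.Y220.LI.ext
  by_cases hfin : finrank (Subfield.closure (A ∪ Set.range y)) R = 0
  · rw [hfin]
    exact dvd_zero 2
  have hfd : FiniteDimensional (Subfield.closure (A ∪ Set.range y)) R :=
    Module.finite_of_finrank_pos (Nat.pos_of_ne_zero hfin)
  let B := Subfield.closure A
  let ι : ℂ →+* B := (algebraMap ℂ R).codRestrict B fun c => Subfield.subset_closure (hA c)
  have hB0 : CharZero B := charZero_of_injective_ringHom ι.injective
  let P := Polynomial R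
  let Ω := FractionRing P
  let ψ : P →ₐ[R] Ω := IsScalarTower.toAlgHom R P Ω
  have hψ : Function.Injective ψ := IsFractionRing.injective P Ω
  let ψ' : P →ₐ[B] Ω := IsScalarTower.toAlgHom B P Ω
  let t : Ω := ψ Polynomial.X
  have ht : t ≠ 0 := by
    intro h
    exact Polynomial.X_ne_zero (hψ (h.trans (map_zero ψ).symm))
  have hψC : ∀ e : R, ψ (Polynomial.C e) = algebraMap R Ω e := fun e => ψ.commutes e
  let y1 : Fin (m + 1) → R := Fin.cons 1 y
  let a0 : Fin (m + 1) → Ω := fun j => t * algebraMap R Ω (y1 j)
  have ha00 : a0 0 = t := by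
    show t * algebraMap R Ω (y1 0) = t
    have : y1 0 = 1 := rfl
    rw [this, map_one, mul_one]
  have ha0 : AlgebraicIndependent B a0 := by
    have h1 := (algInd_scale' y hy).map' (f := ψ') hψ
    have h2 : (ψ' ∘ fun j => (Polynomial.X : Polynomial R) *
      Polynomial.C ((Fin.cons 1 y : Fin (m + 1) → R) j)) = a0 := by
      funext i
      show ψ (Polynomial.X * Polynomial.C (y1 i)) = _
      rw [map_mul, hψC]
    rw [← h2]
    exact h1
  set K : IntermediateField B Ω := adjoin B (Set.range a0) with hK
  let τ : Unit → Ω := fun _ => t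
  let S := Subfield.closure (A ∪ Set.range y)
  have htr : Transcendental R t := by
    intro h
    have h3 : IsAlgebraic R (Polynomial.X : Polynomial R) :=
      (isAlgebraic_algHom_iff ψ hψ).1 h
    exact Polynomial.transcendental_X R h3
  have hτ : AlgebraicIndependent R τ := by
    rw [algebraicIndependent_unique_type_iff]
    exact htr
  have htop : adjoin R (Set.range τ) = ⊤ := by
    rw [eq_top_iff]
    rintro z -
    have htm : t ∈ adjoin R (Set.range τ) := subset_adjoin _ _ ⟨(), rfl⟩
    have hP : ∀ q : P, ψ q ∈ adjoin R (Set.range τ) := by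
      intro q
      induction q using Polynomial.induction_on' with
      | add f g hf hg =>
        rw [map_add]
        exact add_mem hf hg
      | monomial n a =>
        rw [← Polynomial.C_mul_X_pow_eq_monomial, map_mul, map_pow, hψC]
        exact mul_mem (IntermediateField.algebraMap_mem _ _) (pow_mem htm n)
    obtain ⟨a, b, -, hz⟩ := IsFractionRing.div_surjective (A := P) z
    rw [← hz]
    exact div_mem (hP a) (hP b)
  have hBS : B ≤ S := Subfield.closure_mono Set.subset_union_left
  have hS0 : CharZero S :=
    charZero_of_injective_ringHom (f := Subfield.inclusion hBS)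
      (Subfield.inclusion hBS : B →+* S).injective
  obtain ⟨hE1, hE2⟩ := hext S R Ω _ τ hτ htop
  -- the same fields
  have hKa : ∀ i, a0 i ∈ K := fun i => subset_adjoin _ _ ⟨i, rfl⟩
  have hKt : t ∈ K := ha00 ▸ hKa 0
  have hKy : ∀ i, algebraMap R Ω (y1 i) ∈ K := by
    intro i
    have h1 : algebraMap R Ω (y1 i) = a0 i / t := by
      show _ = t * algebraMap R Ω (y1 i) / t
      rw [mul_div_cancel_left₀ _ ht]
    rw [h1]
    exact div_mem (hKa i) hKt
  have hKB : ∀ b : R, b ∈ B → algebraMap R Ω b ∈ K := by
    intro b hb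
    exact IntermediateField.algebraMap_mem K (⟨b, hb⟩ : B)
  have hSK : ∀ z : R, z ∈ S → algebraMap R Ω z ∈ K := by
    intro z hz
    induction hz using Subfield.closure_induction with
    | mem z hz =>
      rcases hz with hz | ⟨i, rfl⟩
      · exact hKB z (Subfield.subset_closure hz)
      · exact hKy i.succ
    | one => rw [map_one]; exact one_mem _
    | add a b _ _ ha hb =>
      rw [map_add]
      exact add_mem ha hb
    | neg a _ ha =>
      rw [map_neg]
      exact neg_mem ha
    | inv a _ ha =>
      rw [map_inv₀]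
      exact inv_mem ha
    | mul a b _ _ ha hb =>
      rw [map_mul]
      exact mul_mem ha hb
  have hmem : ∀ z : Ω, z ∈ (adjoin S (Set.range τ) : IntermediateField S Ω) ↔ z ∈ K := by
    intro z
    constructor
    · intro hz
      induction hz using IntermediateField.adjoin_induction with
      | mem z hz =>
        obtain ⟨_, rfl⟩ := hz
        exact hKt
      | algebraMap c => exact hSK c c.2
      | add a b _ _ ha hb => exact add_mem ha hb
      | inv a _ ha => exact inv_mem ha
      | mul a b _ _ ha hb => exact mul_mem ha hb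
    · intro hz
      rw [hK] at hz
      induction hz using IntermediateField.adjoin_induction with
      | mem z hz =>
        obtain ⟨i, rfl⟩ := hz
        have hr : y1 i ∈ S := by
          refine Fin.cases ?_ (fun j => ?_) i
          · exact one_mem _
          · exact Subfield.subset_closure (Or.inr ⟨j, rfl⟩)
        exact mul_mem (subset_adjoin _ _ ⟨(), rfl⟩)
          (IntermediateField.algebraMap_mem _ (⟨y1 i, hr⟩ : S))
      | algebraMap c =>
        exact IntermediateField.algebraMap_mem _ (⟨c.1, hBS c.2⟩ : S)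
      | add a b _ _ ha hb => exact add_mem ha hb
      | inv a _ ha => exact inv_mem ha
      | mul a b _ _ ha hb => exact mul_mem ha hb
  obtain ⟨hs1, hs2⟩ := Pool.Agent.Y201.LI.finrank_same
    (A := (adjoin S (Set.range τ) : IntermediateField S Ω)) (B := K) (Ω := Ω) (by
      intro z
      constructor
      · rintro ⟨a, rfl⟩
        exact ⟨⟨(a : Ω), (hmem a).1 a.2⟩, rfl⟩
      · rintro ⟨a, rfl⟩
        exact ⟨⟨(a : Ω), (hmem a).2 a.2⟩, rfl⟩)
  have hfK : FiniteDimensional K Ω := hs1.1 hE1
  rw [← hE2, hs2]
  -- apply the degree divisibility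
  let a : Fin (m + 1) → K := fun i => ⟨a0 i, hKa i⟩
  have haI : AlgebraicIndependent B a := by
    have h1 : (K.val ∘ a) = a0 := rfl
    exact AlgebraicIndependent.of_comp K.val (h1 ▸ ha0)
  have haI2 : AlgebraicIndependent B (Sum.elim a (Empty.elim : Empty → K)) := by
    have h1 := haI.comp (Equiv.sumEmpty (Fin (m + 1)) Empty) (Equiv.injective _)
    convert h1 using 1
    funext s
    rcases s with s | s
    · rfl
    · exact s.elim
  have hadj : adjoin B (Set.range a ∪ Set.range (Empty.elim : Empty → K)) = ⊤ := by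
    rw [eq_top_iff]
    rintro ⟨z, hz⟩ -
    exact IntermediateField.adjoin_induction (F := B) (s := Set.range a0)
      (p := fun v hv => (⟨v, hv⟩ : K) ∈
        adjoin B (Set.range a ∪ Set.range (Empty.elim : Empty → K)))
      (by
        rintro v ⟨i, rfl⟩
        exact subset_adjoin _ _ (Or.inl ⟨i, rfl⟩))
      (fun c => IntermediateField.algebraMap_mem _ c)
      (fun x y hx hy h1 h2 => add_mem h1 h2)
      (fun x hx h1 => inv_mem h1)
      (fun x y hx hy h1 h2 => mul_mem h1 h2) hz
  let Ψ : Fin (m + 1) → MvPolynomial (Fin (k + 1)) ℂ := fun j =>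
    aeval (Fin.append (X : Fin (k + 1) → MvPolynomial (Fin (k + 1)) ℂ) 0)
      (pderiv (Fin.natAdd (k + 1) j) F)
  let Φ : Fin (m + 1) → MvPolynomial (Fin (k + 1)) B := fun j => map ι (Ψ j)
  have hΦ : ∀ j, (Φ j).IsHomogeneous 2 := by
    intro j
    apply IsHomogeneous.map
    have h1 : (pderiv (Fin.natAdd (k + 1) j) F).IsHomogeneous (3 - 1) := hF.pderiv
    have h2 := h1.aeval (Fin.append (X : Fin (k + 1) → MvPolynomial (Fin (k + 1)) ℂ) 0) (n := 1)
      (by
        intro i
        refine Fin.addCases (fun i => ?_) (fun i => ?_) i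
        · rw [Fin.append_left]
          exact isHomogeneous_X _ _
        · rw [Fin.append_right]
          exact isHomogeneous_zero _ _ _)
    exact h2
  have hBp : Pool.Agent.Y201.LI.Bpf ∅ Φ := by
    intro κ _ φ z _ hz
    refine bpf_van F hF hsm hW (φ.comp ι) z fun j => ?_
    have := hz j
    rwa [eval₂_map] at this
  have hev : ∀ j, eval₂ ((algebraMap K Ω).comp (algebraMap B K))
      (fun i => algebraMap R Ω (v i)) (Φ j) = algebraMap R Ω (aeval (Fin.append v 0)
        (pderiv (Fin.natAdd (k + 1) j) F)) := by
    intro j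
    rw [eval₂_map]
    have h1 : ((algebraMap K Ω).comp (algebraMap B K)).comp ι =
        (algebraMap R Ω).comp (algebraMap ℂ R) := by
      ext c
      rfl
    rw [h1]
    show eval₂ _ _ (aeval _ (pderiv (Fin.natAdd (k + 1) j) F)) = _
    generalize pderiv (Fin.natAdd (k + 1) j) F = Q
    induction Q using MvPolynomial.induction_on with
    | C a => simp [algebraMap_eq]
    | add p q hp hq => rw [map_add, eval₂_add, hp, hq, map_add, map_add]
    | mul_X p i hp =>
      rw [map_mul, eval₂_mul, hp, aeval_X, map_mul, aeval_X, map_mul]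
      congr 1
      refine Fin.addCases (fun i => ?_) (fun i => ?_) i
      · simp
      · simp
  refine hone B (k + 1) 2 (m + 1) ∅ Φ (by simp) hΦ hBp Empty K Ω a Empty.elim haI2 hadj
    (fun i => algebraMap R Ω (v i)) ?_ (by simp) ?_
  · intro h
    apply hv
    funext j
    have := congrFun h j
    simpa using this
  · have h1 : ∀ i, algebraMap K Ω (a i) * eval₂ ((algebraMap K Ω).comp (algebraMap B K))
        (fun j => algebraMap R Ω (v j)) (Φ i) =
        t * algebraMap R Ω ((Fin.cons 1 y : Fin (m + 1) → R) i *
          aeval (Fin.append v 0) (pderiv (Fin.natAdd (k + 1) i) F)) := by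
      intro i
      rw [hev, map_mul, ← mul_assoc]
      rfl
    rw [Finset.sum_congr rfl fun i _ => h1 i, ← Finset.mul_sum, ← map_sum, hpol, map_zero, mul_zero]

end

end Pool.Agent.R845.E3
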