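import Mathlib
import Pool.Agent.R845.T2.Pl0

/-! # Project E3: the places of the function field of a line at a point `c` -/

set_option autoImplicit false

namespace Pool.Agent.R845.E3

open MvPolynomial Pool.Agent.TH314.PD Module FF IsDedekindDomain Pool.Agent.R845.T2

noncomputable section

variable {M : Type} [Field M] [Algebra ℂ M]

/-- the prime of the point `c` -/
def prc (c : M) : HeightOneSpectrum (Polynomial M) where
  asIdeal := Ideal.span {Polynomial.X - Polynomial.C c}
  isPrime := by
    rw [Ideal.span_singleton_prime (Polynomial.X_sub_C_ne_zero c)]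
    exact Polynomial.prime_X_sub_C c
  ne_bot := by
    rw [Ne, Ideal.span_singleton_eq_bot]
    exact Polynomial.X_sub_C_ne_zero c

/-- the place of the point `c` -/
def wc (c : M) : Place ℂ (LF M) := placeOf (k := ℂ) (L := LF M) (prc c)

theorem mem_prc (c : M) (b : Polynomial M) : b ∈ (prc c).asIdeal ↔ b.eval c = 0 := by
  change b ∈ Ideal.span {Polynomial.X - Polynomial.C c} ↔ _
  rw [Ideal.mem_span_singleton, Polynomial.dvd_iff_isRoot]
  rfl

theorem wc_reg (c : M) (b : Polynomial M) : (wc c).Reg (algebraMap (Polynomial M) (LF M) b) :=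
  placeOf_reg (prc c) b

theorem wc_red_eq_zero (c : M) (b : Polynomial M) :
    (wc c).red (algebraMap (Polynomial M) (LF M) b) = 0 ↔ b.eval c = 0 := by
  rw [← mem_prc]
  exact placeOf_red_eq_zero (prc c) b

theorem wc_ord_of_eval {c : M} {b : Polynomial M} (hb : b.eval c ≠ 0) :
    (wc c).ord (algebraMap (Polynomial M) (LF M) b) = 0 := by
  have h1 := (wc_red_eq_zero c b).not.2 hb
  rw [Place.red_eq_zero_iff _ (wc_reg c b)] at h1
  push Not at h1
  have h2 := ((wc c).reg_iff h1.1).1 (wc_reg c b)
  omega

theorem wc_ord_X (c : M) :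
    (wc c).ord (algebraMap (Polynomial M) (LF M) (Polynomial.X - Polynomial.C c)) = 1 := by
  unfold wc
  rw [placeOf_ord, HeightOneSpectrum.valuation_of_algebraMap,
    (prc c).intValuation_singleton (Polynomial.X_sub_C_ne_zero c) rfl, WithZero.log_exp]
  simp

/-- a place which is trivial on the constants and positive on `X - c` -/
theorem eq_wc (c : M) (w : Place ℂ (LF M))
    (hM : ∀ a : M, a ≠ 0 → w.ord (algebraMap (Polynomial M) (LF M) (Polynomial.C a)) = 0)
    (hX : 0 < w.ord (algebraMap (Polynomial M) (LF M) (Polynomial.X - Polynomial.C c))) :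
    w = wc c := by
  have hCreg : ∀ a : M, w.Reg (algebraMap (Polynomial M) (LF M) (Polynomial.C a)) := by
    intro a
    by_cases ha : a = 0
    · left
      rw [ha, Polynomial.C_0, map_zero]
    · right
      exact (hM a ha).ge
  have hXreg : w.Reg (algebraMap (Polynomial M) (LF M) Polynomial.X) := by
    have h1 : (Polynomial.X : Polynomial M) = (Polynomial.X - Polynomial.C c) + Polynomial.C c := by
      ring
    rw [h1, map_add]
    exact w.reg_add (Or.inr hX.le) (hCreg c)
  have hreg : ∀ b : Polynomial M, w.Reg (algebraMap (Polynomial M) (LF M) b) := by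
    intro b
    induction b using Polynomial.induction_on' with
    | add p q hp hq =>
      rw [map_add]
      exact w.reg_add hp hq
    | monomial n a =>
      rw [← Polynomial.C_mul_X_pow_eq_monomial, map_mul, map_pow]
      refine w.reg_mul (hCreg a) ?_
      induction n with
      | zero => rw [pow_zero]; exact w.reg_one
      | succ n ih => rw [pow_succ]; exact w.reg_mul ih hXreg
  obtain ⟨P, hP⟩ := exists_placeOf_eq (B := Polynomial M) w hreg
  have h1 : w.red (algebraMap (Polynomial M) (LF M) (Polynomial.X - Polynomial.C c)) = 0 := by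
    rw [Place.red_eq_zero_iff _ (hreg _)]
    exact Or.inr hX
  rw [← hP] at h1
  have h2 : (Polynomial.X - Polynomial.C c : Polynomial M) ∈ P.asIdeal :=
    (placeOf_red_eq_zero (k := ℂ) (L := LF M) P (Polynomial.X - Polynomial.C c)).1 h1
  have h3 : P = prc c := by
    ext1
    have h4 : (prc c).asIdeal ≤ P.asIdeal := by
      change Ideal.span {Polynomial.X - Polynomial.C c} ≤ _
      rw [Ideal.span_singleton_le_iff_mem]
      exact h2
    exact ((prc c).isMaximal.eq_of_le P.isPrime.ne_top h4).symm
  rw [← hP, h3]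
  rfl

/-- the residue map of the place on the constants -/
def evc (c : M) : M →ₐ[ℂ] (wc c).RF where
  toFun a := (wc c).red (algebraMap (Polynomial M) (LF M) (Polynomial.C a))
  map_one' := by rw [Polynomial.C_1, map_one, Place.red_one]
  map_mul' a b := by rw [Polynomial.C_mul, map_mul, Place.red_mul _ (wc_reg _ _) (wc_reg _ _)]
  map_zero' := by rw [Polynomial.C_0, map_zero, Place.red_zero]
  map_add' a b := by rw [Polynomial.C_add, map_add, Place.red_add _ (wc_reg _ _) (wc_reg _ _)]
  commutes' c := by
    rw [Place.algebraMap_RF]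
    congr 1

theorem red_wc (c : M) (b : Polynomial M) :
    (wc c).red (algebraMap (Polynomial M) (LF M) b) = evc c (b.eval c) := by
  have h1 : (wc c).red (algebraMap (Polynomial M) (LF M) (b - Polynomial.C (b.eval c))) = 0 := by
    rw [wc_red_eq_zero]
    simp
  rw [map_sub, Place.red_sub _ (wc_reg _ _) (wc_reg _ _), sub_eq_zero] at h1
  exact h1

theorem evc_bij (c : M) : Function.Bijective (evc c : M →ₐ[ℂ] (wc c).RF) := by
  constructor
  · exact (evc c : M →ₐ[ℂ] (wc c).RF).toRingHom.injective
  · intro b'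
    obtain ⟨b, hb⟩ := placeOf_redHom_surjective (k := ℂ) (L := LF M) (prc c) b'
    refine ⟨b.eval c, ?_⟩
    rw [← red_wc, ← hb]
    rfl

/-- the residues of the coordinates of the generic point of a line -/
theorem wc_line {r : ℕ} (Y : Fin (r + 1) → Polynomial M) (c : M) (h0 : (Y 0).eval c ≠ 0) :
    (∀ i, (wc c).Reg (algebraMap (Polynomial M) (LF M) (Y i) /
      algebraMap (Polynomial M) (LF M) (Y 0))) ∧
    (∀ i, (wc c).red (algebraMap (Polynomial M) (LF M) (Y i) /
      algebraMap (Polynomial M) (LF M) (Y 0)) = evc c ((Y i).eval c / (Y 0).eval c)) := by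
  have hy0 : algebraMap (Polynomial M) (LF M) (Y 0) ≠ 0 := by
    intro h
    have h1 : Y 0 = 0 := inj_LF (h.trans (map_zero _).symm)
    rw [h1, Polynomial.eval_zero] at h0
    exact h0 rfl
  have hord : (wc c).ord (algebraMap (Polynomial M) (LF M) (Y 0)) = 0 := wc_ord_of_eval h0
  have hreg : ∀ i, (wc c).Reg (algebraMap (Polynomial M) (LF M) (Y i) /
      algebraMap (Polynomial M) (LF M) (Y 0)) := by
    intro i
    rw [div_eq_mul_inv]
    refine Place.reg_mul _ (wc_reg c _) (Or.inr ?_)
    rw [Place.ord_inv, hord]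
    simp
  refine ⟨hreg, fun i => ?_⟩
  have h1 : (wc c).red (algebraMap (Polynomial M) (LF M) (Y i) /
      algebraMap (Polynomial M) (LF M) (Y 0)) *
      (wc c).red (algebraMap (Polynomial M) (LF M) (Y 0)) =
      (wc c).red (algebraMap (Polynomial M) (LF M) (Y i)) := by
    rw [← Place.red_mul _ (hreg i) (wc_reg c _), div_mul_cancel₀ _ hy0]
  rw [red_wc, red_wc] at h1
  have h4 : (evc c ((Y 0).eval c) : (wc c).RF) ≠ 0 := by
    intro h2
    exact h0 ((evc_bij c).1 (h2.trans (map_zero _).symm))
  rw [map_div₀, eq_div_iff h4, h1]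

/-- forms at the residues of the coordinates of the generic point of a line -/
theorem wc_line_aeval {r : ℕ} (Y : Fin (r + 1) → Polynomial M) (c : M) (h0 : (Y 0).eval c ≠ 0)
    (e : ℕ) (H : MvPolynomial (Fin (r + 1)) ℂ) (hH : H.IsHomogeneous e) :
    aeval (fun i => (wc c).red (algebraMap (Polynomial M) (LF M) (Y i) /
      algebraMap (Polynomial M) (LF M) (Y 0))) H = 0 ↔ aeval (fun i => (Y i).eval c) H = 0 := by
  have h1 : (fun i => (wc c).red (algebraMap (Polynomial M) (LF M) (Y i) /
      algebraMap (Polynomial M) (LF M) (Y 0))) =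
      fun i => evc c (((Y 0).eval c)⁻¹ * (Y i).eval c) := by
    funext i
    rw [(wc_line Y c h0).2, div_eq_inv_mul]
  rw [h1]
  have h2 : aeval (fun i => evc c (((Y 0).eval c)⁻¹ * (Y i).eval c)) H =
      (evc c (aeval (fun i => ((Y 0).eval c)⁻¹ * (Y i).eval c) H) : (wc c).RF) := by
    rw [comp_aeval_apply]
  rw [h2, aeval_smul_form hH, map_eq_zero_iff _ (evc_bij c).1, mul_eq_zero]
  constructor
  · rintro (h | h)
    · exact absurd h (pow_ne_zero _ (inv_ne_zero h0))
    · exact h
  · intro h
    exact Or.inr h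

/-- the residue degree -/
theorem wc_line_rel {r : ℕ} (Y : Fin (r + 1) → Polynomial M) (c : M) (h0 : (Y 0).eval c ≠ 0) :
    finrank (ratioField fun i => (wc c).red (algebraMap (Polynomial M) (LF M) (Y i) /
      algebraMap (Polynomial M) (LF M) (Y 0))) (wc c).RF =
      finrank (ratioField fun i => (Y i).eval c) M := by
  have h1 : (fun i => (wc c).red (algebraMap (Polynomial M) (LF M) (Y i) /
      algebraMap (Polynomial M) (LF M) (Y 0))) =
      fun i => (AlgEquiv.ofBijective (evc c) (evc_bij c)) ((Y i).eval c / (Y 0).eval c) := by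
    funext i
    rw [(wc_line Y c h0).2]
    rfl
  rw [h1, finrank_ratioField_equiv (AlgEquiv.ofBijective (evc c) (evc_bij c))
    (fun i => (Y i).eval c / (Y 0).eval c),
    Pool.Agent.Y929.LI.ratioField_div (fun i => (Y i).eval c) h0]

end

end Pool.Agent.R845.E3
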