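import Mathlib
import Pool.Agent.R845.T2.Fin
import Pool.Agent.R845.T2.Nt
import Pool.Agent.R845.T2.Fi
import Pool.Agent.R845.T2.Fd
import Pool.Agent.R845.E3.Plc
import Pool.Agent.R845.E3.Stm

/-! # Project E3: parity of the degree for a line which meets the cubic in three points -/

set_option autoImplicit false

namespace Pool.Agent.R845.E3

open MvPolynomial Pool.Agent.TH314.PD Module FF IsDedekindDomain Pool.Agent.R845.T2

noncomputable section

theorem p3 : S_P3 := by
  classical
  intro r F hF hsm M _ _ x p A B hxp hG hodd hpn hA hB hline hthird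
  obtain ⟨hx, hgen⟩ := hG
  have hd : (2 : ℕ) ≤ 3 := by norm_num
  have hsm' : ∀ z : Fin (r + 1) → ℂ, (∀ i, eval z (pderiv i F) = 0) → z = 0 := hsm
  have hfin : FiniteDimensional (ratioField x) M :=
    FiniteDimensional.of_finrank_pos hodd.pos
  have hF0 : F ≠ 0 := ne_zero_of_smooth hsm'
  have hirr : Irreducible F := Pool.Agent.Y201.LI.irreducible_of_generic hF hF0 x hx hgen
  -- the line
  set Y : Fin (r + 1) → Polynomial M := fun j =>
    Polynomial.C (x j) + Polynomial.X * Polynomial.C (p j) with hY
  set ι : Polynomial M →ₐ[ℂ] LF M := IsScalarTower.toAlgHom ℂ (Polynomial M) (LF M) with hι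
  have hιa : ∀ b, ι b = algebraMap (Polynomial M) (LF M) b := fun _ => rfl
  have hinj : Function.Injective ι := inj_LF
  set y : Fin (r + 1) → LF M := fun j => algebraMap (Polynomial M) (LF M) (Y j) with hy
  have hyH : ∀ H : MvPolynomial (Fin (r + 1)) ℂ, aeval y H = ι (aeval Y H) := by
    intro H
    rw [comp_aeval_apply]
    rfl
  have hYc : ∀ c i, (Y i).eval c = x i + c * p i := by
    intro c i
    rw [hY]
    simp only [Polynomial.eval_add, Polynomial.eval_C, Polynomial.eval_mul, Polynomial.eval_X]
  have hY0 : ∀ i, (Y i).eval 0 = x i := by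
    intro i
    rw [hYc, zero_mul, add_zero]
  have hFY : aeval Y F ≠ 0 := by
    rw [hline]
    intro h0
    have h1 := congrArg (fun q => q.coeff 1) h0
    simp only [Polynomial.coeff_add, Polynomial.coeff_C_mul, Polynomial.coeff_X_one,
      Polynomial.coeff_X_pow, Polynomial.coeff_zero] at h1
    norm_num at h1
    exact hA h1
  have hygen : ∀ (e : ℕ) (H : MvPolynomial (Fin (r + 1)) ℂ), H.IsHomogeneous e →
      aeval y H = 0 → H = 0 := by
    intro e H hH h0
    refine generic_line hF (by omega) x hgen Y hY0 hFY e H hH (hinj ?_)
    rw [← hyH, h0, map_zero]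
  refine ⟨hygen, ?_⟩
  change Odd (finrank (ratioField y) (LF M))
  have hx0 : ∀ i, x i ≠ 0 := coord_ne_zero hF hd x hgen
  -- constants
  have hMι : ∀ a : M, algebraMap M (LF M) a = ι (Polynomial.C a) := fun _ => rfl
  set s : LF M := ι Polynomial.X with hs
  have hys : ∀ i, y i = algebraMap M (LF M) (x i) + s * algebraMap M (LF M) (p i) := by
    intro i
    rw [hMι, hMι, hs, ← map_mul, ← map_add]
    rfl
  have hadj : IntermediateField.adjoin M {s} = (⊤ : IntermediateField M (LF M)) := by
    rw [eq_top_iff]
    intro f _
    obtain ⟨a, b, hb, rfl⟩ := IsFractionRing.div_surjective (A := Polynomial M) f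
    have h1 : ∀ b : Polynomial M, algebraMap (Polynomial M) (LF M) b ∈
        IntermediateField.adjoin M {s} := by
      intro b
      have h2 : algebraMap (Polynomial M) (LF M) b = Polynomial.aeval s b := by
        have h3 : (Polynomial.aeval s : Polynomial M →ₐ[M] LF M) =
            IsScalarTower.toAlgHom M (Polynomial M) (LF M) := by
          apply Polynomial.algHom_ext
          rw [Polynomial.aeval_X]
          rfl
        rw [h3]
        rfl
      rw [h2]
      have h4 : s ∈ IntermediateField.adjoin M {s} := IntermediateField.mem_adjoin_simple_self M s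
      have h5 : Algebra.adjoin M {s} ≤ (IntermediateField.adjoin M {s}).toSubalgebra :=
        Algebra.adjoin_le (Set.singleton_subset_iff.2 h4)
      exact h5 (Polynomial.aeval_mem_adjoin_singleton M s)
    exact div_mem (h1 a) (h1 b)
  have hfinE : FiniteDimensional (ratioField y) (LF M) :=
    fd r 3 F hF hF0 M (LF M) x ⟨0, hx0 0⟩ hx hfin s hadj y hygen
  -- the fundamental identity
  obtain ⟨S, hS, hsum⟩ := fi r 3 F hF hd hirr (LF M) y hygen hfinE
  have hy0 : ∀ i, y i ≠ 0 := by
    intro i h0
    have h1 := hygen 1 (X i) (isHomogeneous_X ℂ i) (by rw [aeval_X, h0])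
    exact X_ne_zero i h1
  have hs0 : s ≠ 0 := by
    intro h0
    exact Polynomial.X_ne_zero (hinj (h0.trans (map_zero ι).symm))
  have hne : ∀ a : M, a ≠ 0 → algebraMap M (LF M) a ≠ 0 := by
    intro a ha h0
    exact ha ((algebraMap M (LF M)).injective (h0.trans (map_zero _).symm))
  set q : LF M := algebraMap M (LF M) A + algebraMap M (LF M) B * s with hq
  have hyF : aeval y F = s * q := by
    rw [hyH, hline, map_add, map_mul, map_mul, map_pow, hq, hMι, hMι]
    ring
  have hq0 : q ≠ 0 := by
    intro h0
    apply hFY
    apply hinj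
    rw [← hyH, hyF, h0, mul_zero, map_zero]
  have hordG : ∀ w : Place ℂ (LF M), w.ord (aeval y F / y 0 ^ 3) =
      w.ord s + w.ord q - 3 * w.ord (y 0) := by
    intro w
    rw [hyF, w.ord_div (mul_ne_zero hs0 hq0) (pow_ne_zero _ (hy0 0)), w.ord_mul hs0 hq0,
      w.ord_pow]
    rfl
  -- the place of the origin
  have hY00 : (Y 0).eval 0 ≠ 0 := by
    rw [hY0]
    exact hx0 0
  have hw0S : wc (0 : M) ∈ S := by
    rw [hS]
    refine ⟨(wc_line Y 0 hY00).1, (wc_line_aeval Y 0 hY00 3 F hF).2 ?_, fun e H hH h0 => ?_⟩
    · rw [show (fun i => (Y i).eval 0) = x from funext hY0]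
      exact hx
    · refine hgen e H hH ?_
      have h1 := (wc_line_aeval Y 0 hY00 e H hH).1 h0
      rwa [show (fun i => (Y i).eval 0) = x from funext hY0] at h1
  have hw0ord : (wc (0 : M)).ord (aeval y F / y 0 ^ 3) = 1 := by
    rw [hordG]
    have h1 : (wc (0 : M)).ord (y 0) = 0 := wc_ord_of_eval hY00
    have h2 : (wc (0 : M)).ord s = 1 := by
      have h3 := wc_ord_X (0 : M)
      rwa [Polynomial.C_0, sub_zero] at h3
    have h3 : (wc (0 : M)).ord q = 0 := by
      have h4 : q = algebraMap (Polynomial M) (LF M) (Polynomial.C A +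
          Polynomial.C B * Polynomial.X) := by
        rw [map_add, map_mul]
        rfl
      rw [h4]
      refine wc_ord_of_eval ?_
      simpa using hA
    rw [h1, h2, h3]
    norm_num
  have hw0rel : finrank (ratioField fun i => (wc (0 : M)).red (y i / y 0)) (wc (0 : M)).RF =
      finrank (ratioField x) M := by
    have h1 := wc_line_rel Y 0 hY00
    rwa [show (fun i => (Y i).eval 0) = x from funext hY0] at h1
  -- the other places
  have hother : ∀ w ∈ S, w ≠ wc (0 : M) → 2 ∣ (w.ord (aeval y F / y 0 ^ 3)).toNat *
      finrank (ratioField fun i => w.red (y i / y 0)) w.RF := by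
    intro w hw hne0
    obtain ⟨hreg, hFz, hgz⟩ := (hS w).1 hw
    by_cases htriv : ∃ a : M, a ≠ 0 ∧ w.ord (algebraMap M (LF M) a) ≠ 0
    · refine Dvd.dvd.mul_left ?_ _
      refine nt Pool.Agent.Y201.LI.hT1 (r + 1) 3 F hF hd hirr hsm' M (LF M) x p hxp hx hgen hfin w
        htriv (fun i => y i / y 0) (1 / y 0) (s / y 0) (fun i => ?_) hreg hFz hgz
      rw [hys i]
      ring
    push Not at htriv
    refine Dvd.dvd.mul_left ?_ _
    have hMreg : ∀ a : M, w.Reg (algebraMap M (LF M) a) := by
      intro a
      by_cases ha : a = 0
      · left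
        rw [ha, map_zero]
      · right
        rw [htriv a ha]
    rcases lt_or_ge (w.ord s) 0 with hneg | hpos
    · -- the place at infinity: `p` would be generic
      exfalso
      have hyp : ∀ i, p i ≠ 0 → w.ord (y i) = w.ord s := by
        intro i hpi
        have h1 : w.ord (s * algebraMap M (LF M) (p i)) = w.ord s := by
          rw [w.ord_mul hs0 (hne _ hpi), htriv _ hpi, add_zero]
        have h2 := w.ord_add_eq (mul_ne_zero hs0 (hne _ hpi)) (hne _ (hx0 i)) (by
          rw [h1, htriv _ (hx0 i)]
          exact hneg)
        rw [hys, add_comm, h2.2, h1]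
      by_cases hp0 : p 0 = 0
      · obtain ⟨i, hi⟩ : ∃ i, p i ≠ 0 := by
          by_contra h3
          push Not at h3
          exact hxp.ne_zero 1 (funext h3)
        have h1 := hyp i hi
        have h2 : w.ord (y 0) = 0 := by
          rw [hys, hp0, map_zero, mul_zero, add_zero]
          exact htriv _ (hx0 0)
        have h3 := (w.reg_iff (div_ne_zero (hy0 i) (hy0 0))).1 (hreg i)
        rw [w.ord_div (hy0 i) (hy0 0), h1, h2] at h3
        omega
      · apply hpn
        -- `s⁻¹` is regular with residue zero
        have hsi : w.Reg s⁻¹ := Or.inr (by rw [w.ord_inv]; omega)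
        have hsi0 : w.red s⁻¹ = 0 := by
          rw [w.red_eq_zero_iff hsi]
          right
          rw [w.ord_inv]
          omega
        let u : Fin (r + 1) → LF M := fun i => s⁻¹ * y i
        have hu : ∀ i, u i = s⁻¹ * algebraMap M (LF M) (x i) + algebraMap M (LF M) (p i) := by
          intro i
          change s⁻¹ * y i = _
          rw [hys]
          field_simp
        have hureg : ∀ i, w.Reg (u i) := by
          intro i
          rw [hu]
          exact w.reg_add (w.reg_mul hsi (hMreg _)) (hMreg _)
        have hured : ∀ i, w.red (u i) = w.red (algebraMap M (LF M) (p i)) := by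
          intro i
          rw [hu, w.red_add (w.reg_mul hsi (hMreg _)) (hMreg _), w.red_mul hsi (hMreg _), hsi0,
            zero_mul, zero_add]
        let φ : M →ₐ[ℂ] w.RF :=
          { toFun := fun a => w.red (algebraMap M (LF M) a)
            map_one' := by rw [map_one, Place.red_one]
            map_mul' := fun a b => by rw [map_mul, Place.red_mul _ (hMreg _) (hMreg _)]
            map_zero' := by rw [map_zero, Place.red_zero]
            map_add' := fun a b => by rw [map_add, Place.red_add _ (hMreg _) (hMreg _)]
            commutes' := fun c => by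
              rw [Place.algebraMap_RF]
              congr 1 }
        have hφ : ∀ a, φ a = w.red (algebraMap M (LF M) a) := fun _ => rfl
        have hφinj : Function.Injective φ := φ.toRingHom.injective
        have hz : (fun i => w.red (y i / y 0)) = fun i => φ ((p 0)⁻¹ * p i) := by
          funext i
          have h1 : w.red (y i / y 0) * w.red (u 0) = w.red (u i) := by
            rw [← w.red_mul (hreg i) (hureg 0)]
            congr 1
            change y i / y 0 * (s⁻¹ * y 0) = s⁻¹ * y i
            have := hy0 0
            field_simp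
          rw [hured, hured, ← hφ, ← hφ] at h1
          have h2 : φ (p 0) ≠ 0 := by
            intro h3
            exact hp0 (hφinj (h3.trans (map_zero _).symm))
          rw [map_mul, map_inv₀, ← div_eq_inv_mul, eq_div_iff h2, h1]
        have hzH : ∀ (e : ℕ) (H : MvPolynomial (Fin (r + 1)) ℂ), H.IsHomogeneous e →
            (aeval (fun i => w.red (y i / y 0)) H = 0 ↔ aeval p H = 0) := by
          intro e H hH
          rw [hz]
          have h2 : aeval (fun i => φ ((p 0)⁻¹ * p i)) H =
              φ (aeval (fun i => (p 0)⁻¹ * p i) H) := by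
            rw [comp_aeval_apply]
          rw [h2, aeval_smul_form hH, map_eq_zero_iff _ hφinj, mul_eq_zero]
          constructor
          · rintro (h | h)
            · exact absurd h (pow_ne_zero _ (inv_ne_zero hp0))
            · exact h
          · intro h
            exact Or.inr h
        exact ⟨(hzH 3 F hF).1 hFz, fun e H hH h0 => hgz e H hH ((hzH e H hH).2 h0)⟩
    · -- all coordinates are regular
      have hsreg : w.Reg s := Or.inr hpos
      have hyreg : ∀ i, w.Reg (y i) := by
        intro i
        rw [hys]
        exact w.reg_add (hMreg _) (w.reg_mul hsreg (hMreg _))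
      have hy0' : w.ord (y 0) = 0 := by
        have h1 := (w.reg_iff (hy0 0)).1 (hyreg 0)
        by_contra hne'
        have h2 : 0 < w.ord (y 0) := by omega
        have h3 : ∀ i, w.red (y i) = 0 := by
          intro i
          have h4 : w.red (y i / y 0 * y 0) = 0 := by
            rw [w.red_mul (hreg i) (hyreg 0), (w.red_eq_zero_iff (hyreg 0)).2 (Or.inr h2),
              mul_zero]
          rwa [div_mul_cancel₀ _ (hy0 0)] at h4
        obtain ⟨i, j, hij⟩ := minor_ne_zero hxp
        have h5 : algebraMap M (LF M) (x i * p j - x j * p i) =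
            y i * algebraMap M (LF M) (p j) - y j * algebraMap M (LF M) (p i) := by
          rw [hys, hys, map_sub, map_mul, map_mul]
          ring
        have h6 : w.red (algebraMap M (LF M) (x i * p j - x j * p i)) = 0 := by
          rw [h5, w.red_sub (w.reg_mul (hyreg i) (hMreg _)) (w.reg_mul (hyreg j) (hMreg _)),
            w.red_mul (hyreg i) (hMreg _), w.red_mul (hyreg j) (hMreg _), h3, h3]
          ring
        exact w.red_ne_zero (hne _ hij) (htriv _ hij) h6
      have hG : 0 < w.ord (aeval y F / y 0 ^ 3) := by
        have h1 : aeval (fun i => y i / y 0) F = aeval y F / y 0 ^ 3 := by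
          have h2 := aeval_smul_form hF (y 0)⁻¹ y
          have h3 : (fun i => y i / y 0) = fun i => (y 0)⁻¹ * y i := by
            funext i
            rw [div_eq_inv_mul]
          rw [h3, h2, inv_pow, div_eq_inv_mul]
        obtain ⟨h4, h5⟩ := red_aeval w (fun i => y i / y 0) hreg F
        rw [hFz, h1] at h5
        rw [h1] at h4
        rw [w.red_eq_zero_iff h4] at h5
        rcases h5 with h5 | h5
        · exfalso
          rw [hyF] at h5
          exact div_ne_zero (mul_ne_zero hs0 hq0) (pow_ne_zero _ (hy0 0)) h5
        · exact h5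
      rw [hordG, hy0'] at hG
      have hqreg : w.Reg q := w.reg_add (hMreg _) (w.reg_mul (hMreg _) hsreg)
      have hqpos := (w.reg_iff hq0).1 hqreg
      -- the place is not the place of the origin
      have hs1 : w.ord s = 0 := by
        by_contra h1
        apply hne0
        refine eq_wc 0 w (fun a ha => htriv a ha) ?_
        rw [Polynomial.C_0, sub_zero]
        change 0 < w.ord s
        omega
      have hwc : w = wc (-(A / B)) := by
        refine eq_wc _ w (fun a ha => htriv a ha) ?_
        have h1 : algebraMap (Polynomial M) (LF M) (Polynomial.X - Polynomial.C (-(A / B))) =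
            algebraMap M (LF M) B⁻¹ * q := by
          rw [map_sub, hq]
          change s - algebraMap M (LF M) (-(A / B)) = _
          rw [map_neg, map_div₀, map_inv₀]
          have := hne B hB
          field_simp
          ring
        rw [h1, w.ord_mul (hne _ (inv_ne_zero hB)) hq0, htriv _ (inv_ne_zero hB)]
        omega
      set c : M := -(A / B) with hc
      have hYc0 : (Y 0).eval c ≠ 0 := by
        intro h0
        have h1 := (wc_red_eq_zero c (Y 0)).2 h0
        rw [← hwc] at h1
        exact w.red_ne_zero (hy0 0) hy0' h1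
      have hz : (fun j => B * x j - A * p j) = fun j => B * (Y j).eval c := by
        funext j
        rw [hYc, hc]
        field_simp
        ring
      have hrel : finrank (ratioField fun i => w.red (y i / y 0)) w.RF =
          finrank (ratioField fun j => B * x j - A * p j) M := by
        rw [hwc]
        refine (wc_line_rel Y c hYc0).trans ?_
        have h1 : (fun i => Polynomial.eval c (Y i)) = fun i => (B * x i - A * p i) / B := by
          funext j
          rw [hYc, hc]
          field_simp
          ring
        rw [h1, Pool.Agent.Y929.LI.ratioField_div _ hB]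
      rw [hrel]
      apply hthird
      have hzH : ∀ (e : ℕ) (H : MvPolynomial (Fin (r + 1)) ℂ), H.IsHomogeneous e →
          (aeval (fun i => w.red (y i / y 0)) H = 0 ↔
            aeval (fun j => B * x j - A * p j) H = 0) := by
        intro e H hH
        rw [hz, aeval_smul_form hH, mul_eq_zero, or_iff_right (pow_ne_zero _ hB)]
        have h1 := wc_line_aeval Y c hYc0 e H hH
        rw [← h1, hwc]
      exact ⟨(hzH 3 F hF).1 hFz, fun e H hH h0 => hgz e H hH ((hzH e H hH).2 h0)⟩
  rw [← Finset.add_sum_erase S _ hw0S, hw0ord, hw0rel] at hsum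
  have h1 : 2 ∣ ∑ w ∈ S.erase (wc (0 : M)), (w.ord (aeval y F / y 0 ^ 3)).toNat *
      finrank (ratioField fun i => w.red (y i / y 0)) w.RF :=
    Finset.dvd_sum fun w hw => hother w (Finset.mem_of_mem_erase hw) (Finset.ne_of_mem_erase hw)
  have h3 : (1 : ℤ).toNat = 1 := rfl
  rw [h3, one_mul] at hsum
  rw [← hsum]
  exact hodd.add_even (even_iff_two_dvd.2 h1)

end

end Pool.Agent.R845.E3
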