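import Mathlib
import Pool.Agent.Y201.C3.Tri
import Pool.Agent.R845.E3.P3

/-! # Project E3: conics which meet `W` -/

set_option autoImplicit false

namespace Pool.Agent.R845.E3

open MvPolynomial Pool.Agent.TH314.PD Module Pool.Agent.Y201.C3

noncomputable section

/-- the ratios of the coordinates of a generic point are algebraically independent -/
theorem gen_ratio {r : ℕ} {K : Type} [Field K] [Algebra ℂ K] (y : Fin (r + 1) → K)
    (hy : ∀ (e : ℕ) (H : MvPolynomial (Fin (r + 1)) ℂ), H.IsHomogeneous e → aeval y H = 0 →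
      H = 0) (b : Fin (r + 1)) {ι : Type} (f : ι → Fin (r + 1)) (hf : Function.Injective f)
    (hfb : ∀ i, f i ≠ b) : AlgebraicIndependent ℂ fun i => y (f i) / y b := by
  set σ : Equiv.Perm (Fin (r + 1)) := Equiv.swap 0 b with hσ
  have h1 : ∀ (e : ℕ) (H : MvPolynomial (Fin (r + 1)) ℂ), H.IsHomogeneous e →
      aeval (fun i => y (σ i)) H = 0 → H = 0 := by
    intro e H hH h0
    have h2 := hy e (rename σ H) (hH.rename_isHomogeneous (f := σ)) (by
      rw [aeval_rename]
      exact h0)
    exact (rename_injective σ σ.injective) (h2.trans (map_zero _).symm)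
  have h2 := (Pool.Agent.R845.T2.Fd.indep_of_generic (fun i => y (σ i)) h1).2
  have hne : ∀ i, σ (f i) ≠ 0 := by
    intro i h
    apply hfb i
    have h3 : σ (σ (f i)) = σ 0 := by rw [h]
    rwa [hσ, Equiv.swap_apply_self, Equiv.swap_apply_left] at h3
  let g : ι → Fin r := fun i => (σ (f i)).pred (hne i)
  have hg : Function.Injective g := by
    intro i j hij
    exact hf (σ.injective (Fin.pred_inj.1 hij))
  have h3 := h2.comp g hg
  convert h3 using 1
  funext i
  have h4 : σ 0 = b := by rw [hσ, Equiv.swap_apply_left]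
  have h5 : (0 : Fin (r + 1)).succAbove (g i) = σ (f i) := by
    rw [Fin.zero_succAbove, Fin.succ_pred]
  simp only [Function.comp_apply]
  rw [h5, h4, hσ, Equiv.swap_apply_self]

/-- coefficients of a polynomial of degree at most six in a transcendental element -/
theorem coeffs_zero {M : Type} [Field M] [Algebra ℂ M] (L : IntermediateField ℂ M) (t : M)
    (ht : Transcendental L t) (c : Fin 7 → M) (hc : ∀ i, c i ∈ L)
    (h : ∑ i, c i * t ^ (i : ℕ) = 0) : ∀ i, c i = 0 := by
  let p : Polynomial L := ∑ i : Fin 7, Polynomial.C ⟨c i, hc i⟩ * Polynomial.X ^ (i : ℕ)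
  have hp : Polynomial.aeval t p = 0 := by
    rw [map_sum, ← h]
    refine Finset.sum_congr rfl fun i _ => ?_
    rw [map_mul, map_pow, Polynomial.aeval_C, Polynomial.aeval_X]
    rfl
  have hp0 : p = 0 := by
    by_contra h0
    exact ht ⟨p, h0, hp⟩
  intro i
  have h1 : p.coeff i = ⟨c i, hc i⟩ := by
    rw [Polynomial.finsetSum_coeff]
    simp only [Polynomial.coeff_C_mul, Polynomial.coeff_X_pow]
    rw [Finset.sum_eq_single i]
    · simp
    · intro j _ hj
      rw [if_neg, mul_zero]
      intro h2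
      exact hj (Fin.ext h2.symm)
    · intro h2
      exact absurd (Finset.mem_univ i) h2
  rw [hp0, Polynomial.coeff_zero] at h1
  exact (congrArg Subtype.val h1).symm

/-- the trilinear form on the span of three vectors -/
theorem Bg_span3 {σ : Type} [Fintype σ] [DecidableEq σ] {R : Type} [CommRing R] [Algebra ℂ R]
    {T : σ → σ → σ → ℂ} (hT : SymG T) (a β γ : σ → R) (A B C : R) :
    Bg T (fun i => A * a i + B * β i + C * γ i) (fun i => A * a i + B * β i + C * γ i)
      (fun i => A * a i + B * β i + C * γ i) =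
      A ^ 3 * Bg T a a a + 3 * A ^ 2 * B * Bg T a a β + 3 * A ^ 2 * C * Bg T a a γ +
      3 * A * B ^ 2 * Bg T a β β + 6 * A * B * C * Bg T a β γ + 3 * A * C ^ 2 * Bg T a γ γ +
      B ^ 3 * Bg T β β β + 3 * B ^ 2 * C * Bg T β β γ + 3 * B * C ^ 2 * Bg T β γ γ +
      C ^ 3 * Bg T γ γ γ := by
  have e1 : ∀ y z : σ → R, Bg T (fun i => A * a i + B * β i + C * γ i) y z =
      A * Bg T a y z + B * Bg T β y z + C * Bg T γ y z := by
    intro y z
    rw [Bg_add1 T (fun i => A * a i + B * β i) (fun i => C * γ i),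
      Bg_add1 T (fun i => A * a i) (fun i => B * β i), Bg_smul1, Bg_smul1, Bg_smul1]
  have e2 : ∀ y z : σ → R, Bg T y (fun i => A * a i + B * β i + C * γ i) z =
      A * Bg T y a z + B * Bg T y β z + C * Bg T y γ z := by
    intro y z
    rw [Bg_add2 T y (fun i => A * a i + B * β i) (fun i => C * γ i),
      Bg_add2 T y (fun i => A * a i) (fun i => B * β i), Bg_smul2, Bg_smul2, Bg_smul2]
  have e3 : ∀ y z : σ → R, Bg T y z (fun i => A * a i + B * β i + C * γ i) =
      A * Bg T y z a + B * Bg T y z β + C * Bg T y z γ := by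
    intro y z
    rw [Bg_add3 T y z (fun i => A * a i + B * β i) (fun i => C * γ i),
      Bg_add3 T y z (fun i => A * a i) (fun i => B * β i), Bg_smul3, Bg_smul3, Bg_smul3]
  simp only [e1, e2, e3]
  have s1 : Bg T a β a = Bg T a a β := Bg_swap23 hT _ _ _
  have s2 : Bg T β a a = Bg T a a β := by rw [Bg_swap12 hT, s1]
  have s3 : Bg T a γ a = Bg T a a γ := Bg_swap23 hT _ _ _
  have s4 : Bg T γ a a = Bg T a a γ := by rw [Bg_swap12 hT, s3]
  have s5 : Bg T β a β = Bg T a β β := Bg_swap12 hT _ _ _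
  have s6 : Bg T β β a = Bg T a β β := by rw [Bg_swap23 hT, s5]
  have s7 : Bg T γ a γ = Bg T a γ γ := Bg_swap12 hT _ _ _
  have s8 : Bg T γ γ a = Bg T a γ γ := by rw [Bg_swap23 hT, s7]
  have s9 : Bg T a γ β = Bg T a β γ := Bg_swap23 hT _ _ _
  have s10 : Bg T β a γ = Bg T a β γ := Bg_swap12 hT _ _ _
  have s11 : Bg T γ a β = Bg T a β γ := by rw [Bg_swap12 hT, s9]
  have s12 : Bg T β γ a = Bg T a β γ := by rw [Bg_swap23 hT, s10]
  have s13 : Bg T γ β a = Bg T a β γ := by rw [Bg_swap23 hT, s11]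
  have s14 : Bg T β γ β = Bg T β β γ := Bg_swap23 hT _ _ _
  have s15 : Bg T γ β β = Bg T β β γ := by rw [Bg_swap12 hT, s14]
  have s16 : Bg T γ β γ = Bg T β γ γ := Bg_swap12 hT _ _ _
  have s17 : Bg T γ γ β = Bg T β γ γ := by rw [Bg_swap23 hT, s16]
  simp only [s1, s2, s3, s4, s5, s6, s7, s8, s9, s10, s11, s12, s13, s14, s15, s16, s17]
  ring

/-- values of the trilinear form at points over a subfield -/
theorem Bg_mem {σ : Type} [Fintype σ] [DecidableEq σ] {M : Type} [Field M] [Algebra ℂ M]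
    (L : IntermediateField ℂ M) (T : σ → σ → σ → ℂ) (x y z : σ → M) (hx : ∀ i, x i ∈ L)
    (hy : ∀ i, y i ∈ L) (hz : ∀ i, z i ∈ L) : Bg T x y z ∈ L := by
  unfold Bg
  exact sum_mem fun i _ => sum_mem fun j _ => sum_mem fun k _ =>
    mul_mem (mul_mem (mul_mem (L.algebraMap_mem _) (hx i)) (hy j)) (hz k)

end

end Pool.Agent.R845.E3
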