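import Mathlib
import Pool.Agent.R845.E3.Cc

/-! # Project E3: conics which meet `W` (2) -/

set_option autoImplicit false

namespace Pool.Agent.R845.E3

open MvPolynomial Pool.Agent.TH314.PD Module Pool.Agent.Y201.C3

noncomputable section

/-- values on `W` -/
theorem vanW_aeval {k m : ℕ} {K : Type} [Field K] {F : MvPolynomial (Fin (k + 1 + (m + 1))) K}
    (hW : VanW F) {R : Type} [CommRing R] [Algebra K R] (u : Fin (k + 1) → R) :
    aeval (Fin.append u (0 : Fin (m + 1) → R)) F = 0 := by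
  have h1 := congrArg (aeval u) hW
  rw [map_zero, comp_aeval_apply] at h1
  rw [← h1]
  congr 2
  funext i
  refine Fin.addCases (fun j => ?_) (fun j => ?_) i
  · rw [Fin.append_left, Fin.append_left, aeval_X]
  · rw [Fin.append_right, Fin.append_right, Pi.zero_apply, Pi.zero_apply, map_zero]

/-- the shape of the cubic on the span of a conic -/
theorem conic_shape {N : ℕ} {F : MvPolynomial (Fin N) ℂ} (hF : F.IsHomogeneous 3)
    {M : Type} [Field M] [Algebra ℂ M] (L : IntermediateField ℂ M) (t : M)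
    (ht : Transcendental L t) (a β γ : Fin N → M) (ha : ∀ i, a i ∈ L) (hβ : ∀ i, β i ∈ L)
    (hγ : ∀ i, γ i ∈ L) (h0 : aeval (fun i => t ^ 2 * a i + t * β i + γ i) F = 0) :
    ∃ l1 l2 l3 : M, l1 ∈ L ∧ l2 ∈ L ∧ l3 ∈ L ∧
      aeval (fun j => Polynomial.C (t ^ 2 * a j + t * β j + γ j) +
        Polynomial.X * Polynomial.C (a j)) F =
        Polynomial.C (-(l1 * t ^ 2 + l2 * t + l3)) * Polynomial.X +
          Polynomial.C (-l1) * Polynomial.X ^ 2 := by
  classical
  obtain ⟨T, hT, hFT⟩ := exists_tri F hF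
  have hev : ∀ {R : Type} [CommRing R] [Algebra ℂ R] (v : Fin N → R),
      aeval v F = Bg T v v v := by
    intro R _ _ v
    conv_lhs => rw [hFT]
    exact aeval_frmG T v
  set e300 := Bg T a a a with h300
  set e210 := Bg T a a β with h210
  set e201 := Bg T a a γ with h201
  set e120 := Bg T a β β with h120
  set e111 := Bg T a β γ with h111
  set e102 := Bg T a γ γ with h102
  set e030 := Bg T β β β with h030
  set e021 := Bg T β β γ with h021
  set e012 := Bg T β γ γ with h012
  set e003 := Bg T γ γ γ with h003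
  have hsum : t ^ 6 * e300 + 3 * t ^ 5 * e210 + (3 * e201 + 3 * e120) * t ^ 4 +
      (6 * e111 + e030) * t ^ 3 + (3 * e102 + 3 * e021) * t ^ 2 + 3 * e012 * t + e003 = 0 := by
    have h1 := Bg_span3 hT a β γ (t ^ 2) t (1 : M)
    have h2 : (fun i => t ^ 2 * a i + t * β i + 1 * γ i) =
        fun i => t ^ 2 * a i + t * β i + γ i := by
      funext i
      ring
    rw [h2, ← hev, h0] at h1
    linear_combination -h1
  have m3 : (3 : M) ∈ L := by
    have h := L.algebraMap_mem (3 : ℂ)
    rwa [map_ofNat] at h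
  have m6 : (6 : M) ∈ L := by
    have h := L.algebraMap_mem (6 : ℂ)
    rwa [map_ofNat] at h
  have k300 : e300 ∈ L := Bg_mem L T _ _ _ ha ha ha
  have k210 : e210 ∈ L := Bg_mem L T _ _ _ ha ha hβ
  have k201 : e201 ∈ L := Bg_mem L T _ _ _ ha ha hγ
  have k120 : e120 ∈ L := Bg_mem L T _ _ _ ha hβ hβ
  have k111 : e111 ∈ L := Bg_mem L T _ _ _ ha hβ hγ
  have k102 : e102 ∈ L := Bg_mem L T _ _ _ ha hγ hγ
  have k030 : e030 ∈ L := Bg_mem L T _ _ _ hβ hβ hβ
  have k021 : e021 ∈ L := Bg_mem L T _ _ _ hβ hβ hγ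
  have k012 : e012 ∈ L := Bg_mem L T _ _ _ hβ hγ hγ
  have k003 : e003 ∈ L := Bg_mem L T _ _ _ hγ hγ hγ
  have hz := coeffs_zero L t ht ![e003, 3 * e012, 3 * e102 + 3 * e021, 6 * e111 + e030,
    3 * e201 + 3 * e120, 3 * e210, e300] (by
      intro i
      fin_cases i
      · exact k003
      · exact mul_mem m3 k012
      · exact add_mem (mul_mem m3 k102) (mul_mem m3 k021)
      · exact add_mem (mul_mem m6 k111) k030
      · exact add_mem (mul_mem m3 k201) (mul_mem m3 k120)
      · exact mul_mem m3 k210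
      · exact k300) (by
      simp only [Fin.sum_univ_succ, Fin.sum_univ_zero]
      simp
      linear_combination hsum)
  have z0 : e003 = 0 := hz 0
  have z1 : 3 * e012 = 0 := hz 1
  have z2 : 3 * e102 + 3 * e021 = 0 := hz 2
  have z3 : 6 * e111 + e030 = 0 := hz 3
  have z4 : 3 * e201 + 3 * e120 = 0 := hz 4
  have z5 : 3 * e210 = 0 := hz 5
  have z6 : e300 = 0 := hz 6
  refine ⟨3 * e120, e030, 3 * e021, mul_mem m3 k120, k030, mul_mem m3 k021, ?_⟩
  have hC : ∀ u v w : Fin N → M, Bg T (fun i => Polynomial.C (u i)) (fun i => Polynomial.C (v i))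
      (fun i => Polynomial.C (w i)) = Polynomial.C (Bg T u v w) := fun u v w =>
    (map_Bg (Polynomial.CAlgHom : M →ₐ[ℂ] Polynomial M) T u v w).symm
  have h2 : (fun j => Polynomial.C (t ^ 2 * a j + t * β j + γ j) +
        Polynomial.X * Polynomial.C (a j)) =
      fun j => (Polynomial.C t ^ 2 + Polynomial.X) * Polynomial.C (a j) +
        Polynomial.C t * Polynomial.C (β j) + 1 * Polynomial.C (γ j) := by
    funext j
    rw [map_add, map_add, map_mul, map_mul, map_pow]
    ring
  rw [h2, hev, Bg_span3 hT (fun i => Polynomial.C (a i)) (fun i => Polynomial.C (β i))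
    (fun i => Polynomial.C (γ i)), hC, hC, hC, hC, hC, hC, hC, hC, hC, hC]
  have c0 := congrArg Polynomial.C z0
  have c1 := congrArg Polynomial.C z1
  have c2 := congrArg Polynomial.C z2
  have c3 := congrArg Polynomial.C z3
  have c4 := congrArg Polynomial.C z4
  have c5 := congrArg Polynomial.C z5
  have c6 := congrArg Polynomial.C z6
  have o3 : Polynomial.C (3 : M) = 3 := rfl
  have o6 : Polynomial.C (6 : M) = 6 := rfl
  simp only [map_add, map_mul, map_neg, map_zero, map_pow, o3, o6] at c0 c1 c2 c3 c4 c5 c6 ⊢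
  linear_combination c0 + Polynomial.C t * c1 + (Polynomial.C t ^ 2 + Polynomial.X) * c2 +
    (Polynomial.C t ^ 2 + Polynomial.X) * Polynomial.C t * c3 +
    (Polynomial.C t ^ 2 + Polynomial.X) ^ 2 * c4 +
    (Polynomial.C t ^ 2 + Polynomial.X) ^ 2 * Polynomial.C t * c5 +
    (Polynomial.C t ^ 2 + Polynomial.X) ^ 3 * c6

end

end Pool.Agent.R845.E3
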