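import Mathlib
import Pool.Agent.R845.E3.Cc2

/-! # Project E3: linear changes of coordinates -/

set_option autoImplicit false

namespace Pool.Agent.R845.E3

open MvPolynomial Pool.Agent.TH314.PD Module

noncomputable section

/-- rows which form a basis of the row space -/
theorem rows {N P : ℕ} (hPN : P < N) (A : Fin N → Fin P → ℂ) (hA : A ≠ 0) :
    ∃ (k m : ℕ) (σ : Fin (k + 1 + (m + 1)) ≃ Fin N) (U : Fin (k + 1) → Fin (m + 1) → ℂ),
      LinearIndependent ℂ (fun i : Fin (k + 1) => A (σ (Fin.castAdd (m + 1) i))) ∧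
      ∀ j l, A (σ (Fin.natAdd (k + 1) j)) l =
        ∑ i, U i j * A (σ (Fin.castAdd (m + 1) i)) l := by
  classical
  obtain ⟨κ, a, ha, hspan, hli⟩ := exists_linearIndependent' ℂ A
  have : Finite κ := Finite.of_injective a ha
  have : Fintype κ := Fintype.ofFinite κ
  set I : Finset (Fin N) := Finset.univ.image a with hI
  have hIc : I.card = Fintype.card κ := Finset.card_image_of_injective _ ha
  have hk1 : 1 ≤ Fintype.card κ := by
    rw [Nat.succ_le_iff, Fintype.card_pos_iff]
    by_contra hemp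
    rw [not_nonempty_iff] at hemp
    apply hA
    have h1 : Submodule.span ℂ (Set.range A) = ⊥ := by
      rw [← hspan, Set.range_eq_empty, Submodule.span_empty]
    funext i
    have h2 : A i ∈ Submodule.span ℂ (Set.range A) := Submodule.subset_span ⟨i, rfl⟩
    rw [h1, Submodule.mem_bot] at h2
    exact h2
  have hk2 : Fintype.card κ ≤ P := by
    have := hli.fintype_card_le_finrank
    rwa [Module.finrank_fin_fun] at this
  obtain ⟨k, hk⟩ := Nat.exists_eq_add_of_le' hk1
  obtain ⟨m, hm⟩ : ∃ m, N = k + 1 + (m + 1) := ⟨N - (k + 1) - 1, by omega⟩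
  have hc1 : I.card = k + 1 := by rw [hIc, hk]
  have hc2 : Iᶜ.card = m + 1 := by
    rw [Finset.card_compl, hc1, Fintype.card_fin]
    omega
  let σ' : Fin (k + 1) ⊕ Fin (m + 1) ≃ Fin N := finSumEquivOfFinset hc1 hc2
  let σ : Fin (k + 1 + (m + 1)) ≃ Fin N := finSumFinEquiv.symm.trans σ'
  have hσl : ∀ i : Fin (k + 1), σ (Fin.castAdd (m + 1) i) ∈ I := by
    intro i
    have h1 : σ (Fin.castAdd (m + 1) i) = σ' (Sum.inl i) := by
      simp only [σ, Equiv.trans_apply, finSumFinEquiv_symm_apply_castAdd]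
    rw [h1]
    simp only [σ', finSumEquivOfFinset_inl]
    exact Finset.orderEmbOfFin_mem _ _ _
  have hcov : ∀ i ∈ I, ∃ i' : Fin (k + 1), σ (Fin.castAdd (m + 1) i') = i := by
    have h1 : Finset.univ.image (fun i : Fin (k + 1) => σ (Fin.castAdd (m + 1) i)) = I := by
      apply Finset.eq_of_subset_of_card_le
      · intro z hz
        rw [Finset.mem_image] at hz
        obtain ⟨i, -, rfl⟩ := hz
        exact hσl i
      · have hinj : Function.Injective (fun i : Fin (k + 1) => σ (Fin.castAdd (m + 1) i)) := by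
          intro i j hij
          exact Fin.castAdd_injective _ _ (σ.injective hij)
        rw [hc1, Finset.card_image_of_injective _ hinj, Finset.card_univ, Fintype.card_fin]
    intro i hi
    rw [← h1, Finset.mem_image] at hi
    obtain ⟨i', -, h⟩ := hi
    exact ⟨i', h⟩
  have hIa : ∀ i ∈ I, ∃ c, a c = i := by
    intro i hi
    rw [hI, Finset.mem_image] at hi
    obtain ⟨c, -, h⟩ := hi
    exact ⟨c, h⟩
  choose g hg using fun i : Fin (k + 1) => hIa _ (hσl i)
  have hginj : Function.Injective g := by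
    intro i j hij
    have : σ (Fin.castAdd (m + 1) i) = σ (Fin.castAdd (m + 1) j) := by
      rw [← hg, ← hg, hij]
    exact Fin.castAdd_injective _ _ (σ.injective this)
  have hli2 : LinearIndependent ℂ (fun i : Fin (k + 1) => A (σ (Fin.castAdd (m + 1) i))) := by
    have h1 := hli.comp g hginj
    have h2 : (A ∘ a) ∘ g = fun i : Fin (k + 1) => A (σ (Fin.castAdd (m + 1) i)) := by
      funext i
      simp only [Function.comp_apply]
      rw [hg]
    rw [h2] at h1
    exact h1
  have hsp : ∀ i, A i ∈ Submodule.span ℂ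
      (Set.range fun i : Fin (k + 1) => A (σ (Fin.castAdd (m + 1) i))) := by
    intro i
    have h1 : A i ∈ Submodule.span ℂ (Set.range A) := Submodule.subset_span ⟨i, rfl⟩
    rw [← hspan] at h1
    refine (Submodule.span_mono ?_) h1
    rintro _ ⟨c, rfl⟩
    obtain ⟨i', hi'⟩ := hcov (a c) (Finset.mem_image_of_mem _ (Finset.mem_univ c))
    exact ⟨i', by simp only [Function.comp_apply]; rw [hi']⟩
  choose c hc using fun i => (Submodule.mem_span_range_iff_exists_fun ℂ).1 (hsp i)
  refine ⟨k, m, σ, fun i j => c (σ (Fin.natAdd (k + 1) j)) i, hli2, fun j l => ?_⟩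
  have h1 := congrFun (hc (σ (Fin.natAdd (k + 1) j))) l
  rw [← h1, Finset.sum_apply]
  rfl

variable {k m : ℕ}

/-- the transformed point -/
def tp {R : Type} [CommRing R] [Algebra ℂ R] (U : Fin (k + 1) → Fin (m + 1) → ℂ)
    (x : Fin (k + 1 + (m + 1)) → R) : Fin (k + 1 + (m + 1)) → R :=
  Fin.append (fun i => x (Fin.castAdd (m + 1) i))
    (fun j => x (Fin.natAdd (k + 1) j) - ∑ i, algebraMap ℂ R (U i j) * x (Fin.castAdd (m + 1) i))

theorem aeval_shear {R : Type} [CommRing R] [Algebra ℂ R] (U : Fin (k + 1) → Fin (m + 1) → ℂ)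
    (F : MvPolynomial (Fin (k + 1 + (m + 1))) ℂ) (x : Fin (k + 1 + (m + 1)) → R) :
    aeval x (shear U F) = aeval (Fin.append (fun i => x (Fin.castAdd (m + 1) i))
      (fun j => x (Fin.natAdd (k + 1) j) +
        ∑ i, algebraMap ℂ R (U i j) * x (Fin.castAdd (m + 1) i))) F := by
  unfold shear
  rw [comp_aeval_apply]
  congr 2
  funext i
  refine Fin.addCases (fun j => ?_) (fun j => ?_) i
  · rw [Fin.append_left, Fin.append_left, aeval_X]
  · rw [Fin.append_right, Fin.append_right, map_add, aeval_X, map_sum]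
    simp only [map_mul, aeval_X, aeval_C]

theorem aeval_tp {R : Type} [CommRing R] [Algebra ℂ R] (U : Fin (k + 1) → Fin (m + 1) → ℂ)
    (F : MvPolynomial (Fin (k + 1 + (m + 1))) ℂ) (x : Fin (k + 1 + (m + 1)) → R) :
    aeval (tp U x) (shear U F) = aeval x F := by
  rw [aeval_shear]
  congr 2
  funext i
  refine Fin.addCases (fun j => ?_) (fun j => ?_) i
  · rw [Fin.append_left]
    unfold tp
    rw [Fin.append_left]
  · rw [Fin.append_right]
    unfold tp
    simp only [Fin.append_right, Fin.append_left]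
    ring

theorem shear_neg_shear (U : Fin (k + 1) → Fin (m + 1) → ℂ)
    (F : MvPolynomial (Fin (k + 1 + (m + 1))) ℂ) :
    shear U (shear (fun i j => -U i j) F) = F := by
  conv_lhs => unfold shear
  rw [comp_aeval_apply]
  conv_rhs => rw [← aeval_X_left_apply F]
  congr 2
  funext i
  refine Fin.addCases (fun j => ?_) (fun j => ?_) i
  · rw [Fin.append_left, aeval_X, Fin.append_left]
  · rw [Fin.append_right, map_add, aeval_X, Fin.append_right, map_sum]
    simp only [map_mul, aeval_X, aeval_C, Fin.append_left, map_neg, algebraMap_eq]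
    simp only [neg_mul, Finset.sum_neg_distrib]
    ring

theorem aeval_shear_neg {R : Type} [CommRing R] [Algebra ℂ R]
    (U : Fin (k + 1) → Fin (m + 1) → ℂ) (H : MvPolynomial (Fin (k + 1 + (m + 1))) ℂ)
    (x : Fin (k + 1 + (m + 1)) → R) :
    aeval x (shear (fun i j => -U i j) H) = aeval (tp U x) H := by
  rw [aeval_shear]
  congr 2
  funext i
  refine Fin.addCases (fun j => ?_) (fun j => ?_) i
  · unfold tp
    rw [Fin.append_left, Fin.append_left]
  · unfold tp
    rw [Fin.append_right, Fin.append_right]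
    simp only [map_neg, neg_mul, Finset.sum_neg_distrib]
    ring

theorem shear_hom {d : ℕ} {F : MvPolynomial (Fin (k + 1 + (m + 1))) ℂ} (hF : F.IsHomogeneous d)
    (U : Fin (k + 1) → Fin (m + 1) → ℂ) : (shear U F).IsHomogeneous d := by
  unfold shear
  have h := hF.aeval (Fin.append (fun i => X (Fin.castAdd (m + 1) i))
    (fun j => X (Fin.natAdd (k + 1) j) +
      ∑ i, C (U i j) * X (Fin.castAdd (m + 1) i)) :
      Fin (k + 1 + (m + 1)) → MvPolynomial (Fin (k + 1 + (m + 1))) ℂ) (n := 1) (fun i => by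
    refine Fin.addCases (fun j => ?_) (fun j => ?_) i
    · rw [Fin.append_left]
      exact isHomogeneous_X _ _
    · rw [Fin.append_right]
      refine (isHomogeneous_X _ _).add (IsHomogeneous.sum _ _ _ fun i _ => ?_)
      exact (isHomogeneous_X ℂ _).C_mul _)
  rwa [one_mul] at h

theorem shear_dvd {F H : MvPolynomial (Fin (k + 1 + (m + 1))) ℂ}
    (U : Fin (k + 1) → Fin (m + 1) → ℂ) (h : F ∣ H) : shear U F ∣ shear U H := by
  obtain ⟨Q, rfl⟩ := h
  exact ⟨shear U Q, by unfold shear; rw [map_mul]⟩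

theorem gp_tp {M : Type} [Field M] [Algebra ℂ M] {F : MvPolynomial (Fin (k + 1 + (m + 1))) ℂ}
    (U : Fin (k + 1) → Fin (m + 1) → ℂ) {x : Fin (k + 1 + (m + 1)) → M} (h : Gp F x) :
    Gp (shear U F) (tp U x) := by
  refine ⟨by rw [aeval_tp]; exact h.1, fun e H hH h0 => ?_⟩
  rw [← aeval_shear_neg] at h0
  have h1 := shear_dvd U (h.2 e _ (shear_hom hH _) h0)
  rwa [shear_neg_shear] at h1

/-- linear changes of coordinates do not change the field of ratios -/
theorem ratioField_le {M : Type} [Field M] [Algebra ℂ M] {N N' : ℕ} (x : Fin N → M)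
    (hx : ∃ b, x b ≠ 0) (y : Fin N' → M)
    (hy : ∀ i, ∃ H : MvPolynomial (Fin N) ℂ, H.IsHomogeneous 1 ∧ y i = aeval x H) :
    ratioField y ≤ ratioField x := by
  unfold ratioField
  rw [IntermediateField.adjoin_le_iff]
  rintro _ ⟨i, j, rfl⟩
  obtain ⟨H, hH, h1⟩ := hy i
  obtain ⟨H', hH', h2⟩ := hy j
  rw [h1, h2]
  exact ratio_mem x hx hH hH'

theorem ratioField_tp {M : Type} [Field M] [Algebra ℂ M] (U : Fin (k + 1) → Fin (m + 1) → ℂ)
    (x : Fin (k + 1 + (m + 1)) → M) (hx : ∃ b, x b ≠ 0) (hy : ∃ b, tp U x b ≠ 0) :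
    ratioField (tp U x) = ratioField x := by
  apply le_antisymm
  · refine ratioField_le x hx _ fun i => ⟨shear (fun i j => -U i j) (X i),
      shear_hom (isHomogeneous_X _ _) _, ?_⟩
    rw [aeval_shear_neg, aeval_X]
  · refine ratioField_le _ hy _ fun i => ⟨shear U (X i), shear_hom (isHomogeneous_X _ _) _, ?_⟩
    rw [aeval_tp, aeval_X]

end

end Pool.Agent.R845.E3
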