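import Mathlib
import Pool.Agent.R845.E3.Stm

/-! # Project E3: dominant maps of odd degree given by cubic polynomials (statements) -/

set_option autoImplicit false

namespace Pool.Agent.R845.E3

open MvPolynomial Pool.Agent.TH314.PD IntermediateField Module

noncomputable section

/-- the field of rational functions in `n` variables -/
abbrev Rn (n : ℕ) : Type := FractionRing (MvPolynomial (Fin n) ℂ)

/-- the values at the generic point `(1, t_1, ..., t_n)` -/
def dh {n N : ℕ} (H : Fin N → MvPolynomial (Fin (n + 1)) ℂ) : Fin N → Rn n := fun i =>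
  algebraMap (MvPolynomial (Fin n) ℂ) (Rn n)
    (aeval (Fin.cons 1 X : Fin (n + 1) → MvPolynomial (Fin n) ℂ) (H i))

/-- job BAS: cubic forms without a common zero give a map of large degree -/
def S_BAS : Prop :=
  ∀ (n : ℕ) (F : MvPolynomial (Fin (n + 2)) ℂ), F.IsHomogeneous 3 → F ≠ 0 →
    ∀ H : Fin (n + 2) → MvPolynomial (Fin (n + 1)) ℂ, (∀ i, (H i).IsHomogeneous 3) →
    (∀ b : Fin (n + 1) → ℂ, (∀ i, eval b (H i) = 0) → b = 0) → aeval H F = 0 →
    FiniteDimensional (ratioField (dh H)) (Rn n) →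
    3 ^ n ≤ 3 * finrank (ratioField (dh H)) (Rn n)

/-- job CON: the conics given by the lines through a base point -/
def S_CON : Prop :=
  ∀ (n : ℕ), 1 ≤ n → ∀ F : MvPolynomial (Fin (n + 2)) ℂ, F.IsHomogeneous 3 →
    ∀ H : Fin (n + 2) → MvPolynomial (Fin (n + 1)) ℂ, (∀ i, (H i).IsHomogeneous 3) →
    aeval H F = 0 → ∀ b : Fin (n + 1) → ℂ, b ≠ 0 → (∀ i, eval b (H i) = 0) →
    ∃ A : Fin (n + 2) → Fin (n + 1) → ℂ, (∀ a : Fin (n + 1) → ℂ,
        eval (fun i => ∑ l, a l * A i l) F = 0) ∧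
      ∃ (L : IntermediateField ℂ (Rn n)) (t s : Rn n), Transcendental L t ∧ s ≠ 0 ∧
        ∃ (w : Fin (n + 1) → Rn n) (β γ : Fin (n + 2) → Rn n),
          (∀ i, w i ∈ L) ∧ (∀ i, β i ∈ L) ∧ (∀ i, γ i ∈ L) ∧
          ∀ i, s * dh H i = t ^ 2 * (∑ l, w l * algebraMap ℂ (Rn n) (A i l)) + t * β i + γ i

end

end Pool.Agent.R845.E3
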