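import Mathlib
import Pool.Agent.R845.E3.Lin
import Pool.Agent.R845.E3.Stm2

/-! # Project E3: linear changes of coordinates (2) -/

set_option autoImplicit false

namespace Pool.Agent.R845.E3

open MvPolynomial Pool.Agent.TH314.PD Module

noncomputable section

variable {k m : ℕ}

theorem sm_shear {F : MvPolynomial (Fin (k + 1 + (m + 1))) ℂ} (hF : Sm F)
    (U : Fin (k + 1) → Fin (m + 1) → ℂ) : Sm (shear U F) := by
  classical
  intro z hz
  set G : Fin (k + 1 + (m + 1)) → MvPolynomial (Fin (k + 1 + (m + 1))) ℂ :=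
    Fin.append (fun i => X (Fin.castAdd (m + 1) i))
      (fun j => X (Fin.natAdd (k + 1) j) + ∑ i, C (U i j) * X (Fin.castAdd (m + 1) i)) with hG
  set v : Fin (k + 1 + (m + 1)) → ℂ := fun i => eval z (G i) with hv
  have hGc : ∀ i, G (Fin.castAdd (m + 1) i) = X (Fin.castAdd (m + 1) i) := by
    intro i
    rw [hG, Fin.append_left]
  have hGn : ∀ j, G (Fin.natAdd (k + 1) j) = X (Fin.natAdd (k + 1) j) +
      ∑ i, C (U i j) * X (Fin.castAdd (m + 1) i) := by
    intro j
    rw [hG, Fin.append_right]
  have hev : ∀ P : MvPolynomial (Fin (k + 1 + (m + 1))) ℂ, eval z (aeval G P) = eval v P := by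
    intro P
    have h1 := comp_aeval_apply (f := G) (aeval z) P
    rw [aeval_eq_eval] at h1
    rw [h1]
    rfl
  have hch : ∀ l, ∑ i, eval v (pderiv i F) * eval z (pderiv l (G i)) = 0 := by
    intro l
    have h1 := chain_rule (pderiv l) G F
    have h2 := congrArg (eval z) h1
    rw [map_sum] at h2
    rw [show aeval G F = shear U F from rfl, hz l] at h2
    rw [h2]
    refine Finset.sum_congr rfl fun i _ => ?_
    rw [map_mul, hev]
  have hn : ∀ j, eval v (pderiv (Fin.natAdd (k + 1) j) F) = 0 := by
    intro j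
    have h1 := hch (Fin.natAdd (k + 1) j)
    rw [Fin.sum_univ_add] at h1
    have h2 : ∀ i : Fin (k + 1), eval v (pderiv (Fin.castAdd (m + 1) i) F) *
        eval z (pderiv (Fin.natAdd (k + 1) j) (G (Fin.castAdd (m + 1) i))) = 0 := by
      intro i
      rw [hGc, pderiv_X_of_ne, map_zero, mul_zero]
      intro h
      have := congrArg Fin.val h
      simp at this
      omega
    have h3 : ∀ i : Fin (m + 1), eval v (pderiv (Fin.natAdd (k + 1) i) F) *
        eval z (pderiv (Fin.natAdd (k + 1) j) (G (Fin.natAdd (k + 1) i))) =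
        if i = j then eval v (pderiv (Fin.natAdd (k + 1) j) F) else 0 := by
      intro i
      rw [hGn, map_add, map_sum]
      have h4 : ∀ a : Fin (k + 1), pderiv (Fin.natAdd (k + 1) j)
          (C (U a i) * X (Fin.castAdd (m + 1) a) :
            MvPolynomial (Fin (k + 1 + (m + 1))) ℂ) = 0 := by
        intro a
        rw [pderiv_C_mul, pderiv_X_of_ne, mul_zero]
        intro h
        have := congrArg Fin.val h
        simp at this
        omega
      rw [Finset.sum_eq_zero fun a _ => h4 a, add_zero]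
      by_cases hij : i = j
      · rw [if_pos hij, hij, pderiv_X_self, map_one, mul_one]
      · rw [if_neg hij, pderiv_X_of_ne, map_zero, mul_zero]
        intro h
        exact hij ((Fin.natAdd_injective _ _) h)
    rw [Finset.sum_eq_zero fun i _ => h2 i, Finset.sum_congr rfl fun i _ => h3 i,
      Finset.sum_ite_eq' Finset.univ j] at h1
    simpa using h1
  have hc : ∀ i, eval v (pderiv (Fin.castAdd (m + 1) i) F) = 0 := by
    intro i
    have h1 := hch (Fin.castAdd (m + 1) i)
    rw [Fin.sum_univ_add] at h1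
    have h2 : ∀ a : Fin (k + 1), eval v (pderiv (Fin.castAdd (m + 1) a) F) *
        eval z (pderiv (Fin.castAdd (m + 1) i) (G (Fin.castAdd (m + 1) a))) =
        if a = i then eval v (pderiv (Fin.castAdd (m + 1) i) F) else 0 := by
      intro a
      rw [hGc]
      by_cases hai : a = i
      · rw [if_pos hai, hai, pderiv_X_self, map_one, mul_one]
      · rw [if_neg hai, pderiv_X_of_ne, map_zero, mul_zero]
        intro h
        exact hai ((Fin.castAdd_injective _ _) h)
    have h3 : ∀ a : Fin (m + 1), eval v (pderiv (Fin.natAdd (k + 1) a) F) *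
        eval z (pderiv (Fin.castAdd (m + 1) i) (G (Fin.natAdd (k + 1) a))) = 0 := by
      intro a
      rw [hn, zero_mul]
    rw [Finset.sum_eq_zero fun i _ => h3 i, Finset.sum_congr rfl fun i _ => h2 i,
      Finset.sum_ite_eq' Finset.univ i] at h1
    simpa using h1
  have hv0 : v = 0 := hF v fun i => by
    refine Fin.addCases (fun j => ?_) (fun j => ?_) i
    · exact hc j
    · exact hn j
  have hzc : ∀ i, z (Fin.castAdd (m + 1) i) = 0 := by
    intro i
    have h1 := congrFun hv0 (Fin.castAdd (m + 1) i)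
    simp only [hv, hGc, eval_X, Pi.zero_apply] at h1
    exact h1
  funext i
  refine Fin.addCases (fun j => ?_) (fun j => ?_) i
  · exact hzc j
  · have h1 := congrFun hv0 (Fin.natAdd (k + 1) j)
    simp only [hv, hGn, map_add, map_sum, map_mul, eval_X, eval_C, Pi.zero_apply, hzc, mul_zero,
      Finset.sum_const_zero, add_zero] at h1
    exact h1

theorem sm_rename {N N' : ℕ} (σ : Fin N ≃ Fin N') {F : MvPolynomial (Fin N) ℂ} (hF : Sm F) :
    Sm (rename σ F) := by
  intro z hz
  have h1 : (fun i => z (σ i)) = 0 := hF _ fun i => by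
    have h2 := hz (σ i)
    rw [pderiv_rename σ.injective, eval_rename] at h2
    exact h2
  funext i
  have h3 := congrFun h1 (σ.symm i)
  simp only [Equiv.apply_symm_apply, Pi.zero_apply] at h3
  exact h3

theorem gp_rename {N N' : ℕ} (σ : Fin N ≃ Fin N') {F : MvPolynomial (Fin N) ℂ} {M : Type}
    [Field M] [Algebra ℂ M] {x : Fin N → M} (h : Gp F x) :
    Gp (rename σ F) (fun i => x (σ.symm i)) := by
  have hx : ∀ P : MvPolynomial (Fin N) ℂ, aeval (fun i => x (σ.symm i)) (rename σ P) =
      aeval x P := by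
    intro P
    rw [aeval_rename]
    congr 2
    funext i
    simp only [Function.comp_apply, Equiv.symm_apply_apply]
  refine ⟨by rw [hx]; exact h.1, fun e H hH h0 => ?_⟩
  have h1 : H = rename σ (rename σ.symm H) := by
    rw [rename_rename]
    have : (σ ∘ σ.symm : Fin N' → Fin N') = id := by
      funext i
      simp
    rw [this, rename_id_apply]
  have h2 : F ∣ rename σ.symm H := by
    apply h.2 e _ (hH.rename_isHomogeneous)
    rw [← hx, ← h1]
    exact h0
  rw [h1]
  obtain ⟨Q, hQ⟩ := h2
  exact ⟨rename σ Q, by rw [hQ, map_mul]⟩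

theorem ratioField_perm {N N' : ℕ} (σ : Fin N ≃ Fin N') {M : Type}
    [Field M] [Algebra ℂ M] (x : Fin N → M) :
    ratioField (fun i => x (σ.symm i)) = ratioField x := by
  unfold ratioField
  congr 1
  ext z
  constructor
  · rintro ⟨i, j, rfl⟩
    exact ⟨_, _, rfl⟩
  · rintro ⟨i, j, rfl⟩
    exact ⟨σ i, σ j, by simp only [Equiv.symm_apply_apply]⟩

theorem ind_rename {N N' : ℕ} (σ : Fin N ≃ Fin N') {F : MvPolynomial (Fin N) ℂ}
    (h : AlgebraicIndependent ℚ (fun β : {β : Fin N →₀ ℕ // β.degree = 3} => coeff β.1 F)) :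
    AlgebraicIndependent ℚ
      (fun β : {β : Fin N' →₀ ℕ // β.degree = 3} => coeff β.1 (rename σ F)) := by
  have hmap : ∀ β : Fin N' →₀ ℕ, Finsupp.mapDomain σ (Finsupp.mapDomain σ.symm β) = β := by
    intro β
    rw [← Finsupp.mapDomain_comp]
    have : (σ ∘ σ.symm : Fin N' → Fin N') = id := by
      funext i
      simp
    rw [this, Finsupp.mapDomain_id]
  let e : {β : Fin N' →₀ ℕ // β.degree = 3} → {β : Fin N →₀ ℕ // β.degree = 3} := fun β =>
    ⟨Finsupp.mapDomain σ.symm β.1, by rw [Finsupp.degree_mapDomain]; exact β.2⟩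
  have he : Function.Injective e := by
    intro β β' h1
    have h2 := congrArg (fun β : {β : Fin N →₀ ℕ // β.degree = 3} =>
      Finsupp.mapDomain σ β.1) h1
    simp only [e] at h2
    rw [hmap, hmap] at h2
    exact Subtype.ext h2
  have h3 := h.comp e he
  convert h3 using 1
  funext β
  simp only [Function.comp_apply, e]
  conv_lhs => rw [← hmap β.1]
  rw [coeff_rename_mapDomain _ σ.injective]

theorem tp_lin {M : Type} [Field M] [Algebra ℂ M] (U : Fin (k + 1) → Fin (m + 1) → ℂ) (a b : M)
    (x y z : Fin (k + 1 + (m + 1)) → M) :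
    tp U (fun i => a * x i + b * y i + z i) = fun i => a * tp U x i + b * tp U y i + tp U z i := by
  funext i
  unfold tp
  refine Fin.addCases (fun j => ?_) (fun j => ?_) i
  · simp only [Fin.append_left]
  · simp only [Fin.append_right]
    have h : ∑ i, algebraMap ℂ M (U i j) * (a * x (Fin.castAdd (m + 1) i) +
        b * y (Fin.castAdd (m + 1) i) + z (Fin.castAdd (m + 1) i)) =
        a * ∑ i, algebraMap ℂ M (U i j) * x (Fin.castAdd (m + 1) i) +
        b * ∑ i, algebraMap ℂ M (U i j) * y (Fin.castAdd (m + 1) i) +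
        ∑ i, algebraMap ℂ M (U i j) * z (Fin.castAdd (m + 1) i) := by
      rw [Finset.mul_sum, Finset.mul_sum, ← Finset.sum_add_distrib, ← Finset.sum_add_distrib]
      refine Finset.sum_congr rfl fun i _ => ?_
      ring
    rw [h]
    ring

theorem tp_mem {M : Type} [Field M] [Algebra ℂ M] (U : Fin (k + 1) → Fin (m + 1) → ℂ)
    (L : IntermediateField ℂ M) (x : Fin (k + 1 + (m + 1)) → M) (hx : ∀ i, x i ∈ L) :
    ∀ i, tp U x i ∈ L := by
  intro i
  unfold tp
  refine Fin.addCases (fun j => ?_) (fun j => ?_) i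
  · rw [Fin.append_left]
    exact hx _
  · rw [Fin.append_right]
    exact sub_mem (hx _) (sum_mem fun i _ => mul_mem (L.algebraMap_mem _) (hx _))

end

end Pool.Agent.R845.E3
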