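import Mathlib
import Pool.Agent.TH314.PD.Final
import Pool.Agent.R845.E3.Lin2

/-! # Project E3: main theorem -/

set_option autoImplicit false

namespace Pool.Agent.R845.E3

open MvPolynomial Pool.Agent.TH314.PD Module

noncomputable section

/-- homogenization to degree three -/
theorem hom3 {n : ℕ} (A : MvPolynomial (Fin n) ℂ) (hA : A.totalDegree ≤ 3) :
    ∃ A' : MvPolynomial (Fin (n + 1)) ℂ, A'.IsHomogeneous 3 ∧
      aeval (Fin.cons 1 X : Fin (n + 1) → MvPolynomial (Fin n) ℂ) A' = A := by
  obtain ⟨A', h1, h2⟩ := homogenize A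
  refine ⟨A' * X 0 ^ (3 - A.totalDegree), ?_, ?_⟩
  · have h3 := h1.mul ((isHomogeneous_X ℂ (0 : Fin (n + 1))).pow (3 - A.totalDegree))
    rwa [show A.totalDegree + 1 * (3 - A.totalDegree) = 3 by omega] at h3
  · rw [map_mul, map_pow, aeval_X, Fin.cons_zero, one_pow, mul_one, h2, aeval_X_left_apply]

/-- a form is determined by its dehomogenization -/
theorem hom_zero {n e : ℕ} {P : MvPolynomial (Fin (n + 1)) ℂ} (hP : P.IsHomogeneous e)
    (h : aeval (Fin.cons 1 X : Fin (n + 1) → MvPolynomial (Fin n) ℂ) P = 0) : P = 0 := by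
  let al : MvPolynomial (Fin n) ℂ →ₐ[ℂ] Rn n := IsScalarTower.toAlgHom ℂ _ _
  have hal : Function.Injective al := IsFractionRing.injective (MvPolynomial (Fin n) ℂ) _
  let z : Fin (n + 1) → Rn n := fun i =>
    al ((Fin.cons 1 X : Fin (n + 1) → MvPolynomial (Fin n) ℂ) i)
  have hz0 : z 0 = 1 := by
    simp only [z, Fin.cons_zero, map_one]
  have h1 : aeval z P = 0 := by
    rw [← comp_aeval_apply, h, map_zero]
  refine Pool.Agent.R845.T2.Fd.eq_zero_of_indep hP z (b := 0) (by rw [hz0]; exact one_ne_zero)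
    ?_ h1
  have h2 : (fun l : Fin n => z ((0 : Fin (n + 1)).succAbove l) / z 0) =
      fun l => al (X l) := by
    funext l
    rw [hz0, div_one, Fin.zero_succAbove]
    simp only [z, Fin.cons_succ]
  rw [h2]
  exact (algebraicIndependent_X (Fin n) ℂ).map' (f := al) hal

theorem pow_gt (n : ℕ) (hn : 1 ≤ n) : n + 1 < 3 ^ n := by
  induction n, hn using Nat.le_induction with
  | base => norm_num
  | succ n _ ih =>
    rw [pow_succ]
    omega

theorem no_odd (cc : S_CC) (at_ : S_AT) (bas : S_BAS) (con : S_CON) {n : ℕ} (hn : 3 ≤ n)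
    {F : MvPolynomial (Fin (n + 2)) ℂ} (hF : F.IsHomogeneous 3) (hsm : Sm F)
    (hind : AlgebraicIndependent ℚ
      (fun β : {β : Fin (n + 2) →₀ ℕ // β.degree = 3} => coeff β.1 F))
    (G : Fin (n + 2) → MvPolynomial (Fin n) ℂ) (hG : ∀ i, (G i).totalDegree ≤ 3)
    (hgp : Gp F (fun i => algebraMap (MvPolynomial (Fin n) ℂ) (Rn n) (G i))) :
    Even (finrank (ratioField fun i => algebraMap (MvPolynomial (Fin n) ℂ) (Rn n) (G i))
      (Rn n)) := by
  classical
  rw [← Nat.not_odd_iff_even]
  intro hodd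
  choose H hH hHG using fun i => hom3 (G i) (hG i)
  have hdh : dh H = fun i => algebraMap (MvPolynomial (Fin n) ℂ) (Rn n) (G i) := by
    funext i
    unfold dh
    rw [hHG]
  have hF0 : F ≠ 0 := ne_zero_of_smooth (m := n + 1) hsm
  let al : MvPolynomial (Fin n) ℂ →ₐ[ℂ] Rn n := IsScalarTower.toAlgHom ℂ _ _
  have hal : Function.Injective al := IsFractionRing.injective (MvPolynomial (Fin n) ℂ) _
  have halG : ∀ P : MvPolynomial (Fin (n + 2)) ℂ,
      aeval (fun i => algebraMap (MvPolynomial (Fin n) ℂ) (Rn n) (G i)) P = al (aeval G P) := by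
    intro P
    rw [comp_aeval_apply]
    rfl
  have hFG : aeval G F = 0 := hal (by rw [← halG, hgp.1, map_zero])
  have hdom : ∀ e (P : MvPolynomial (Fin (n + 2)) ℂ), P.IsHomogeneous e → aeval G P = 0 →
      F ∣ P := by
    intro e P hP h0
    exact hgp.2 e P hP (by rw [halG, h0, map_zero])
  obtain ⟨hfin, hb⟩ := bound (k := 3) (by norm_num) F hF hsm G hG hFG hdom
  have hb3 : 3 * finrank (ratioField fun i => algebraMap (MvPolynomial (Fin n) ℂ) (Rn n) (G i))
      (Rn n) ≤ n + 1 := by
    have h1 : finrank (ratioField fun i => algebraMap (MvPolynomial (Fin n) ℂ) (Rn n) (G i))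
      (Rn n) * (3 * 2 ^ n) ≤ (n + 1) * 2 ^ n := hb
    rw [← mul_assoc] at h1
    have h2 := Nat.le_of_mul_le_mul_right h1 (by positivity)
    omega
  have hHF : aeval H F = 0 := by
    have h1 : (aeval H F).IsHomogeneous (3 * 3) := hF.aeval H hH
    refine hom_zero h1 ?_
    rw [comp_aeval_apply]
    rw [show (fun i => aeval (Fin.cons 1 X : Fin (n + 1) → MvPolynomial (Fin n) ℂ) (H i)) = G
      from funext hHG]
    exact hFG
  -- a base point
  obtain ⟨b, hb0, hbH⟩ : ∃ b : Fin (n + 1) → ℂ, b ≠ 0 ∧ ∀ i, eval b (H i) = 0 := by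
    by_contra hcon
    push Not at hcon
    have h1 := bas n F hF hF0 H hH (fun b hb => by
      by_contra hb0
      obtain ⟨i, hi⟩ := hcon b hb0
      exact hi (hb i)) hHF (by rw [hdh]; exact hfin)
    rw [hdh] at h1
    have h2 := pow_gt n (by omega)
    omega
  obtain ⟨A, hA, L, t, s, ht, hs, w, β, γ, hw, hβ, hγ, hx⟩ :=
    con n (by omega) F hF H hH hHF b hb0 hbH
  -- the point
  set v : Fin (n + 2) → Rn n := fun i => ∑ l, w l * algebraMap ℂ (Rn n) (A i l) with hv
  have hvL : ∀ i, v i ∈ L := fun i => sum_mem fun l _ => mul_mem (hw l) (L.algebraMap_mem _)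
  set x : Fin (n + 2) → Rn n := fun i => t ^ 2 * v i + t * β i + γ i with hxd
  have hxs : x = fun i => s * dh H i := by
    funext i
    rw [hx i]
  have hxG : Gp F x := by
    rw [hxs, hdh]
    refine ⟨by rw [aeval_smul_form hF, hgp.1, mul_zero], fun e P hP h0 => ?_⟩
    rw [aeval_smul_form hP] at h0
    exact hgp.2 e P hP ((mul_eq_zero.1 h0).resolve_left (pow_ne_zero _ hs))
  have hxr : ratioField x = ratioField fun i =>
      algebraMap (MvPolynomial (Fin n) ℂ) (Rn n) (G i) := by
    rw [← hdh]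
    have h1 : (fun i => x i / s) = dh H := by
      funext i
      rw [hxs]
      simp only
      rw [mul_div_cancel_left₀ _ hs]
    rw [← h1, Pool.Agent.Y929.LI.ratioField_div x hs]
  have hxodd : Odd (finrank (ratioField x) (Rn n)) := by
    rw [hxr]
    exact hodd
  by_cases hA0 : A = 0
  · -- a line
    have hv0 : ∀ i, v i = 0 := by
      intro i
      rw [hv]
      simp only
      rw [hA0]
      simp
    have h1 : x = fun i => t * β i + γ i := by
      funext i
      rw [hxd]
      simp only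
      rw [hv0, mul_zero, zero_add]
    have hirr : Irreducible F :=
      Pool.Agent.Y201.LI.irreducible_of_generic hF hF0 x hxG.1 hxG.2
    rw [h1] at hxG hxodd
    have h2 := Pool.Agent.Y201.LI.hT1 (n + 2) 3 F hF (by norm_num) hirr hsm (Rn n) L t ht β γ
      hβ hγ hxG.1 hxG.2
    exact (Nat.not_even_iff_odd.2 hxodd) (even_iff_two_dvd.2 h2)
  -- coordinates adapted to the image of `A`
  obtain ⟨k, m, σ, U, hli, hU⟩ := rows (Nat.lt_succ_self (n + 1)) A hA0
  have hkm : k + m = n := by
    have h1 := Fintype.card_congr σ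
    rw [Fintype.card_fin, Fintype.card_fin] at h1
    omega
  set F1 : MvPolynomial (Fin (k + 1 + (m + 1))) ℂ := rename σ.symm F with hF1
  have hF1h : F1.IsHomogeneous 3 := hF.rename_isHomogeneous
  have hF1s : Sm F1 := sm_rename σ.symm hsm
  have hF1i := ind_rename σ.symm hind
  set F2 := shear U F1 with hF2
  -- `F2` vanishes on `W`
  have hsurj : ∀ u : Fin (k + 1) → ℂ, ∃ a : Fin (n + 1) → ℂ,
      ∀ i, ∑ l, a l * A (σ (Fin.castAdd (m + 1) i)) l = u i := by
    intro u
    have h1 : Function.Surjective (Matrix.mulVecLin (Matrix.of fun i : Fin (k + 1) =>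
        A (σ (Fin.castAdd (m + 1) i)))) := by
      rw [← LinearMap.range_eq_top]
      have h2 := LinearIndependent.rank_matrix (M := Matrix.of fun i : Fin (k + 1) =>
        A (σ (Fin.castAdd (m + 1) i))) hli
      apply Submodule.eq_top_of_finrank_eq
      rw [Module.finrank_fin_fun]
      rw [Fintype.card_fin] at h2
      exact h2
    obtain ⟨a, ha⟩ := h1 u
    refine ⟨a, fun i => ?_⟩
    rw [← ha]
    simp only [Matrix.mulVecLin_apply, Matrix.mulVec, dotProduct, Matrix.of_apply]
    exact Finset.sum_congr rfl fun l _ => mul_comm _ _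
  have hW : VanW F2 := by
    unfold VanW
    apply MvPolynomial.funext
    intro u
    rw [map_zero]
    obtain ⟨a, ha⟩ := hsurj u
    have h1 : eval u (aeval (Fin.append (X : Fin (k + 1) → MvPolynomial (Fin (k + 1)) ℂ) 0) F2) =
        aeval (Fin.append u (0 : Fin (m + 1) → ℂ)) F2 := by
      have h2 := comp_aeval_apply (f := Fin.append (X : Fin (k + 1) →
        MvPolynomial (Fin (k + 1)) ℂ) 0) (aeval u) F2
      rw [aeval_eq_eval] at h2
      rw [h2]
      congr 2
      funext i
      refine Fin.addCases (fun j => ?_) (fun j => ?_) i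
      · rw [Fin.append_left, Fin.append_left, eval_X]
      · rw [Fin.append_right, Fin.append_right, Pi.zero_apply, Pi.zero_apply, map_zero]
    rw [h1, hF2, aeval_shear, hF1, aeval_rename]
    have h3 : ((Fin.append (fun i => Fin.append u (0 : Fin (m + 1) → ℂ) (Fin.castAdd (m + 1) i))
        (fun j => Fin.append u (0 : Fin (m + 1) → ℂ) (Fin.natAdd (k + 1) j) +
          ∑ i, algebraMap ℂ ℂ (U i j) * Fin.append u (0 : Fin (m + 1) → ℂ)
            (Fin.castAdd (m + 1) i))) ∘ σ.symm) = fun i => ∑ l, a l * A i l := by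
      funext i
      obtain ⟨i', rfl⟩ := σ.surjective i
      simp only [Function.comp_apply, Equiv.symm_apply_apply]
      refine Fin.addCases (fun j => ?_) (fun j => ?_) i'
      · rw [Fin.append_left, Fin.append_left, ha]
      · rw [Fin.append_right, Fin.append_right, Pi.zero_apply, zero_add]
        simp only [Fin.append_left, Algebra.algebraMap_self, RingHom.id_apply, hU]
        simp only [Finset.mul_sum]
        rw [Finset.sum_comm]
        refine Finset.sum_congr rfl fun i _ => ?_
        rw [← ha, Finset.mul_sum]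
        refine Finset.sum_congr rfl fun l _ => ?_
        ring
    rw [h3, aeval_eq_eval]
    exact hA a
  -- the transformed point
  set x1 : Fin (k + 1 + (m + 1)) → Rn n := fun i => x (σ i) with hx1
  have hx1G : Gp F1 x1 := by
    have h1 := gp_rename σ.symm hxG
    simpa only [Equiv.symm_symm] using h1
  have hx1r : ratioField x1 = ratioField x := by
    have h1 := ratioField_perm σ.symm x
    simpa only [Equiv.symm_symm] using h1
  have hx2G : Gp F2 (tp U x1) := gp_tp U hx1G
  have hx1n : ∀ i, x1 i ≠ 0 := Pool.Agent.R845.T2.coord_ne_zero hF1h (by norm_num) x1 hx1G.2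
  have hx2n : ∀ i, tp U x1 i ≠ 0 :=
    Pool.Agent.R845.T2.coord_ne_zero (shear_hom hF1h U) (by norm_num) _ hx2G.2
  have hx2r : ratioField (tp U x1) = ratioField x1 :=
    ratioField_tp U x1 ⟨_, hx1n (Fin.castAdd (m + 1) 0)⟩ ⟨_, hx2n (Fin.castAdd (m + 1) 0)⟩
  set α : Fin (k + 1) → Rn n := fun i => v (σ (Fin.castAdd (m + 1) i)) with hα
  have htv : tp U (fun i => v (σ i)) = Fin.append α (0 : Fin (m + 1) → Rn n) := by
    funext i
    unfold tp
    refine Fin.addCases (fun j => ?_) (fun j => ?_) i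
    · rw [Fin.append_left, Fin.append_left]
    · rw [Fin.append_right, Fin.append_right, Pi.zero_apply, sub_eq_zero]
      simp only [hv, hU, map_sum, map_mul, Finset.mul_sum]
      rw [Finset.sum_comm]
      refine Finset.sum_congr rfl fun i _ => Finset.sum_congr rfl fun l _ => ?_
      ring
  have htx : tp U x1 = fun i => t ^ 2 * Fin.append α (0 : Fin (m + 1) → Rn n) i +
      t * tp U (fun i => β (σ i)) i + tp U (fun i => γ (σ i)) i := by
    rw [← htv, ← tp_lin]
  rw [htx] at hx2G hx2r
  have hiso := cc k m F2 (shear_hom hF1h U) (sm_shear hF1s U) hW (Rn n) L t ht α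
    (tp U fun i => β (σ i)) (tp U fun i => γ (σ i)) (fun i => hvL _)
    (tp_mem U L _ fun i => hβ _) (tp_mem U L _ fun i => hγ _) hx2G
    (by rw [hx2r, hx1r]; exact hxodd)
  exact at_ k m (by omega) F1 hF1h hF1s hF1i U hW hiso

end

end Pool.Agent.R845.E3
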