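import Mathlib
import Pool.Agent.R845.E3.Lin2
import Pool.Agent.R845.E3.Main

/-! # Project E3: conics which meet a linear subspace -/

set_option autoImplicit false

namespace Pool.Agent.R845.E3

open MvPolynomial Pool.Agent.TH314.PD Module

noncomputable section

/-- rows which form a basis of the row space -/
theorem rows' {N P : ℕ} (A : Fin N → Fin P → ℂ) (hA : A ≠ 0)
    (hns : ¬ ∀ u : Fin N → ℂ, ∃ a : Fin P → ℂ, ∀ i, ∑ l, a l * A i l = u i) :
    ∃ (k m : ℕ) (σ : Fin (k + 1 + (m + 1)) ≃ Fin N) (U : Fin (k + 1) → Fin (m + 1) → ℂ),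
      LinearIndependent ℂ (fun i : Fin (k + 1) => A (σ (Fin.castAdd (m + 1) i))) ∧
      ∀ j l, A (σ (Fin.natAdd (k + 1) j)) l =
        ∑ i, U i j * A (σ (Fin.castAdd (m + 1) i)) l := by
  classical
  obtain ⟨κ, a, ha, hspan, hli⟩ := exists_linearIndependent' ℂ A
  have : Finite κ := Finite.of_injective a ha
  have : Fintype κ := Fintype.ofFinite κ
  set I : Finset (Fin N) := Finset.univ.image a with hI
  have hIc : I.card = Fintype.card κ := Finset.card_image_of_injective _ ha
  have hk1 : 1 ≤ Fintype.card κ := by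
    rw [Nat.succ_le_iff, Fintype.card_pos_iff]
    by_contra hemp
    rw [not_nonempty_iff] at hemp
    apply hA
    have h1 : Submodule.span ℂ (Set.range A) = ⊥ := by
      rw [← hspan, Set.range_eq_empty, Submodule.span_empty]
    funext i
    have h2 : A i ∈ Submodule.span ℂ (Set.range A) := Submodule.subset_span ⟨i, rfl⟩
    rw [h1, Submodule.mem_bot] at h2
    exact h2
  have hk2 : Fintype.card κ < N := by
    have h0 : Fintype.card κ ≤ N := by
      have := Fintype.card_le_of_injective a ha
      rwa [Fintype.card_fin] at this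
    refine lt_of_le_of_ne h0 fun hN => hns ?_
    have hbij : Function.Bijective a := by
      rw [Fintype.bijective_iff_injective_and_card, Fintype.card_fin]
      exact ⟨ha, hN⟩
    have hAi : LinearIndependent ℂ A := by
      have h1 := hli.comp (Equiv.ofBijective a hbij).symm (Equiv.injective _)
      have h2 : (A ∘ a) ∘ (Equiv.ofBijective a hbij).symm = A := by
        funext i
        simp only [Function.comp_apply]
        congr 1
        exact (Equiv.ofBijective a hbij).apply_symm_apply i
      rw [h2] at h1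
      exact h1
    have h1 : Function.Surjective (Matrix.mulVecLin (Matrix.of A)) := by
      rw [← LinearMap.range_eq_top]
      have h2 := LinearIndependent.rank_matrix (M := Matrix.of A) hAi
      apply Submodule.eq_top_of_finrank_eq
      rw [Module.finrank_fin_fun]
      rw [Fintype.card_fin] at h2
      exact h2
    intro u
    obtain ⟨b, hb⟩ := h1 u
    refine ⟨b, fun i => ?_⟩
    rw [← hb]
    simp only [Matrix.mulVecLin_apply, Matrix.mulVec, dotProduct, Matrix.of_apply]
    exact Finset.sum_congr rfl fun l _ => mul_comm _ _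
  obtain ⟨k, hk⟩ := Nat.exists_eq_add_of_le' hk1
  obtain ⟨m, hm⟩ : ∃ m, N = k + 1 + (m + 1) := ⟨N - (k + 1) - 1, by omega⟩
  have hc1 : I.card = k + 1 := by rw [hIc, hk]
  have hc2 : Iᶜ.card = m + 1 := by
    rw [Finset.card_compl, hc1, Fintype.card_fin]
    omega
  let σ' : Fin (k + 1) ⊕ Fin (m + 1) ≃ Fin N := finSumEquivOfFinset hc1 hc2
  let σ : Fin (k + 1 + (m + 1)) ≃ Fin N := finSumFinEquiv.symm.trans σ'
  have hσl : ∀ i : Fin (k + 1), σ (Fin.castAdd (m + 1) i) ∈ I := by
    intro i
    have h1 : σ (Fin.castAdd (m + 1) i) = σ' (Sum.inl i) := by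
      simp only [σ, Equiv.trans_apply, finSumFinEquiv_symm_apply_castAdd]
    rw [h1]
    simp only [σ', finSumEquivOfFinset_inl]
    exact Finset.orderEmbOfFin_mem _ _ _
  have hcov : ∀ i ∈ I, ∃ i' : Fin (k + 1), σ (Fin.castAdd (m + 1) i') = i := by
    have h1 : Finset.univ.image (fun i : Fin (k + 1) => σ (Fin.castAdd (m + 1) i)) = I := by
      apply Finset.eq_of_subset_of_card_le
      · intro z hz
        rw [Finset.mem_image] at hz
        obtain ⟨i, -, rfl⟩ := hz
        exact hσl i
      · have hinj : Function.Injective (fun i : Fin (k + 1) => σ (Fin.castAdd (m + 1) i)) := by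
          intro i j hij
          exact Fin.castAdd_injective _ _ (σ.injective hij)
        rw [hc1, Finset.card_image_of_injective _ hinj, Finset.card_univ, Fintype.card_fin]
    intro i hi
    rw [← h1, Finset.mem_image] at hi
    obtain ⟨i', -, h⟩ := hi
    exact ⟨i', h⟩
  have hIa : ∀ i ∈ I, ∃ c, a c = i := by
    intro i hi
    rw [hI, Finset.mem_image] at hi
    obtain ⟨c, -, h⟩ := hi
    exact ⟨c, h⟩
  choose g hg using fun i : Fin (k + 1) => hIa _ (hσl i)
  have hginj : Function.Injective g := by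
    intro i j hij
    have : σ (Fin.castAdd (m + 1) i) = σ (Fin.castAdd (m + 1) j) := by
      rw [← hg, ← hg, hij]
    exact Fin.castAdd_injective _ _ (σ.injective this)
  have hli2 : LinearIndependent ℂ (fun i : Fin (k + 1) => A (σ (Fin.castAdd (m + 1) i))) := by
    have h1 := hli.comp g hginj
    have h2 : (A ∘ a) ∘ g = fun i : Fin (k + 1) => A (σ (Fin.castAdd (m + 1) i)) := by
      funext i
      simp only [Function.comp_apply]
      rw [hg]
    rw [h2] at h1
    exact h1
  have hsp : ∀ i, A i ∈ Submodule.span ℂ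
      (Set.range fun i : Fin (k + 1) => A (σ (Fin.castAdd (m + 1) i))) := by
    intro i
    have h1 : A i ∈ Submodule.span ℂ (Set.range A) := Submodule.subset_span ⟨i, rfl⟩
    rw [← hspan] at h1
    refine (Submodule.span_mono ?_) h1
    rintro _ ⟨c, rfl⟩
    obtain ⟨i', hi'⟩ := hcov (a c) (Finset.mem_image_of_mem _ (Finset.mem_univ c))
    exact ⟨i', by simp only [Function.comp_apply]; rw [hi']⟩
  choose c hc using fun i => (Submodule.mem_span_range_iff_exists_fun ℂ).1 (hsp i)
  refine ⟨k, m, σ, fun i j => c (σ (Fin.natAdd (k + 1) j)) i, hli2, fun j l => ?_⟩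
  have h1 := congrFun (hc (σ (Fin.natAdd (k + 1) j))) l
  rw [← h1, Finset.sum_apply]
  rfl

/-- the data of a linear subspace in adapted coordinates, and the transformed conic -/
theorem adapt {N P : ℕ} {F : MvPolynomial (Fin N) ℂ} (hF : F.IsHomogeneous 3) (hF0 : F ≠ 0)
    (hsm : Sm F) (A : Fin N → Fin P → ℂ) (hA0 : A ≠ 0)
    (hA : ∀ a : Fin P → ℂ, eval (fun i => ∑ l, a l * A i l) F = 0)
    {M : Type} [Field M] [Algebra ℂ M] (L : IntermediateField ℂ M) (t : M) (w : Fin P → M)
    (hw : ∀ l, w l ∈ L) (β γ : Fin N → M) (hβ : ∀ i, β i ∈ L) (hγ : ∀ i, γ i ∈ L)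
    (hG : Gp F (fun i => t ^ 2 * (∑ l, w l * algebraMap ℂ M (A i l)) + t * β i + γ i)) :
    ∃ (k m : ℕ) (σ : Fin (k + 1 + (m + 1)) ≃ Fin N) (U : Fin (k + 1) → Fin (m + 1) → ℂ)
      (α : Fin (k + 1) → M) (β' γ' : Fin (k + 1 + (m + 1)) → M),
      VanW (shear U (rename σ.symm F)) ∧ (∀ i, α i ∈ L) ∧ (∀ i, β' i ∈ L) ∧ (∀ i, γ' i ∈ L) ∧
      Gp (shear U (rename σ.symm F))
        (fun i => t ^ 2 * Fin.append α (0 : Fin (m + 1) → M) i + t * β' i + γ' i) ∧
      ratioField (fun i => t ^ 2 * Fin.append α (0 : Fin (m + 1) → M) i + t * β' i + γ' i) =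
        ratioField (fun i => t ^ 2 * (∑ l, w l * algebraMap ℂ M (A i l)) + t * β i + γ i) := by
  classical
  set v : Fin N → M := fun i => ∑ l, w l * algebraMap ℂ M (A i l) with hv
  have hvL : ∀ i, v i ∈ L := fun i => sum_mem fun l _ => mul_mem (hw l) (L.algebraMap_mem _)
  set x : Fin N → M := fun i => t ^ 2 * v i + t * β i + γ i with hxd
  have hxG : Gp F x := hG
  obtain ⟨k, m, σ, U, hli, hU⟩ := rows' A hA0 (by
    intro h
    apply hF0
    apply MvPolynomial.funext
    intro u
    obtain ⟨a, ha⟩ := h u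
    rw [map_zero, ← hA a, show (fun i => ∑ l, a l * A i l) = u from funext ha])
  set F1 : MvPolynomial (Fin (k + 1 + (m + 1))) ℂ := rename σ.symm F with hF1
  have hF1h : F1.IsHomogeneous 3 := hF.rename_isHomogeneous
  set F2 := shear U F1 with hF2
  -- `F2` vanishes on `W`
  have hsurj : ∀ u : Fin (k + 1) → ℂ, ∃ a : Fin P → ℂ,
      ∀ i, ∑ l, a l * A (σ (Fin.castAdd (m + 1) i)) l = u i := by
    intro u
    have h1 : Function.Surjective (Matrix.mulVecLin (Matrix.of fun i : Fin (k + 1) =>
        A (σ (Fin.castAdd (m + 1) i)))) := by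
      rw [← LinearMap.range_eq_top]
      have h2 := LinearIndependent.rank_matrix (M := Matrix.of fun i : Fin (k + 1) =>
        A (σ (Fin.castAdd (m + 1) i))) hli
      apply Submodule.eq_top_of_finrank_eq
      rw [Module.finrank_fin_fun]
      rw [Fintype.card_fin] at h2
      exact h2
    obtain ⟨a, ha⟩ := h1 u
    refine ⟨a, fun i => ?_⟩
    rw [← ha]
    simp only [Matrix.mulVecLin_apply, Matrix.mulVec, dotProduct, Matrix.of_apply]
    exact Finset.sum_congr rfl fun l _ => mul_comm _ _
  have hW : VanW F2 := by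
    unfold VanW
    apply MvPolynomial.funext
    intro u
    rw [map_zero]
    obtain ⟨a, ha⟩ := hsurj u
    have h1 : eval u (aeval (Fin.append (X : Fin (k + 1) → MvPolynomial (Fin (k + 1)) ℂ) 0) F2) =
        aeval (Fin.append u (0 : Fin (m + 1) → ℂ)) F2 := by
      have h2 := comp_aeval_apply (f := Fin.append (X : Fin (k + 1) →
        MvPolynomial (Fin (k + 1)) ℂ) 0) (aeval u) F2
      rw [aeval_eq_eval] at h2
      rw [h2]
      congr 2
      funext i
      refine Fin.addCases (fun j => ?_) (fun j => ?_) i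
      · rw [Fin.append_left, Fin.append_left, eval_X]
      · rw [Fin.append_right, Fin.append_right, Pi.zero_apply, Pi.zero_apply, map_zero]
    rw [h1, hF2, aeval_shear, hF1, aeval_rename]
    have h3 : ((Fin.append (fun i => Fin.append u (0 : Fin (m + 1) → ℂ) (Fin.castAdd (m + 1) i))
        (fun j => Fin.append u (0 : Fin (m + 1) → ℂ) (Fin.natAdd (k + 1) j) +
          ∑ i, algebraMap ℂ ℂ (U i j) * Fin.append u (0 : Fin (m + 1) → ℂ)
            (Fin.castAdd (m + 1) i))) ∘ σ.symm) = fun i => ∑ l, a l * A i l := by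
      funext i
      obtain ⟨i', rfl⟩ := σ.surjective i
      simp only [Function.comp_apply, Equiv.symm_apply_apply]
      refine Fin.addCases (fun j => ?_) (fun j => ?_) i'
      · rw [Fin.append_left, Fin.append_left, ha]
      · rw [Fin.append_right, Fin.append_right, Pi.zero_apply, zero_add]
        simp only [Fin.append_left, Algebra.algebraMap_self, RingHom.id_apply, hU]
        simp only [Finset.mul_sum]
        rw [Finset.sum_comm]
        refine Finset.sum_congr rfl fun i _ => ?_
        rw [← ha, Finset.mul_sum]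
        refine Finset.sum_congr rfl fun l _ => ?_
        ring
    rw [h3, aeval_eq_eval]
    exact hA a
  -- the transformed point
  set x1 : Fin (k + 1 + (m + 1)) → M := fun i => x (σ i) with hx1
  have hx1G : Gp F1 x1 := by
    have h1 := gp_rename σ.symm hxG
    simpa only [Equiv.symm_symm] using h1
  have hx1r : ratioField x1 = ratioField x := by
    have h1 := ratioField_perm σ.symm x
    simpa only [Equiv.symm_symm] using h1
  have hx2G : Gp F2 (tp U x1) := gp_tp U hx1G
  have hx1n : ∀ i, x1 i ≠ 0 := Pool.Agent.R845.T2.coord_ne_zero hF1h (by norm_num) x1 hx1G.2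
  have hx2n : ∀ i, tp U x1 i ≠ 0 :=
    Pool.Agent.R845.T2.coord_ne_zero (shear_hom hF1h U) (by norm_num) _ hx2G.2
  have hx2r : ratioField (tp U x1) = ratioField x1 :=
    ratioField_tp U x1 ⟨_, hx1n (Fin.castAdd (m + 1) 0)⟩ ⟨_, hx2n (Fin.castAdd (m + 1) 0)⟩
  set α : Fin (k + 1) → M := fun i => v (σ (Fin.castAdd (m + 1) i)) with hα
  have htv : tp U (fun i => v (σ i)) = Fin.append α (0 : Fin (m + 1) → M) := by
    funext i
    unfold tp
    refine Fin.addCases (fun j => ?_) (fun j => ?_) i
    · rw [Fin.append_left, Fin.append_left]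
    · rw [Fin.append_right, Fin.append_right, Pi.zero_apply, sub_eq_zero]
      simp only [hv, hU, map_sum, map_mul, Finset.mul_sum]
      rw [Finset.sum_comm]
      refine Finset.sum_congr rfl fun i _ => Finset.sum_congr rfl fun l _ => ?_
      ring
  have htx : tp U x1 = fun i => t ^ 2 * Fin.append α (0 : Fin (m + 1) → M) i +
      t * tp U (fun i => β (σ i)) i + tp U (fun i => γ (σ i)) i := by
    rw [← htv, ← tp_lin]
  rw [htx] at hx2G hx2r
  exact ⟨k, m, σ, U, α, tp U fun i => β (σ i), tp U fun i => γ (σ i), hW, fun i => hvL _,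
    tp_mem U L _ fun i => hβ _, tp_mem U L _ fun i => hγ _, hx2G, by rw [hx2r, hx1r]⟩

/-- conics which meet a linear subspace of a very general cubic hypersurface -/
theorem conics (cc : S_CC) (at_ : S_AT) {n : ℕ} (hn : 3 ≤ n)
    {F : MvPolynomial (Fin (n + 2)) ℂ} (hF : F.IsHomogeneous 3) (hsm : Sm F)
    (hind : AlgebraicIndependent ℚ
      (fun β : {β : Fin (n + 2) →₀ ℕ // β.degree = 3} => coeff β.1 F))
    {P : ℕ} (A : Fin (n + 2) → Fin P → ℂ)
    (hA : ∀ a : Fin P → ℂ, eval (fun i => ∑ l, a l * A i l) F = 0)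
    {M : Type} [Field M] [Algebra ℂ M] (L : IntermediateField ℂ M) (t : M)
    (ht : Transcendental L t) (w : Fin P → M)
    (hw : ∀ l, w l ∈ L) (β γ : Fin (n + 2) → M) (hβ : ∀ i, β i ∈ L) (hγ : ∀ i, γ i ∈ L)
    (hG : Gp F (fun i => t ^ 2 * (∑ l, w l * algebraMap ℂ M (A i l)) + t * β i + γ i)) :
    Even (finrank (ratioField fun i =>
      t ^ 2 * (∑ l, w l * algebraMap ℂ M (A i l)) + t * β i + γ i) M) := by
  classical
  rw [← Nat.not_odd_iff_even]
  intro hodd
  have hF0 : F ≠ 0 := ne_zero_of_smooth (m := n + 1) hsm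
  by_cases hA0 : A = 0
  · have h1 : (fun i => t ^ 2 * (∑ l, w l * algebraMap ℂ M (A i l)) + t * β i + γ i) =
        fun i => t * β i + γ i := by
      funext i
      rw [hA0]
      simp
    rw [h1] at hG hodd
    have hirr : Irreducible F :=
      Pool.Agent.Y201.LI.irreducible_of_generic hF hF0 _ hG.1 hG.2
    have h2 := Pool.Agent.Y201.LI.hT1 (n + 2) 3 F hF (by norm_num) hirr hsm M L t ht β γ
      hβ hγ hG.1 hG.2
    exact (Nat.not_even_iff_odd.2 hodd) (even_iff_two_dvd.2 h2)
  obtain ⟨k, m, σ, U, α, β', γ', hW, h1, h2, h3, h4, h5⟩ :=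
    adapt hF hF0 hsm A hA0 hA L t w hw β γ hβ hγ hG
  have hkm : k + m = n := by
    have h1 := Fintype.card_congr σ
    rw [Fintype.card_fin, Fintype.card_fin] at h1
    omega
  have hF1h : (rename σ.symm F).IsHomogeneous 3 := hF.rename_isHomogeneous
  have hF1s : Sm (rename σ.symm F) := sm_rename σ.symm hsm
  have hiso := cc k m _ (shear_hom hF1h U) (sm_shear hF1s U) hW M L t ht α β' γ' h1 h2 h3 h4
    (by rw [h5]; exact hodd)
  exact at_ k m (by omega) _ hF1h hF1s (ind_rename σ.symm hind) U hW hiso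

end

end Pool.Agent.R845.E3
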