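import Mathlib
import Pool.Agent.Y201.LI.DG
import Pool.Agent.R845.T2.Div
import Pool.Agent.R845.E3.Cc2

/-! # Project E3: conics which meet `W` (3) -/

set_option autoImplicit false

namespace Pool.Agent.R845.E3

open MvPolynomial Pool.Agent.TH314.PD Module Pool.Agent.Y201.C3 IntermediateField
open Pool.Agent.R845.T2

noncomputable section

/-- a generic point of projective space which projects from `W` to the same point as a point of
`X` over an extension of odd degree of its field -/
theorem iso_of_odd (spr : S_SPR) (desc : S_DESC) {k m : ℕ}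
    {F : MvPolynomial (Fin (k + 1 + (m + 1))) ℂ} (hF : F.IsHomogeneous 3) (hW : VanW F)
    {E : Type} [Field E] [Algebra ℂ E] (x y : Fin (k + 1 + (m + 1)) → E)
    (hx : aeval x F = 0)
    (hy : ∀ (e : ℕ) (H : MvPolynomial (Fin (k + 1 + (m + 1))) ℂ), H.IsHomogeneous e →
      aeval y H = 0 → H = 0)
    (hxy : ∀ j, x (Fin.natAdd (k + 1) j) = y (Fin.natAdd (k + 1) j))
    (hodd : Odd (finrank (ratioField y) E)) : Iso F := by
  classical
  set b : Fin (k + 1 + (m + 1)) := Fin.natAdd (k + 1) 0 with hb
  have hyb : y b ≠ 0 := by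
    intro h
    exact X_ne_zero b (hy 1 (X b) (isHomogeneous_X _ _) (by rw [aeval_X, h]))
  let u : Fin (k + 1) → E := fun i => y (Fin.castAdd (m + 1) i) / y b
  let v : Fin m → E := fun j => y (Fin.natAdd (k + 1) j.succ) / y b
  -- algebraic independence
  have hind : AlgebraicIndependent ℂ (Sum.elim v u) := by
    let f : Fin m ⊕ Fin (k + 1) → Fin (k + 1 + (m + 1)) :=
      Sum.elim (fun j => Fin.natAdd (k + 1) j.succ) (fun i => Fin.castAdd (m + 1) i)
    have h1 := gen_ratio (r := k + 1 + m) y hy b f (by
      rintro (i | i) (j | j) hij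
      · simp only [f, Sum.elim_inl] at hij
        rw [Fin.succ_injective _ ((Fin.natAdd_injective _ _) hij)]
      · simp only [f, Sum.elim_inl, Sum.elim_inr] at hij
        have := congrArg Fin.val hij
        simp at this
        omega
      · simp only [f, Sum.elim_inl, Sum.elim_inr] at hij
        have := congrArg Fin.val hij
        simp at this
        omega
      · simp only [f, Sum.elim_inr] at hij
        rw [Fin.castAdd_injective _ _ hij]) (by
      rintro (i | i) h
      · simp only [f, Sum.elim_inl, hb] at h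
        exact Fin.succ_ne_zero _ ((Fin.natAdd_injective _ _) h)
      · simp only [f, Sum.elim_inr, hb] at h
        have := congrArg Fin.val h
        simp at this
        omega)
    convert h1 using 1
    funext s
    rcases s with j | i <;> rfl
  let K : IntermediateField ℂ E := adjoin ℂ (Set.range u)
  have hv : AlgebraicIndependent K v :=
    algebraicIndependent_adjoin_iff.2 (AlgebraicIndependent.sumElim_iff.1 hind).2
  -- the field generated by the ratios
  have hfr : finrank (adjoin K (Set.range v)) E = finrank (ratioField y) E := by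
    refine (Pool.Agent.Y201.LI.finrank_same (fun z => ?_)).2
    have hr1 : z ∈ Set.range (algebraMap (adjoin K (Set.range v)) E) ↔
        z ∈ adjoin K (Set.range v) := by
      constructor
      · rintro ⟨z, rfl⟩
        exact z.2
      · intro h
        exact ⟨⟨z, h⟩, rfl⟩
    have hr2 : z ∈ Set.range (algebraMap (ratioField y) E) ↔ z ∈ ratioField y := by
      constructor
      · rintro ⟨z, rfl⟩
        exact z.2
      · intro h
        exact ⟨⟨z, h⟩, rfl⟩
    rw [hr1, hr2]
    have hmem : ∀ i, y i / y b ∈ adjoin K (Set.range v) := by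
      intro i
      refine Fin.addCases (fun j => ?_) (fun j => ?_) i
      · have h1 : u j ∈ K := subset_adjoin ℂ _ ⟨j, rfl⟩
        exact (adjoin K (Set.range v)).algebraMap_mem (⟨u j, h1⟩ : K)
      · refine Fin.cases ?_ (fun l => ?_) j
        · rw [← hb, div_self hyb]
          exact one_mem _
        · exact subset_adjoin K _ ⟨l, rfl⟩
    constructor
    · intro hz
      have h1 : adjoin K (Set.range v) ≤ IntermediateField.extendScalars (F := K)
          (E := ratioField y) (by
            refine adjoin_le_iff.2 ?_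
            rintro _ ⟨i, rfl⟩
            exact subset_adjoin ℂ _ ⟨_, _, rfl⟩) := by
        rw [adjoin_le_iff]
        rintro _ ⟨j, rfl⟩
        rw [SetLike.mem_coe, mem_extendScalars]
        exact subset_adjoin ℂ _ ⟨_, _, rfl⟩
      have h2 := h1 hz
      rwa [mem_extendScalars] at h2
    · intro hz
      have h1 : ratioField y ≤ (adjoin K (Set.range v)).restrictScalars ℂ := by
        unfold ratioField
        rw [adjoin_le_iff]
        rintro _ ⟨i, j, rfl⟩
        rw [SetLike.mem_coe, mem_restrictScalars]
        have h2 : y i / y j = (y i / y b) / (y j / y b) := by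
          rw [div_div_div_cancel_right₀ hyb]
        rw [h2]
        exact div_mem (hmem i) (hmem j)
      exact h1 hz
  refine desc k m F K (spr k m K E v hv (hfr ▸ hodd) (map (algebraMap ℂ K) F)
    (hF.map _) ?_ (fun i => x (Fin.castAdd (m + 1) i) / y b) ?_)
  · have h1 := vanW_aeval hW (X : Fin (k + 1) → MvPolynomial (Fin (k + 1)) K)
    unfold VanW
    rw [aeval_map_algebraMap]
    exact h1
  · rw [aeval_map_algebraMap]
    have h1 : (Fin.append (fun i => x (Fin.castAdd (m + 1) i) / y b) (Fin.cons 1 v)) =
        fun i => (y b)⁻¹ * x i := by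
      funext i
      refine Fin.addCases (fun j => ?_) (fun j => ?_) i
      · rw [Fin.append_left, div_eq_inv_mul]
      · rw [Fin.append_right, hxy]
        refine Fin.cases ?_ (fun l => ?_) j
        · rw [Fin.cons_zero, ← hb, inv_mul_cancel₀ hyb]
        · rw [Fin.cons_succ, ← div_eq_inv_mul]
    rw [h1, aeval_smul_form hF, hx, mul_zero]

theorem cc (spr : S_SPR) (desc : S_DESC) : S_CC := by
  classical
  intro k m F hF hsm hW M _ _ L t ht α β γ hα hβ hγ hG hodd
  have tan : S_TAN := tan_of div (nt Pool.Agent.Y201.LI.hT1) fi fd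
  set a : Fin (k + 1 + (m + 1)) → M := Fin.append α (0 : Fin (m + 1) → M) with ha
  have haL : ∀ i, a i ∈ L := by
    intro i
    refine Fin.addCases (fun j => ?_) (fun j => ?_) i
    · rw [ha, Fin.append_left]
      exact hα j
    · rw [ha, Fin.append_right]
      exact zero_mem _
  have ha0 : ∀ j, a (Fin.natAdd (k + 1) j) = 0 := by
    intro j
    rw [ha, Fin.append_right]
    rfl
  set x : Fin (k + 1 + (m + 1)) → M := fun i => t ^ 2 * a i + t * β i + γ i with hx
  have hodd2 : ¬ 2 ∣ finrank (ratioField x) M := fun h =>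
    (Nat.not_even_iff_odd.2 hodd) (even_iff_two_dvd.2 h)
  have hF0 : F ≠ 0 := ne_zero_of_smooth (m := k + 1 + m) hsm
  have hirr : Irreducible F := Pool.Agent.Y201.LI.irreducible_of_generic hF hF0 x hG.1 hG.2
  have hT1 := Pool.Agent.Y201.LI.hT1 (k + 1 + (m + 1)) 3 F hF (by norm_num) hirr hsm M L t ht
  have hx0 : ∀ i, x i ≠ 0 := coord_ne_zero hF (by norm_num) x hG.2
  -- the point `a` is not zero
  have hane : a ≠ 0 := by
    intro h0
    have h1 : x = fun i => t * β i + γ i := by
      funext i
      rw [hx]
      simp only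
      rw [h0, Pi.zero_apply, mul_zero, zero_add]
    have h2 := hG
    rw [h1] at h2 hodd2
    exact hodd2 (hT1 β γ hβ hγ h2.1 h2.2)
  have hxa : LinearIndependent M ![x, a] := by
    rw [LinearIndependent.pair_iff]
    intro s r hsr
    have h1 := congrFun hsr (Fin.natAdd (k + 1) 0)
    simp only [Pi.add_apply, Pi.smul_apply, smul_eq_mul, ha0, mul_zero, add_zero,
      Pi.zero_apply] at h1
    have hs := (mul_eq_zero.1 h1).resolve_right (hx0 _)
    refine ⟨hs, ?_⟩
    rw [hs, zero_smul, zero_add] at hsr
    exact (smul_eq_zero.1 hsr).resolve_right hane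
  obtain ⟨l1, l2, l3, k1, k2, k3, hline⟩ := conic_shape hF L t ht a β γ haL hβ hγ hG.1
  set A : M := -(l1 * t ^ 2 + l2 * t + l3) with hA
  have hA0 : A ≠ 0 := by
    intro h0
    have h1 : l1 = 0 := by
      have h2 := coeffs_zero L t ht ![l3, l2, l1, 0, 0, 0, 0] (by
        intro i
        fin_cases i
        · exact k3
        · exact k2
        · exact k1
        · exact zero_mem _
        · exact zero_mem _
        · exact zero_mem _
        · exact zero_mem _) (by
        simp only [Fin.sum_univ_succ, Fin.sum_univ_zero]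
        simp
        linear_combination -h0)
      exact h2 2
    rw [h0, h1, neg_zero, Polynomial.C_0, zero_mul, zero_mul, add_zero] at hline
    refine hodd2 (Pool.Agent.Y201.LI.contact (r := k + 1 + m) hF (by norm_num) hsm x hG.1 hG.2 a
      hxa 0 ?_)
    rw [Polynomial.C_0, zero_mul]
    exact hline
  have hl1 : l1 ≠ 0 := by
    intro h0
    rw [h0, neg_zero, Polynomial.C_0, zero_mul, add_zero] at hline
    exact hodd2 (tan (k + 1 + m) 3 F hF (by norm_num) hsm M x a A hxa hG.1 hG.2 hline)
  have hB0 : -l1 ≠ 0 := neg_ne_zero.2 hl1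
  have hpn : ¬ Gp F a := by
    intro h
    exact coord_ne_zero hF (by norm_num) a h.2 (Fin.natAdd (k + 1) 0) (ha0 0)
  have hthird : Gp F (fun j : Fin (k + 1 + (m + 1)) => -l1 * x j - A * a j) →
      2 ∣ finrank (ratioField fun j : Fin (k + 1 + (m + 1)) => -l1 * x j - A * a j) M := by
    have h1 : (fun j : Fin (k + 1 + (m + 1)) => -l1 * x j - A * a j) =
        fun j => t * (-l1 * β j + l2 * a j) + (-l1 * γ j + l3 * a j) := by
      funext j
      rw [hx, hA]
      ring
    rw [h1]
    intro h2
    exact hT1 _ _ (fun j => add_mem (mul_mem (neg_mem k1) (hβ j)) (mul_mem k2 (haL j)))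
      (fun j => add_mem (mul_mem (neg_mem k1) (hγ j)) (mul_mem k3 (haL j))) h2.1 h2.2
  obtain ⟨hygen, hyodd⟩ := p3 (k + 1 + m) F hF hsm M x a A (-l1) hxa hG hodd hpn hA0 hB0 hline
    hthird
  refine iso_of_odd spr desc hF hW
    (fun j => algebraMap (Polynomial M) (FractionRing (Polynomial M)) (Polynomial.C (x j)))
    (fun j => algebraMap (Polynomial M) (FractionRing (Polynomial M))
      (Polynomial.C (x j) + Polynomial.X * Polynomial.C (a j))) ?_ hygen ?_ hyodd
  · have h1 := comp_aeval_apply (f := x) ((IsScalarTower.toAlgHom ℂ (Polynomial M)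
      (FractionRing (Polynomial M))).comp (Polynomial.CAlgHom : M →ₐ[ℂ] Polynomial M)) F
    rw [hG.1, map_zero] at h1
    exact h1.symm
  · intro j
    simp only [ha0, Polynomial.C_0, mul_zero, add_zero]

end

end Pool.Agent.R845.E3
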