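import Mathlib
import Pool.Agent.R845.E3.Cc3

/-! # Project E3: the reflection in a point of `W` preserves the parity -/

set_option autoImplicit false

namespace Pool.Agent.R845.E3

open MvPolynomial Pool.Agent.TH314.PD Module Pool.Agent.Y201.C3 IntermediateField
open Pool.Agent.R845.T2

noncomputable section

/-- the values of a cubic form on a line -/
theorem line_shape {N : ℕ} {M : Type} [Field M] [Algebra ℂ M]
    {T : Fin N → Fin N → Fin N → ℂ} (hT : SymG T) {F : MvPolynomial (Fin N) ℂ}
    (hFT : F = Bg T X X X) (x p : Fin N → M) (hx : aeval x F = 0) (hp : aeval p F = 0) :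
    aeval (fun j => Polynomial.C (x j) + Polynomial.X * Polynomial.C (p j)) F =
      Polynomial.C (3 * Bg T x x p) * Polynomial.X +
        Polynomial.C (3 * Bg T x p p) * Polynomial.X ^ 2 := by
  classical
  have hev : ∀ {R : Type} [CommRing R] [Algebra ℂ R] (v : Fin N → R),
      aeval v F = Bg T v v v := by
    intro R _ _ v
    conv_lhs => rw [hFT]
    exact aeval_frmG T v
  have hC : ∀ u v w : Fin N → M, Bg T (fun i => Polynomial.C (u i)) (fun i => Polynomial.C (v i))
      (fun i => Polynomial.C (w i)) = Polynomial.C (Bg T u v w) := fun u v w =>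
    (map_Bg (Polynomial.CAlgHom : M →ₐ[ℂ] Polynomial M) T u v w).symm
  have h1 : (fun j => Polynomial.C (x j) + Polynomial.X * Polynomial.C (p j)) =
      fun j => 1 * Polynomial.C (x j) + Polynomial.X * Polynomial.C (p j) +
        0 * Polynomial.C (p j) := by
    funext j
    ring
  rw [hev] at hx hp
  rw [h1, hev, Bg_span3 hT (fun i => Polynomial.C (x i)) (fun i => Polynomial.C (p i))
    (fun i => Polynomial.C (p i)), hC, hC, hC, hC, hx, hp]
  have o3 : Polynomial.C (3 : M) = 3 := rfl
  simp only [map_mul, map_zero, o3]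
  ring

/-- the reflection of a generic point of odd degree in a point of `W` -/
theorem refl_odd (spr : S_SPR) (desc : S_DESC) {k m : ℕ}
    {F : MvPolynomial (Fin (k + 1 + (m + 1))) ℂ} (hF : F.IsHomogeneous 3) (hsm : Sm F)
    (hW : VanW F) (hni : ¬ Iso F) {T : Fin (k + 1 + (m + 1)) → Fin (k + 1 + (m + 1)) →
      Fin (k + 1 + (m + 1)) → ℂ} (hT : SymG T) (hFT : F = Bg T X X X)
    {M : Type} [Field M] [Algebra ℂ M] (x : Fin (k + 1 + (m + 1)) → M) (hG : Gp F x)
    (hodd : Odd (finrank (ratioField x) M)) (w : Fin (k + 1) → M) (hw : w ≠ 0) :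
    3 * Bg T x (Fin.append w (0 : Fin (m + 1) → M)) (Fin.append w (0 : Fin (m + 1) → M)) ≠ 0 ∧
    Gp F (fun j => 3 * Bg T x (Fin.append w (0 : Fin (m + 1) → M))
      (Fin.append w (0 : Fin (m + 1) → M)) * x j -
      3 * Bg T x x (Fin.append w (0 : Fin (m + 1) → M)) *
        Fin.append w (0 : Fin (m + 1) → M) j) ∧
    Odd (finrank (ratioField fun j => 3 * Bg T x (Fin.append w (0 : Fin (m + 1) → M))
      (Fin.append w (0 : Fin (m + 1) → M)) * x j -
      3 * Bg T x x (Fin.append w (0 : Fin (m + 1) → M)) *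
        Fin.append w (0 : Fin (m + 1) → M) j) M) := by
  classical
  have tan : S_TAN := tan_of div (nt Pool.Agent.Y201.LI.hT1) fi fd
  set p : Fin (k + 1 + (m + 1)) → M := Fin.append w (0 : Fin (m + 1) → M) with hp
  have hp0 : ∀ j, p (Fin.natAdd (k + 1) j) = 0 := by
    intro j
    rw [hp, Fin.append_right]
    rfl
  have hpne : p ≠ 0 := by
    intro h0
    apply hw
    funext i
    have h1 := congrFun h0 (Fin.castAdd (m + 1) i)
    rwa [hp, Fin.append_left] at h1
  have hpF : aeval p F = 0 := vanW_aeval hW w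
  set A := 3 * Bg T x x p with hA
  set B := 3 * Bg T x p p with hB
  have hodd2 : ¬ 2 ∣ finrank (ratioField x) M := fun h =>
    (Nat.not_even_iff_odd.2 hodd) (even_iff_two_dvd.2 h)
  have hx0 : ∀ i, x i ≠ 0 := coord_ne_zero hF (by norm_num) x hG.2
  have hxa : LinearIndependent M ![x, p] := by
    rw [LinearIndependent.pair_iff]
    intro s r hsr
    have h1 := congrFun hsr (Fin.natAdd (k + 1) 0)
    simp only [Pi.add_apply, Pi.smul_apply, smul_eq_mul, hp0, mul_zero, add_zero,
      Pi.zero_apply] at h1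
    have hs := (mul_eq_zero.1 h1).resolve_right (hx0 _)
    refine ⟨hs, ?_⟩
    rw [hs, zero_smul, zero_add] at hsr
    exact (smul_eq_zero.1 hsr).resolve_right hpne
  have hline := line_shape hT hFT x p hG.1 hpF
  rw [← hA, ← hB] at hline
  have hB0 : B ≠ 0 := by
    intro h0
    rw [h0, Polynomial.C_0, zero_mul, add_zero] at hline
    exact hodd2 (tan (k + 1 + m) 3 F hF (by norm_num) hsm M x p A hxa hG.1 hG.2 hline)
  refine ⟨hB0, ?_⟩
  by_cases hA0 : A = 0
  · have h1 : (fun j => B * x j - A * p j) = fun j => B * x j := by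
      funext j
      rw [hA0, zero_mul, sub_zero]
    rw [h1]
    refine ⟨⟨by rw [aeval_smul_form hF, hG.1, mul_zero], fun e H hH h0 => ?_⟩, ?_⟩
    · rw [aeval_smul_form hH] at h0
      exact hG.2 e H hH ((mul_eq_zero.1 h0).resolve_left (pow_ne_zero _ hB0))
    · have h2 : (fun j => (B * x j) / B) = x := by
        funext j
        rw [mul_div_cancel_left₀ _ hB0]
      have h3 := Pool.Agent.Y929.LI.ratioField_div (fun j => B * x j) hB0
      rw [h2] at h3
      rw [← h3]
      exact hodd
  have hpn : ¬ Gp F p := by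
    intro h
    exact coord_ne_zero hF (by norm_num) p h.2 (Fin.natAdd (k + 1) 0) (hp0 0)
  by_contra hcon
  apply hni
  obtain ⟨hygen, hyodd⟩ := p3 (k + 1 + m) F hF hsm M x p A B hxa hG hodd hpn hA0 hB0 hline
    (by
      intro h2
      by_contra h3
      apply hcon
      refine ⟨h2, ?_⟩
      rw [← Nat.not_even_iff_odd, even_iff_two_dvd]
      exact h3)
  refine iso_of_odd spr desc hF hW
    (fun j => algebraMap (Polynomial M) (FractionRing (Polynomial M)) (Polynomial.C (x j)))
    (fun j => algebraMap (Polynomial M) (FractionRing (Polynomial M))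
      (Polynomial.C (x j) + Polynomial.X * Polynomial.C (p j))) ?_ hygen ?_ hyodd
  · have h1 := comp_aeval_apply (f := x) ((IsScalarTower.toAlgHom ℂ (Polynomial M)
      (FractionRing (Polynomial M))).comp (Polynomial.CAlgHom : M →ₐ[ℂ] Polynomial M)) F
    rw [hG.1, map_zero] at h1
    exact h1.symm
  · intro j
    simp only [hp0, Polynomial.C_0, mul_zero, add_zero]

end

end Pool.Agent.R845.E3
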