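import Mathlib
import Pool.Agent.R845.E3.Refl

/-! # Project E3: sections of the projection from `W` over lines -/

set_option autoImplicit false

namespace Pool.Agent.R845.E3

open MvPolynomial Pool.Agent.TH314.PD Module Pool.Agent.Y201.C3 IntermediateField
open Pool.Agent.R845.T2

noncomputable section

/-- degrees of the values of the trilinear form -/
theorem Bg_natDegree {N : ℕ} {L : Type} [Field L] [Algebra ℂ L] (T : Fin N → Fin N → Fin N → ℂ)
    (x y z : Fin N → Polynomial L) (a b c : ℕ) (hx : ∀ i, (x i).natDegree ≤ a)
    (hy : ∀ i, (y i).natDegree ≤ b) (hz : ∀ i, (z i).natDegree ≤ c) :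
    (Bg T x y z).natDegree ≤ a + b + c := by
  unfold Bg
  refine Polynomial.natDegree_sum_le_of_forall_le _ _ fun i _ => ?_
  refine Polynomial.natDegree_sum_le_of_forall_le _ _ fun j _ => ?_
  refine Polynomial.natDegree_sum_le_of_forall_le _ _ fun k _ => ?_
  have h1 : (algebraMap ℂ (Polynomial L) (T i j k)).natDegree = 0 := by
    rw [IsScalarTower.algebraMap_apply ℂ L (Polynomial L)]
    exact Polynomial.natDegree_C _
  refine Polynomial.natDegree_mul_le.trans ?_
  refine Nat.add_le_add ?_ (hz k)
  refine Polynomial.natDegree_mul_le.trans ?_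
  refine Nat.add_le_add ?_ (hy j)
  refine Polynomial.natDegree_mul_le.trans ?_
  rw [h1, zero_add]
  exact hx i

/-- proportional points -/
theorem gp_smul {N : ℕ} {F : MvPolynomial (Fin N) ℂ} (hF : F.IsHomogeneous 3) {M : Type} [Field M]
    [Algebra ℂ M] {s : M} (hs : s ≠ 0) {x y : Fin N → M} (hxy : ∀ i, x i = s * y i) :
    (Gp F x ↔ Gp F y) ∧ ratioField x = ratioField y := by
  have hx : x = fun i => s * y i := funext hxy
  constructor
  · rw [hx]
    constructor
    · rintro ⟨h1, h2⟩
      rw [aeval_smul_form hF] at h1
      refine ⟨(mul_eq_zero.1 h1).resolve_left (pow_ne_zero _ hs), fun e H hH h0 => ?_⟩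
      exact h2 e H hH (by rw [aeval_smul_form hH, h0, mul_zero])
    · rintro ⟨h1, h2⟩
      refine ⟨by rw [aeval_smul_form hF, h1, mul_zero], fun e H hH h0 => ?_⟩
      rw [aeval_smul_form hH] at h0
      exact h2 e H hH ((mul_eq_zero.1 h0).resolve_left (pow_ne_zero _ hs))
  · have h1 : (fun i => x i / s) = y := by
      funext i
      rw [hxy, mul_div_cancel_left₀ _ hs]
    rw [← h1, Pool.Agent.Y929.LI.ratioField_div x hs]

variable {k m : ℕ} {M : Type} [Field M] [Algebra ℂ M]

/-- the point with coordinates `(c, l y)` -/
def pt (L : IntermediateField ℂ M) (t : M) (c : Fin (k + 1) → Polynomial L) (l : Polynomial L)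
    (y : Fin (m + 1) → Polynomial L) : Fin (k + 1 + (m + 1)) → M :=
  Fin.append (fun i => Polynomial.aeval t (c i))
    (fun j => Polynomial.aeval t l * Polynomial.aeval t (y j))

/-- degree one -/
theorem sec_one {F : MvPolynomial (Fin (k + 1 + (m + 1))) ℂ} (hF : F.IsHomogeneous 3) (hsm : Sm F)
    (L : IntermediateField ℂ M) (t : M) (ht : Transcendental L t)
    (z : Fin (k + 1 + (m + 1)) → Polynomial L) (hz : ∀ i, (z i).natDegree ≤ 1)
    (hG : Gp F (fun i => Polynomial.aeval t (z i)))
    (hodd : Odd (finrank (ratioField (fun i => Polynomial.aeval t (z i))) M)) : False := by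
  have hF0 : F ≠ 0 := ne_zero_of_smooth (m := k + 1 + m) hsm
  have hirr : Irreducible F := Pool.Agent.Y201.LI.irreducible_of_generic hF hF0 _ hG.1 hG.2
  have h1 : (fun i => Polynomial.aeval t (z i)) =
      fun i => t * algebraMap L M ((z i).coeff 1) + algebraMap L M ((z i).coeff 0) := by
    funext i
    conv_lhs => rw [Polynomial.eq_X_add_C_of_natDegree_le_one (hz i)]
    rw [map_add, map_mul, Polynomial.aeval_C, Polynomial.aeval_C, Polynomial.aeval_X, mul_comm]
  rw [h1] at hG hodd
  have h2 := Pool.Agent.Y201.LI.hT1 (k + 1 + (m + 1)) 3 F hF (by norm_num) hirr hsm M L t ht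
    (fun i => algebraMap L M ((z i).coeff 1)) (fun i => algebraMap L M ((z i).coeff 0))
    (fun i => ((z i).coeff 1).2) (fun i => ((z i).coeff 0).2) hG.1 hG.2
  exact (Nat.not_even_iff_odd.2 hodd) (even_iff_two_dvd.2 h2)

/-- change of the parameter `t = a + 1 / t'` -/
theorem moebius (L : IntermediateField ℂ M) (t : M) (ht : Transcendental L t)
    (a : L) (N : ℕ) (f : Polynomial L) (hf : f.natDegree ≤ N) :
    Polynomial.aeval t f = Polynomial.aeval (t - algebraMap L M a)⁻¹
      (Polynomial.reflect N (f.comp (Polynomial.X + Polynomial.C a))) *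
      (t - algebraMap L M a) ^ N := by
  have hne : t - algebraMap L M a ≠ 0 := by
    intro h
    have h1 : t = algebraMap L M a := sub_eq_zero.1 h
    exact ht (h1 ▸ isAlgebraic_algebraMap a)
  have hdeg : (f.comp (Polynomial.X + Polynomial.C a)).natDegree ≤ N := by
    rw [Polynomial.natDegree_comp, Polynomial.natDegree_X_add_C, mul_one]
    exact hf
  let _ := invertibleOfNonzero hne
  have h1 := Polynomial.eval₂_reflect_mul_pow (algebraMap L M) (t - algebraMap L M a) N _ hdeg
  rw [invOf_eq_inv] at h1
  rw [Polynomial.aeval_def, Polynomial.aeval_def, h1, Polynomial.eval₂_comp]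
  congr 1
  simp

theorem sec_aux (spr : S_SPR) (desc : S_DESC)
    {F : MvPolynomial (Fin (k + 1 + (m + 1))) ℂ} (hF : F.IsHomogeneous 3) (hsm : Sm F)
    (hW : VanW F) (hni : ¬ Iso F) (L : IntermediateField ℂ M) (e : ℕ) :
    ∀ (t : M), Transcendental L t → ∀ (c : Fin (k + 1) → Polynomial L) (l : Polynomial L)
      (y : Fin (m + 1) → Polynomial L), (∀ i, (c i).natDegree ≤ e) → l.natDegree + 1 ≤ e →
      (∀ j, (y j).natDegree ≤ 1) → Gp F (pt L t c l y) →
      Odd (finrank (ratioField (pt L t c l y)) M) → False := by
  classical
  obtain ⟨T, hT, hFT⟩ := exists_tri F hF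
  have hev : ∀ {R : Type} [CommRing R] [Algebra ℂ R] (v : Fin (k + 1 + (m + 1)) → R),
      aeval v F = Bg T v v v := by
    intro R _ _ v
    conv_lhs => rw [hFT]
    exact aeval_frmG T v
  induction e with
  | zero =>
    intro t ht c l y _ hl
    omega
  | succ e ih =>
    intro t ht c l y hc hl hy hG hodd
    have hx0 : ∀ i, pt L t c l y i ≠ 0 := coord_ne_zero hF (by norm_num) _ hG.2
    have hl0 : l ≠ 0 := by
      intro h0
      apply hx0 (Fin.natAdd (k + 1) 0)
      unfold pt
      rw [Fin.append_right, h0, map_zero, zero_mul]
    rcases Nat.eq_zero_or_pos e with he | he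
    · -- degree one
      subst he
      have hl1 : l.natDegree = 0 := by omega
      refine sec_one hF hsm L t ht (Fin.append c (fun j => l * y j)) ?_ ?_ ?_
      · intro i
        refine Fin.addCases (fun j => ?_) (fun j => ?_) i
        · rw [Fin.append_left]
          exact hc j
        · rw [Fin.append_right]
          refine Polynomial.natDegree_mul_le.trans ?_
          rw [hl1, zero_add]
          exact hy j
      all_goals
        have h1 : (fun i => Polynomial.aeval t
            ((Fin.append c (fun j => l * y j) : Fin (k + 1 + (m + 1)) → Polynomial L) i)) =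
            pt L t c l y := by
          funext i
          unfold pt
          refine Fin.addCases (fun j => ?_) (fun j => ?_) i
          · rw [Fin.append_left, Fin.append_left]
          · rw [Fin.append_right, Fin.append_right, map_mul]
        rw [h1]
        assumption
    -- move infinity
    obtain ⟨a, ha⟩ : ∃ a : L, l.eval a ≠ 0 := by
      by_contra hcon
      push Not at hcon
      apply hl0
      apply Polynomial.eq_zero_of_infinite_isRoot
      have h1 : Set.Infinite (Set.range (algebraMap ℂ L)) :=
        Set.infinite_range_of_injective (algebraMap ℂ L).injective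
      exact h1.mono (by
        rintro _ ⟨b, rfl⟩
        exact hcon _)
    have hne : t - algebraMap L M a ≠ 0 := by
      intro h
      have h1 : t = algebraMap L M a := sub_eq_zero.1 h
      exact ht (h1 ▸ isAlgebraic_algebraMap a)
    set t' : M := (t - algebraMap L M a)⁻¹ with ht'
    have htr' : Transcendental L t' := by
      intro h
      apply ht
      have h1 : IsAlgebraic L (t - algebraMap L M a) := by
        rw [← inv_inv (t - algebraMap L M a)]
        exact h.inv
      have h2 := h1.add (isAlgebraic_algebraMap a)
      rwa [sub_add_cancel] at h2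
    set c' : Fin (k + 1) → Polynomial L := fun i =>
      Polynomial.reflect (e + 1) ((c i).comp (Polynomial.X + Polynomial.C a)) with hc'
    set l' : Polynomial L :=
      Polynomial.reflect e (l.comp (Polynomial.X + Polynomial.C a)) with hl'
    set y' : Fin (m + 1) → Polynomial L := fun j =>
      Polynomial.reflect 1 ((y j).comp (Polynomial.X + Polynomial.C a)) with hy'
    have hcd : ∀ f : Polynomial L,
        (f.comp (Polynomial.X + Polynomial.C a)).natDegree = f.natDegree := by
      intro f
      rw [Polynomial.natDegree_comp, Polynomial.natDegree_X_add_C, mul_one]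
    have hc'd : ∀ i, (c' i).natDegree ≤ e + 1 := by
      intro i
      refine Polynomial.natDegree_reflect_le.trans (max_le le_rfl ?_)
      rw [hcd]
      exact hc i
    have hy'd : ∀ j, (y' j).natDegree ≤ 1 := by
      intro j
      refine Polynomial.natDegree_reflect_le.trans (max_le le_rfl ?_)
      rw [hcd]
      exact hy j
    have hl'd : l'.natDegree = e := by
      apply le_antisymm
      · refine Polynomial.natDegree_reflect_le.trans (max_le le_rfl ?_)
        rw [hcd]
        omega
      · apply Polynomial.le_natDegree_of_ne_zero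
        rw [hl', Polynomial.coeff_reflect, Polynomial.revAt_le le_rfl, Nat.sub_self,
          Polynomial.coeff_zero_eq_eval_zero, Polynomial.eval_comp]
        simpa using ha
    have hpt : ∀ i, pt L t c l y i = (t - algebraMap L M a) ^ (e + 1) * pt L t' c' l' y' i := by
      intro i
      unfold pt
      refine Fin.addCases (fun j => ?_) (fun j => ?_) i
      · rw [Fin.append_left, Fin.append_left, moebius L t ht a (e + 1) (c j) (hc j)]
        ring
      · rw [Fin.append_right, Fin.append_right, moebius L t ht a e l (by omega),
          moebius L t ht a 1 (y j) (hy j)]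
        ring
    obtain ⟨hGs, hrs⟩ := gp_smul hF (pow_ne_zero (e + 1) hne) hpt
    rw [hGs] at hG
    rw [hrs] at hodd
    have hl'0 : l' ≠ 0 := by
      intro h0
      rw [h0, Polynomial.natDegree_zero] at hl'd
      omega
    -- division with remainder
    set r : Fin (k + 1) → Polynomial L := fun i => c' i / l' with hr
    set w : Fin (k + 1) → Polynomial L := fun i => c' i % l' with hw
    have hdiv : ∀ i, c' i = l' * r i + w i := fun i =>
      (EuclideanDomain.div_add_mod (c' i) l').symm
    have hwd : ∀ i, (w i).natDegree ≤ e - 1 := by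
      intro i
      have h1 : (w i).natDegree < l'.natDegree := by
        apply Polynomial.natDegree_mod_lt
        omega
      omega
    have hrd : ∀ i, (r i).natDegree ≤ 1 := by
      intro i
      by_cases hr0 : r i = 0
      · rw [hr0, Polynomial.natDegree_zero]
        exact Nat.zero_le _
      have h1 : l' * r i = c' i - w i := by
        rw [hdiv i]
        ring
      have h2 : (c' i - w i).natDegree ≤ e + 1 := by
        refine (Polynomial.natDegree_sub_le _ _).trans (max_le (hc'd i) ?_)
        have := hwd i
        omega
      rw [← h1, Polynomial.natDegree_mul hl'0 hr0, hl'd] at h2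
      omega
    set z : Fin (k + 1 + (m + 1)) → Polynomial L := Fin.append r y' with hz
    have hzd : ∀ i, (z i).natDegree ≤ 1 := by
      intro i
      refine Fin.addCases (fun j => ?_) (fun j => ?_) i
      · rw [hz, Fin.append_left]
        exact hrd j
      · rw [hz, Fin.append_right]
        exact hy'd j
    set p : Fin (k + 1 + (m + 1)) → Polynomial L :=
      Fin.append w (0 : Fin (m + 1) → Polynomial L) with hp
    have hpd : ∀ i, (p i).natDegree ≤ e - 1 := by
      intro i
      refine Fin.addCases (fun j => ?_) (fun j => ?_) i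
      · rw [hp, Fin.append_left]
        exact hwd j
      · rw [hp, Fin.append_right, Pi.zero_apply, Polynomial.natDegree_zero]
        exact Nat.zero_le _
    have hxzp : ∀ i, pt L t' c' l' y' i = Polynomial.aeval t' (l' * z i + p i) := by
      intro i
      unfold pt
      refine Fin.addCases (fun j => ?_) (fun j => ?_) i
      · rw [Fin.append_left, hz, hp, Fin.append_left, Fin.append_left, hdiv]
      · rw [Fin.append_right, hz, hp, Fin.append_right, Fin.append_right, Pi.zero_apply, add_zero,
          map_mul]
    have hinj : ∀ f : Polynomial L, Polynomial.aeval t' f = 0 → f = 0 := by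
      intro f hf
      by_contra h0
      exact htr' ⟨f, h0, hf⟩
    by_cases hw0 : w = 0
    · -- the remainder vanishes
      have h1 : ∀ i, pt L t' c' l' y' i = Polynomial.aeval t' l' * Polynomial.aeval t' (z i) := by
        intro i
        rw [hxzp, map_add, map_mul]
        have h2 : p i = 0 := by
          refine Fin.addCases (fun j => ?_) (fun j => ?_) i
          · rw [hp, Fin.append_left, hw0, Pi.zero_apply]
          · rw [hp, Fin.append_right, Pi.zero_apply]
        rw [h2, map_zero, add_zero]
      obtain ⟨h2, h3⟩ := gp_smul hF (fun h => hl'0 (hinj l' h)) h1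
      rw [h2] at hG
      rw [h3] at hodd
      exact sec_one hF hsm L t' htr' z hzd hG hodd
    -- the identity
    let φ : Polynomial L →ₐ[ℂ] M := (Polynomial.aeval t').restrictScalars ℂ
    have hφ : ∀ f, φ f = Polynomial.aeval t' f := fun _ => rfl
    have hBφ : ∀ u v w : Fin (k + 1 + (m + 1)) → Polynomial L, Polynomial.aeval t' (Bg T u v w) =
        Bg T (fun i => Polynomial.aeval t' (u i)) (fun i => Polynomial.aeval t' (v i))
          (fun i => Polynomial.aeval t' (w i)) := fun u v w => map_Bg φ T u v w
    have hppp : Bg T p p p = 0 := by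
      rw [← hev]
      exact vanW_aeval hW w
    set Fz := Bg T z z z with hFz
    set D1 := 3 * Bg T z z p with hD1
    set D2 := 3 * Bg T z p p with hD2
    have hx3 : ∀ A B : Polynomial L, Bg T (fun i => A * z i + B * p i)
        (fun i => A * z i + B * p i) (fun i => A * z i + B * p i) =
        A ^ 3 * Fz + A ^ 2 * B * D1 + A * B ^ 2 * D2 := by
      intro A B
      have h1 := Bg_span3 hT z p p A B 0
      have h2 : (fun i => A * z i + B * p i + 0 * p i) = fun i => A * z i + B * p i := by
        funext i
        ring
      rw [h2, hppp] at h1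
      rw [h1, hD1, hD2, hFz]
      ring
    have hF0 : l' ^ 3 * Fz + l' ^ 2 * D1 + l' * D2 = 0 := by
      apply hinj
      have h1 := hG.1
      rw [hev] at h1
      have h2 : (fun i => pt L t' c' l' y' i) = fun i =>
          Polynomial.aeval t' (l' * z i + 1 * p i) := by
        funext i
        rw [hxzp, one_mul]
      have h3 : pt L t' c' l' y' = fun i => Polynomial.aeval t' (l' * z i + 1 * p i) := h2
      rw [h3, ← hBφ, hx3] at h1
      rw [← h1]
      congr 1
      ring
    set g := l' * Fz + D1 with hg
    have hD2g : D2 = -(l' * g) := by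
      have h1 : l' * (l' ^ 2 * Fz + l' * D1 + D2) = 0 := by
        rw [← hF0]
        ring
      have h2 := (mul_eq_zero.1 h1).resolve_left hl'0
      rw [hg]
      linear_combination h2
    -- the reflection
    have hwt : (fun i => Polynomial.aeval t' (w i)) ≠ 0 := by
      intro h0
      apply hw0
      funext i
      exact hinj _ (congrFun h0 i)
    have hpt' : (Fin.append (fun i => Polynomial.aeval t' (w i)) (0 : Fin (m + 1) → M)) =
        fun i => Polynomial.aeval t' (p i) := by
      funext i
      refine Fin.addCases (fun j => ?_) (fun j => ?_) i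
      · rw [Fin.append_left, hp, Fin.append_left]
      · rw [Fin.append_right, hp, Fin.append_right, Pi.zero_apply, Pi.zero_apply, map_zero]
    obtain ⟨hB0, hGq, hoddq⟩ := refl_odd spr desc hF hsm hW hni hT hFT (pt L t' c' l' y') hG hodd
      (fun i => Polynomial.aeval t' (w i)) hwt
    rw [hpt'] at hB0 hGq hoddq
    have hxf : pt L t' c' l' y' = fun i => Polynomial.aeval t' (l' * z i + p i) := funext hxzp
    -- the two coefficients
    have hxpp : 3 * Bg T (fun i => l' * z i + p i) p p = -(l' ^ 2 * g) := by
      rw [Bg_add1 T (fun i => l' * z i) p, Bg_smul1, hppp, add_zero]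
      have h1 : 3 * (l' * Bg T z p p) = l' * D2 := by
        rw [hD2]
        ring
      rw [h1, hD2g]
      ring
    have hxxp : 3 * Bg T (fun i => l' * z i + p i) (fun i => l' * z i + p i) p =
        l' ^ 2 * (D1 - 2 * g) := by
      rw [Bg_add1 T (fun i => l' * z i) p, Bg_smul1, Bg_add2 T z (fun i => l' * z i) p, Bg_smul2,
        Bg_add2 T p (fun i => l' * z i) p, Bg_smul2, hppp, add_zero, Bg_swap12 hT p z p]
      have h1 : 3 * (l' * (l' * Bg T z z p + Bg T z p p) + l' * Bg T z p p) =
          l' ^ 2 * D1 + 2 * l' * D2 := by
        rw [hD1, hD2]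
        ring
      rw [h1, hD2g]
      ring
    have hBv : 3 * Bg T (pt L t' c' l' y') (fun i => Polynomial.aeval t' (p i))
        (fun i => Polynomial.aeval t' (p i)) = Polynomial.aeval t' (-(l' ^ 2 * g)) := by
      rw [hxf, ← hBφ, ← hxpp, map_mul]
      congr 1
      exact (map_ofNat (Polynomial.aeval t') 3).symm
    have hAv : 3 * Bg T (pt L t' c' l' y') (pt L t' c' l' y')
        (fun i => Polynomial.aeval t' (p i)) = Polynomial.aeval t' (l' ^ 2 * (D1 - 2 * g)) := by
      rw [hxf, ← hBφ, ← hxxp, map_mul]
      congr 1
      exact (map_ofNat (Polynomial.aeval t') 3).symm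
    rw [hBv] at hB0 hGq hoddq
    rw [hAv] at hGq hoddq
    have hg0 : g ≠ 0 := by
      intro h0
      apply hB0
      rw [h0, mul_zero, neg_zero, map_zero]
    -- degrees
    have hD2d : D2.natDegree ≤ 1 + (e - 1) + (e - 1) := by
      rw [hD2]
      refine Polynomial.natDegree_mul_le.trans ?_
      have h1 : (3 : Polynomial L).natDegree = 0 := Polynomial.natDegree_ofNat 3
      rw [h1, zero_add]
      exact Bg_natDegree T z p p 1 (e - 1) (e - 1) hzd hpd hpd
    have hD1d : D1.natDegree ≤ 1 + 1 + (e - 1) := by
      rw [hD1]
      refine Polynomial.natDegree_mul_le.trans ?_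
      have h1 : (3 : Polynomial L).natDegree = 0 := Polynomial.natDegree_ofNat 3
      rw [h1, zero_add]
      exact Bg_natDegree T z z p 1 1 (e - 1) hzd hzd hpd
    have hgd : g.natDegree + 1 ≤ e := by
      rw [hD2g, Polynomial.natDegree_neg, Polynomial.natDegree_mul hl'0 hg0, hl'd] at hD2d
      omega
    have hFzd : Fz = 0 ∨ Fz.natDegree ≤ 1 := by
      by_cases h0 : Fz = 0
      · exact Or.inl h0
      right
      have h1 : l' * Fz = g - D1 := by
        rw [hg]
        ring
      have h2 : (g - D1).natDegree ≤ e + 1 := by
        refine (Polynomial.natDegree_sub_le _ _).trans (max_le ?_ ?_)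
        · omega
        · omega
      rw [← h1, Polynomial.natDegree_mul hl'0 h0, hl'd] at h2
      omega
    -- the new data
    set c'' : Fin (k + 1) → Polynomial L := fun i => g * r i - Fz * w i with hc''
    have hc''d : ∀ i, (c'' i).natDegree ≤ e := by
      intro i
      refine (Polynomial.natDegree_sub_le _ _).trans (max_le ?_ ?_)
      · refine Polynomial.natDegree_mul_le.trans ?_
        have := hrd i
        omega
      · rcases hFzd with h | h
        · rw [h, zero_mul, Polynomial.natDegree_zero]
          exact Nat.zero_le _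
        · refine Polynomial.natDegree_mul_le.trans ?_
          have := hwd i
          omega
    have hq : ∀ i, Polynomial.aeval t' (-(l' ^ 2 * g)) * pt L t' c' l' y' i -
        Polynomial.aeval t' (l' ^ 2 * (D1 - 2 * g)) * Polynomial.aeval t' (p i) =
        Polynomial.aeval t' (-l' ^ 3) * pt L t' c'' g y' i := by
      intro i
      have h1 : pt L t' c'' g y' i = Polynomial.aeval t' (g * z i - Fz * p i) := by
        unfold pt
        refine Fin.addCases (fun j => ?_) (fun j => ?_) i
        · rw [Fin.append_left, hz, hp, Fin.append_left, Fin.append_left]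
        · rw [Fin.append_right, hz, hp, Fin.append_right, Fin.append_right, Pi.zero_apply,
            mul_zero, sub_zero, map_mul]
      rw [h1, hxzp, ← map_mul, ← map_mul, ← map_sub, ← map_mul]
      congr 1
      rw [hg]
      ring
    obtain ⟨h4, h5⟩ := gp_smul hF (s := Polynomial.aeval t' (-l' ^ 3)) (by
      rw [map_neg, map_pow]
      exact neg_ne_zero.2 (pow_ne_zero _ fun h => hl'0 (hinj l' h))) hq
    rw [h4] at hGq
    rw [h5] at hoddq
    exact ih t' htr' c'' g y' hc''d hgd hy'd hGq hoddq

end

end Pool.Agent.R845.E3
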