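import Mathlib
import Pool.Agent.R845.E3.Sec
import Pool.Agent.R845.E3.Conics

/-! # Project E3: sections of the projection from a linear subspace over lines -/

set_option autoImplicit false

namespace Pool.Agent.R845.E3

open MvPolynomial Pool.Agent.TH314.PD Module Pool.Agent.Y201.C3 IntermediateField
open Pool.Agent.R845.T2

noncomputable section

/-- elements of `L(t)` are quotients of polynomials; finitely many elements have a common
denominator -/
theorem common_den {M : Type} [Field M] [Algebra ℂ M] (L : IntermediateField ℂ M) (t : M)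
    (ht : Transcendental L t) (hM : adjoin L {t} = ⊤) {ι : Type} [Fintype ι] (f : ι → M) :
    ∃ (D : Polynomial L) (g : ι → Polynomial L), D ≠ 0 ∧
      ∀ i, Polynomial.aeval t D * f i = Polynomial.aeval t (g i) := by
  classical
  have h1 : ∀ z : M, ∃ a b : Polynomial L, b ≠ 0 ∧
      Polynomial.aeval t b * z = Polynomial.aeval t a := by
    intro z
    have hz : z ∈ adjoin L {t} := by
      rw [hM]
      exact mem_top
    rw [mem_adjoin_simple_iff] at hz
    obtain ⟨a, b, rfl⟩ := hz
    by_cases hb : Polynomial.aeval t b = 0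
    · exact ⟨0, 1, one_ne_zero, by rw [hb, div_zero, mul_zero, map_zero]⟩
    · refine ⟨a, b, ?_, by rw [mul_div_cancel₀ _ hb]⟩
      rintro rfl
      exact hb (map_zero _)
  choose a b hb hab using fun i => h1 (f i)
  refine ⟨∏ i, b i, fun i => a i * ∏ j ∈ Finset.univ.erase i, b j,
    Finset.prod_ne_zero_iff.2 fun i _ => hb i, fun i => ?_⟩
  rw [← Finset.mul_prod_erase Finset.univ b (Finset.mem_univ i), map_mul, map_mul, ← hab]
  ring

/-- a point of odd degree over a line gives a rational point of the generic fibre -/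
theorem sec_iso (spr : S_SPR) (desc : S_DESC) {k m : ℕ}
    {F : MvPolynomial (Fin (k + 1 + (m + 1))) ℂ} (hF : F.IsHomogeneous 3) (hsm : Sm F)
    (hW : VanW F) {M : Type} [Field M] [Algebra ℂ M] (L : IntermediateField ℂ M) (t : M)
    (ht : Transcendental L t) (hM : adjoin L {t} = ⊤) (x : Fin (k + 1 + (m + 1)) → M)
    (hG : Gp F x) (hodd : Odd (finrank (ratioField x) M)) (s : M) (β γ : Fin (m + 1) → M)
    (hβ : ∀ j, β j ∈ L) (hγ : ∀ j, γ j ∈ L)
    (hx : ∀ j, x (Fin.natAdd (k + 1) j) = s * (t * β j + γ j)) : Iso F := by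
  classical
  by_contra hni
  obtain ⟨D, g, hD, hg⟩ := common_den L t ht hM
    (Sum.elim (fun i : Fin (k + 1) => x (Fin.castAdd (m + 1) i)) (fun _ : Unit => s))
  have hD0 : Polynomial.aeval t D ≠ 0 := by
    intro h
    exact ht ⟨D, hD, h⟩
  set c : Fin (k + 1) → Polynomial L := fun i => g (Sum.inl i) with hc
  set l : Polynomial L := g (Sum.inr ()) with hl
  set y : Fin (m + 1) → Polynomial L := fun j =>
    Polynomial.C (⟨β j, hβ j⟩ : L) * Polynomial.X + Polynomial.C (⟨γ j, hγ j⟩ : L) with hy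
  have hpt : ∀ i, pt L t c l y i = Polynomial.aeval t D * x i := by
    intro i
    unfold pt
    refine Fin.addCases (fun j => ?_) (fun j => ?_) i
    · rw [Fin.append_left]
      exact (hg (Sum.inl j)).symm
    · rw [Fin.append_right, hx, hl, ← hg (Sum.inr ())]
      simp only [Sum.elim_inr, hy, map_add, map_mul, Polynomial.aeval_C, Polynomial.aeval_X]
      change Polynomial.aeval t D * s * (β j * t + γ j) = _
      ring
  obtain ⟨h1, h2⟩ := gp_smul hF hD0 hpt
  rw [← h1] at hG
  rw [← h2] at hodd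
  have hyd : ∀ j, (y j).natDegree ≤ 1 := fun j => Polynomial.natDegree_linear_le
  set e : ℕ := (Finset.univ.sup fun i => (c i).natDegree) + (l.natDegree + 1) with he
  exact sec_aux spr desc hF hsm hW hni L e t ht c l y
    (fun i => (Finset.le_sup (f := fun i => (c i).natDegree) (Finset.mem_univ i)).trans
      (Nat.le_add_right _ _)) (Nat.le_add_left _ _) hyd hG hodd

/-- coordinates adapted to a linear subspace -/
theorem adapt0 {N P : ℕ} {F : MvPolynomial (Fin N) ℂ} (hF0 : F ≠ 0)
    (A : Fin N → Fin P → ℂ) (hA0 : A ≠ 0)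
    (hA : ∀ a : Fin P → ℂ, eval (fun i => ∑ l, a l * A i l) F = 0) :
    ∃ (k m : ℕ) (σ : Fin (k + 1 + (m + 1)) ≃ Fin N) (U : Fin (k + 1) → Fin (m + 1) → ℂ),
      VanW (shear U (rename σ.symm F)) ∧
      ∀ (M : Type) [Field M] [Algebra ℂ M] (w : Fin P → M) (j : Fin (m + 1)),
        tp U (fun i => ∑ l, w l * algebraMap ℂ M (A (σ i) l)) (Fin.natAdd (k + 1) j) = 0 := by
  classical
  obtain ⟨k, m, σ, U, hli, hU⟩ := rows' A hA0 (by
    intro h
    apply hF0
    apply MvPolynomial.funext
    intro u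
    obtain ⟨a, ha⟩ := h u
    rw [map_zero, ← hA a, show (fun i => ∑ l, a l * A i l) = u from funext ha])
  set F1 : MvPolynomial (Fin (k + 1 + (m + 1))) ℂ := rename σ.symm F with hF1
  set F2 := shear U F1 with hF2
  -- `F2` vanishes on `W`
  have hsurj : ∀ u : Fin (k + 1) → ℂ, ∃ a : Fin P → ℂ,
      ∀ i, ∑ l, a l * A (σ (Fin.castAdd (m + 1) i)) l = u i := by
    intro u
    have h1 : Function.Surjective (Matrix.mulVecLin (Matrix.of fun i : Fin (k + 1) =>
        A (σ (Fin.castAdd (m + 1) i)))) := by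
      rw [← LinearMap.range_eq_top]
      have h2 := LinearIndependent.rank_matrix (M := Matrix.of fun i : Fin (k + 1) =>
        A (σ (Fin.castAdd (m + 1) i))) hli
      apply Submodule.eq_top_of_finrank_eq
      rw [Module.finrank_fin_fun]
      rw [Fintype.card_fin] at h2
      exact h2
    obtain ⟨a, ha⟩ := h1 u
    refine ⟨a, fun i => ?_⟩
    rw [← ha]
    simp only [Matrix.mulVecLin_apply, Matrix.mulVec, dotProduct, Matrix.of_apply]
    exact Finset.sum_congr rfl fun l _ => mul_comm _ _
  refine ⟨k, m, σ, U, ?_, ?_⟩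
  · unfold VanW
    apply MvPolynomial.funext
    intro u
    rw [map_zero]
    obtain ⟨a, ha⟩ := hsurj u
    have h1 : eval u (aeval (Fin.append (X : Fin (k + 1) → MvPolynomial (Fin (k + 1)) ℂ) 0) F2) =
        aeval (Fin.append u (0 : Fin (m + 1) → ℂ)) F2 := by
      have h2 := comp_aeval_apply (f := Fin.append (X : Fin (k + 1) →
        MvPolynomial (Fin (k + 1)) ℂ) 0) (aeval u) F2
      rw [aeval_eq_eval] at h2
      rw [h2]
      congr 2
      funext i
      refine Fin.addCases (fun j => ?_) (fun j => ?_) i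
      · rw [Fin.append_left, Fin.append_left, eval_X]
      · rw [Fin.append_right, Fin.append_right, Pi.zero_apply, Pi.zero_apply, map_zero]
    rw [h1, hF2, aeval_shear, hF1, aeval_rename]
    have h3 : ((Fin.append (fun i => Fin.append u (0 : Fin (m + 1) → ℂ) (Fin.castAdd (m + 1) i))
        (fun j => Fin.append u (0 : Fin (m + 1) → ℂ) (Fin.natAdd (k + 1) j) +
          ∑ i, algebraMap ℂ ℂ (U i j) * Fin.append u (0 : Fin (m + 1) → ℂ)
            (Fin.castAdd (m + 1) i))) ∘ σ.symm) = fun i => ∑ l, a l * A i l := by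
      funext i
      obtain ⟨i', rfl⟩ := σ.surjective i
      simp only [Function.comp_apply, Equiv.symm_apply_apply]
      refine Fin.addCases (fun j => ?_) (fun j => ?_) i'
      · rw [Fin.append_left, Fin.append_left, ha]
      · rw [Fin.append_right, Fin.append_right, Pi.zero_apply, zero_add]
        simp only [Fin.append_left, Algebra.algebraMap_self, RingHom.id_apply, hU]
        simp only [Finset.mul_sum]
        rw [Finset.sum_comm]
        refine Finset.sum_congr rfl fun i _ => ?_
        rw [← ha, Finset.mul_sum]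
        refine Finset.sum_congr rfl fun l _ => ?_
        ring
    rw [h3, aeval_eq_eval]
    exact hA a
  · intro M _ _ w j
    unfold tp
    rw [Fin.append_right, sub_eq_zero]
    simp only [hU, map_sum, map_mul, Finset.mul_sum]
    rw [Finset.sum_comm]
    refine Finset.sum_congr rfl fun i _ => Finset.sum_congr rfl fun l _ => ?_
    ring

/-- a family of rational curves whose projections from a linear subspace are lines: in adapted
coordinates the generic fibre of the projection has a rational point -/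
theorem sections_iso (spr : S_SPR) (desc : S_DESC) {N P : ℕ} {F : MvPolynomial (Fin N) ℂ}
    (hF : F.IsHomogeneous 3) (hsm : Sm F) (hF0 : F ≠ 0) (A : Fin N → Fin P → ℂ)
    (hA : ∀ a : Fin P → ℂ, eval (fun i => ∑ l, a l * A i l) F = 0)
    {M : Type} [Field M] [Algebra ℂ M] (L : IntermediateField ℂ M) (t : M)
    (ht : Transcendental L t) (hM : adjoin L {t} = ⊤) (x : Fin N → M) (hG : Gp F x)
    (hodd : Odd (finrank (ratioField x) M)) (s : M) (w : Fin P → M) (β γ : Fin N → M)
    (hβ : ∀ i, β i ∈ L) (hγ : ∀ i, γ i ∈ L)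
    (hx : ∀ i, x i = s * (t * β i + γ i) + ∑ l, w l * algebraMap ℂ M (A i l)) :
    ∃ (k m : ℕ) (σ : Fin (k + 1 + (m + 1)) ≃ Fin N) (U : Fin (k + 1) → Fin (m + 1) → ℂ),
      VanW (shear U (rename σ.symm F)) ∧ Iso (shear U (rename σ.symm F)) := by
  classical
  by_cases hA0 : A = 0
  · exfalso
    have h1 : ∀ i, x i = s * (t * β i + γ i) := by
      intro i
      rw [hx, hA0]
      simp
    have hs : s ≠ 0 := by
      intro h0
      obtain ⟨i, hi⟩ : ∃ i : Fin N, True := by
        by_contra hcon
        push Not at hcon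
        have : IsEmpty (Fin N) := ⟨fun i => hcon i⟩
        have h2 := hF.totalDegree hF0
        rw [eq_C_of_isEmpty F, totalDegree_C] at h2
        omega
      exact coord_ne_zero hF (by norm_num) x hG.2 i (by rw [h1, h0, zero_mul])
    obtain ⟨h2, h3⟩ := gp_smul hF hs h1
    rw [h2] at hG
    rw [h3] at hodd
    have hirr : Irreducible F :=
      Pool.Agent.Y201.LI.irreducible_of_generic hF hF0 _ hG.1 hG.2
    have h4 := Pool.Agent.Y201.LI.hT1 N 3 F hF (by norm_num) hirr hsm M L t ht β γ
      hβ hγ hG.1 hG.2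
    exact (Nat.not_even_iff_odd.2 hodd) (even_iff_two_dvd.2 h4)
  obtain ⟨k, m, σ, U, hW, htp⟩ := adapt0 hF0 A hA0 hA
  refine ⟨k, m, σ, U, hW, ?_⟩
  have hF1h : (rename σ.symm F).IsHomogeneous 3 := hF.rename_isHomogeneous
  set x1 : Fin (k + 1 + (m + 1)) → M := fun i => x (σ i) with hx1
  have hx1G : Gp (rename σ.symm F) x1 := by
    have h1 := gp_rename σ.symm hG
    simpa only [Equiv.symm_symm] using h1
  have hx1r : ratioField x1 = ratioField x := by
    have h1 := ratioField_perm σ.symm x
    simpa only [Equiv.symm_symm] using h1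
  have hx2G : Gp (shear U (rename σ.symm F)) (tp U x1) := gp_tp U hx1G
  have hx1n : ∀ i, x1 i ≠ 0 := coord_ne_zero hF1h (by norm_num) x1 hx1G.2
  have hx2n : ∀ i, tp U x1 i ≠ 0 := coord_ne_zero (shear_hom hF1h U) (by norm_num) _ hx2G.2
  have hx2r : ratioField (tp U x1) = ratioField x1 :=
    ratioField_tp U x1 ⟨_, hx1n (Fin.castAdd (m + 1) 0)⟩ ⟨_, hx2n (Fin.castAdd (m + 1) 0)⟩
  refine sec_iso spr desc (shear_hom hF1h U) (sm_shear (sm_rename σ.symm hsm) U) hW L t ht hM
    (tp U x1) hx2G (by rw [hx2r, hx1r]; exact hodd) s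
    (fun j => tp U (fun i => β (σ i)) (Fin.natAdd (k + 1) j))
    (fun j => tp U (fun i => γ (σ i)) (Fin.natAdd (k + 1) j))
    (fun j => tp_mem U L _ (fun i => hβ _) _) (fun j => tp_mem U L _ (fun i => hγ _) _)
    fun j => ?_
  have h1 : x1 = fun i => s * t * β (σ i) + s * γ (σ i) +
      ∑ l, w l * algebraMap ℂ M (A (σ i) l) := by
    funext i
    rw [hx1]
    simp only
    rw [hx]
    ring
  rw [h1, tp_lin]
  simp only
  rw [htp M w j]
  ring

/-- very general cubic hypersurfaces -/
theorem sections_even (spr : S_SPR) (desc : S_DESC) (at_ : S_AT) {n : ℕ} (hn : 3 ≤ n)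
    {F : MvPolynomial (Fin (n + 2)) ℂ} (hF : F.IsHomogeneous 3) (hsm : Sm F)
    (hind : AlgebraicIndependent ℚ
      (fun β : {β : Fin (n + 2) →₀ ℕ // β.degree = 3} => coeff β.1 F))
    {P : ℕ} (A : Fin (n + 2) → Fin P → ℂ)
    (hA : ∀ a : Fin P → ℂ, eval (fun i => ∑ l, a l * A i l) F = 0)
    {M : Type} [Field M] [Algebra ℂ M] (L : IntermediateField ℂ M) (t : M)
    (ht : Transcendental L t) (hM : adjoin L {t} = ⊤) (x : Fin (n + 2) → M) (hG : Gp F x)
    (s : M) (w : Fin P → M) (β γ : Fin (n + 2) → M)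
    (hβ : ∀ i, β i ∈ L) (hγ : ∀ i, γ i ∈ L)
    (hx : ∀ i, x i = s * (t * β i + γ i) + ∑ l, w l * algebraMap ℂ M (A i l)) :
    Even (finrank (ratioField x) M) := by
  rw [← Nat.not_odd_iff_even]
  intro hodd
  obtain ⟨k, m, σ, U, hW, hiso⟩ := sections_iso spr desc hF hsm (ne_zero_of_smooth (m := n + 1) hsm)
    A hA L t ht hM x hG hodd s w β γ hβ hγ hx
  have hkm : k + m = n := by
    have h1 := Fintype.card_congr σ
    rw [Fintype.card_fin, Fintype.card_fin] at h1
    omega
  exact at_ k m (by omega) _ hF.rename_isHomogeneous (sm_rename σ.symm hsm)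
    (ind_rename σ.symm hind) U hW hiso

end

end Pool.Agent.R845.E3
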