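import Mathlib
import Pool.Agent.R845.E3.Stm2

/-! # Project E3: rationality from a rational section of the projection from `W` (statement) -/

set_option autoImplicit false

namespace Pool.Agent.R845.E3

open MvPolynomial Pool.Agent.TH314.PD IntermediateField Module

noncomputable section

/-- job RAT (from `S_EVN`): if the generic fibre of the projection from `W` has a rational point,
then the cubic has a birational parametrization -/
def S_RAT : Prop :=
  ∀ (k m : ℕ), 1 ≤ k + m → ∀ F : MvPolynomial (Fin (k + 1 + (m + 1))) ℂ, F.IsHomogeneous 3 →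
    Sm F → VanW F → Iso F →
    ∃ G : Fin (k + 1 + (m + 1)) → MvPolynomial (Fin (k + m)) ℂ,
      Gp F (fun i => algebraMap (MvPolynomial (Fin (k + m)) ℂ) (Rn (k + m)) (G i)) ∧
      (ratioField fun i => algebraMap (MvPolynomial (Fin (k + m)) ℂ) (Rn (k + m)) (G i)) = ⊤

end

end Pool.Agent.R845.E3
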