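import Mathlib
import Pool.Agent.R845.E3.Lin2
import Pool.Agent.R845.E3.Stm3
import Pool.Agent.R845.E3.Sections

/-! # Project E3: back to the original coordinates -/

set_option autoImplicit false

namespace Pool.Agent.R845.E3

open MvPolynomial Pool.Agent.TH314.PD IntermediateField Module

noncomputable section

theorem back {N n k m : ℕ} (hkm : k + m = n) {F : MvPolynomial (Fin N) ℂ}
    (hF : F.IsHomogeneous 3)
    (σ : Fin (k + 1 + (m + 1)) ≃ Fin N) (U : Fin (k + 1) → Fin (m + 1) → ℂ)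
    (h : ∃ G : Fin (k + 1 + (m + 1)) → MvPolynomial (Fin (k + m)) ℂ,
      Gp (shear U (rename σ.symm F))
        (fun i => algebraMap (MvPolynomial (Fin (k + m)) ℂ) (Rn (k + m)) (G i)) ∧
      (ratioField fun i =>
        algebraMap (MvPolynomial (Fin (k + m)) ℂ) (Rn (k + m)) (G i)) = ⊤) :
    ∃ G : Fin N → MvPolynomial (Fin n) ℂ,
      Gp F (fun i => algebraMap (MvPolynomial (Fin n) ℂ) (Rn n) (G i)) ∧
      (ratioField fun i => algebraMap (MvPolynomial (Fin n) ℂ) (Rn n) (G i)) = ⊤ := by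
  subst hkm
  obtain ⟨G2, h1, h2⟩ := h
  have hF1h : (rename σ.symm F).IsHomogeneous 3 := hF.rename_isHomogeneous
  set U' : Fin (k + 1) → Fin (m + 1) → ℂ := fun i j => -U i j with hU'
  set x2 : Fin (k + 1 + (m + 1)) → Rn (k + m) :=
    fun i => algebraMap (MvPolynomial (Fin (k + m)) ℂ) (Rn (k + m)) (G2 i) with hx2
  have h3 : shear U' (shear U (rename σ.symm F)) = rename σ.symm F := by
    have h4 := shear_neg_shear U' (rename σ.symm F)
    rw [hU'] at h4 ⊢
    simpa only [neg_neg] using h4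
  have h4 : Gp (rename σ.symm F) (tp U' x2) := by
    have h5 := gp_tp U' h1
    rwa [h3] at h5
  have h5 : Gp F (fun i => tp U' x2 (σ.symm i)) := by
    have h6 := gp_rename σ h4
    rwa [rename_rename, Equiv.self_comp_symm, rename_id_apply] at h6
  have h6 : ∀ i, tp U' x2 i = algebraMap (MvPolynomial (Fin (k + m)) ℂ) (Rn (k + m))
      (tp U' G2 i) := by
    intro i
    unfold tp
    refine Fin.addCases (fun j => ?_) (fun j => ?_) i
    · rw [Fin.append_left, Fin.append_left]
    · rw [Fin.append_right, Fin.append_right, map_sub, map_sum]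
      simp only [map_mul, hx2]
      rfl
  have hn1 : ∀ i, x2 i ≠ 0 := Pool.Agent.R845.T2.coord_ne_zero (shear_hom hF1h U) (by norm_num) _ h1.2
  have hn2 : ∀ i, tp U' x2 i ≠ 0 := Pool.Agent.R845.T2.coord_ne_zero hF1h (by norm_num) _ h4.2
  have h7 : ratioField (tp U' x2) = ⊤ := by
    rw [ratioField_tp U' x2 ⟨_, hn1 (Fin.castAdd (m + 1) 0)⟩ ⟨_, hn2 (Fin.castAdd (m + 1) 0)⟩]
    exact h2
  have h8 : ratioField (fun i => tp U' x2 (σ.symm i)) = ⊤ := by
    rw [ratioField_perm σ (tp U' x2)]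
    exact h7
  refine ⟨fun i => tp U' G2 (σ.symm i), ?_, ?_⟩
  · have h9 : (fun i => algebraMap (MvPolynomial (Fin (k + m)) ℂ) (Rn (k + m))
        (tp U' G2 (σ.symm i))) = fun i => tp U' x2 (σ.symm i) := by
      funext i
      rw [h6]
    rw [h9]
    exact h5
  · have h9 : (fun i => algebraMap (MvPolynomial (Fin (k + m)) ℂ) (Rn (k + m))
        (tp U' G2 (σ.symm i))) = fun i => tp U' x2 (σ.symm i) := by
      funext i
      rw [h6]
    rw [h9]
    exact h8

end

end Pool.Agent.R845.E3
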