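import Mathlib
import Pool.Agent.R845.E3.Stm

/-! # Project E3: job TRANS, auxiliary statements -/

set_option autoImplicit false

namespace Pool.Agent.R845.E3.Trans

open MvPolynomial Pool.Agent.TH314.PD IntermediateField Module FF

noncomputable section

/-- expansion to second order -/
theorem taylor2 {A B σ : Type} [CommRing A] [CommRing B] [Fintype σ] [DecidableEq σ] (φ : A →+* B)
    (a b : σ → B) (e : B) (p : MvPolynomial σ A) :
    ∃ R : B, eval₂ φ (fun i => a i + e * b i) p =
      eval₂ φ a p + e * ∑ i, b i * eval₂ φ a (pderiv i p) + e ^ 2 * R := by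
  induction p using MvPolynomial.induction_on with
  | C c => exact ⟨0, by simp⟩
  | add p q hp hq =>
    obtain ⟨R1, h1⟩ := hp
    obtain ⟨R2, h2⟩ := hq
    refine ⟨R1 + R2, ?_⟩
    simp only [eval₂_add, map_add, mul_add, Finset.sum_add_distrib, h1, h2]
    ring
  | mul_X p j hp =>
    obtain ⟨R, h⟩ := hp
    have h1 : ∀ i, b i * eval₂ φ a (pderiv i (p * X j)) =
        b i * eval₂ φ a (pderiv i p) * a j + (if i = j then b j * eval₂ φ a p else 0) := by
      intro i
      rw [pderiv_mul, eval₂_add, eval₂_mul, eval₂_mul, eval₂_X]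
      by_cases hij : i = j
      · subst hij
        rw [pderiv_X_self, eval₂_one, if_pos rfl]
        ring
      · rw [pderiv_X_of_ne (Ne.symm hij), eval₂_zero, if_neg hij]
        ring
    refine ⟨b j * (∑ i, b i * eval₂ φ a (pderiv i p)) + R * (a j + e * b j), ?_⟩
    rw [Finset.sum_congr rfl fun i _ => h1 i, Finset.sum_add_distrib, ← Finset.sum_mul,
      Finset.sum_ite_eq' Finset.univ j, eval₂_mul, eval₂_X, eval₂_mul, eval₂_X, h]
    simp only [Finset.mem_univ, if_true]
    ring

section places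

variable {Ω K E : Type} [Field Ω] [Field K] [Field E] [Algebra Ω K] [Algebra K E] [Algebra Ω E]
  [IsScalarTower Ω K E] (P : Place Ω K) (w : Place Ω E)

/-- `w` lies over `P` -/
def Ov : Prop := ∀ a : K, P.Reg a → w.Reg (algebraMap K E a)

/-- the residues of the regular elements of `K` -/
def As : Set w.RF := {c : w.RF | ∃ a : K, P.Reg a ∧ w.red (algebraMap K E a) = c}

variable {P w}

/-- the inclusion of the valuation rings -/
def inc (h : Ov P w) : P.O →+* w.O where
  toFun a := ⟨algebraMap K E a, h a a.2⟩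
  map_one' := Subtype.ext (by simp)
  map_mul' x y := Subtype.ext (by simp)
  map_zero' := Subtype.ext (by simp)
  map_add' x y := Subtype.ext (by simp)

/-- the residue map on the valuation ring of `P` -/
def kr (h : Ov P w) : P.O →+* w.RF := w.resHom.comp (inc h)

theorem kr_apply (h : Ov P w) (a : K) (ha : P.Reg a) :
    kr h ⟨a, ha⟩ = w.red (algebraMap K E a) := by
  rw [w.red_of_reg (h a ha)]
  rfl

theorem mem_As (h : Ov P w) (c : w.RF) : c ∈ As (K := K) P w ↔ ∃ a, kr h a = c := by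
  constructor
  · rintro ⟨a, ha, rfl⟩
    exact ⟨⟨a, ha⟩, kr_apply h a ha⟩
  · rintro ⟨⟨a, ha⟩, rfl⟩
    exact ⟨a, ha, (kr_apply h a ha).symm⟩

theorem red_pos (h : Ov P w) {ϖ : K} (h0 : ϖ ≠ 0) (h1 : P.ord ϖ = 1)
    (h2 : 0 < w.ord (algebraMap K E ϖ)) {a : K} (ha : a = 0 ∨ 0 < P.ord a) :
    w.Reg (algebraMap K E a) ∧ w.red (algebraMap K E a) = 0 := by
  rcases ha with ha | ha
  · rw [ha, map_zero]
    exact ⟨w.reg_zero, w.red_zero⟩
  · have ha0 : a ≠ 0 := by
      rintro rfl
      rw [P.ord_zero] at ha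
      exact lt_irrefl _ ha
    have h3 : P.Reg (a / ϖ) := by
      right
      rw [P.ord_div ha0 h0, h1]
      omega
    have h4 : a = ϖ * (a / ϖ) := by
      field_simp
    have h5 : w.Reg (algebraMap K E ϖ) := Or.inr h2.le
    have h6 : w.red (algebraMap K E ϖ) = 0 := (w.red_eq_zero_iff h5).2 (Or.inr h2)
    rw [h4, map_mul]
    exact ⟨w.reg_mul h5 (h _ h3), by rw [w.red_mul h5 (h _ h3), h6, zero_mul]⟩

theorem ord_of_red (h : Ov P w) {ϖ : K} (h0 : ϖ ≠ 0) (h1 : P.ord ϖ = 1)
    (h2 : 0 < w.ord (algebraMap K E ϖ)) {a : K} (ha : P.Reg a)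
    (hr : w.red (algebraMap K E a) ≠ 0) : a ≠ 0 ∧ P.ord a = 0 := by
  have h3 : ¬ (a = 0 ∨ 0 < P.ord a) := fun h3 => hr (red_pos h h0 h1 h2 h3).2
  push Not at h3
  refine ⟨h3.1, ?_⟩
  have h4 := (P.reg_iff h3.1).1 ha
  omega

theorem red_unit (h : Ov P w) {a : K} (ha0 : a ≠ 0) (ha : P.ord a = 0) :
    w.red (algebraMap K E a) ≠ 0 := by
  have h1 : P.Reg a := Or.inr ha.ge
  have h2 : P.Reg a⁻¹ := Or.inr (by rw [P.ord_inv]; omega)
  intro h3
  have h4 := w.red_mul (h _ h1) (h _ h2)
  rw [← map_mul, mul_inv_cancel₀ ha0, map_one, w.red_one, h3, zero_mul] at h4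
  exact one_ne_zero h4

theorem reg_inv' {f : E} (h : w.red f ≠ 0) (hf : w.Reg f) :
    f ≠ 0 ∧ w.ord f = 0 ∧ w.Reg f⁻¹ ∧ w.red f⁻¹ = (w.red f)⁻¹ := by
  have h1 : ¬ (f = 0 ∨ 0 < w.ord f) := fun h2 => h ((w.red_eq_zero_iff hf).2 h2)
  push Not at h1
  obtain ⟨h2, h3⟩ := h1
  have h4 := (w.reg_iff h2).1 hf
  have h5 : w.Reg f⁻¹ := Or.inr (by rw [w.ord_inv]; omega)
  refine ⟨h2, by omega, h5, ?_⟩
  have h6 := w.red_mul h5 hf
  rw [inv_mul_cancel₀ h2, w.red_one] at h6
  exact eq_inv_of_mul_eq_one_left h6.symm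

/-- the residues of the regular elements of `K` form a field -/
theorem closure_As (h : Ov P w) {ϖ : K} (h0 : ϖ ≠ 0) (h1 : P.ord ϖ = 1)
    (h2 : 0 < w.ord (algebraMap K E ϖ)) (c : w.RF) :
    c ∈ Subfield.closure (As (K := K) P w) ↔ c ∈ As (K := K) P w := by
  constructor
  · intro hc
    induction hc using Subfield.closure_induction with
    | mem x hx => exact hx
    | one => exact ⟨1, P.reg_one, by rw [map_one, w.red_one]⟩
    | add x y _ _ hx hy =>
      obtain ⟨a, ha, rfl⟩ := hx
      obtain ⟨b, hb, rfl⟩ := hy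
      exact ⟨a + b, P.reg_add ha hb, by rw [map_add, w.red_add (h _ ha) (h _ hb)]⟩
    | neg x _ hx =>
      obtain ⟨a, ha, rfl⟩ := hx
      exact ⟨-a, P.reg_neg ha, by rw [map_neg, w.red_neg (h _ ha)]⟩
    | inv x _ hx =>
      obtain ⟨a, ha, rfl⟩ := hx
      by_cases h3 : w.red (algebraMap K E a) = 0
      · rw [h3, inv_zero]
        exact ⟨0, P.reg_zero, by rw [map_zero, w.red_zero]⟩
      · obtain ⟨h4, h5⟩ := ord_of_red h h0 h1 h2 ha h3
        refine ⟨a⁻¹, Or.inr (by rw [P.ord_inv]; omega), ?_⟩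
        rw [map_inv₀]
        exact (reg_inv' h3 (h _ ha)).2.2.2
    | mul x y _ _ hx hy =>
      obtain ⟨a, ha, rfl⟩ := hx
      obtain ⟨b, hb, rfl⟩ := hy
      exact ⟨a * b, P.reg_mul ha hb, by rw [map_mul, w.red_mul (h _ ha) (h _ hb)]⟩
  · intro hc
    exact Subfield.subset_closure hc

/-- the value of a polynomial with regular coefficients -/
theorem red_poly (h : Ov P w) {m : ℕ} {y : Fin m → E} (hy : ∀ j, w.Reg (y j))
    (q : MvPolynomial (Fin m) P.O) :
    w.Reg (aeval y (map P.O.subtype q)) ∧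
      w.red (aeval y (map P.O.subtype q)) = eval₂ (kr h) (fun j => w.red (y j)) q := by
  induction q using MvPolynomial.induction_on with
  | C a =>
    rw [map_C, aeval_C, eval₂_C]
    exact ⟨h _ a.2, (kr_apply h a a.2).symm⟩
  | add p q hp hq =>
    rw [map_add, map_add, eval₂_add]
    exact ⟨w.reg_add hp.1 hq.1, by rw [w.red_add hp.1 hq.1, hp.2, hq.2]⟩
  | mul_X p j hp =>
    rw [map_mul, map_mul, map_X, aeval_X, eval₂_mul, eval₂_X]
    exact ⟨w.reg_mul hp.1 (hy j), by rw [w.red_mul hp.1 (hy j), hp.2]⟩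

theorem exists_lift {m : ℕ} (p : MvPolynomial (Fin m) K) (hp : ∀ α, P.Reg (coeff α p)) :
    ∃ q : MvPolynomial (Fin m) P.O, map P.O.subtype q = p := by
  classical
  refine ⟨∑ α ∈ p.support, monomial α ⟨coeff α p, hp α⟩, ?_⟩
  rw [map_sum]
  conv_rhs => rw [p.as_sum]
  refine Finset.sum_congr rfl fun α _ => ?_
  rw [map_monomial]
  rfl

/-- the condition in the fundamental identity -/
theorem prim_iff (h : Ov P w) {ϖ : K} (h0 : ϖ ≠ 0) (h1 : P.ord ϖ = 1)
    (h2 : 0 < w.ord (algebraMap K E ϖ)) {m : ℕ} {y : Fin m → E} (hy : ∀ j, w.Reg (y j)) :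
    (∀ p : MvPolynomial (Fin m) K, (∀ α, P.Reg (coeff α p)) →
          (∃ α, coeff α p ≠ 0 ∧ P.ord (coeff α p) = 0) → w.red (aeval y p) ≠ 0) ↔
    AlgebraicIndependent (Subfield.closure (As (K := K) P w)) (fun j => w.red (y j)) := by
  constructor
  · intro hp
    rw [algebraicIndependent_iff]
    intro q hq
    by_contra hne
    have h3 : ∀ c : Subfield.closure (As (K := K) P w), ∃ a, kr h a = c := fun c =>
      (mem_As h _).1 ((closure_As h h0 h1 h2 _).1 c.2)
    choose g hg using h3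
    classical
    let q' : MvPolynomial (Fin m) P.O := ∑ α ∈ q.support, monomial α (g (coeff α q))
    have hq' : map (kr h) q' = map (Subfield.closure (As (K := K) P w)).subtype q := by
      change map (kr h) (∑ α ∈ q.support, monomial α (g (coeff α q))) = _
      rw [map_sum]
      conv_rhs => rw [q.as_sum]
      rw [map_sum]
      refine Finset.sum_congr rfl fun α _ => ?_
      rw [map_monomial, map_monomial, hg]
      rfl
    obtain ⟨α, hα⟩ : ∃ α, coeff α q ≠ 0 := by
      by_contra h4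
      push Not at h4
      exact hne (MvPolynomial.ext _ _ fun α => by rw [h4 α, coeff_zero])
    have h5 : kr h (coeff α q') ≠ 0 := by
      have h6 := congrArg (coeff α) hq'
      rw [coeff_map, coeff_map] at h6
      rw [h6]
      intro h7
      exact hα (Subtype.ext h7)
    have h8 := hp (map P.O.subtype q') (fun β => by rw [coeff_map]; exact (coeff β q').2)
      ⟨α, by
        rw [coeff_map]
        have h9 := kr_apply h ((coeff α q' : P.O) : K) (coeff α q').2
        rw [Subtype.coe_eta] at h9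
        rw [h9] at h5
        exact ord_of_red h h0 h1 h2 (coeff α q').2 h5⟩
    rw [(red_poly h hy q').2, ← eval_map, hq', eval_map] at h8
    exact h8 hq
  · intro hind p hpr hpu hz
    obtain ⟨q, rfl⟩ := exists_lift (P := P) p hpr
    obtain ⟨α, hα0, hα⟩ := hpu
    rw [(red_poly h hy q).2] at hz
    let κ : P.O →+* Subfield.closure (As (K := K) P w) :=
      (kr h).codRestrict (Subfield.closure (As (K := K) P w))
        (fun a => Subfield.subset_closure ((mem_As h _).2 ⟨a, rfl⟩))
    have h3 : (Subfield.closure (As (K := K) P w)).subtype.comp κ = kr h := RingHom.ext fun _ => rfl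
    have h4 : aeval (fun j => w.red (y j)) (map κ q) = 0 := by
      rw [aeval_def, eval₂_map]
      exact hz
    have h5 := (algebraicIndependent_iff.1 hind) _ h4
    have h6 := congrArg (coeff α) h5
    rw [coeff_map, coeff_zero] at h6
    have h7 : kr h (coeff α q) = 0 := congrArg Subtype.val h6
    have h9 := kr_apply h ((coeff α q : P.O) : K) (coeff α q).2
    rw [Subtype.coe_eta] at h9
    rw [h9] at h7
    rw [coeff_map] at hα0 hα
    exact red_unit h hα0 hα h7

end places

end

end Pool.Agent.R845.E3.Trans
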