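import Mathlib
import Pool.Agent.R845.E3.TransA

/-! # Project E3: job TRANS, auxiliary statements -/

set_option autoImplicit false

namespace Pool.Agent.R845.E3.Trans

open MvPolynomial Pool.Agent.TH314.PD IntermediateField Module FF

noncomputable section

/-- scaling -/
theorem eval₂_smul {A B σ : Type} [CommRing A] [CommRing B] [Fintype σ] (φ : A →+* B)
    (a : σ → B) (t : B) {p : MvPolynomial σ A} {n : ℕ} (hp : p.IsHomogeneous n) :
    eval₂ φ (fun i => t * a i) p = t ^ n * eval₂ φ a p := by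
  classical
  rw [eval₂_eq', eval₂_eq', Finset.mul_sum]
  refine Finset.sum_congr rfl fun d hd => ?_
  have h1 : ∑ i, d i = n := by
    have h2 := hp (mem_support_iff.1 hd)
    rw [Finsupp.weight_apply, Finsupp.sum_fintype _ _ (by simp)] at h2
    simpa using h2
  have h3 : ∏ i, (t * a i) ^ d i = t ^ n * ∏ i, a i ^ d i := by
    rw [← h1, ← Finset.prod_pow_eq_pow_sum, ← Finset.prod_mul_distrib]
    exact Finset.prod_congr rfl fun i _ => mul_pow _ _ _
  rw [h3]
  ring

theorem append_mul {k m : ℕ} {L : Type} [Field L] (t : L) (a : Fin k → L) (b : Fin m → L) :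
    (Fin.append (fun i => t * a i) fun j => t * b j) = fun i => t * Fin.append a b i := by
  funext i
  refine Fin.addCases (fun i => ?_) (fun i => ?_) i
  · rw [Fin.append_left, Fin.append_left]
  · rw [Fin.append_right, Fin.append_right]

/-- the values of `shear V F` -/
theorem eval_shear {k m : ℕ} {K L : Type} [Field K] [CommRing L] (φ : K →+* L)
    (V : Fin (k + 1) → Fin (m + 1) → K) (F : MvPolynomial (Fin (k + 1 + (m + 1))) K)
    (a : Fin (k + 1) → L) (b : Fin (m + 1) → L) :
    eval₂ φ (Fin.append a b) (shear V F) =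
      eval₂ φ (Fin.append a fun j => b j + ∑ i, φ (V i j) * a i) F := by
  change eval₂Hom φ (Fin.append a b) (shear V F) = _
  unfold shear
  rw [aeval_def, hom_eval₂]
  have h1 : (eval₂Hom φ (Fin.append a b)).comp (algebraMap K
      (MvPolynomial (Fin (k + 1 + (m + 1))) K)) = φ := by
    ext x
    simp [MvPolynomial.algebraMap_eq]
  rw [h1]
  congr 1
  funext i
  refine Fin.addCases (fun i => ?_) (fun j => ?_) i
  · rw [Fin.append_left, Fin.append_left, eval₂Hom_X', Fin.append_left]
  · rw [Fin.append_right, Fin.append_right, map_add, eval₂Hom_X', Fin.append_right, map_sum]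
    congr 1
    refine Finset.sum_congr rfl fun i _ => ?_
    rw [map_mul, eval₂Hom_C, eval₂Hom_X', Fin.append_left]

theorem eval_van {k m : ℕ} {K L : Type} [Field K] [CommRing L] (φ : K →+* L)
    {F : MvPolynomial (Fin (k + 1 + (m + 1))) K} (hF : VanW F) (a : Fin (k + 1) → L) :
    eval₂ φ (Fin.append a (0 : Fin (m + 1) → L)) F = 0 := by
  have h := congrArg (eval₂Hom φ a) hF
  rw [aeval_def, hom_eval₂, map_zero] at h
  have h1 : (eval₂Hom φ a).comp (algebraMap K (MvPolynomial (Fin (k + 1)) K)) = φ := by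
    ext x
    simp [MvPolynomial.algebraMap_eq]
  rw [h1] at h
  rw [← h]
  congr 1
  funext i
  refine Fin.addCases (fun i => ?_) (fun j => ?_) i
  · rw [Fin.append_left, Fin.append_left, eval₂Hom_X']
  · rw [Fin.append_right, Fin.append_right]
    simp

theorem shear_homogeneous {k m : ℕ} {K : Type} [Field K]
    (V : Fin (k + 1) → Fin (m + 1) → K) {F : MvPolynomial (Fin (k + 1 + (m + 1))) K} {n : ℕ}
    (hF : F.IsHomogeneous n) : (shear V F).IsHomogeneous n := by
  unfold shear
  have h := hF.aeval (Fin.append (fun i => (X (Fin.castAdd (m + 1) i) :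
      MvPolynomial (Fin (k + 1 + (m + 1))) K))
    (fun j => X (Fin.natAdd (k + 1) j) + ∑ i, C (V i j) * X (Fin.castAdd (m + 1) i)))
    (n := 1) ?_
  · rwa [one_mul] at h
  · intro i
    refine Fin.addCases (fun i => ?_) (fun j => ?_) i
    · rw [Fin.append_left]
      exact isHomogeneous_X _ _
    · rw [Fin.append_right]
      refine (isHomogeneous_X _ _).add (IsHomogeneous.sum _ _ _ fun i _ => ?_)
      have := (isHomogeneous_C (Fin (k + 1 + (m + 1))) (V i j)).mul
        (isHomogeneous_X K (Fin.castAdd (m + 1) i))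
      rwa [zero_add] at this

section places

variable {Ω K E : Type} [Field Ω] [Algebra ℂ Ω] [Field K] [Algebra ℂ K] [Field E] [Algebra Ω K]
  [IsScalarTower ℂ Ω K] [Algebra K E] [Algebra Ω E]
  [IsScalarTower Ω K E] {P : Place Ω K} {w : Place Ω E}

/-- the constants -/
def cO (w : Place Ω E) : ℂ →+* w.O where
  toFun c := ⟨algebraMap Ω E (algebraMap ℂ Ω c), w.reg_const _⟩
  map_one' := Subtype.ext (by simp)
  map_mul' x y := Subtype.ext (by simp)
  map_zero' := Subtype.ext (by simp)
  map_add' x y := Subtype.ext (by simp)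

theorem coe_cO (w : Place Ω E) (c : ℂ) :
    w.O.subtype (cO w c) = algebraMap K E (algebraMap ℂ K c) := by
  change algebraMap Ω E (algebraMap ℂ Ω c) = _
  rw [IsScalarTower.algebraMap_apply Ω K E, ← IsScalarTower.algebraMap_apply ℂ Ω K]

/-- the constants in the residue field -/
def cc (w : Place Ω E) : ℂ →+* w.RF := (algebraMap Ω w.RF).comp (algebraMap ℂ Ω)

theorem res_cO (w : Place Ω E) : w.resHom.comp (cO w) = cc w := by
  ext c
  change w.resHom ⟨algebraMap Ω E (algebraMap ℂ Ω c), w.reg_const _⟩ =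
    w.red (algebraMap Ω E (algebraMap ℂ Ω c))
  rw [w.red_of_reg (w.reg_const _)]

/-- a point of the fibre in which the scalar vanishes -/
theorem case2 (h : Ov P w) {ϖ : K} (h0 : ϖ ≠ 0) (h1 : P.ord ϖ = 1)
    (h2 : 0 < w.ord (algebraMap K E ϖ)) {k m : ℕ} (F : MvPolynomial (Fin (k + 1 + (m + 1))) ℂ)
    (V : Fin (k + 1) → Fin (m + 1) → K) (hV : ∀ i j, V i j = 0 ∨ 0 < P.ord (V i j))
    (hW : VanW (shear V (map (algebraMap ℂ K) F)))
    (v : Fin (k + 1) → E) (hv : ∀ i, w.Reg (v i)) (e : E) (he0 : e ≠ 0) (he : 0 < w.ord e)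
    (y : Fin (m + 1) → E) (hy : ∀ j, w.Reg (y j))
    (hF : aeval (Fin.append v fun j => e * y j) (shear V (map (algebraMap ℂ K) F)) = 0) :
    ∑ j, w.red (y j) * eval₂ (cc w) (Fin.append (fun i => w.red (v i)) (0 : Fin (m + 1) → w.RF))
      (pderiv (Fin.natAdd (k + 1) j) F) = 0 := by
  have hcc : (algebraMap K E).comp (algebraMap ℂ K) = w.O.subtype.comp (cO w) := by
    ext c
    exact (coe_cO w c).symm
  have hVr := fun i j => red_pos h h0 h1 h2 (hV i j)
  let vO : Fin (k + 1) → w.O := fun i => ⟨v i, hv i⟩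
  let yO : Fin (m + 1) → w.O := fun j => ⟨y j, hy j⟩
  let eO : w.O := ⟨e, Or.inr he.le⟩
  let VO : Fin (k + 1) → Fin (m + 1) → w.O := fun i j => ⟨algebraMap K E (V i j), (hVr i j).1⟩
  let a : Fin (k + 1 + (m + 1)) → w.O := Fin.append vO fun j => ∑ i, VO i j * vO i
  let b : Fin (k + 1 + (m + 1)) → w.O := Fin.append 0 yO
  obtain ⟨R, hR⟩ := taylor2 (cO w) a b eO F
  have hsub : Function.Injective w.O.subtype := Subtype.val_injective
  -- the value at `a + e b`
  have e1 : eval₂ (cO w) (fun i => a i + eO * b i) F = 0 := by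
    apply hsub
    rw [hom_eval₂, ← hcc, map_zero, ← eval₂_map]
    rw [aeval_def, eval_shear] at hF
    rw [← hF]
    congr 1
    funext i
    refine Fin.addCases (fun i => ?_) (fun j => ?_) i
    · simp only [Function.comp_apply, a, b, Fin.append_left]
      simp [vO]
    · simp only [Function.comp_apply, a, b, Fin.append_right]
      simp [vO, yO, eO, VO, add_comm]
  have e2 : eval₂ (cO w) a F = 0 := by
    apply hsub
    rw [hom_eval₂, ← hcc, map_zero, ← eval₂_map]
    have h3 := eval_van (algebraMap K E) hW v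
    rw [eval_shear] at h3
    rw [← h3]
    congr 1
    funext i
    refine Fin.addCases (fun i => ?_) (fun j => ?_) i
    · simp only [Function.comp_apply, a, Fin.append_left]
      simp [vO]
    · simp only [Function.comp_apply, a, Fin.append_right]
      simp [vO, VO]
  rw [e1, e2, zero_add, pow_two, mul_assoc, ← mul_add] at hR
  have heO : eO ≠ 0 := fun h3 => he0 (congrArg Subtype.val h3)
  have h3 := (mul_eq_zero.1 hR.symm).resolve_left heO
  have h4 := congrArg w.resHom h3
  have heR : w.resHom eO = 0 := by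
    have h5 : w.red e = w.resHom eO := w.red_of_reg (Or.inr he.le)
    rw [← h5]
    exact (w.red_eq_zero_iff (Or.inr he.le)).2 (Or.inr he)
  rw [map_add, map_mul, heR, zero_mul, add_zero, map_sum, map_zero, Fin.sum_univ_add] at h4
  have h5 : ∀ i : Fin (k + 1), w.resHom (b (Fin.castAdd (m + 1) i) *
      eval₂ (cO w) a (pderiv (Fin.castAdd (m + 1) i) F)) = 0 := by
    intro i
    simp only [b, Fin.append_left, Pi.zero_apply, zero_mul, map_zero]
  rw [Finset.sum_congr rfl fun i _ => h5 i, Finset.sum_const_zero, zero_add] at h4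
  rw [← h4]
  refine Finset.sum_congr rfl fun j _ => ?_
  have h6 : (fun i => w.resHom (a i)) = Fin.append (fun i => w.red (v i)) (0 : Fin (m + 1) → w.RF) := by
    funext i
    refine Fin.addCases (fun i => ?_) (fun j => ?_) i
    · simp only [Function.comp_apply, a, Fin.append_left]
      exact (w.red_of_reg (hv i)).symm
    · simp only [Function.comp_apply, a, Fin.append_right, map_sum, map_mul, Pi.zero_apply]
      refine Finset.sum_eq_zero fun i _ => ?_
      have h7 : w.resHom (VO i j) = 0 := by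
        have h8 : w.red (algebraMap K E (V i j)) = w.resHom (VO i j) := w.red_of_reg (hVr i j).1
        rw [← h8]
        exact (hVr i j).2
      rw [h7, zero_mul]
  rw [map_mul, hom_eval₂, res_cO, h6]
  congr 1
  simp only [b, Fin.append_right]
  exact w.red_of_reg (hy j)

/-- sums with small coefficients -/
theorem red_small (h : Ov P w) {ϖ : K} (h0 : ϖ ≠ 0) (h1 : P.ord ϖ = 1)
    (h2 : 0 < w.ord (algebraMap K E ϖ)) {k : ℕ} (V : Fin k → K)
    (hV : ∀ i, V i = 0 ∨ 0 < P.ord (V i)) (r : Fin k → E) (hr : ∀ i, w.Reg (r i)) :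
    w.Reg (∑ i, algebraMap K E (V i) * r i) ∧ w.red (∑ i, algebraMap K E (V i) * r i) = 0 := by
  classical
  induction (Finset.univ : Finset (Fin k)) using Finset.induction_on with
  | empty => rw [Finset.sum_empty]; exact ⟨w.reg_zero, w.red_zero⟩
  | insert a s ha ih =>
    rw [Finset.sum_insert ha]
    obtain ⟨h3, h4⟩ := red_pos h h0 h1 h2 (hV a)
    have h5 := w.reg_mul h3 (hr a)
    refine ⟨w.reg_add h5 ih.1, ?_⟩
    rw [w.red_add h5 ih.1, ih.2, w.red_mul h3 (hr a), h4, zero_mul, zero_add]

/-- elements whose residues are algebraically independent over the residue field -/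
theorem indep_of_prim {m : ℕ} {y : Fin m → E}
    (hp : ∀ p : MvPolynomial (Fin m) K, (∀ α, P.Reg (coeff α p)) →
          (∃ α, coeff α p ≠ 0 ∧ P.ord (coeff α p) = 0) → w.red (aeval y p) ≠ 0) :
    AlgebraicIndependent K y := by
  classical
  rw [algebraicIndependent_iff]
  intro p hp0
  by_contra hne
  have hsup : p.support.Nonempty := by
    rw [Finset.nonempty_iff_ne_empty]
    intro h
    exact hne (support_eq_empty.1 h)
  obtain ⟨α0, hα0, hmin⟩ := Finset.exists_min_image p.support (fun α => P.ord (coeff α p)) hsup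
  have hc0 : coeff α0 p ≠ 0 := mem_support_iff.1 hα0
  refine hp (C (coeff α0 p)⁻¹ * p) (fun α => ?_) ⟨α0, ?_, ?_⟩ ?_
  · rw [coeff_C_mul]
    by_cases h : coeff α p = 0
    · left
      rw [h, mul_zero]
    · right
      rw [P.ord_mul (inv_ne_zero hc0) h, P.ord_inv]
      have := hmin α (mem_support_iff.2 h)
      omega
  · rw [coeff_C_mul]
    exact mul_ne_zero (inv_ne_zero hc0) hc0
  · rw [coeff_C_mul, inv_mul_cancel₀ hc0, P.ord_one]
  · rw [map_mul, hp0, mul_zero, w.red_zero]

/-- the values of polynomials with constant coefficients -/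
theorem red_const_poly (h : Ov P w) {m : ℕ} {y : Fin m → E} (hy : ∀ j, w.Reg (y j))
    (hp : ∀ p : MvPolynomial (Fin m) K, (∀ α, P.Reg (coeff α p)) →
          (∃ α, coeff α p ≠ 0 ∧ P.ord (coeff α p) = 0) → w.red (aeval y p) ≠ 0)
    (c : MvPolynomial (Fin m) ℂ) :
    w.Reg (aeval y (map (algebraMap ℂ K) c)) ∧
      (c ≠ 0 → w.red (aeval y (map (algebraMap ℂ K) c)) ≠ 0) := by
  have h1 : ∀ α, P.Reg (coeff α (map (algebraMap ℂ K) c)) := by
    intro α
    rw [coeff_map, IsScalarTower.algebraMap_apply ℂ Ω K]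
    exact P.reg_const _
  constructor
  · obtain ⟨q, hq⟩ := exists_lift (P := P) _ h1
    rw [← hq]
    exact (red_poly h hy q).1
  · intro hc
    refine hp _ h1 ?_
    obtain ⟨α, hα⟩ : ∃ α, coeff α c ≠ 0 := by
      by_contra h4
      push Not at h4
      exact hc (MvPolynomial.ext _ _ fun α => by rw [h4 α, coeff_zero])
    refine ⟨α, ?_, ?_⟩
    · rw [coeff_map]
      exact (map_ne_zero _).2 hα
    · rw [coeff_map, IsScalarTower.algebraMap_apply ℂ Ω K]
      exact P.ord_const ((map_ne_zero _).2 hα)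

end places

/-- finiteness -/
theorem finite_of_indep {K E : Type} [Field K] [Field E] [Algebra K E] {m : ℕ} {η y : Fin m → E}
    (htop : adjoin K (Set.range η) = ⊤) (hy : AlgebraicIndependent K y) :
    FiniteDimensional (adjoin K (Set.range y)) E := by
  have h4 : Algebra.IsAlgebraic (IntermediateField.adjoin K (Set.range η)) E := by
    rw [htop]
    exact ⟨fun z => isAlgebraic_algebraMap (⟨z, IntermediateField.mem_top⟩ :
      (⊤ : IntermediateField K E))⟩
  have h5 := IntermediateField.isAlgebraic_adjoin_iff_top.1 h4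
  have h6 : Algebra.trdeg K E ≤ m := by
    refine (Algebra.IsAlgebraic.trdeg_le_cardinalMk K (Set.range η : Set E)).trans ?_
    refine Cardinal.mk_range_le.trans ?_
    simp
  have h8 := hy.isTranscendenceBasis_of_trdeg_le_of_finite (by simpa using h6)
  have h9 : Algebra.IsAlgebraic (adjoin K (Set.range y)) E := h8.isAlgebraic_field
  have g4 : Algebra.EssFiniteType K E := by
    rw [← IntermediateField.fg_top_iff, ← htop]
    exact IntermediateField.fg_adjoin_of_finite (Set.finite_range _)
  have g6 : Algebra.EssFiniteType (adjoin K (Set.range y)) E := Algebra.EssFiniteType.of_comp K _ E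
  exact Algebra.finite_of_essFiniteType_of_isAlgebraic

theorem exists_one {ι : Type} {S : Finset ι} {f : ι → ℕ} (h : ∑ w ∈ S, f w = 1) :
    ∃ G ∈ S, f G = 1 ∧ ∀ w ∈ S, w ≠ G → f w = 0 := by
  classical
  obtain ⟨G, hG, hf⟩ : ∃ G ∈ S, f G ≠ 0 := by
    by_contra hc
    push Not at hc
    rw [Finset.sum_eq_zero hc] at h
    exact zero_ne_one h
  have h1 := Finset.add_sum_erase S f hG
  rw [h] at h1
  have h2 : ∑ x ∈ S.erase G, f x = 0 := by omega
  refine ⟨G, hG, by omega, fun w hw hne => ?_⟩
  exact (Finset.sum_eq_zero_iff.1 h2) w (Finset.mem_erase.2 ⟨hne, hw⟩)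

theorem odd_sum {ι : Type} {S : Finset ι} {f : ι → ℕ} {G : ι} (hG : G ∈ S) (h1 : f G = 1)
    (h : ∀ w ∈ S, w ≠ G → 2 ∣ f w) : Odd (∑ w ∈ S, f w) := by
  classical
  rw [← Finset.add_sum_erase S f hG, h1]
  have h2 : 2 ∣ ∑ x ∈ S.erase G, f x := Finset.dvd_sum fun w hw =>
    h w (Finset.mem_of_mem_erase hw) (Finset.ne_of_mem_erase hw)
  obtain ⟨a, ha⟩ := h2
  exact ⟨a, by omega⟩

end

end Pool.Agent.R845.E3.Trans
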