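import Mathlib
import Pool.Agent.R845.E3.TransB

/-! # Project E3: job TRANS -/

set_option autoImplicit false

namespace Pool.Agent.R845.E3

open MvPolynomial Pool.Agent.TH314.PD IntermediateField Module FF

noncomputable section

namespace Trans

theorem finrank_top_sub {R : Type} [Field R] : finrank (⊤ : Subfield R) R = 1 := by
  rw [finrank_eq_one_iff']
  refine ⟨1, one_ne_zero, fun z => ⟨⟨z, Subfield.mem_top z⟩, ?_⟩⟩
  rw [Subfield.smul_def, smul_eq_mul, mul_one]

section main

variable {Ω K E : Type} [Field Ω] [Algebra ℂ Ω] [Field K] [Algebra ℂ K] [Field E] [Algebra Ω K]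
  [IsScalarTower ℂ Ω K] [Algebra K E] [Algebra Ω E]
  [IsScalarTower Ω K E]

/-- the field of residues of a place of `S_GFI` -/
abbrev Rs (P : Place Ω K) (w : Place Ω E) {m : ℕ} (y : Fin m → E) : Subfield w.RF :=
  Subfield.closure ({c : w.RF | ∃ a : K, P.Reg a ∧ w.red (algebraMap K E a) = c} ∪
    Set.range fun j => w.red (y j))

theorem main (gfi : S_GFI) (evn : S_EVN) (spr : S_SPR) (k m : ℕ)
    (F : MvPolynomial (Fin (k + 1 + (m + 1))) ℂ) (hF : F.IsHomogeneous 3) (hsm : Sm F)
    (hW : VanW F) (P : Place Ω K) (V : Fin (k + 1) → Fin (m + 1) → K)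
    (hV : ∀ i j, V i j = 0 ∨ 0 < P.ord (V i j))
    (hVW : VanW (shear V (map (algebraMap ℂ K) F)))
    (η : Fin m → E) (hη : AlgebraicIndependent K η) (htop : adjoin K (Set.range η) = ⊤)
    (c : Fin (k + 1) → MvPolynomial (Fin m) ℂ) (l : MvPolynomial (Fin m) ℂ) (hl : l ≠ 0)
    (hc : aeval (Fin.append c fun j => l * yv ℂ m j) F = 0) :
    Iso (shear V (map (algebraMap ℂ K) F)) := by
  classical
  have hchar : CharZero Ω := charZero_of_injective_algebraMap (algebraMap ℂ Ω).injective
  have hcharK : CharZero K := charZero_of_injective_algebraMap (algebraMap ℂ K).injective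
  set FV := shear V (map (algebraMap ℂ K) F) with hFV
  have hFVh : FV.IsHomogeneous 3 := shear_homogeneous V (hF.map _)
  obtain ⟨ϖ, h0, h1⟩ := P.surj
  -- the section
  let ev : MvPolynomial (Fin m) ℂ → E := fun p => aeval η (map (algebraMap ℂ K) p)
  have hev0 : ev l ≠ 0 := by
    intro h
    have h3 := (algebraicIndependent_iff.1 hη) _ h
    refine hl (map_injective _ (algebraMap ℂ K).injective ?_)
    rw [h3, map_zero]
  let ηv : Fin (m + 1) → E := Fin.cons 1 η
  let u : Fin (k + 1) → E := fun i => ev (c i) / ev l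
  have hFu : aeval (Fin.append u ηv) (map (algebraMap ℂ K) F) = 0 := by
    have h3 := congrArg (eval₂Hom ((algebraMap K E).comp (algebraMap ℂ K)) η) hc
    rw [aeval_def, hom_eval₂, map_zero] at h3
    have h4 : (eval₂Hom ((algebraMap K E).comp (algebraMap ℂ K)) η).comp
        (algebraMap ℂ (MvPolynomial (Fin m) ℂ)) = (algebraMap K E).comp (algebraMap ℂ K) := by
      refine RingHom.ext fun x => ?_
      simp only [MvPolynomial.algebraMap_eq, RingHom.comp_apply, eval₂Hom_C]
    have h5 : ∀ p : MvPolynomial (Fin m) ℂ,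
        eval₂Hom ((algebraMap K E).comp (algebraMap ℂ K)) η p = ev p := by
      intro p
      change _ = aeval η (map (algebraMap ℂ K) p)
      rw [aeval_def, eval₂_map]
      rfl
    rw [h4, ← eval₂_map] at h3
    have h6 : (fun i => (eval₂Hom ((algebraMap K E).comp (algebraMap ℂ K)) η)
        (Fin.append c (fun j => l * yv ℂ m j) i)) = fun i => ev l * Fin.append u ηv i := by
      funext i
      refine Fin.addCases (fun i => ?_) (fun j => ?_) i
      · rw [Fin.append_left, Fin.append_left, h5]
        change _ = ev l * (ev (c i) / ev l)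
        field_simp
      · rw [Fin.append_right, Fin.append_right, map_mul, h5]
        congr 1
        refine Fin.cases ?_ (fun j => ?_) j
        · change (eval₂Hom ((algebraMap K E).comp (algebraMap ℂ K)) η)
            ((Fin.cons 1 X : Fin (m + 1) → MvPolynomial (Fin m) ℂ) 0) =
            (Fin.cons 1 η : Fin (m + 1) → E) 0
          rw [Fin.cons_zero, Fin.cons_zero, map_one]
        · change (eval₂Hom ((algebraMap K E).comp (algebraMap ℂ K)) η)
            ((Fin.cons 1 X : Fin (m + 1) → MvPolynomial (Fin m) ℂ) j.succ) =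
            (Fin.cons 1 η : Fin (m + 1) → E) j.succ
          rw [Fin.cons_succ, Fin.cons_succ, eval₂Hom_X']
    rw [h6, eval₂_smul _ _ _ (hF.map _)] at h3
    exact (mul_eq_zero.1 h3).resolve_left (pow_ne_zero _ hev0)
  let sm : (Fin (k + 1) → E) → Fin (m + 1) → E := fun r j => ∑ i, algebraMap K E (V i j) * r i
  let ζ : Fin (m + 1) → E := fun j => ηv j - sm u j
  have hFζ : aeval (Fin.append u ζ) FV = 0 := by
    rw [aeval_def, hFV, eval_shear, ← hFu, aeval_def]
    congr 2
    funext j
    change ηv j - sm u j + sm u j = ηv j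
    ring
  let y : Fin m → E := fun j => ζ j.succ / ζ 0
  let r : Fin (k + 1) → E := fun i => u i / ζ 0
  -- the place of the generic point
  have hfη : FiniteDimensional (adjoin K (Set.range η)) E := finite_of_indep htop hη
  obtain ⟨Sη, hSη, hsη⟩ := gfi Ω K E m P ϖ η h0 h1 hη hfη
  have hone : finrank (adjoin K (Set.range η)) E = 1 := by
    rw [htop]
    exact IntermediateField.finrank_top
  rw [hone] at hsη
  obtain ⟨G, hGS, hG1, hG0⟩ := exists_one hsη
  obtain ⟨hGO, hGϖ, hGr, hGp⟩ := (hSη G).1 hGS
  -- regularity at `G`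
  have hGu : ∀ i, G.Reg (u i) := by
    intro i
    have h3 := red_const_poly hGO hGr hGp l
    have h4 := reg_inv' (h3.2 hl) h3.1
    change G.Reg (ev (c i) / ev l)
    rw [div_eq_mul_inv]
    exact G.reg_mul (red_const_poly hGO hGr hGp (c i)).1 h4.2.2.1
  have hGη : ∀ j, G.Reg (ηv j) := by
    intro j
    refine Fin.cases ?_ (fun j => ?_) j
    · exact G.reg_one
    · exact hGr j
  have hsm : ∀ (w : Place Ω E), Ov P w → 0 < w.ord (algebraMap K E ϖ) →
      ∀ s : Fin (k + 1) → E, (∀ i, w.Reg (s i)) → ∀ j, w.Reg (sm s j) ∧ w.red (sm s j) = 0 :=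
    fun w h2 h3 s hs j => red_small h2 h0 h1 h3 (fun i => V i j) (fun i => hV i j) s hs
  have hGζ : ∀ j, G.Reg (ζ j) ∧ G.red (ζ j) = G.red (ηv j) := by
    intro j
    obtain ⟨h3, h4⟩ := hsm G hGO hGϖ u hGu j
    have h5 : ζ j = ηv j + -(sm u j) := sub_eq_add_neg _ _
    rw [h5]
    refine ⟨G.reg_add (hGη j) (G.reg_neg h3), ?_⟩
    rw [G.red_add (hGη j) (G.reg_neg h3), G.red_neg h3, h4, neg_zero, add_zero]
  have hGζ0 : G.red (ζ 0) = 1 := by
    rw [(hGζ 0).2]
    exact G.red_one
  obtain ⟨hζ0, -, hGi, hGir⟩ := reg_inv' (by rw [hGζ0]; exact one_ne_zero) (hGζ 0).1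
  rw [hGζ0, inv_one] at hGir
  have hGy : ∀ j, G.Reg (y j) ∧ G.red (y j) = G.red (η j) := by
    intro j
    have h3 : y j = ζ j.succ * (ζ 0)⁻¹ := div_eq_mul_inv _ _
    rw [h3]
    refine ⟨G.reg_mul (hGζ _).1 hGi, ?_⟩
    rw [G.red_mul (hGζ _).1 hGi, hGir, mul_one, (hGζ _).2]
    rfl
  have hGyp : (∀ p : MvPolynomial (Fin m) K, (∀ α, P.Reg (coeff α p)) →
      (∃ α, coeff α p ≠ 0 ∧ P.ord (coeff α p) = 0) → G.red (aeval y p) ≠ 0) := by
    rw [prim_iff hGO h0 h1 hGϖ fun j => (hGy j).1]
    have h3 := (prim_iff hGO h0 h1 hGϖ hGr).1 hGp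
    have h4 : (fun j => G.red (y j)) = fun j => G.red (η j) := funext fun j => (hGy j).2
    rw [h4]
    exact h3
  have hind : AlgebraicIndependent K y := indep_of_prim hGyp
  have hfy : FiniteDimensional (adjoin K (Set.range y)) E := finite_of_indep htop hind
  obtain ⟨S, hS, hs⟩ := gfi Ω K E m P ϖ y h0 h1 hind hfy
  -- the equation
  have hFr : aeval (Fin.append r (Fin.cons 1 y)) FV = 0 := by
    have h3 : (Fin.append r (Fin.cons 1 y) : Fin (k + 1 + (m + 1)) → E) =
        fun i => (ζ 0)⁻¹ * Fin.append u ζ i := by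
      rw [← append_mul]
      congr 1
      · funext i
        exact div_eq_inv_mul _ _
      · funext j
        refine Fin.cases ?_ (fun j => ?_) j
        · rw [Fin.cons_zero, inv_mul_cancel₀ hζ0]
        · rw [Fin.cons_succ]
          exact div_eq_inv_mul _ _
    rw [h3, aeval_def, eval₂_smul _ _ _ hFVh, ← aeval_def, hFζ, mul_zero]
  refine spr k m K E y hind ?_ FV hFVh hVW r hFr
  rw [← hs]
  refine odd_sum (G := G) ?_ ?_ ?_
  · exact (hS G).2 ⟨hGO, hGϖ, fun j => (hGy j).1, hGyp⟩
  · have h4 : (fun j => G.red (y j)) = fun j => G.red (η j) := funext fun j => (hGy j).2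
    rw [h4]
    exact hG1
  · intro w hw hwG
    obtain ⟨hO, hϖ, hyr, hyp⟩ := (hS w).1 hw
    by_cases hr : ∀ i, w.Reg (r i)
    · -- the point lies in the affine part
      have e1 : (ζ 0)⁻¹ = 1 + sm r 0 := by
        have h3 : sm r 0 = sm u 0 * (ζ 0)⁻¹ := by
          change ∑ i, algebraMap K E (V i 0) * (u i / ζ 0) =
            (∑ i, algebraMap K E (V i 0) * u i) * (ζ 0)⁻¹
          rw [Finset.sum_mul]
          refine Finset.sum_congr rfl fun i _ => ?_
          rw [div_eq_mul_inv]
          ring
        have h4 : ζ 0 = 1 - sm u 0 := rfl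
        have h5 : sm u 0 = 1 - ζ 0 := by rw [h4]; ring
        rw [h3, h5, sub_mul, mul_inv_cancel₀ hζ0]
        ring
      have e2 : ∀ j, η j * (ζ 0)⁻¹ = y j + sm r j.succ := by
        intro j
        have h3 : sm r j.succ = sm u j.succ * (ζ 0)⁻¹ := by
          change ∑ i, algebraMap K E (V i j.succ) * (u i / ζ 0) =
            (∑ i, algebraMap K E (V i j.succ) * u i) * (ζ 0)⁻¹
          rw [Finset.sum_mul]
          refine Finset.sum_congr rfl fun i _ => ?_
          rw [div_eq_mul_inv]
          ring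
        have h4 : y j = (η j - sm u j.succ) * (ζ 0)⁻¹ := div_eq_mul_inv _ _
        rw [h3, h4]
        ring
      obtain ⟨h3, h4⟩ := hsm w hO hϖ r hr 0
      have h5 : w.Reg (ζ 0)⁻¹ := by
        rw [e1]
        exact w.reg_add w.reg_one h3
      have h6 : w.red (ζ 0)⁻¹ = 1 := by
        rw [e1, w.red_add w.reg_one h3, h4, add_zero, w.red_one]
      obtain ⟨-, -, h7, h8⟩ := reg_inv' (by rw [h6]; exact one_ne_zero) h5
      rw [h6, inv_one] at h8
      rw [inv_inv] at h7 h8
      have h9 : ∀ j, w.Reg (η j) ∧ w.red (η j) = w.red (y j) := by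
        intro j
        obtain ⟨h10, h11⟩ := hsm w hO hϖ r hr j.succ
        have h12 : η j = (y j + sm r j.succ) * ζ 0 := by
          rw [← e2, mul_assoc, inv_mul_cancel₀ hζ0, mul_one]
        have h13 := w.reg_add (hyr j) h10
        rw [h12]
        refine ⟨w.reg_mul h13 h7, ?_⟩
        rw [w.red_mul h13 h7, h8, mul_one, w.red_add (hyr j) h10, h11, add_zero]
      have h14 : (fun j => w.red (y j)) = fun j => w.red (η j) := funext fun j => (h9 j).2.symm
      have hwη : w ∈ Sη := by
        refine (hSη w).2 ⟨hO, hϖ, fun j => (h9 j).1, ?_⟩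
        rw [prim_iff hO h0 h1 hϖ fun j => (h9 j).1]
        have h15 := (prim_iff hO h0 h1 hϖ hyr).1 hyp
        rw [h14] at h15
        exact h15
      rw [h14, hG0 w hwη hwG]
      exact dvd_zero 2
    · -- the point lies at infinity
      push Not at hr
      obtain ⟨i1, hi1⟩ := hr
      obtain ⟨i0, -, hmin⟩ := Finset.exists_min_image Finset.univ (fun i => w.ord (r i))
        ⟨i1, Finset.mem_univ _⟩
      have hi1' : w.ord (r i1) < 0 := by
        by_contra h
        push Not at h
        exact hi1 (Or.inr h)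
      have hneg : w.ord (r i0) < 0 := (hmin i1 (Finset.mem_univ _)).trans_lt hi1'
      have hri0 : r i0 ≠ 0 := by
        intro h
        rw [h, w.ord_zero] at hneg
        exact lt_irrefl _ hneg
      let v : Fin (k + 1) → E := fun i => (r i0)⁻¹ * r i
      have hv : ∀ i, w.Reg (v i) := by
        intro i
        by_cases h : r i = 0
        · left
          change (r i0)⁻¹ * r i = 0
          rw [h, mul_zero]
        · right
          change 0 ≤ w.ord ((r i0)⁻¹ * r i)
          rw [w.ord_mul (inv_ne_zero hri0) h, w.ord_inv]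
          have := hmin i (Finset.mem_univ _)
          omega
      have he : 0 < w.ord (r i0)⁻¹ := by
        rw [w.ord_inv]
        omega
      have hyr' : ∀ j, w.Reg ((Fin.cons 1 y : Fin (m + 1) → E) j) := by
        intro j
        refine Fin.cases ?_ (fun j => ?_) j
        · exact w.reg_one
        · exact hyr j
      have h3 := case2 hO h0 h1 hϖ F V hV hVW v hv (r i0)⁻¹ (inv_ne_zero hri0) he
        (Fin.cons 1 y) hyr' (by
          rw [append_mul, aeval_def, eval₂_smul _ _ _ hFVh, ← aeval_def, hFr, mul_zero])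
      letI : Algebra ℂ w.RF := (cc w).toAlgebra
      refine Dvd.dvd.mul_left ?_ _
      refine evn k m F hF ‹Sm F› hW w.RF (As (K := K) P w) ?_ (fun j => w.red (y j)) ?_
        (fun i => w.red (v i)) ?_ ?_
      · intro a
        refine ⟨algebraMap ℂ K a, ?_, ?_⟩
        · rw [IsScalarTower.algebraMap_apply ℂ Ω K]
          exact P.reg_const _
        · change w.red (algebraMap K E (algebraMap ℂ K a)) = cc w a
          change _ = w.red (algebraMap Ω E (algebraMap ℂ Ω a))
          rw [IsScalarTower.algebraMap_apply Ω K E, ← IsScalarTower.algebraMap_apply ℂ Ω K]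
      · exact (prim_iff hO h0 h1 hϖ hyr).1 hyp
      · intro h
        have h4 := congrFun h i0
        change w.red ((r i0)⁻¹ * r i0) = 0 at h4
        rw [inv_mul_cancel₀ hri0, w.red_one] at h4
        exact one_ne_zero h4
      · rw [← h3]
        refine Finset.sum_congr rfl fun j _ => ?_
        congr 1
        refine Fin.cases ?_ (fun j => ?_) j
        · rw [Fin.cons_zero, Fin.cons_zero, w.red_one]
        · rw [Fin.cons_succ, Fin.cons_succ]

end main

/-- the alternative `l = 0` is impossible for a smooth form -/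
theorem alt2 (evn : S_EVN) (k m : ℕ)
    (F : MvPolynomial (Fin (k + 1 + (m + 1))) ℂ) (hF : F.IsHomogeneous 3) (hsm : Sm F)
    (hW : VanW F) (c : Fin (k + 1) → MvPolynomial (Fin m) ℂ) (hc : c ≠ 0)
    (h : ∑ j, yv ℂ m j * aeval (Fin.append c 0) (pderiv (Fin.natAdd (k + 1) j) F) = 0) :
    False := by
  let R := FractionRing (MvPolynomial (Fin m) ℂ)
  let ψ : MvPolynomial (Fin m) ℂ →ₐ[ℂ] R := IsScalarTower.toAlgHom ℂ (MvPolynomial (Fin m) ℂ) R
  have hψ : Function.Injective ψ := IsFractionRing.injective (MvPolynomial (Fin m) ℂ) R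
  let y : Fin m → R := fun j => ψ (X j)
  have hy : AlgebraicIndependent ℂ y := (algebraicIndependent_X (Fin m) ℂ).map' (f := ψ) hψ
  let A : Set R := Set.range (algebraMap ℂ R)
  have hcl : Subfield.closure A = (algebraMap ℂ R).fieldRange := by
    apply le_antisymm
    · rw [Subfield.closure_le]
      rintro _ ⟨a, rfl⟩
      exact ⟨a, rfl⟩
    · rintro _ ⟨a, rfl⟩
      exact Subfield.subset_closure ⟨a, rfl⟩
  have hind : AlgebraicIndependent (Subfield.closure A) y := by
    rw [algebraicIndependent_iff]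
    intro q hq
    have h3 : ∀ c : Subfield.closure A, ∃ a : ℂ, algebraMap ℂ R a = c := fun c => by
      have h4 : (c : R) ∈ (algebraMap ℂ R).fieldRange := by
        have h5 := c.2
        simp only [hcl] at h5
        exact h5
      exact h4
    choose g hg using h3
    let q' : MvPolynomial (Fin m) ℂ := ∑ α ∈ q.support, monomial α (g (coeff α q))
    have hq' : map (algebraMap ℂ R) q' = map (Subfield.closure A).subtype q := by
      change map (algebraMap ℂ R) (∑ α ∈ q.support, monomial α (g (coeff α q))) = _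
      rw [map_sum]
      conv_rhs => rw [q.as_sum]
      rw [map_sum]
      refine Finset.sum_congr rfl fun α _ => ?_
      rw [map_monomial, map_monomial, hg]
      rfl
    have h5 : aeval y q' = 0 := by
      rw [aeval_def, ← eval_map, hq', eval_map]
      exact hq
    have h6 := (algebraicIndependent_iff.1 hy) _ h5
    rw [h6, map_zero] at hq'
    exact map_injective _ (Subfield.closure A).subtype.injective (by rw [← hq', map_zero])
  have hv : (fun i => ψ (c i)) ≠ 0 := by
    intro h3
    apply hc
    funext i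
    exact hψ ((congrFun h3 i).trans (map_zero ψ).symm)
  have h4 := evn k m F hF hsm hW R A (fun a => ⟨a, rfl⟩) y hind (fun i => ψ (c i)) hv (by
    have h5 := congrArg ψ h
    rw [map_sum, map_zero] at h5
    rw [← h5]
    refine Finset.sum_congr rfl fun j _ => ?_
    rw [map_mul]
    congr 1
    · refine Fin.cases ?_ (fun j => ?_) j
      · change (Fin.cons 1 y : Fin (m + 1) → R) 0 =
          ψ ((Fin.cons 1 X : Fin (m + 1) → MvPolynomial (Fin m) ℂ) 0)
        rw [Fin.cons_zero, Fin.cons_zero, map_one]
      · change (Fin.cons 1 y : Fin (m + 1) → R) j.succ =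
          ψ ((Fin.cons 1 X : Fin (m + 1) → MvPolynomial (Fin m) ℂ) j.succ)
        rw [Fin.cons_succ, Fin.cons_succ]
    · rw [comp_aeval_apply]
      congr 2
      funext i
      refine Fin.addCases (fun i => ?_) (fun j => ?_) i
      · rw [Fin.append_left, Fin.append_left]
      · rw [Fin.append_right, Fin.append_right]
        simp)
  have htop : Subfield.closure (A ∪ Set.range y) = ⊤ := by
    rw [eq_top_iff]
    rintro z -
    have hP : ∀ q : MvPolynomial (Fin m) ℂ, ψ q ∈ Subfield.closure (A ∪ Set.range y) := by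
      intro q
      induction q using MvPolynomial.induction_on with
      | C a => exact Subfield.subset_closure (Or.inl ⟨a, rfl⟩)
      | add p q hp hq =>
        rw [map_add]
        exact add_mem hp hq
      | mul_X p j hp =>
        rw [map_mul]
        exact mul_mem hp (Subfield.subset_closure (Or.inr ⟨j, rfl⟩))
    obtain ⟨a, b, -, hz⟩ := IsFractionRing.div_surjective (A := MvPolynomial (Fin m) ℂ) z
    rw [← hz]
    exact div_mem (hP a) (hP b)
  rw [htop, finrank_top_sub] at h4
  omega

end Trans

/-- **Job TRANS** -/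
theorem trans (gfi : S_GFI) (evn : S_EVN) (spr : S_SPR) : S_TRANS := by
  intro k m F hF hsm hW hiso Ω K _ _ _ _ _ _ P V hV hVW
  obtain ⟨c, l, h | h⟩ := hiso
  · let E := FractionRing (MvPolynomial (Fin m) K)
    let ψ : MvPolynomial (Fin m) K →ₐ[K] E := IsScalarTower.toAlgHom K (MvPolynomial (Fin m) K) E
    have hψ : Function.Injective ψ := IsFractionRing.injective (MvPolynomial (Fin m) K) E
    refine Trans.main (Ω := Ω) (E := E) gfi evn spr k m F hF hsm hW P V hV hVW (fun j => ψ (X j))
      ((algebraicIndependent_X (Fin m) K).map' (f := ψ) hψ) ?_ c l h.1 h.2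
    rw [eq_top_iff]
    rintro z -
    have hP : ∀ q : MvPolynomial (Fin m) K, ψ q ∈ adjoin K (Set.range fun j => ψ (X j)) := by
      intro q
      induction q using MvPolynomial.induction_on with
      | C a => exact IntermediateField.algebraMap_mem _ a
      | add p q hp hq =>
        rw [map_add]
        exact add_mem hp hq
      | mul_X p j hp =>
        rw [map_mul]
        exact mul_mem hp (subset_adjoin _ _ ⟨j, rfl⟩)
    obtain ⟨a, b, -, hz⟩ := IsFractionRing.div_surjective (A := MvPolynomial (Fin m) K) z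
    rw [← hz]
    exact div_mem (hP a) (hP b)
  · exact (Trans.alt2 evn k m F hF hsm hW c h.1 h.2).elim

end

end Pool.Agent.R845.E3
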