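import Mathlib
import Pool.Agent.R845.E3.Stm3
import Pool.Agent.R845.E3.Cc
import Pool.Agent.R845.E3.Trans
import Pool.Agent.R845.Irr
import Pool.Agent.R845.T2.Fd
import Pool.Agent.TH314.PD.Restr
import Pool.Agent.Y394.LI.BpfJob

/-! # Project E3: rationality from a rational section of the projection from `W` -/

set_option autoImplicit false

namespace Pool.Agent.R845.E3

open MvPolynomial Pool.Agent.TH314.PD IntermediateField Module Pool.Agent.Y201.C3

noncomputable section

namespace Rat

/-! ### A point of a hypersurface with full field of ratios is generic -/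

theorem trdeg_Rn (n : ℕ) : Algebra.trdeg ℂ (Rn n) = n := by
  have h1 : IsTranscendenceBasis ℂ (fun i : Fin n =>
      algebraMap (MvPolynomial (Fin n) ℂ) (Rn n) (X i)) := by
    have h2 := (IsTranscendenceBasis.mvPolynomial (Fin n) ℂ)
    have h3 : Algebra.IsAlgebraic (MvPolynomial (Fin n) ℂ) (Rn n) :=
      IsLocalization.isAlgebraic _ (nonZeroDivisors (MvPolynomial (Fin n) ℂ))
    exact h2.algebraMap_comp
  have h2 := h1.cardinalMk_eq_trdeg
  rw [← h2]
  simp

theorem gp_of_top {r n : ℕ} (hr : r = n + 2) (hn : 1 ≤ n) (F : MvPolynomial (Fin r) ℂ)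
    (hF : F.IsHomogeneous 3) (hsm : Sm F) (x : Fin r → Rn n) (hx : aeval x F = 0)
    (htop : ratioField x = ⊤) : Gp F x := by
  subst hr
  refine ⟨hx, fun e H hH h0 => ?_⟩
  have hF0 : F ≠ 0 := by
    rintro rfl
    have h1 := hsm (fun _ => 1) (fun i => by rw [map_zero, map_zero])
    exact one_ne_zero (congrFun h1 0)
  have hirr : Irreducible F := irreducible_of_smooth (by omega) (by norm_num) hF hF0 hsm
  -- a nonzero coordinate
  obtain ⟨b, hb⟩ : ∃ b, x b ≠ 0 := by
    by_contra hcon
    push Not at hcon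
    have h1 : ratioField x = ⊥ := by
      rw [ratioField, IntermediateField.adjoin_eq_bot_iff]
      rintro _ ⟨i, j, rfl⟩
      rw [hcon i, zero_div]
      exact zero_mem _
    rw [htop] at h1
    have h2 : Algebra.IsAlgebraic ℂ (Rn n) := by
      constructor
      intro z
      have h3 : z ∈ (⊥ : IntermediateField ℂ (Rn n)) := by
        rw [← h1]
        exact IntermediateField.mem_top
      obtain ⟨c, rfl⟩ := IntermediateField.mem_bot.1 h3
      exact isAlgebraic_algebraMap c
    have h3 : Algebra.trdeg ℂ (Rn n) = 0 := trdeg_eq_zero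
    rw [trdeg_Rn] at h3
    have h4 : n = 0 := by exact_mod_cast h3
    omega
  set f : Fin (n + 1) → Rn n := fun l => x (b.succAbove l) / x b with hf
  have h1 : IntermediateField.adjoin ℂ (Set.range f) = ⊤ := by
    rw [← Pool.Agent.R845.T2.Fd.ratioField_eq x hb, htop]
  have halg : Algebra.IsAlgebraic (Algebra.adjoin ℂ (Set.range f)) (Rn n) := by
    rw [← IntermediateField.isAlgebraic_adjoin_iff_top, h1]
    exact ⟨fun z => isAlgebraic_algebraMap (⟨z, IntermediateField.mem_top⟩ :
      (⊤ : IntermediateField ℂ (Rn n)))⟩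
  obtain ⟨u, hu, hub⟩ := exists_isTranscendenceBasis_subset (R := ℂ) (Set.range f)
  have hcard : Cardinal.mk u = n := by
    rw [hub.cardinalMk_eq_trdeg, trdeg_Rn]
  obtain ⟨e1⟩ : Nonempty (Fin n ≃ u) := by
    rw [← Cardinal.eq, hcard]
    simp
  have h2 : ∀ i : Fin n, ∃ l, f l = e1 i := fun i => hu (e1 i).2
  choose g hg using h2
  refine dom_of_indep hF (by norm_num) hF0 (fun _ _ A B _ _ hAB => hirr.prime.dvd_or_dvd hAB)
    (aeval x) (Fin.cons b (fun i => b.succAbove (g i))) hx (fun l A hA h3 => ?_) hH h0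
  rw [aeval_rename] at h3
  refine Pool.Agent.R845.T2.Fd.eq_zero_of_indep hA
    (x ∘ (Fin.cons b (fun i => b.succAbove (g i)) : Fin (n + 1) → Fin (n + 2))) (b := 0) ?_ ?_ h3
  · exact hb
  · have h4 := hub.1.comp e1 e1.injective
    have h5 : (fun i : Fin n => (x ∘ (Fin.cons b (fun i => b.succAbove (g i)) :
        Fin (n + 1) → Fin (n + 2))) ((0 : Fin (n + 1)).succAbove i) /
        (x ∘ (Fin.cons b (fun i => b.succAbove (g i)) : Fin (n + 1) → Fin (n + 2))) 0) =
        Subtype.val ∘ e1 := by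
      funext i
      simp only [Function.comp_apply, Fin.zero_succAbove, Fin.cons_succ, Fin.cons_zero]
      exact hg i
    rw [h5]
    exact h4

/-! ### The trilinear form -/

section tri

variable {k m : ℕ} {R : Type} [CommRing R] [Algebra ℂ R]

/-- indicator vectors -/
def ev {r : ℕ} (R : Type) [CommRing R] (a : Fin r) : Fin r → R := fun i => if i = a then 1 else 0

theorem bg_append (T : Fin (k + 1 + (m + 1)) → Fin (k + 1 + (m + 1)) → Fin (k + 1 + (m + 1)) → ℂ)
    (u v w : Fin (k + 1) → R) :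
    Bg T (Fin.append u (0 : Fin (m + 1) → R)) (Fin.append v 0) (Fin.append w 0) =
      Bg (fun i j l => T (Fin.castAdd (m + 1) i) (Fin.castAdd (m + 1) j)
        (Fin.castAdd (m + 1) l)) u v w := by
  unfold Bg
  simp only [Fin.sum_univ_add, Fin.append_left, Fin.append_right, Pi.zero_apply, mul_zero,
    zero_mul, Finset.sum_const_zero, add_zero]

theorem bg_ev {r : ℕ} (T : Fin r → Fin r → Fin r → ℂ) (x : Fin r → R) (a b : Fin r) :
    Bg T x (ev R a) (ev R b) = ∑ s, algebraMap ℂ R (T s a b) * x s := by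
  unfold Bg ev
  refine Finset.sum_congr rfl fun s _ => ?_
  simp [mul_ite, Finset.sum_ite_eq']

theorem pd_ev {r : ℕ} {T : Fin r → Fin r → Fin r → ℂ} (hT : SymG T) (s : Fin r) (z : Fin r → R) :
    aeval z (pderiv s (Bg T X X X : MvPolynomial (Fin r) ℂ)) = 3 * Bg T z z (ev R s) := by
  rw [pderiv_frmG hT s z, Bg_swap12 hT, Bg_swap23 hT]
  rfl

theorem tensor_W {T : Fin (k + 1 + (m + 1)) → Fin (k + 1 + (m + 1)) → Fin (k + 1 + (m + 1)) → ℂ}
    (hT : SymG T) (hW : VanW (Bg T X X X : MvPolynomial (Fin (k + 1 + (m + 1))) ℂ))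
    (i j l : Fin (k + 1)) :
    T (Fin.castAdd (m + 1) i) (Fin.castAdd (m + 1) j) (Fin.castAdd (m + 1) l) = 0 := by
  set T' : Fin (k + 1) → Fin (k + 1) → Fin (k + 1) → ℂ := fun i j l =>
    T (Fin.castAdd (m + 1) i) (Fin.castAdd (m + 1) j) (Fin.castAdd (m + 1) l) with hT'
  have h1 : SymG T' := fun i j l => hT _ _ _
  have h2 : ∀ u : Fin (k + 1) → ℂ, Bg T' u u u = 0 := by
    intro u
    have h3 := congrArg (aeval u) hW
    rw [map_zero, comp_aeval_apply] at h3
    have h4 : (fun i => aeval u ((Fin.append (X : Fin (k + 1) → MvPolynomial (Fin (k + 1)) ℂ)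
        (0 : Fin (m + 1) → MvPolynomial (Fin (k + 1)) ℂ)) i)) = Fin.append u 0 := by
      funext i
      refine Fin.addCases (fun i => ?_) (fun j => ?_) i
      · rw [Fin.append_left, Fin.append_left, aeval_X]
      · rw [Fin.append_right, Fin.append_right, Pi.zero_apply, map_zero, Pi.zero_apply]
    rw [h4, aeval_frmG, bg_append] at h3
    exact h3
  have h5 := polar h1 h2 (fun a => if a = i then (1 : ℂ) else 0)
    (fun a => if a = j then (1 : ℂ) else 0) (fun a => if a = l then (1 : ℂ) else 0)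
  rw [← T_eq (T := T')] at h5
  exact h5

theorem bg_W {T : Fin (k + 1 + (m + 1)) → Fin (k + 1 + (m + 1)) → Fin (k + 1 + (m + 1)) → ℂ}
    (hT : SymG T) (hW : VanW (Bg T X X X : MvPolynomial (Fin (k + 1 + (m + 1))) ℂ))
    (u v w : Fin (k + 1) → R) :
    Bg T (Fin.append u (0 : Fin (m + 1) → R)) (Fin.append v 0) (Fin.append w 0) = 0 := by
  rw [bg_append]
  unfold Bg
  simp only [tensor_W hT hW, map_zero, zero_mul, Finset.sum_const_zero]

end tri

/-! ### The two coefficients are different from zero -/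

section nonzero

variable {k m : ℕ}

/-- substitution of constants for the first variables -/
def sg (t : Fin k → ℂ) : MvPolynomial (Fin (k + m)) ℂ →ₐ[ℂ] MvPolynomial (Fin m) ℂ :=
  aeval (Fin.append (fun i => C (t i)) X)

/-- the last variables -/
def rh (k m : ℕ) : MvPolynomial (Fin m) ℂ →ₐ[ℂ] MvPolynomial (Fin (k + m)) ℂ :=
  rename (Fin.natAdd k)

theorem sg_rh (t : Fin k → ℂ) (q : MvPolynomial (Fin m) ℂ) : sg t (rh k m q) = q := by
  unfold sg rh
  rw [aeval_rename]
  have h1 : (Fin.append (fun i => C (t i)) X : Fin (k + m) → MvPolynomial (Fin m) ℂ) ∘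
      Fin.natAdd k = X := by
    funext j
    simp
  rw [h1, aeval_X_left_apply]

/-- the points of `W` -/
def pw (k m : ℕ) : Fin (k + 1 + (m + 1)) → MvPolynomial (Fin (k + m)) ℂ :=
  Fin.append (Fin.cons 1 fun i => X (Fin.castAdd m i) : Fin (k + 1) → _) 0

/-- the rational section -/
def xa (c : Fin (k + 1) → MvPolynomial (Fin m) ℂ) (l : MvPolynomial (Fin m) ℂ) :
    Fin (k + 1 + (m + 1)) → MvPolynomial (Fin m) ℂ :=
  Fin.append c (fun j => l * yv ℂ m j)

theorem sg_pw (t : Fin k → ℂ) : (fun i => sg (m := m) t (pw k m i)) =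
    Fin.append (Fin.cons 1 fun i => C (t i) : Fin (k + 1) → MvPolynomial (Fin m) ℂ) 0 := by
  funext i
  unfold pw
  refine Fin.addCases (fun i => ?_) (fun j => ?_) i
  · rw [Fin.append_left, Fin.append_left]
    refine Fin.cases ?_ (fun i => ?_) i
    · rw [Fin.cons_zero, Fin.cons_zero, map_one]
    · rw [Fin.cons_succ, Fin.cons_succ]
      unfold sg
      rw [aeval_X, Fin.append_left]
  · rw [Fin.append_right, Fin.append_right, Pi.zero_apply, map_zero, Pi.zero_apply]

theorem vec0 (R : Type) [CommRing R] : (Fin.append (Fin.cons 1 fun _ => 0 : Fin (k + 1) → R)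
    (0 : Fin (m + 1) → R)) = ev R (Fin.castAdd (m + 1) 0) := by
  funext i
  unfold ev
  refine Fin.addCases (fun i => ?_) (fun j => ?_) i
  · rw [Fin.append_left]
    refine Fin.cases ?_ (fun i => ?_) i
    · rw [Fin.cons_zero, if_pos rfl]
    · rw [Fin.cons_succ, if_neg]
      intro h
      exact Fin.succ_ne_zero i (Fin.castAdd_injective _ _ h)
  · rw [Fin.append_right, Pi.zero_apply, if_neg]
    intro h
    have h1 := congrArg Fin.val h
    simp only [Fin.val_natAdd, Fin.val_castAdd, Fin.val_zero] at h1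
    omega

theorem vec1 (R : Type) [CommRing R] (i0 : Fin k) :
    (Fin.append (Fin.cons 1 fun i => if i = i0 then 1 else 0 : Fin (k + 1) → R)
    (0 : Fin (m + 1) → R)) = fun s => ev R (Fin.castAdd (m + 1) 0) s +
      ev R (Fin.castAdd (m + 1) i0.succ) s := by
  rw [← vec0]
  funext i
  unfold ev
  refine Fin.addCases (fun i => ?_) (fun j => ?_) i
  · rw [Fin.append_left, Fin.append_left]
    refine Fin.cases ?_ (fun i => ?_) i
    · rw [Fin.cons_zero, Fin.cons_zero, if_neg, add_zero]
      intro h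
      exact Fin.succ_ne_zero i0 (Fin.castAdd_injective _ _ h).symm
    · rw [Fin.cons_succ, Fin.cons_succ, zero_add]
      by_cases h : i = i0
      · rw [h, if_pos rfl, if_pos rfl]
      · rw [if_neg h, if_neg]
        intro h1
        exact h (Fin.succ_injective _ (Fin.castAdd_injective _ _ h1))
  · rw [Fin.append_right, Fin.append_right, Pi.zero_apply, zero_add, if_neg]
    intro h
    have h1 := congrArg Fin.val h
    simp only [Fin.val_natAdd, Fin.val_castAdd] at h1
    omega

variable {T : Fin (k + 1 + (m + 1)) → Fin (k + 1 + (m + 1)) → Fin (k + 1 + (m + 1)) → ℂ}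

theorem a_ne (hT : SymG T) (hF : (Bg T X X X : MvPolynomial (Fin (k + 1 + (m + 1))) ℂ).IsHomogeneous 3)
    (hsm : Sm (Bg T X X X : MvPolynomial (Fin (k + 1 + (m + 1))) ℂ))
    (c : Fin (k + 1) → MvPolynomial (Fin m) ℂ) (l : MvPolynomial (Fin m) ℂ) (hl : l ≠ 0)
    (hx : aeval (xa c l) (Bg T X X X : MvPolynomial (Fin (k + 1 + (m + 1))) ℂ) = 0) :
    Bg T (fun i => rh k m (xa c l i)) (fun i => rh k m (xa c l i)) (pw k m) ≠ 0 := by
  intro h0
  set F : MvPolynomial (Fin (k + 1 + (m + 1))) ℂ := Bg T X X X with hFd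
  set x := xa c l with hxd
  have h1 : ∀ t : Fin k → ℂ, Bg T x x (Fin.append
      (Fin.cons 1 fun i => C (t i) : Fin (k + 1) → MvPolynomial (Fin m) ℂ) 0) = 0 := by
    intro t
    have h2 := congrArg (sg t) h0
    rw [map_Bg, map_zero, sg_pw] at h2
    simp only [sg_rh] at h2
    exact h2
  have h2 : Bg T x x (ev _ (Fin.castAdd (m + 1) 0)) = 0 := by
    have h3 := h1 (fun _ => 0)
    simp only [C_0] at h3
    rw [vec0] at h3
    exact h3
  have h3 : ∀ i : Fin (k + 1), Bg T x x (ev _ (Fin.castAdd (m + 1) i)) = 0 := by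
    intro i
    refine Fin.cases h2 (fun i => ?_) i
    have h4 := h1 (fun j => if j = i then 1 else 0)
    have h5 : (fun j => C (if j = i then (1 : ℂ) else 0) : Fin k → MvPolynomial (Fin m) ℂ) =
        fun j => if j = i then 1 else 0 := by
      funext j
      by_cases h : j = i
      · rw [if_pos h, if_pos h, C_1]
      · rw [if_neg h, if_neg h, C_0]
    rw [h5, vec1, Bg_add3, h2, zero_add] at h4
    exact h4
  have h4 : ∀ i : Fin (k + 1), aeval x (pderiv (Fin.castAdd (m + 1) i) F) = 0 := by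
    intro i
    rw [hFd, pd_ev hT, h3, mul_zero]
  have hxs : ∀ j, x (Fin.natAdd (k + 1) j) = l * yv ℂ m j := by
    intro j
    rw [hxd, xa, Fin.append_right]
  set P : Fin (m + 1) → MvPolynomial (Fin m) ℂ := fun j =>
    aeval x (pderiv (Fin.natAdd (k + 1) j) F) with hP
  have h5 : ∑ j, yv ℂ m j * P j = 0 := by
    have h6 := congrArg (aeval x) hF.sum_X_mul_pderiv
    rw [map_sum, map_nsmul, hx, smul_zero, Fin.sum_univ_add] at h6
    simp only [map_mul, aeval_X, h4, mul_zero, Finset.sum_const_zero, zero_add] at h6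
    have h7 : l * ∑ j, yv ℂ m j * P j = 0 := by
      rw [← h6, Finset.mul_sum]
      refine Finset.sum_congr rfl fun j _ => ?_
      rw [hxs, hP]
      ring
    exact (mul_eq_zero.1 h7).resolve_left hl
  have h6 : ∀ j, P (Fin.succ j) = 0 := by
    intro j
    have h7 := chain_rule (pderiv j : Derivation ℂ (MvPolynomial (Fin m) ℂ) _) x F
    rw [hx, map_zero, Fin.sum_univ_add] at h7
    simp only [h4, zero_mul, Finset.sum_const_zero, zero_add] at h7
    have h8 : ∀ s, aeval x (pderiv (Fin.natAdd (k + 1) s) F) *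
        pderiv j (x (Fin.natAdd (k + 1) s)) =
        pderiv j l * (yv ℂ m s * P s) + l * (P s * pderiv j (yv ℂ m s)) := by
      intro s
      rw [hxs, pderiv_mul, hP]
      ring
    rw [Finset.sum_congr rfl (fun s _ => h8 s), Finset.sum_add_distrib, ← Finset.mul_sum, h5,
      mul_zero, zero_add, ← Finset.mul_sum] at h7
    have h9 := (mul_eq_zero.1 h7.symm).resolve_left hl
    rw [Fin.sum_univ_succ] at h9
    unfold yv at h9
    rw [Fin.cons_zero, ← C_1, pderiv_C, mul_zero, zero_add] at h9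
    simp only [Fin.cons_succ] at h9
    rw [Finset.sum_eq_single j] at h9
    · rw [pderiv_X_self, mul_one] at h9
      exact h9
    · intro s _ hs
      rw [pderiv_X_of_ne hs, mul_zero]
    · intro h
      exact absurd (Finset.mem_univ j) h
  have h7 : ∀ j, P j = 0 := by
    intro j
    refine Fin.cases ?_ h6 j
    rw [Fin.sum_univ_succ] at h5
    simp only [h6, mul_zero, Finset.sum_const_zero, add_zero] at h5
    unfold yv at h5
    rw [Fin.cons_zero, one_mul] at h5
    exact h5
  have h8 : ∀ s, aeval x (pderiv s F) = 0 := by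
    intro s
    exact Fin.addCases h4 h7 s
  have h9 := Pool.Agent.Y394.LI.bpf _ F hsm 3 hF (FractionRing (MvPolynomial (Fin m) ℂ))
    (algebraMap ℂ _) (fun i => algebraMap (MvPolynomial (Fin m) ℂ) _ (x i)) (by
      intro G hG
      exact absurd hG (Set.notMem_empty _)) (by
      intro s
      have h10 := congrArg (IsScalarTower.toAlgHom ℂ (MvPolynomial (Fin m) ℂ)
        (FractionRing (MvPolynomial (Fin m) ℂ))) (h8 s)
      rw [map_zero, comp_aeval_apply] at h10
      exact h10)
  have h10 := congrFun h9 (Fin.natAdd (k + 1) 0)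
  have h11 : x (Fin.natAdd (k + 1) 0) = 0 :=
    IsFractionRing.injective (MvPolynomial (Fin m) ℂ) (FractionRing (MvPolynomial (Fin m) ℂ))
      (h10.trans (map_zero _).symm)
  rw [hxd, xa, Fin.append_right] at h11
  unfold yv at h11
  rw [Fin.cons_zero, mul_one] at h11
  exact hl h11

theorem b_ne (hT : SymG T) (hsm : Sm (Bg T X X X : MvPolynomial (Fin (k + 1 + (m + 1))) ℂ))
    (hW : VanW (Bg T X X X : MvPolynomial (Fin (k + 1 + (m + 1))) ℂ))
    (c : Fin (k + 1) → MvPolynomial (Fin m) ℂ) (l : MvPolynomial (Fin m) ℂ) (hl : l ≠ 0) :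
    Bg T (fun i => rh k m (xa c l i)) (pw k m) (pw k m) ≠ 0 := by
  intro h0
  set o : Fin (k + 1 + (m + 1)) := Fin.castAdd (m + 1) 0 with ho
  have h1 := congrArg (sg (fun _ => 0)) h0
  rw [map_Bg, map_zero, sg_pw] at h1
  simp only [sg_rh, C_0] at h1
  rw [vec0, bg_ev, Fin.sum_univ_add] at h1
  simp only [tensor_W hT hW, map_zero, zero_mul, Finset.sum_const_zero, zero_add] at h1
  have h2 : l * ∑ j, C (T (Fin.natAdd (k + 1) j) o o) * yv ℂ m j = 0 := by
    rw [← h1, Finset.mul_sum]
    refine Finset.sum_congr rfl fun j _ => ?_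
    rw [xa, Fin.append_right, algebraMap_eq]
    ring
  have h3 := (mul_eq_zero.1 h2).resolve_left hl
  rw [Fin.sum_univ_succ] at h3
  unfold yv at h3
  rw [Fin.cons_zero, mul_one] at h3
  simp only [Fin.cons_succ] at h3
  have h4 : T (Fin.natAdd (k + 1) 0) o o = 0 := by
    have h5 := congrArg (eval (0 : Fin m → ℂ)) h3
    simp only [map_add, map_sum, map_mul, eval_C, eval_X, Pi.zero_apply, mul_zero,
      Finset.sum_const_zero, add_zero, map_zero] at h5
    exact h5
  have h5 : ∀ j, T (Fin.natAdd (k + 1) (Fin.succ j)) o o = 0 := by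
    intro j
    have h6 := congrArg (eval (Pi.single j 1 : Fin m → ℂ)) h3
    simp only [map_add, map_sum, map_mul, eval_C, eval_X, map_zero, h4, zero_add] at h6
    rw [Finset.sum_eq_single j] at h6
    · rw [Pi.single_eq_same, mul_one] at h6
      exact h6
    · intro s _ hs
      rw [Pi.single_eq_of_ne hs, mul_zero]
    · intro h
      exact absurd (Finset.mem_univ j) h
  have h6 : ∀ s, T s o o = 0 := by
    intro s
    refine Fin.addCases (fun i => tensor_W hT hW i 0 0) (fun j => ?_) s
    exact Fin.cases h4 h5 j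
  have h7 := hsm (ev ℂ o) (fun s => by
    rw [← aeval_eq_eval]
    have h8 := pd_ev hT s (ev ℂ o)
    have h9 : Bg T (ev ℂ o) (ev ℂ o) (ev ℂ s) = 0 := by
      rw [Bg_swap23 hT, Bg_swap12 hT, bg_ev]
      simp only [h6, map_zero, zero_mul, Finset.sum_const_zero]
    rw [h9, mul_zero] at h8
    exact h8)
  have h8 := congrFun h7 o
  unfold ev at h8
  rw [if_pos rfl] at h8
  exact one_ne_zero h8

end nonzero

/-! ### The field of ratios -/

section final

variable {k m : ℕ}

theorem top_of (c : Fin (k + 1) → MvPolynomial (Fin m) ℂ) (l : MvPolynomial (Fin m) ℂ)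
    (hl : l ≠ 0) (a b : MvPolynomial (Fin (k + m)) ℂ) (ha : a ≠ 0) (hb : b ≠ 0) :
    (ratioField fun i => algebraMap (MvPolynomial (Fin (k + m)) ℂ) (Rn (k + m))
      (b * rh k m (xa c l i) - a * pw k m i)) = ⊤ := by
  set ι : MvPolynomial (Fin (k + m)) ℂ →ₐ[ℂ] Rn (k + m) :=
    IsScalarTower.toAlgHom ℂ (MvPolynomial (Fin (k + m)) ℂ) (Rn (k + m)) with hι
  have hinj : Function.Injective ι := IsFractionRing.injective (MvPolynomial (Fin (k + m)) ℂ) _
  change (ratioField fun i => ι (b * rh k m (xa c l i) - a * pw k m i)) = ⊤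
  set z : Fin (k + 1 + (m + 1)) → Rn (k + m) :=
    fun i => ι (b * rh k m (xa c l i) - a * pw k m i) with hz
  set L := ratioField z with hL
  have hmem : ∀ i j, z i / z j ∈ L := fun i j =>
    IntermediateField.subset_adjoin _ _ ⟨i, j, rfl⟩
  have hrl : Function.Injective (rh k m) := rename_injective _ (Fin.natAdd_injective m k)
  have hl' : ι (rh k m l) ≠ 0 := fun h =>
    hl (hrl (hinj (by rw [h, map_zero, map_zero])))
  have ha' : ι a ≠ 0 := fun h => ha (hinj (h.trans (map_zero _).symm))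
  have hb' : ι b ≠ 0 := fun h => hb (hinj (h.trans (map_zero _).symm))
  have hzr : ∀ j, z (Fin.natAdd (k + 1) j) = ι b * ι (rh k m l) * ι (rh k m (yv ℂ m j)) := by
    intro j
    rw [hz]
    simp only
    rw [xa, pw, Fin.append_right, Fin.append_right, Pi.zero_apply, mul_zero, sub_zero, map_mul,
      map_mul, map_mul]
    ring
  have hzl : ∀ i, z (Fin.castAdd (m + 1) i) = ι b * ι (rh k m (c i)) -
      ι a * ι ((Fin.cons 1 fun i => X (Fin.castAdd m i) : Fin (k + 1) → _) i) := by
    intro i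
    rw [hz]
    simp only
    rw [xa, pw, Fin.append_left, Fin.append_left, map_sub, map_mul, map_mul]
  have hz0 : z (Fin.natAdd (k + 1) 0) = ι b * ι (rh k m l) := by
    rw [hzr]
    unfold yv
    rw [Fin.cons_zero, map_one, map_one, mul_one]
  have hY : ∀ j, ι (rh k m (X j)) ∈ L := by
    intro j
    have h1 := hmem (Fin.natAdd (k + 1) j.succ) (Fin.natAdd (k + 1) 0)
    rw [hz0, hzr] at h1
    unfold yv at h1
    rw [Fin.cons_succ, mul_div_cancel_left₀ _ (mul_ne_zero hb' hl')] at h1
    exact h1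
  have hq : ∀ q, ι (rh k m q) ∈ L := by
    intro q
    induction q using MvPolynomial.induction_on with
    | C a =>
      have h1 : ι (rh k m (C a)) = algebraMap ℂ (Rn (k + m)) a := by
        rw [← algebraMap_eq, AlgHom.commutes, AlgHom.commutes]
      rw [h1]
      exact L.algebraMap_mem a
    | add p q hp hq =>
      rw [map_add, map_add]
      exact add_mem hp hq
    | mul_X p j hp =>
      rw [map_mul, map_mul]
      exact mul_mem hp (hY j)
  have hw : ∀ i, ι (rh k m (c i)) / ι (rh k m l) -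
      z (Fin.castAdd (m + 1) i) / z (Fin.natAdd (k + 1) 0) =
      ι a / (ι b * ι (rh k m l)) *
        ι ((Fin.cons 1 fun i => X (Fin.castAdd m i) : Fin (k + 1) → _) i) := by
    intro i
    rw [hzl, hz0]
    field_simp
    ring
  have hw' : ∀ i, ι a / (ι b * ι (rh k m l)) *
        ι ((Fin.cons 1 fun i => X (Fin.castAdd m i) : Fin (k + 1) → _) i) ∈ L := by
    intro i
    rw [← hw]
    exact sub_mem (div_mem (hq _) (hq _)) (hmem _ _)
  have he : ι a / (ι b * ι (rh k m l)) ∈ L := by
    have h1 := hw' 0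
    rw [Fin.cons_zero, map_one, mul_one] at h1
    exact h1
  have he0 : ι a / (ι b * ι (rh k m l)) ≠ 0 := div_ne_zero ha' (mul_ne_zero hb' hl')
  have hX : ∀ i : Fin k, ι (X (Fin.castAdd m i)) ∈ L := by
    intro i
    have h1 := div_mem (hw' i.succ) he
    rw [mul_div_cancel_left₀ _ he0, Fin.cons_succ] at h1
    exact h1
  have hall : ∀ s : Fin (k + m), ι (X s) ∈ L := by
    intro s
    refine Fin.addCases hX (fun j => ?_) s
    have h1 := hY j
    unfold rh at h1
    rw [rename_X] at h1
    exact h1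
  rw [eq_top_iff]
  rintro y -
  have hP : ∀ q : MvPolynomial (Fin (k + m)) ℂ, ι q ∈ L := by
    intro q
    induction q using MvPolynomial.induction_on with
    | C a =>
      have h1 : ι (C a) = algebraMap ℂ (Rn (k + m)) a := by
        rw [← algebraMap_eq, AlgHom.commutes]
      rw [h1]
      exact L.algebraMap_mem a
    | add p q hp hq =>
      rw [map_add]
      exact add_mem hp hq
    | mul_X p j hp =>
      rw [map_mul]
      exact mul_mem hp (hall j)
  obtain ⟨a, b, -, hy⟩ := IsFractionRing.div_surjective (A := MvPolynomial (Fin (k + m)) ℂ) y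
  rw [← hy]
  exact div_mem (hP a) (hP b)

end final

end Rat

/-- **Job RAT** -/
theorem rat (evn : S_EVN) : S_RAT := by
  intro k m hkm F hF hsm hW hiso
  obtain ⟨T, hT, rfl⟩ := exists_tri F hF
  obtain ⟨c, l, h | h⟩ := hiso
  swap
  · exact (Trans.alt2 evn k m _ hF hsm hW c h.1 h.2).elim
  obtain ⟨hl, hx⟩ := h
  have hx' : aeval (Rat.xa c l)
      (Bg T X X X : MvPolynomial (Fin (k + 1 + (m + 1))) ℂ) = 0 := hx
  have ha := Rat.a_ne hT hF hsm c l hl hx'
  have hb := Rat.b_ne hT hsm hW c l hl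
  set x0 : Fin (k + 1 + (m + 1)) → MvPolynomial (Fin (k + m)) ℂ :=
    fun i => Rat.rh k m (Rat.xa c l i) with hx0
  set a := Bg T x0 x0 (Rat.pw k m) with had
  set b := Bg T x0 (Rat.pw k m) (Rat.pw k m) with hbd
  have htop := Rat.top_of c l hl a b ha hb
  have hF0 : Bg T x0 x0 x0 = 0 := by
    have h1 := congrArg (Rat.rh k m) hx'
    rw [aeval_frmG, map_Bg, map_zero] at h1
    exact h1
  have hFp : Bg T (Rat.pw k m) (Rat.pw k m) (Rat.pw k m) = 0 := Rat.bg_W hT hW _ _ _
  have hG : aeval (fun i => b * Rat.rh k m (Rat.xa c l i) - a * Rat.pw k m i)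
      (Bg T X X X : MvPolynomial (Fin (k + 1 + (m + 1))) ℂ) = 0 := by
    rw [aeval_frmG]
    have h1 : (fun i => b * Rat.rh k m (Rat.xa c l i) - a * Rat.pw k m i) =
        fun i => b * x0 i + (-a) * Rat.pw k m i + 0 * Rat.pw k m i := by
      funext i
      rw [hx0]
      ring
    rw [h1, Bg_span3 hT, hF0, hFp, ← had, ← hbd]
    ring
  refine ⟨fun i => b * Rat.rh k m (Rat.xa c l i) - a * Rat.pw k m i,
    Rat.gp_of_top (by omega) hkm _ hF hsm _ ?_ htop, htop⟩
  have h1 := congrArg (IsScalarTower.toAlgHom ℂ (MvPolynomial (Fin (k + m)) ℂ) (Rn (k + m))) hG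
  rw [map_zero, comp_aeval_apply] at h1
  exact h1

end

end Pool.Agent.R845.E3
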