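import Mathlib
import Pool.Agent.R845.E3.Rat
import Pool.Agent.R845.E3.Back
import Pool.Agent.R845.Zero

/-! # Project E3: linear subspaces of smooth cubics -/

set_option autoImplicit false

namespace Pool.Agent.R845.E3

open MvPolynomial Pool.Agent.TH314.PD IntermediateField Module Pool.Agent.Y201.C3

noncomputable section

/-- linear subspaces of a smooth cubic hypersurface have at most half its dimension -/
theorem le_of_smooth {k m : ℕ} {F : MvPolynomial (Fin (k + 1 + (m + 1))) ℂ}
    (hF : F.IsHomogeneous 3) (hsm : Sm F) (hW : VanW F) : k ≤ m := by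
  by_contra hkm
  push Not at hkm
  obtain ⟨T, hT, rfl⟩ := exists_tri F hF
  have hmap : ∀ (a : Fin (k + 1) → ℂ) (s : Fin (k + 1 + (m + 1))),
      eval a (Bg T (Fin.append (X : Fin (k + 1) → MvPolynomial (Fin (k + 1)) ℂ) 0)
        (Fin.append X 0) (Rat.ev _ s)) = Bg T (Fin.append a 0) (Fin.append a 0) (Rat.ev ℂ s) := by
    intro a s
    rw [← aeval_eq_eval]
    have h1 := map_Bg (aeval a : MvPolynomial (Fin (k + 1)) ℂ →ₐ[ℂ] ℂ) T
      (Fin.append (X : Fin (k + 1) → MvPolynomial (Fin (k + 1)) ℂ) 0)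
      (Fin.append X 0) (Rat.ev _ s)
    have h2 : (fun i => (aeval a : MvPolynomial (Fin (k + 1)) ℂ →ₐ[ℂ] ℂ)
        (Fin.append (X : Fin (k + 1) → MvPolynomial (Fin (k + 1)) ℂ)
        (0 : Fin (m + 1) → MvPolynomial (Fin (k + 1)) ℂ) i)) = Fin.append a 0 := by
      funext i
      refine Fin.addCases (fun i => ?_) (fun j => ?_) i
      · rw [Fin.append_left, Fin.append_left, aeval_X]
      · rw [Fin.append_right, Fin.append_right, Pi.zero_apply, map_zero, Pi.zero_apply]
    have h3 : (fun i => (aeval a : MvPolynomial (Fin (k + 1)) ℂ →ₐ[ℂ] ℂ)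
        (Rat.ev (MvPolynomial (Fin (k + 1)) ℂ) s i)) = Rat.ev ℂ s := by
      funext i
      unfold Rat.ev
      split_ifs
      · rw [map_one]
      · rw [map_zero]
    rw [h2, h3] at h1
    exact h1
  obtain ⟨b, hb, h⟩ := Pool.Agent.R845.exists_other_zero' (n := k + 1) (ι := Fin (m + 1))
    (by rw [Fintype.card_fin]; omega)
    (fun j => Bg T (Fin.append (X : Fin (k + 1) → MvPolynomial (Fin (k + 1)) ℂ) 0)
        (Fin.append X 0) (Rat.ev _ (Fin.natAdd (k + 1) j))) (0 : Fin (k + 1) → ℂ) (by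
      intro j
      rw [hmap]
      unfold Bg
      refine Finset.sum_eq_zero fun i _ => Finset.sum_eq_zero fun i' _ =>
        Finset.sum_eq_zero fun l _ => ?_
      refine Fin.addCases (fun i => ?_) (fun j => ?_) i
      · rw [Fin.append_left]
        simp
      · rw [Fin.append_right]
        simp)
  apply hb
  have h1 : (Fin.append b (0 : Fin (m + 1) → ℂ)) = 0 := by
    apply hsm
    intro s
    rw [← aeval_eq_eval]
    have h2 := Rat.pd_ev hT s (Fin.append b (0 : Fin (m + 1) → ℂ))
    have h3 : Bg T (Fin.append b (0 : Fin (m + 1) → ℂ)) (Fin.append b 0) (Rat.ev ℂ s) = 0 := by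
      refine Fin.addCases (fun i => ?_) (fun j => ?_) s
      · have h4 : Rat.ev ℂ (Fin.castAdd (m + 1) i) =
            Fin.append (fun a => if a = i then (1 : ℂ) else 0) (0 : Fin (m + 1) → ℂ) := by
          funext a
          unfold Rat.ev
          refine Fin.addCases (fun a => ?_) (fun a => ?_) a
          · rw [Fin.append_left]
            simp only [Fin.castAdd_inj]
          · rw [Fin.append_right, if_neg, Pi.zero_apply]
            intro h5
            have h6 := congrArg Fin.val h5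
            simp only [Fin.val_natAdd, Fin.val_castAdd] at h6
            omega
        rw [h4]
        exact Rat.bg_W hT hW _ _ _
      · have h4 := h j
        rw [hmap] at h4
        exact h4
    rw [h3, mul_zero] at h2
    exact h2
  funext i
  have h2 := congrFun h1 (Fin.castAdd (m + 1) i)
  rw [Fin.append_left] at h2
  exact h2

/-- the original coordinates of a point -/
def orig {N k m : ℕ} (σ : Fin (k + 1 + (m + 1)) ≃ Fin N) (U : Fin (k + 1) → Fin (m + 1) → ℂ) :
    (Fin (k + 1 + (m + 1)) → ℂ) →ₗ[ℂ] (Fin N → ℂ) where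
  toFun z := fun i => (Fin.append (fun i => z (Fin.castAdd (m + 1) i))
    (fun j => z (Fin.natAdd (k + 1) j) + ∑ i, U i j * z (Fin.castAdd (m + 1) i)) :
      Fin (k + 1 + (m + 1)) → ℂ) (σ.symm i)
  map_add' x y := by
    funext i
    obtain ⟨i', rfl⟩ := σ.surjective i
    simp only [Equiv.symm_apply_apply, Pi.add_apply]
    refine Fin.addCases (fun j => ?_) (fun j => ?_) i'
    · simp only [Fin.append_left]
    · simp only [Fin.append_right, mul_add, Finset.sum_add_distrib]
      ring
  map_smul' c x := by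
    funext i
    obtain ⟨i', rfl⟩ := σ.surjective i
    simp only [Equiv.symm_apply_apply, Pi.smul_apply, smul_eq_mul, RingHom.id_apply]
    refine Fin.addCases (fun j => ?_) (fun j => ?_) i'
    · simp only [Fin.append_left]
    · simp only [Fin.append_right, mul_add, Finset.mul_sum]
      congr 1
      exact Finset.sum_congr rfl fun i _ => by ring

theorem orig_left {N k m : ℕ} (σ : Fin (k + 1 + (m + 1)) ≃ Fin N)
    (U : Fin (k + 1) → Fin (m + 1) → ℂ) (z : Fin (k + 1 + (m + 1)) → ℂ) (i : Fin (k + 1)) :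
    orig σ U z (σ (Fin.castAdd (m + 1) i)) = z (Fin.castAdd (m + 1) i) := by
  unfold orig
  simp only [LinearMap.coe_mk, AddHom.coe_mk, Equiv.symm_apply_apply, Fin.append_left]

theorem orig_right {N k m : ℕ} (σ : Fin (k + 1 + (m + 1)) ≃ Fin N)
    (U : Fin (k + 1) → Fin (m + 1) → ℂ) (z : Fin (k + 1 + (m + 1)) → ℂ) (j : Fin (m + 1)) :
    orig σ U z (σ (Fin.natAdd (k + 1) j)) =
      z (Fin.natAdd (k + 1) j) + ∑ i, U i j * z (Fin.castAdd (m + 1) i) := by
  unfold orig
  simp only [LinearMap.coe_mk, AddHom.coe_mk, Equiv.symm_apply_apply, Fin.append_right]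

theorem orig_inj {N k m : ℕ} (σ : Fin (k + 1 + (m + 1)) ≃ Fin N)
    (U : Fin (k + 1) → Fin (m + 1) → ℂ) : Function.Injective (orig σ U) := by
  rw [← LinearMap.ker_eq_bot, LinearMap.ker_eq_bot']
  intro z hz
  have h1 : ∀ i, z (Fin.castAdd (m + 1) i) = 0 := by
    intro i
    rw [← orig_left σ U z i, hz, Pi.zero_apply]
  funext i
  refine Fin.addCases (fun i => h1 i) (fun j => ?_) i
  have h2 := orig_right σ U z j
  rw [hz, Pi.zero_apply] at h2
  simp only [h1, mul_zero, Finset.sum_const_zero, add_zero] at h2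
  exact h2.symm

theorem eval_orig {N k m : ℕ} (σ : Fin (k + 1 + (m + 1)) ≃ Fin N)
    (U : Fin (k + 1) → Fin (m + 1) → ℂ) (F : MvPolynomial (Fin N) ℂ)
    (z : Fin (k + 1 + (m + 1)) → ℂ) :
    eval (orig σ U z) F = eval z (shear U (rename σ.symm F)) := by
  rw [← aeval_eq_eval, ← aeval_eq_eval, aeval_shear, aeval_rename]
  rfl

/-- a plane which contains `W` -/
theorem plane_of {N k m : ℕ} (σ : Fin (k + 1 + (m + 1)) ≃ Fin N)
    (U : Fin (k + 1) → Fin (m + 1) → ℂ) (F : MvPolynomial (Fin N) ℂ) {r : ℕ}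
    (A : Fin r → Fin N → ℂ)
    (hU : ∀ j l, A l (σ (Fin.natAdd (k + 1) j)) =
        ∑ i, U i j * A l (σ (Fin.castAdd (m + 1) i)))
    (z : Fin 3 → Fin (k + 1 + (m + 1)) → ℂ) (hz : LinearIndependent ℂ z)
    (hzF : ∀ b : Fin 3 → ℂ, eval (∑ a, b a • z a) (shear U (rename σ.symm F)) = 0)
    (hzW : ∀ u : Fin (k + 1) → ℂ, Fin.append u (0 : Fin (m + 1) → ℂ) ∈
      Submodule.span ℂ (Set.range z)) :
    ∃ v : Fin 3 → Fin N → ℂ, LinearIndependent ℂ v ∧
      (∀ l, A l ∈ Submodule.span ℂ (Set.range v)) ∧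
      ∀ b : Fin 3 → ℂ, eval (fun i => ∑ l, b l * v l i) F = 0 := by
  refine ⟨fun a => orig σ U (z a), ?_, ?_, ?_⟩
  · exact hz.map' (orig σ U) (LinearMap.ker_eq_bot.2 (orig_inj σ U))
  · intro l
    have h1 : A l = orig σ U (Fin.append (fun i => A l (σ (Fin.castAdd (m + 1) i))) 0) := by
      funext i
      obtain ⟨i', rfl⟩ := σ.surjective i
      refine Fin.addCases (fun j => ?_) (fun j => ?_) i'
      · rw [orig_left, Fin.append_left]
      · rw [orig_right, Fin.append_right, Pi.zero_apply, zero_add, hU]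
        exact Finset.sum_congr rfl fun i _ => by rw [Fin.append_left]
    rw [h1]
    have h2 := Submodule.mem_map_of_mem (f := orig σ U)
      (hzW fun i => A l (σ (Fin.castAdd (m + 1) i)))
    rw [Submodule.map_span, ← Set.range_comp] at h2
    exact h2
  · intro b
    have h1 : (fun i => ∑ l, b l * orig σ U (z l) i) = orig σ U (∑ a, b a • z a) := by
      funext i
      rw [map_sum, Finset.sum_apply]
      exact Finset.sum_congr rfl fun l _ => by rw [map_smul, Pi.smul_apply, smul_eq_mul]
    rw [h1, eval_orig]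
    exact hzF b

end

end Pool.Agent.R845.E3
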