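import Pool.Agent.R845.E3.Stm
import Pool.Agent.R82.E3.TriK
import Pool.Agent.Helper273.Brg.P_springer

/-! # Project E3: job SPR (Springer's theorem on extensions of odd degree) -/

set_option autoImplicit false

namespace Pool.Agent.R845.E3

open MvPolynomial Pool.Agent.R82.E3

noncomputable section

/-- a nontrivial zero over an extension of odd degree of the field generated by the image of `ψ`
gives a nontrivial zero in the ring -/
theorem odd_descentK {K : Type} [Field K] [CharZero K] {R : Type} [CommRing R] [Algebra K R]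
    {M : Type} [Field M] [Algebra K M] (ψ : R →ₐ[K] M)
    (hodd : Odd (Module.finrank (IntermediateField.adjoin K (Set.range ψ)) M))
    {m : ℕ} (Q : Fin m → Fin m → R) (w : Fin m → M) (hw : ∃ i, w i ≠ 0)
    (h : ∑ i, ∑ j, ψ (Q i j) * w i * w j = 0) :
    ∃ r : Fin m → R, (∃ i, ψ (r i) ≠ 0) ∧ ψ (∑ i, ∑ j, Q i j * r i * r j) = 0 := by
  classical
  let E : IntermediateField K M := IntermediateField.adjoin K (Set.range ψ)
  have hfin : FiniteDimensional E M := FiniteDimensional.of_finrank_pos hodd.pos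
  have : CharZero E := charZero_of_injective_algebraMap (algebraMap K E).injective
  obtain ⟨α, hα⟩ := Field.exists_primitive_element E M
  have hint : IsIntegral E α := IsIntegral.of_finite E α
  have hadj : Algebra.adjoin E {α} = ⊤ := by
    rw [← IntermediateField.adjoin_simple_toSubalgebra_of_isAlgebraic hint.isAlgebraic, hα]
    rfl
  have hdeg : Odd (minpoly E α).natDegree := by
    rw [← IntermediateField.adjoin.finrank hint, hα, IntermediateField.finrank_top']
    exact hodd
  have hP : ∀ i, ∃ P : Polynomial E, Polynomial.aeval α P = w i := by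
    intro i
    have h1 : w i ∈ Algebra.adjoin E {α} := by rw [hadj]; trivial
    rw [Algebra.adjoin_singleton_eq_range_aeval] at h1
    exact h1
  choose P hP using hP
  have hmemE : ∀ a : R, ψ a ∈ E := fun a => IntermediateField.subset_adjoin _ _ ⟨a, rfl⟩
  obtain ⟨w', hw'0, hw'⟩ := Helper273.Sup.springer
    (Matrix.of fun i j => (⟨ψ (Q i j), hmemE _⟩ : E)) α hint hdeg P
    (by obtain ⟨i, hi⟩ := hw; exact ⟨i, by rw [hP]; exact hi⟩)
    (by
      rw [← h]
      refine Finset.sum_congr rfl fun i _ => Finset.sum_congr rfl fun j _ => ?_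
      rw [hP, hP]
      rfl)
  have hfr : ∀ i, ∃ a b : R, ψ b ≠ 0 ∧ ((w' i : E) : M) * ψ b = ψ a := by
    intro i
    obtain ⟨r, hr, s, hs, hrs⟩ := IntermediateField.mem_adjoin_iff_div.mp (w' i).2
    have hrange : Algebra.adjoin K (Set.range ψ) = ψ.range := by
      rw [← AlgHom.coe_range, Algebra.adjoin_eq]
    rw [hrange] at hr hs
    obtain ⟨a, rfl⟩ := hr
    obtain ⟨b, rfl⟩ := hs
    by_cases hb : ψ b = 0
    · refine ⟨0, 1, by rw [map_one]; exact one_ne_zero, ?_⟩
      have h1 : ψ.toRingHom b = 0 := hb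
      rw [map_zero, map_one, mul_one, hrs, h1, div_zero]
    · exact ⟨a, b, hb, by rw [hrs]; exact div_mul_cancel₀ _ hb⟩
  choose a b hb hab using hfr
  let d : R := ∏ j, b j
  have hd : ψ d ≠ 0 := by
    rw [map_prod]
    exact Finset.prod_ne_zero_iff.mpr fun j _ => hb j
  have hr : ∀ i, ψ (a i * ∏ j ∈ Finset.univ.erase i, b j) = ψ d * (w' i : M) := by
    intro i
    rw [map_mul, ← hab i]
    have h1 : d = b i * ∏ j ∈ Finset.univ.erase i, b j :=
      (Finset.mul_prod_erase _ _ (Finset.mem_univ i)).symm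
    rw [h1, map_mul]
    ring
  refine ⟨fun i => a i * ∏ j ∈ Finset.univ.erase i, b j, ?_, ?_⟩
  · by_contra hcon
    push Not at hcon
    apply hw'0
    funext i
    have h1 := hcon i
    rw [hr i] at h1
    rcases mul_eq_zero.mp h1 with h2 | h2
    · exact absurd h2 hd
    · exact Subtype.ext h2
  · have h1 := congrArg (algebraMap E M) hw'
    rw [map_zero, map_sum] at h1
    have h2 : ψ (∑ i, ∑ j, Q i j * (a i * ∏ k ∈ Finset.univ.erase i, b k) *
        (a j * ∏ k ∈ Finset.univ.erase j, b k)) = ψ d * ψ d *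
        ∑ i, algebraMap E M (∑ j, (Matrix.of fun i j => (⟨ψ (Q i j), hmemE _⟩ : E)) i j *
          w' i * w' j) := by
      rw [map_sum, Finset.mul_sum]
      refine Finset.sum_congr rfl fun i _ => ?_
      rw [map_sum, map_sum, Finset.mul_sum]
      refine Finset.sum_congr rfl fun j _ => ?_
      rw [map_mul, map_mul, hr, hr, map_mul, map_mul]
      show _ = ψ d * ψ d * (ψ (Q i j) * (w' i : M) * (w' j : M))
      ring
    rw [h2, h1, mul_zero]

section quad

variable {K : Type} [Field K] [CharZero K] {R : Type} [CommRing R] [Algebra K R] {k m : ℕ}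

/-- the quadratic form `F(c, l Y) / l` -/
def qf (T : Fin (k + 1 + (m + 1)) → Fin (k + 1 + (m + 1)) → Fin (k + 1 + (m + 1)) → K)
    (Y : Fin (m + 1) → R) (c : Fin (k + 1) → R) (l : R) : R :=
  3 * Bg T (Fin.append c 0) (Fin.append c 0) (Fin.append 0 Y) +
    3 * l * Bg T (Fin.append c 0) (Fin.append 0 Y) (Fin.append 0 Y) +
    l ^ 2 * Bg T (Fin.append 0 Y) (Fin.append 0 Y) (Fin.append 0 Y)

/-- the basis vectors -/
def ev (k m : ℕ) (R : Type) [CommRing R] (i : Fin (k + 1)) : Fin (k + 1 + (m + 1)) → R :=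
  fun s => if s = Fin.castAdd (m + 1) i then 1 else 0

lemma append_c (c : Fin (k + 1) → R) : (Fin.append c (0 : Fin (m + 1) → R)) =
    fun s => ∑ i, c i * ev k m R i s := by
  funext s
  refine Fin.addCases (fun i => ?_) (fun j => ?_) s
  · rw [Fin.append_left, Finset.sum_eq_single i]
    · simp [ev]
    · intro b _ hb
      have : Fin.castAdd (m + 1) i ≠ Fin.castAdd (m + 1) b := by
        intro h
        exact hb (Fin.castAdd_injective _ _ h).symm
      simp [ev, this]
    · intro h
      exact absurd (Finset.mem_univ i) h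
  · rw [Fin.append_right, Pi.zero_apply, Finset.sum_eq_zero]
    intro i _
    have : Fin.natAdd (k + 1) j ≠ Fin.castAdd (m + 1) i := by
      intro h
      have := congrArg Fin.val h
      simp at this
      omega
    simp [ev, this]

lemma append_lin (c : Fin (k + 1) → R) (l : R) (Y : Fin (m + 1) → R) :
    Fin.append c (fun j => l * Y j) =
      fun s => Fin.append c (0 : Fin (m + 1) → R) s +
        l * Fin.append (0 : Fin (k + 1) → R) Y s := by
  funext s
  refine Fin.addCases (fun i => ?_) (fun j => ?_) s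
  · simp [Fin.append_left]
  · simp [Fin.append_right]

lemma van_c {T : Fin (k + 1 + (m + 1)) → Fin (k + 1 + (m + 1)) → Fin (k + 1 + (m + 1)) → K}
    (hV : VanW (Bg T X X X : MvPolynomial (Fin (k + 1 + (m + 1))) K))
    (c : Fin (k + 1) → R) :
    Bg T (Fin.append c (0 : Fin (m + 1) → R)) (Fin.append c 0) (Fin.append c 0) = 0 := by
  unfold VanW at hV
  rw [aeval_frmG] at hV
  have h1 := congrArg (aeval c) hV
  rw [map_zero, map_Bg] at h1
  have h2 : (fun i => (aeval c) (Fin.append (X : Fin (k + 1) → MvPolynomial (Fin (k + 1)) K)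
      (0 : Fin (m + 1) → MvPolynomial (Fin (k + 1)) K) i)) =
      Fin.append c (0 : Fin (m + 1) → R) := by
    funext s
    refine Fin.addCases (fun i => ?_) (fun j => ?_) s
    · simp [Fin.append_left]
    · simp [Fin.append_right]
  rw [h2] at h1
  exact h1

lemma qf_eq {T : Fin (k + 1 + (m + 1)) → Fin (k + 1 + (m + 1)) → Fin (k + 1 + (m + 1)) → K}
    (hT : SymG T) (hV : VanW (Bg T X X X : MvPolynomial (Fin (k + 1 + (m + 1))) K))
    (Y : Fin (m + 1) → R) (c : Fin (k + 1) → R) (l : R) :
    aeval (Fin.append c (fun j => l * Y j))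
      (Bg T X X X : MvPolynomial (Fin (k + 1 + (m + 1))) K) = l * qf T Y c l := by
  rw [aeval_frmG, append_lin]
  simp only [Bg_add1, Bg_add2, Bg_add3, Bg_smul1, Bg_smul2, Bg_smul3]
  rw [van_c hV]
  unfold qf
  set a := Fin.append c (0 : Fin (m + 1) → R)
  set y := Fin.append (0 : Fin (k + 1) → R) Y
  rw [Bg_swap12 hT y a a, Bg_swap23 hT a y a, Bg_swap12 hT y a y, Bg_swap23 hT y y a,
    Bg_swap12 hT y a y]
  ring

lemma qf_zero {T : Fin (k + 1 + (m + 1)) → Fin (k + 1 + (m + 1)) → Fin (k + 1 + (m + 1)) → K}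
    (hT : SymG T) (Y : Fin (m + 1) → R) (c : Fin (k + 1) → R) :
    ∑ j, Y j * aeval (Fin.append c (0 : Fin (m + 1) → R)) (pderiv (Fin.natAdd (k + 1) j)
      (Bg T X X X : MvPolynomial (Fin (k + 1 + (m + 1))) K)) = qf T Y c 0 := by
  have h1 : ∀ j, Y j * aeval (Fin.append c (0 : Fin (m + 1) → R)) (pderiv (Fin.natAdd (k + 1) j)
      (Bg T X X X : MvPolynomial (Fin (k + 1 + (m + 1))) K)) =
      3 * Bg T (fun i => Y j * (if i = Fin.natAdd (k + 1) j then 1 else 0)) (Fin.append c 0)
        (Fin.append c 0) := by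
    intro j
    rw [pderiv_frmG hT, Bg_smul1]
    ring
  rw [Finset.sum_congr rfl (fun j _ => h1 j), ← Finset.mul_sum, ← Bg_sum1]
  have h2 : (fun i => ∑ j, Y j * (if i = Fin.natAdd (k + 1) j then (1 : R) else 0)) =
      Fin.append (0 : Fin (k + 1) → R) Y := by
    funext s
    refine Fin.addCases (fun i => ?_) (fun j => ?_) s
    · rw [Fin.append_left, Pi.zero_apply, Finset.sum_eq_zero]
      intro j _
      have : Fin.castAdd (m + 1) i ≠ Fin.natAdd (k + 1) j := by
        intro h
        have := congrArg Fin.val h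
        simp at this
        omega
      simp [this]
    · rw [Fin.append_right, Finset.sum_eq_single j]
      · simp
      · intro b _ hb
        have : Fin.natAdd (k + 1) j ≠ Fin.natAdd (k + 1) b := by
          intro h
          exact hb ((Fin.natAdd_injective _ _) h).symm
        rw [if_neg this, mul_zero]
      · intro h
        exact absurd (Finset.mem_univ j) h
  rw [h2]
  unfold qf
  rw [Bg_swap12 hT (Fin.append (0 : Fin (k + 1) → R) Y), Bg_swap23 hT (Fin.append c 0)
    (Fin.append (0 : Fin (k + 1) → R) Y)]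
  ring

/-- the matrix of the quadratic form -/
def Qm (T : Fin (k + 1 + (m + 1)) → Fin (k + 1 + (m + 1)) → Fin (k + 1 + (m + 1)) → K)
    (Y : Fin (m + 1) → R) (i j : Fin (k + 2)) : R :=
  Fin.lastCases (motive := fun _ => R)
    (Fin.lastCases (motive := fun _ => R)
      (Bg T (Fin.append 0 Y) (Fin.append 0 Y) (Fin.append 0 Y)) (fun _ => 0) j)
    (fun i => Fin.lastCases (motive := fun _ => R)
      (3 * Bg T (ev k m R i) (Fin.append 0 Y) (Fin.append 0 Y))
      (fun j => 3 * Bg T (ev k m R i) (ev k m R j) (Fin.append 0 Y)) j) i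

lemma Qm_sum {T : Fin (k + 1 + (m + 1)) → Fin (k + 1 + (m + 1)) → Fin (k + 1 + (m + 1)) → K}
    (hT : SymG T) (Y : Fin (m + 1) → R) (z : Fin (k + 2) → R) :
    ∑ i, ∑ j, Qm T Y i j * z i * z j = qf T Y (fun i => z i.castSucc) (z (Fin.last _)) := by
  rw [Fin.sum_univ_castSucc]
  simp only [Fin.sum_univ_castSucc (n := k + 1)]
  unfold Qm
  simp only [Fin.lastCases_castSucc, Fin.lastCases_last, zero_mul, Finset.sum_const_zero,
    zero_add]
  unfold qf
  rw [append_c (fun i => z i.castSucc)]
  rw [Bg_sum1, Bg_sum1]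
  simp only [Bg_sum2 hT, Bg_smul1, Bg_smul2]
  rw [Finset.sum_add_distrib, Finset.mul_sum, Finset.mul_sum]
  congr 1
  · congr 1
    · refine Finset.sum_congr rfl fun i _ => ?_
      rw [Finset.mul_sum]
      refine Finset.sum_congr rfl fun j _ => ?_
      ring
    · refine Finset.sum_congr rfl fun i _ => ?_
      ring
  · ring

lemma Qm_map {T : Fin (k + 1 + (m + 1)) → Fin (k + 1 + (m + 1)) → Fin (k + 1 + (m + 1)) → K}
    {R' : Type} [CommRing R'] [Algebra K R'] (φ : R →ₐ[K] R') (Y : Fin (m + 1) → R)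
    (i j : Fin (k + 2)) : φ (Qm T Y i j) = Qm T (fun j => φ (Y j)) i j := by
  have h0 : (fun s => φ (Fin.append (0 : Fin (k + 1) → R) Y s)) =
      Fin.append (0 : Fin (k + 1) → R') (fun j => φ (Y j)) := by
    funext s
    refine Fin.addCases (fun i => ?_) (fun j => ?_) s
    · simp [Fin.append_left]
    · simp [Fin.append_right]
  have h1 : ∀ i : Fin (k + 1), (fun s => φ (ev k m R i s)) = ev k m R' i := by
    intro i
    funext s
    unfold ev
    split_ifs <;> simp
  unfold Qm
  refine Fin.lastCases ?_ (fun i => ?_) i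
  · refine Fin.lastCases ?_ (fun j => ?_) j
    · simp only [Fin.lastCases_last]
      rw [map_Bg, h0]
    · simp only [Fin.lastCases_last, Fin.lastCases_castSucc, map_zero]
  · refine Fin.lastCases ?_ (fun j => ?_) j
    · simp only [Fin.lastCases_last, Fin.lastCases_castSucc]
      rw [map_mul, map_Bg, h0, h1, map_ofNat]
    · simp only [Fin.lastCases_castSucc]
      rw [map_mul, map_Bg, h0, h1, h1, map_ofNat]

end quad

theorem spr : S_SPR := by
  intro k m K E _ _ _ _ y hy hodd F hF hV c hc
  obtain ⟨T, hT, rfl⟩ := exists_tri F hF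
  have hinj : Function.Injective (aeval y : MvPolynomial (Fin m) K →ₐ[K] E) := hy
  have hrange : IntermediateField.adjoin K
      (Set.range (aeval y : MvPolynomial (Fin m) K →ₐ[K] E)) =
      IntermediateField.adjoin K (Set.range y) := by
    apply le_antisymm
    · rw [IntermediateField.adjoin_le_iff]
      rintro _ ⟨p, rfl⟩
      induction p using MvPolynomial.induction_on with
      | C a =>
        rw [SetLike.mem_coe, aeval_C]
        exact IntermediateField.algebraMap_mem _ a
      | add p q hp hq =>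
        rw [SetLike.mem_coe, map_add]
        exact add_mem hp hq
      | mul_X p i hp =>
        rw [SetLike.mem_coe, map_mul, aeval_X]
        exact mul_mem hp (IntermediateField.subset_adjoin _ _ ⟨i, rfl⟩)
    · apply IntermediateField.adjoin.mono
      rintro _ ⟨i, rfl⟩
      exact ⟨X i, aeval_X _ _⟩
  have hY : (fun j => (aeval y : MvPolynomial (Fin m) K →ₐ[K] E) (yv K m j)) =
      (Fin.cons 1 y : Fin (m + 1) → E) := by
    funext j
    refine Fin.cases ?_ (fun j => ?_) j
    · simp [yv]
    · simp [yv]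
  obtain ⟨r, ⟨i0, hi0⟩, hr⟩ := odd_descentK (aeval y : MvPolynomial (Fin m) K →ₐ[K] E)
    (by rw [hrange]; exact hodd) (Qm T (yv K m)) (Fin.snoc c 1 : Fin (k + 2) → E)
    ⟨Fin.last _, by rw [Fin.snoc_last]; exact one_ne_zero⟩ (by
      simp only [Qm_map]
      rw [Qm_sum hT, hY]
      simp only [Fin.snoc_castSucc, Fin.snoc_last]
      have h1 := qf_eq hT hV (Fin.cons 1 y : Fin (m + 1) → E) c 1
      rw [one_mul] at h1
      rw [← h1]
      simp only [one_mul]
      exact hc)
  have hr2 := hinj (hr.trans (map_zero _).symm)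
  rw [Qm_sum hT] at hr2
  refine ⟨fun i => r i.castSucc, r (Fin.last _), ?_⟩
  by_cases hl : r (Fin.last _) = 0
  · right
    constructor
    · intro hc0
      apply hi0
      have : r i0 = 0 := by
        refine Fin.lastCases ?_ (fun i => ?_) i0
        · exact hl
        · exact congrFun hc0 i
      rw [this, map_zero]
    · rw [hl] at hr2
      rw [qf_zero hT]
      exact hr2
  · left
    refine ⟨hl, ?_⟩
    rw [qf_eq hT hV, hr2, mul_zero]

end

end Pool.Agent.R845.E3
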