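import Mathlib
import Pool.Agent.R845.E3.Stm
import Pool.Agent.R845.Irr

/-! # Project E7: the projection of a smooth cubic from one of its points has no section -/

set_option autoImplicit false

namespace Pool.Agent.R845.E3

open MvPolynomial Pool.Agent.TH314.PD Module

noncomputable section

namespace NoIso0

/-- value of a form at a coordinate point -/
theorem eval_single {σ : Type} [Fintype σ] [DecidableEq σ] {G : MvPolynomial σ ℂ} {d : ℕ}
    (hG : G.IsHomogeneous d) (u : σ) :
    eval (Pi.single u 1 : σ → ℂ) G = coeff (Finsupp.single u d) G := by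
  rw [eval_eq']
  rw [Finset.sum_eq_single (Finsupp.single u d)]
  · rw [Finset.prod_eq_one, mul_one]
    intro i _
    by_cases h : i = u
    · subst h
      rw [Pi.single_eq_same, one_pow]
    · rw [Finsupp.single_eq_of_ne h, pow_zero]
  · intro β hβ hne
    have hdeg : ∑ i, β i = d := by
      have h3 : β.degree = d := by
        rw [Finsupp.degree_eq_weight_one]
        exact hG (mem_support_iff.1 hβ)
      rw [← h3, Finsupp.degree_eq_sum]
    obtain ⟨i, hi, hi0⟩ : ∃ i, i ≠ u ∧ β i ≠ 0 := by
      by_contra hcon
      push Not at hcon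
      apply hne
      ext i
      by_cases h : i = u
      · subst h
        rw [Finsupp.single_eq_same, ← hdeg, Finset.sum_eq_single i]
        · intro b _ hb
          exact hcon b hb
        · intro h
          exact absurd (Finset.mem_univ i) h
      · rw [hcon i h, Finsupp.single_eq_of_ne h]
    rw [Finset.prod_eq_zero (Finset.mem_univ i), mul_zero]
    rw [Pi.single_eq_of_ne hi, zero_pow hi0]
  · intro h
    rw [MvPolynomial.notMem_support_iff] at h
    rw [h, zero_mul]

variable {m : ℕ}

theorem sub0 (i : Fin (0 + 1)) : i = 0 := Subsingleton.elim (α := Fin 1) i 0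

theorem hr (m : ℕ) : 0 + 1 + (m + 1) = m + 1 + 1 := by omega

/-- polynomials in the first variable -/
def phi (m : ℕ) : MvPolynomial (Fin (0 + 1 + (m + 1))) ℂ ≃ₐ[ℂ]
    Polynomial (MvPolynomial (Fin (m + 1)) ℂ) :=
  (renameEquiv ℂ (finCongr (hr m))).trans (finSuccEquiv ℂ (m + 1))

theorem phi_zero : phi m (X (Fin.castAdd (m + 1) 0)) = Polynomial.X := by
  change finSuccEquiv ℂ (m + 1) (rename (finCongr (hr m)) (X (Fin.castAdd (m + 1) 0))) = _
  rw [rename_X]
  have h : finCongr (hr m) (Fin.castAdd (m + 1) 0) = 0 := by
    ext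
    simp
  rw [h, finSuccEquiv_X_zero]

theorem phi_succ (j : Fin (m + 1)) : phi m (X (Fin.natAdd (0 + 1) j)) = Polynomial.C (X j) := by
  change finSuccEquiv ℂ (m + 1) (rename (finCongr (hr m)) (X (Fin.natAdd (0 + 1) j))) = _
  rw [rename_X]
  have h : finCongr (hr m) (Fin.natAdd (0 + 1) j) = j.succ := by
    ext
    simp
  rw [h, finSuccEquiv_X_succ]

/-- the center of the projection -/
def pt (m : ℕ) : Fin (0 + 1 + (m + 1)) → ℂ := Pi.single (Fin.castAdd (m + 1) 0) 1

theorem pt_ne : pt m ≠ 0 := by
  intro h
  have h1 := congrFun h (Fin.castAdd (m + 1) 0)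
  rw [pt, Pi.single_eq_same] at h1
  exact one_ne_zero h1

theorem append_eq {R : Type} [CommRing R] [Algebra ℂ R] (c : Fin (0 + 1) → R) :
    (Fin.append c (0 : Fin (m + 1) → R)) = fun i => c 0 * algebraMap ℂ R (pt m i) := by
  funext i
  refine Fin.addCases (fun i => ?_) (fun j => ?_) i
  · rw [Fin.append_left]
    have h : i = 0 := sub0 i
    subst h
    rw [pt, Pi.single_eq_same, map_one, mul_one]
  · rw [Fin.append_right, pt, Pi.single_eq_of_ne, map_zero, mul_zero]
    · rfl
    · intro h
      have h1 := congrArg Fin.val h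
      simp at h1

variable {F : MvPolynomial (Fin (0 + 1 + (m + 1))) ℂ}

theorem eval_pt (hW : VanW F) : eval (pt m) F = 0 := by
  have h1 := congrArg (aeval (fun _ => (1 : ℂ)) : MvPolynomial (Fin (0 + 1)) ℂ →ₐ[ℂ] ℂ) hW
  rw [map_zero, comp_aeval_apply] at h1
  rw [← h1, ← aeval_eq_eval]
  congr 1
  congr 1
  funext i
  refine Fin.addCases (fun i => ?_) (fun j => ?_) i
  · rw [Fin.append_left, aeval_X]
    have h : i = 0 := sub0 i
    subst h
    rw [pt, Pi.single_eq_same]
  · rw [Fin.append_right, pt, Pi.single_eq_of_ne]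
    · rw [Pi.zero_apply, map_zero]
    · intro h
      have h1 := congrArg Fin.val h
      simp at h1

theorem exists_ne (hF : F.IsHomogeneous 3) (hsm : Sm F) (hW : VanW F) :
    ∃ j : Fin (m + 1), eval (pt m) (pderiv (Fin.natAdd (0 + 1) j) F) ≠ 0 := by
  by_contra hcon
  push Not at hcon
  apply pt_ne (m := m)
  apply hsm
  intro i
  refine Fin.addCases (fun i => ?_) (fun j => hcon j) i
  have h : i = 0 := sub0 i
  subst h
  have h1 := congrArg (eval (pt m)) hF.sum_X_mul_pderiv
  rw [map_sum, map_nsmul, eval_pt hW, smul_zero, Fin.sum_univ_add] at h1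
  rw [Finset.sum_eq_single 0 (by
    intro b _ hb
    exact absurd (sub0 b) hb) (by
    intro h
    exact absurd (Finset.mem_univ _) h)] at h1
  rw [Finset.sum_eq_zero (s := (Finset.univ : Finset (Fin (m + 1)))) (by
    intro j _
    rw [map_mul, hcon j, mul_zero]), add_zero, map_mul, eval_X] at h1
  rw [pt, Pi.single_eq_same, one_mul] at h1
  exact h1

theorem two_le (hF : F.IsHomogeneous 3) (hsm : Sm F) (hW : VanW F) :
    2 ≤ (phi m F).natDegree := by
  obtain ⟨j, hj⟩ := exists_ne hF hsm hW
  rw [pt, eval_single (hF.pderiv)] at hj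
  rw [coeff_pderiv] at hj
  have h2 : coeff (Finsupp.single (Fin.castAdd (m + 1) 0) (3 - 1) +
      Finsupp.single (Fin.natAdd (0 + 1) j) 1) F ≠ 0 := left_ne_zero_of_mul hj
  apply Polynomial.le_natDegree_of_ne_zero
  intro h3
  have h4 := finSuccEquiv_coeff_coeff (Finsupp.single j 1) (rename (finCongr (hr m)) F) 2
  change coeff _ ((phi m F).coeff 2) = _ at h4
  rw [h3, coeff_zero] at h4
  apply h2
  have h5 := coeff_rename_mapDomain (finCongr (hr m)) (finCongr (hr m)).injective F
    (Finsupp.single (Fin.castAdd (m + 1) 0) (3 - 1) +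
      Finsupp.single (Fin.natAdd (0 + 1) j) 1)
  rw [← h5]
  rw [h4]
  congr 1
  rw [Finsupp.mapDomain_add, Finsupp.mapDomain_single, Finsupp.mapDomain_single]
  have ha : finCongr (hr m) (Fin.castAdd (m + 1) 0) = 0 := by
    ext
    simp
  have hb : finCongr (hr m) (Fin.natAdd (0 + 1) j) = j.succ := by
    ext
    simp
  rw [ha, hb]
  ext i
  refine Fin.cases ?_ (fun i => ?_) i
  · rw [Finsupp.cons_zero, Finsupp.add_apply, Finsupp.single_eq_same,
      Finsupp.single_eq_of_ne (Fin.succ_ne_zero j).symm]
    rfl
  · rw [Finsupp.cons_succ, Finsupp.add_apply, Finsupp.single_eq_of_ne (Fin.succ_ne_zero i),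
      zero_add]
    by_cases h : i = j
    · subst h
      rw [Finsupp.single_eq_same, Finsupp.single_eq_same]
    · rw [Finsupp.single_eq_of_ne h, Finsupp.single_eq_of_ne]
      intro h'
      exact h (Fin.succ_injective _ h')

end NoIso0

open NoIso0

theorem no_iso0 {m : ℕ} (hm : 1 ≤ m) {F : MvPolynomial (Fin (0 + 1 + (m + 1))) ℂ}
    (hF : F.IsHomogeneous 3) (hsm : Sm F) (hW : VanW F) : ¬ Iso F := by
  rintro ⟨c, l, ⟨hl, hc⟩ | ⟨hc, h⟩⟩
  · -- a rational root
    have hF0 : F ≠ 0 := by
      rintro rfl
      apply pt_ne (m := m)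
      apply hsm
      intro i
      rw [map_zero, map_zero]
    have hirr : Irreducible F := irreducible_of_smooth (by omega) (by norm_num) hF hF0 hsm
    let S := MvPolynomial (Fin (m + 1)) ℂ
    let K := FractionRing S
    let al : S →ₐ[ℂ] K := IsScalarTower.toAlgHom ℂ _ _
    have hal : Function.Injective al := IsFractionRing.injective S _
    have hX0 : al (X 0) ≠ 0 := by
      intro h
      exact X_ne_zero (R := ℂ) (0 : Fin (m + 1)) (hal (by rw [h, map_zero]))
    let ψ : MvPolynomial (Fin m) ℂ →ₐ[ℂ] K := aeval (fun i : Fin m => al (X i.succ) / al (X 0))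
    have hψ : ∀ p, ψ p = 0 → p = 0 := by
      intro p hp
      obtain ⟨p', h1, h2⟩ := homogenize p
      have h3 : al p' = 0 := by
        have h4 := aeval_smul_form (A := K) h1 (al (X 0))
          (Fin.cons 1 (fun i : Fin m => al (X i.succ) / al (X 0)))
        rw [h2] at h4
        change _ = _ * ψ p at h4
        rw [hp, mul_zero] at h4
        rw [← h4]
        have h5 : (fun i => al (X 0) * (Fin.cons 1 (fun i : Fin m => al (X i.succ) / al (X 0)) :
            Fin (m + 1) → K) i) = fun i => al (X i) := by
          funext i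
          refine Fin.cases ?_ (fun i => ?_) i
          · rw [Fin.cons_zero, mul_one]
          · rw [Fin.cons_succ, mul_div_cancel₀ _ hX0]
        rw [h5]
        conv_lhs => rw [← aeval_X_left_apply p']
        rw [comp_aeval_apply]
      have h6 : p' = 0 := hal (by rw [h3, map_zero])
      have h7 := h2 (X : Fin m → MvPolynomial (Fin m) ℂ)
      rw [h6, map_zero, aeval_X_left_apply] at h7
      exact h7.symm
    have hψl : ψ l ≠ 0 := fun h => hl (hψ l h)
    let r : K := al (X 0) * ψ (c 0) / ψ l
    have h8 : aeval (Fin.append (fun _ => r) (fun j => al (X j)) :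
        Fin (0 + 1 + (m + 1)) → K) F = 0 := by
      have h9 : (Fin.append (fun _ => r) (fun j => al (X j)) : Fin (0 + 1 + (m + 1)) → K) =
          fun i => al (X 0) / ψ l * ψ (Fin.append c (fun j => l * yv ℂ m j) i) := by
        funext i
        refine Fin.addCases (fun i => ?_) (fun j => ?_) i
        · rw [Fin.append_left, Fin.append_left]
          have h : i = 0 := sub0 i
          subst h
          simp only [r]
          ring
        · rw [Fin.append_right, Fin.append_right, map_mul]
          refine Fin.cases ?_ (fun j => ?_) j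
          · rw [yv, Fin.cons_zero, map_one, mul_one, div_mul_cancel₀ _ hψl]
          · rw [yv, Fin.cons_succ]
            simp only [ψ, aeval_X]
            change al (X j.succ) = al (X 0) / ψ l * (ψ l * (al (X j.succ) / al (X 0)))
            rw [← mul_assoc, div_mul_cancel₀ _ hψl, mul_div_cancel₀ _ hX0]
      rw [h9, aeval_smul_form hF, ← comp_aeval_apply, hc, map_zero, mul_zero]
    have h10 : Polynomial.aeval r (phi m F) = 0 := by
      rw [← h8]
      have h11 : ((Polynomial.aeval r : Polynomial S →ₐ[S] K).restrictScalars ℂ).comp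
          (phi m).toAlgHom = aeval (Fin.append (fun _ => r) (fun j => al (X j)) :
        Fin (0 + 1 + (m + 1)) → K) := by
        apply algHom_ext
        intro i
        refine Fin.addCases (fun i => ?_) (fun j => ?_) i
        · have h : i = 0 := sub0 i
          subst h
          rw [aeval_X, Fin.append_left]
          change Polynomial.aeval r (phi m (X (Fin.castAdd (m + 1) 0))) = r
          rw [phi_zero, Polynomial.aeval_X]
        · rw [aeval_X, Fin.append_right]
          change Polynomial.aeval r (phi m (X (Fin.natAdd (0 + 1) j))) = _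
          rw [phi_succ, Polynomial.aeval_C]
          rfl
      exact DFunLike.congr_fun h11 F
    have hirr' : Irreducible (phi m F) := (MulEquiv.irreducible_iff (phi m)).2 hirr
    have h12 := two_le hF hsm hW
    have hprim : (phi m F).IsPrimitive := hirr'.isPrimitive (by omega)
    have h13 := (hprim.irreducible_iff_irreducible_map_fraction_map (K := K)).1 hirr'
    have h14 : ((phi m F).map (algebraMap S K)).IsRoot r := by
      rw [Polynomial.IsRoot.def, Polynomial.eval_map_algebraMap]
      exact h10
    have h15 := Polynomial.degree_eq_one_of_irreducible_of_root h13 h14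
    rw [Polynomial.degree_map_eq_of_injective (IsFractionRing.injective S K)] at h15
    have h16 : (phi m F).natDegree = 1 := Polynomial.natDegree_eq_of_degree_eq_some h15
    omega
  · have h0 : c 0 ≠ 0 := by
      intro h0
      apply hc
      funext i
      have h : i = 0 := sub0 i
      subst h
      exact h0
    have h1 : ∀ j : Fin (m + 1), aeval (Fin.append c (0 : Fin (m + 1) → MvPolynomial (Fin m) ℂ))
        (pderiv (Fin.natAdd (0 + 1) j) F) =
        c 0 ^ 2 * C (eval (pt m) (pderiv (Fin.natAdd (0 + 1) j) F)) := by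
      intro j
      rw [append_eq, aeval_smul_form hF.pderiv]
      congr 1
      rw [← aeval_eq_eval]
      exact aeval_algebraMap_apply (MvPolynomial (Fin m) ℂ) (pt m) _
    have h2 : c 0 ^ 2 * ∑ j, yv ℂ m j * C (eval (pt m) (pderiv (Fin.natAdd (0 + 1) j) F)) = 0 := by
      rw [← h, Finset.mul_sum]
      refine Finset.sum_congr rfl fun j _ => ?_
      rw [h1]
      ring
    have h3 := (mul_eq_zero.1 h2).resolve_left (pow_ne_zero 2 h0)
    obtain ⟨j, hj⟩ := exists_ne hF hsm hW
    apply hj
    rw [Fin.sum_univ_succ] at h3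
    simp only [yv, Fin.cons_zero, Fin.cons_succ, one_mul] at h3
    revert hj
    refine Fin.cases ?_ (fun j => ?_) j
    · intro _
      have h4 := congrArg (coeff 0) h3
      rw [coeff_add, coeff_C, if_pos rfl, coeff_sum, coeff_zero] at h4
      rw [Finset.sum_eq_zero, add_zero] at h4
      · exact h4
      · intro i _
        rw [mul_comm, coeff_C_mul, coeff_zero_X, mul_zero]
    · intro _
      have h4 := congrArg (coeff (Finsupp.single j 1)) h3
      rw [coeff_add, coeff_C, if_neg, zero_add, coeff_sum, coeff_zero,
        Finset.sum_eq_single j] at h4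
      · rw [mul_comm, coeff_C_mul, coeff_X, if_pos rfl, mul_one] at h4
        exact h4
      · intro i _ hi
        rw [mul_comm, coeff_C_mul, coeff_X, if_neg, mul_zero]
        intro h5
        apply hi
        exact (Finsupp.single_left_injective one_ne_zero h5)
      · intro h
        exact absurd (Finset.mem_univ _) h
      · intro h
        have := DFunLike.congr_fun h j
        simp at this

end

end Pool.Agent.R845.E3
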