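import Mathlib
import Pool.Agent.R845.Ani2
import Pool.Agent.R845.E3.Rat

/-! # Project E3: the conic bundle of a line has no rational section -/

set_option autoImplicit false

namespace Pool.Agent.R845.E3

open MvPolynomial Pool.Agent.TH314.PD Pool.Agent.Y201.C3 Pool.Agent.Y201.LI Pool.Agent.Y246.C3

noncomputable section

namespace NoIso

/-- the generic vector `(0, 0, 1, Y_1, Y_2, Y_3)` -/
def y3 : Fin 6 → MvPolynomial (Fin 3) ℂ := ![0, 0, 1, X 0, X 1, X 2]

/-- the field of rational functions in four variables -/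
abbrev K4 : Type := FractionRing (MvPolynomial (Fin 4) ℂ)

/-- the embedding -/
def io : MvPolynomial (Fin 4) ℂ →ₐ[ℂ] K4 := IsScalarTower.toAlgHom ℂ (MvPolynomial (Fin 4) ℂ) K4

theorem io_inj : Function.Injective io := IsFractionRing.injective (MvPolynomial (Fin 4) ℂ) K4

/-- homogenization -/
def th : MvPolynomial (Fin 3) ℂ →ₐ[ℂ] K4 :=
  aeval fun l : Fin 3 => io (X ((0 : Fin 4).succAbove l)) / io (X 0)

theorem th_inj : Function.Injective th := by
  have h1 := (Pool.Agent.R845.T2.Fd.indep_of_generic (r := 3) (K := K4) (fun i => io (X i)) (by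
    intro e H _ h
    have h2 : (aeval (fun i => io (X i)) : MvPolynomial (Fin 4) ℂ →ₐ[ℂ] K4) = io := by
      apply algHom_ext
      intro i
      rw [aeval_X]
    rw [h2] at h
    exact io_inj (h.trans (map_zero io).symm))).2
  exact h1

theorem io_X0 : io (X 0) ≠ 0 := by
  intro h
  exact X_ne_zero (0 : Fin 4) (io_inj (h.trans (map_zero io).symm))

theorem y3_scale : (fun i => io (X 0) * th (y3 i)) = fun i => io (yy i) := by
  have h0 := io_X0
  funext i
  fin_cases i
  · change io (X 0) * th 0 = io 0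
    rw [map_zero, map_zero, mul_zero]
  · change io (X 0) * th 0 = io 0
    rw [map_zero, map_zero, mul_zero]
  · change io (X 0) * th 1 = io (X 0)
    rw [map_one, mul_one]
  · change io (X 0) * th (X 0) = io (X 1)
    rw [th, aeval_X]
    rw [mul_div_cancel₀ _ h0]
    rfl
  · change io (X 0) * th (X 1) = io (X 2)
    rw [th, aeval_X]
    rw [mul_div_cancel₀ _ h0]
    rfl
  · change io (X 0) * th (X 2) = io (X 3)
    rw [th, aeval_X]
    rw [mul_div_cancel₀ _ h0]
    rfl

theorem main6 {T : Fin 6 → Fin 6 → Fin 6 → ℂ} (hT : SymT T) (hS : SmoothT T) (hL : LineT T)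
    (hNP : ∀ y : Fin 6 → ℂ, y 0 = 0 → y 1 = 0 → y ≠ 0 →
      ∃ i j k : Fin 3, Bf T ((![E 0, E 1, y] : Fin 3 → Fin 6 → ℂ) i)
        ((![E 0, E 1, y] : Fin 3 → Fin 6 → ℂ) j) ((![E 0, E 1, y] : Fin 3 → Fin 6 → ℂ) k) ≠ 0)
    (V : Fin 3 → MvPolynomial (Fin 3) ℂ) (h : qf (cm T y3) V = 0) : V = 0 := by
  have h1 := congrArg th h
  rw [qf_cm_map, map_zero] at h1
  have h2 := qf_scale hT (io (X 0)) 1 (fun i => th (y3 i)) (fun i => th (V i))
  rw [h1, mul_zero, y3_scale] at h2
  -- clear denominators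
  set z : Fin 3 → K4 := ![1 * (io (X 0) * th (V 0)), 1 * (io (X 0) * th (V 1)), 1 * th (V 2)]
    with hz
  obtain ⟨b, hb⟩ := IsLocalization.exist_integer_multiples_of_finite
    (nonZeroDivisors (MvPolynomial (Fin 4) ℂ)) z
  choose V' hV' using hb
  have hV'' : (fun i => io (V' i)) = fun i => io (b : MvPolynomial (Fin 4) ℂ) * z i := by
    funext i
    have h3 := hV' i
    rw [Algebra.smul_def] at h3
    exact h3
  have hqs : ∀ (A : Matrix (Fin 3) (Fin 3) K4) (c : K4) (W : Fin 3 → K4),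
      qf A (fun i => c * W i) = c ^ 2 * qf A W := by
    intro A c W
    unfold qf
    rw [Finset.mul_sum]
    refine Finset.sum_congr rfl fun i _ => ?_
    rw [Finset.mul_sum]
    refine Finset.sum_congr rfl fun j _ => ?_
    ring
  have h3 : qf (cm T yy) V' = 0 := by
    apply io_inj
    rw [qf_cm_map, map_zero, hV'', hqs, h2, mul_zero]
  have h4 : V' = 0 := ani2 T hT hS hL hNP V' h3
  have hb0 : io (b : MvPolynomial (Fin 4) ℂ) ≠ 0 := by
    intro h5
    exact nonZeroDivisors.ne_zero b.2 (io_inj (h5.trans (map_zero io).symm))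
  have h5 : ∀ i, z i = 0 := by
    intro i
    have h6 := congrFun hV'' i
    rw [h4, Pi.zero_apply, map_zero] at h6
    exact (mul_eq_zero.1 h6.symm).resolve_left hb0
  have h6 : ∀ i, th (V i) = 0 := by
    intro i
    fin_cases i
    · have h7 := h5 0
      rw [hz] at h7
      change 1 * (io (X 0) * th (V 0)) = 0 at h7
      rw [one_mul] at h7
      exact (mul_eq_zero.1 h7).resolve_left io_X0
    · have h7 := h5 1
      rw [hz] at h7
      change 1 * (io (X 0) * th (V 1)) = 0 at h7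
      rw [one_mul] at h7
      exact (mul_eq_zero.1 h7).resolve_left io_X0
    · have h7 := h5 2
      rw [hz] at h7
      change 1 * th (V 2) = 0 at h7
      rw [one_mul] at h7
      exact h7
  funext i
  exact th_inj ((h6 i).trans (map_zero th).symm)

end NoIso

/-- **no rational section**: a smooth cubic fourfold containing the line `y = 0` which is not
contained in a plane of it -/
theorem no_iso1 {F : MvPolynomial (Fin (1 + 1 + (3 + 1))) ℂ} (hF : F.IsHomogeneous 3)
    (hsm : Sm F) (hW : VanW F)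
    (hNP : ∀ y : Fin (3 + 1) → ℂ, y ≠ 0 →
      ∃ a b c : ℂ, eval (Fin.append ![a, b] (fun j => c * y j)) F ≠ 0) : ¬ Iso F := by
  obtain ⟨T, hT, hFT⟩ := exists_tri F hF
  subst hFT
  have hT6 : SymT T := hT
  have hS6 : SmoothT T := by
    intro z hz
    apply hsm
    intro i
    rw [← aeval_eq_eval]
    have h3 : aeval z (pderiv i (Bg T X X X : MvPolynomial (Fin 6) ℂ)) = _ := pderiv_frmG hT i z
    have h4 := hz i
    rw [smooth_iff, Bf_eq] at h4
    rw [h4, mul_zero] at h3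
    exact h3
  have hL6 : LineT T := by
    intro i j k hi hj hk
    exact Rat.tensor_W (k := 1) (m := 3) hT hW ⟨i, hi⟩ ⟨j, hj⟩ ⟨k, hk⟩
  have hNP6 : ∀ y : Fin 6 → ℂ, y 0 = 0 → y 1 = 0 → y ≠ 0 →
      ∃ i j k : Fin 3, Bf T ((![E 0, E 1, y] : Fin 3 → Fin 6 → ℂ) i)
        ((![E 0, E 1, y] : Fin 3 → Fin 6 → ℂ) j) ((![E 0, E 1, y] : Fin 3 → Fin 6 → ℂ) k) ≠ 0 := by
    intro y hy0 hy1 hy
    by_contra hcon
    push Not at hcon
    obtain ⟨a, b, c, habc⟩ := hNP (fun j => y (Fin.natAdd 2 j)) (by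
      intro h
      apply hy
      funext i
      fin_cases i
      · exact hy0
      · exact hy1
      · exact congrFun h 0
      · exact congrFun h 1
      · exact congrFun h 2
      · exact congrFun h 3)
    apply habc
    have h1 : @Fin.append 2 4 ℂ ![a, b] (fun j => c * y (Fin.natAdd 2 j)) =
        fun i => (![a, b, c] : Fin 3 → ℂ) 0 * E 0 i + ((![a, b, c] : Fin 3 → ℂ) 1 * E 1 i +
          (![a, b, c] : Fin 3 → ℂ) 2 * y i) := by
      funext i
      change _ = a * E 0 i + (b * E 1 i + c * y i)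
      fin_cases i
      · change a = a * E 0 0 + (b * E 1 0 + c * y 0)
        rw [hy0]
        simp [E]
      · change b = a * E 0 1 + (b * E 1 1 + c * y 1)
        rw [hy1]
        simp [E]
      · change c * y 2 = a * E 0 2 + (b * E 1 2 + c * y 2)
        simp [E]
      · change c * y 3 = a * E 0 3 + (b * E 1 3 + c * y 3)
        simp [E]
      · change c * y 4 = a * E 0 4 + (b * E 1 4 + c * y 4)
        simp [E]
      · change c * y 5 = a * E 0 5 + (b * E 1 5 + c * y 5)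
        simp [E]
    have h2 := key hT6 hL6 y (![a, b, c] : Fin 3 → ℂ)
    rw [qf_cm] at h2
    have c1 : Bf T (E 0 : Fin 6 → ℂ) (E 0) y = 0 := hcon 0 0 2
    have c2 : Bf T (E 0 : Fin 6 → ℂ) (E 1) y = 0 := hcon 0 1 2
    have c3 : Bf T (E 1 : Fin 6 → ℂ) (E 1) y = 0 := hcon 1 1 2
    have c4 : Bf T (E 0 : Fin 6 → ℂ) y y = 0 := hcon 0 2 2
    have c5 : Bf T (E 1 : Fin 6 → ℂ) y y = 0 := hcon 1 2 2
    have c6 : Bf T y y y = 0 := hcon 2 2 2
    rw [c1, c2, c3, c4, c5, c6, ← h1] at h2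
    have h3 : eval (@Fin.append 2 4 ℂ ![a, b] (fun j => c * y (Fin.natAdd 2 j)))
        (Bg T X X X : MvPolynomial (Fin 6) ℂ) = 0 := by
      rw [← aeval_eq_eval]
      refine (aeval_frmG T _).trans ?_
      rw [← Bf_eq, h2]
      ring
    exact h3
  rintro ⟨c, l, ⟨hl, h⟩ | ⟨hc, h⟩⟩
  · -- a point outside of the line
    set V : Fin 3 → MvPolynomial (Fin 3) ℂ := ![c 0, c 1, l] with hV
    have h1 : (@Fin.append 2 4 (MvPolynomial (Fin 3) ℂ) c (fun j => l * yv ℂ 3 j)) =
        fun i => V 0 * E 0 i + (V 1 * E 1 i + V 2 * NoIso.y3 i) := by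
      funext i
      change _ = c 0 * E 0 i + (c 1 * E 1 i + l * NoIso.y3 i)
      fin_cases i
      · change c 0 = c 0 * E 0 0 + (c 1 * E 1 0 + l * 0)
        simp [E]
      · change c 1 = c 0 * E 0 1 + (c 1 * E 1 1 + l * 0)
        simp [E]
      · change l * 1 = c 0 * E 0 2 + (c 1 * E 1 2 + l * 1)
        simp [E]
      · change l * X 0 = c 0 * E 0 3 + (c 1 * E 1 3 + l * X 0)
        simp [E]
      · change l * X 1 = c 0 * E 0 4 + (c 1 * E 1 4 + l * X 1)
        simp [E]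
      · change l * X 2 = c 0 * E 0 5 + (c 1 * E 1 5 + l * X 2)
        simp [E]
    have h2 : Bg T (@Fin.append 2 4 (MvPolynomial (Fin 3) ℂ) c (fun j => l * yv ℂ 3 j))
        (@Fin.append 2 4 (MvPolynomial (Fin 3) ℂ) c (fun j => l * yv ℂ 3 j))
        (@Fin.append 2 4 (MvPolynomial (Fin 3) ℂ) c (fun j => l * yv ℂ 3 j)) = 0 := by
      rw [← aeval_frmG]
      exact h
    rw [h1, ← Bf_eq, key hT6 hL6] at h2
    have h3 := (mul_eq_zero.1 h2).resolve_left hl
    have h4 := NoIso.main6 hT6 hS6 hL6 hNP6 V h3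
    exact hl (congrFun h4 2)
  · -- a point of the line
    set V : Fin 3 → MvPolynomial (Fin 3) ℂ := ![c 0, c 1, 0] with hV
    have h1 : @Fin.append 2 4 (MvPolynomial (Fin 3) ℂ) c 0 = fun i => c 0 * E 0 i + c 1 * E 1 i := by
      funext i
      fin_cases i
      · change c 0 = c 0 * E 0 0 + c 1 * E 1 0
        simp [E]
      · change c 1 = c 0 * E 0 1 + c 1 * E 1 1
        simp [E]
      · change 0 = c 0 * E 0 2 + c 1 * E 1 2
        simp [E]
      · change 0 = c 0 * E 0 3 + c 1 * E 1 3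
        simp [E]
      · change 0 = c 0 * E 0 4 + c 1 * E 1 4
        simp [E]
      · change 0 = c 0 * E 0 5 + c 1 * E 1 5
        simp [E]
    have h2 : (fun i => ∑ j, yv ℂ 3 j * Rat.ev (MvPolynomial (Fin 3) ℂ) (Fin.natAdd 2 j) i) =
        NoIso.y3 := by
      funext i
      rw [Fin.sum_univ_four]
      unfold Rat.ev
      fin_cases i <;> simp [NoIso.y3, yv] <;> rfl
    have h3 : 3 * Bg T (@Fin.append 2 4 (MvPolynomial (Fin 3) ℂ) c 0)
        (@Fin.append 2 4 (MvPolynomial (Fin 3) ℂ) c 0) NoIso.y3 = 0 := by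
      rw [← h2, Bg_sum3 hT]
      simp only [Bg_smul3]
      rw [Finset.mul_sum, ← h]
      refine Finset.sum_congr rfl fun j _ => ?_
      have h4 := Rat.pd_ev hT (Fin.natAdd 2 j) (@Fin.append 2 4 (MvPolynomial (Fin 3) ℂ) c 0)
      rw [h4]
      ring
    have h4 : qf (cm T NoIso.y3) V = 0 := by
      rw [qf_cm, ← h3, h1]
      change 3 * Bf T (E 0) (E 0) NoIso.y3 * c 0 ^ 2 + 6 * Bf T (E 0) (E 1) NoIso.y3 * c 0 * c 1 +
        3 * Bf T (E 1) (E 1) NoIso.y3 * c 1 ^ 2 + 3 * Bf T (E 0) NoIso.y3 NoIso.y3 * c 0 * 0 +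
        3 * Bf T (E 1) NoIso.y3 NoIso.y3 * c 1 * 0 + Bf T NoIso.y3 NoIso.y3 NoIso.y3 * 0 ^ 2 =
        3 * Bf T (fun i => c 0 * E 0 i + c 1 * E 1 i) (fun i => c 0 * E 0 i + c 1 * E 1 i)
          NoIso.y3
      rw [Bf_add1 (T := T) (fun i => c 0 * E 0 i) (fun i => c 1 * E 1 i), Bf_smul1, Bf_smul1,
        Bf_add2 hT6 (E 0) (fun i => c 0 * E 0 i) (fun i => c 1 * E 1 i),
        Bf_add2 hT6 (E 1) (fun i => c 0 * E 0 i) (fun i => c 1 * E 1 i), Bf_smul2 hT6,
        Bf_smul2 hT6, Bf_smul2 hT6, Bf_smul2 hT6, Bf_comm12 hT6 (E 1) (E 0)]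
      ring
    have h5 := NoIso.main6 hT6 hS6 hL6 hNP6 V h4
    apply hc
    funext i
    fin_cases i
    · exact congrFun h5 0
    · exact congrFun h5 1

end

end Pool.Agent.R845.E3
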