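import Mathlib
import Pool.Agent.R845.E3.Stm
import Pool.Agent.R668.At1

/-! # E3-AT: very general cubics: assembly -/

set_option autoImplicit false

namespace Pool.Agent.R845.E3

open MvPolynomial Pool.Agent.TH314.PD IntermediateField Module FF

noncomputable section

open At1

/-- the restriction of `shear T F` to `y = 0`, for a matrix `T` with entries in a ring -/
def rst {k m : ℕ} {A : Type} [CommRing A] [Algebra ℂ A] (T : Fin (k + 1) → Fin (m + 1) → A)
    (F : MvPolynomial (Fin (k + 1 + (m + 1))) ℂ) : MvPolynomial (Fin (k + 1)) A :=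
  aeval (Fin.append (fun i => X i) (fun j => ∑ i, C (T i j) * X i)) F

theorem rst_map {k m : ℕ} {A B : Type} [CommRing A] [Algebra ℂ A] [CommRing B] [Algebra ℂ B]
    (f : A →+* B) (hf : ∀ c : ℂ, f (algebraMap ℂ A c) = algebraMap ℂ B c)
    (T : Fin (k + 1) → Fin (m + 1) → A) (F : MvPolynomial (Fin (k + 1 + (m + 1))) ℂ) :
    map f (rst T F) = rst (fun i j => f (T i j)) F := by
  unfold rst
  induction F using MvPolynomial.induction_on with
  | C a =>
    rw [aeval_C, aeval_C, MvPolynomial.algebraMap_apply, MvPolynomial.algebraMap_apply, map_C, hf]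
  | add p q hp hq => simp only [map_add, hp, hq]
  | mul_X p j hp =>
    simp only [map_mul, hp, aeval_X]
    congr 1
    refine Fin.addCases (fun i => ?_) (fun j => ?_) j
    · rw [Fin.append_left, Fin.append_left, map_X]
    · rw [Fin.append_right, Fin.append_right, map_sum]
      simp

theorem rst_hom {k m : ℕ} {A : Type} [CommRing A] [Algebra ℂ A]
    (T : Fin (k + 1) → Fin (m + 1) → A) (F : MvPolynomial (Fin (k + 1 + (m + 1))) ℂ)
    (hF : F.IsHomogeneous 3) : (rst T F).IsHomogeneous 3 := by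
  have h := hF.eval₂ (algebraMap ℂ (MvPolynomial (Fin (k + 1)) A))
    (Fin.append (fun i => X i) (fun j => ∑ i, C (T i j) * X i)) (n := 1) (by
      intro r
      rw [MvPolynomial.algebraMap_apply]
      exact isHomogeneous_C _ _) (by
    intro i
    refine Fin.addCases (fun i => ?_) (fun j => ?_) i
    · rw [Fin.append_left]
      exact isHomogeneous_X _ _
    · rw [Fin.append_right]
      refine IsHomogeneous.sum _ _ _ fun i _ => ?_
      have := (isHomogeneous_C (Fin (k + 1)) (T i j)).mul (isHomogeneous_X A i)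
      simpa using this)
  simpa [rst, aeval_def] using h

theorem rst_shear {k m : ℕ} {K : Type} [Field K] [Algebra ℂ K]
    (V : Fin (k + 1) → Fin (m + 1) → K) (F : MvPolynomial (Fin (k + 1 + (m + 1))) ℂ) :
    aeval (Fin.append (X : Fin (k + 1) → MvPolynomial (Fin (k + 1)) K) 0)
      (shear V (map (algebraMap ℂ K) F)) = rst V F := by
  rw [aeval_shear, aeval_map_algebraMap]
  unfold rst
  congr 2
  funext j
  simp

theorem rst_zero {k m : ℕ} {K : Type} [Field K] [Algebra ℂ K]
    (F : MvPolynomial (Fin (k + 1 + (m + 1))) ℂ) (hF : VanW F) :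
    rst (fun _ _ => (0 : K)) F = 0 := by
  have h1 : rst (k := k) (m := m) (fun _ _ => (0 : ℂ)) F = 0 := by
    have h2 := rst_shear (K := ℂ) (fun _ _ => (0 : ℂ)) F
    rw [← h2, aeval_shear]
    have h3 : map (algebraMap ℂ ℂ) F = F := by
      rw [Algebra.algebraMap_self]
      exact map_id F
    rw [h3]
    have h4 : (fun j => (0 : Fin (m + 1) → MvPolynomial (Fin (k + 1)) ℂ) j +
        ∑ i : Fin (k + 1), algebraMap ℂ (MvPolynomial (Fin (k + 1)) ℂ) 0 * X i) = 0 := by
      funext j
      simp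
    rw [h4]
    exact hF
  have h2 := rst_map (algebraMap ℂ K) (fun c => rfl) (fun _ _ => (0 : ℂ)) F
  rw [h1, map_zero] at h2
  simpa using h2.symm

/-- elements of positive order are transcendental -/
theorem transcendental_of_ord {Ω K : Type} [Field Ω] [IsAlgClosed Ω] [Field K] [Algebra Ω K]
    (P : Place Ω K) (v : K) (hv : v ≠ 0) (h : 0 < P.ord v) : Transcendental Ω v := by
  intro halg
  have h1 : (minpoly Ω v).degree = 1 := IsAlgClosed.degree_eq_one_of_irreducible Ω
    (minpoly.irreducible halg.isIntegral)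
  obtain ⟨c, hc⟩ := minpoly.mem_range_of_degree_eq_one Ω v h1
  have hc0 : c ≠ 0 := by
    rintro rfl
    rw [map_zero] at hc
    exact hv hc.symm
  have := P.ord_const hc0
  rw [hc] at this
  omega

/-- a field with algebraically independent elements -/
theorem exists_generic0 (q : Type) : ∃ (L : Type) (_ : Field L) (_ : Algebra ℂ L)
    (a : q → L), AlgebraicIndependent ℂ a := by
  have h1 : AlgebraicIndependent ℂ (X : q → MvPolynomial q ℂ) :=
    MvPolynomial.algebraicIndependent_X q ℂ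
  have h2 : Function.Injective (IsScalarTower.toAlgHom ℂ (MvPolynomial q ℂ)
      (FractionRing (MvPolynomial q ℂ))) := by
    intro x y hxy
    exact IsFractionRing.injective (MvPolynomial q ℂ) (FractionRing (MvPolynomial q ℂ)) hxy
  exact ⟨FractionRing (MvPolynomial q ℂ), inferInstance, inferInstance, _, h1.map' h2⟩

theorem exists_generic1 (q : Type) (L : Type) [Field L] [Algebra ℂ L] (b : q → L)
    (hb : AlgebraicIndependent ℂ b) : ∃ (Ω : Type) (_ : Field Ω) (_ : Algebra ℂ Ω)
    (_ : IsAlgClosed Ω) (a : q → Ω), AlgebraicIndependent ℂ a := by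
  have h3 : Function.Injective (IsScalarTower.toAlgHom ℂ L (AlgebraicClosure L)) := by
    intro x y hxy
    exact (algebraMap L (AlgebraicClosure L)).injective hxy
  exact ⟨AlgebraicClosure L, inferInstance, inferInstance, inferInstance, _, hb.map' h3⟩

theorem exists_generic (q : Type) : ∃ (Ω : Type) (_ : Field Ω) (_ : Algebra ℂ Ω)
    (_ : IsAlgClosed Ω) (a : q → Ω), AlgebraicIndependent ℂ a := by
  obtain ⟨L, fL, aL, b, hb⟩ := exists_generic0 q
  exact exists_generic1 q L b hb
/-- the equations: the index type -/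
abbrev Eqs (k c : ℕ) : Type := Sym (Fin (k + 1)) 3 ⊕ Fin c

/-- the equations -/
def eqs {k m c : ℕ} {Ω : Type} [Field Ω] [Algebra ℂ Ω]
    (a : Fin c → Fin (k + 1) × Fin (m + 1) → Ω)
    (G : MvPolynomial (Fin (k + 1 + (m + 1))) ℂ) :
    Eqs k c → MvPolynomial (Fin ((k + 1) * (m + 1))) Ω :=
  Sum.elim
    (fun σ => coeff (Multiset.toFinsupp σ.1) (rst (fun i j => X (finProdFinEquiv (i, j))) G))
    (fun l => ∑ τ : Fin (k + 1) × Fin (m + 1), C (a l τ) * X (finProdFinEquiv τ))

theorem eqs_zero {k m c : ℕ} {Ω : Type} [Field Ω] [Algebra ℂ Ω]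
    (a : Fin c → Fin (k + 1) × Fin (m + 1) → Ω)
    (G : MvPolynomial (Fin (k + 1 + (m + 1))) ℂ) (hV : VanW G) (x : Eqs k c) :
    eval 0 (eqs a G x) = 0 := by
  rcases x with σ | l
  · have h1 := rst_map (eval (0 : Fin ((k + 1) * (m + 1)) → Ω)) (fun c => by
      rw [MvPolynomial.algebraMap_apply, eval_C])
      (fun (i : Fin (k + 1)) (j : Fin (m + 1)) => X (finProdFinEquiv (i, j))) G
    have h2 : (fun (i : Fin (k + 1)) (j : Fin (m + 1)) =>
        eval (0 : Fin ((k + 1) * (m + 1)) → Ω) (X (finProdFinEquiv (i, j)))) =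
        fun _ _ => (0 : Ω) := by
      funext i j
      exact eval_X _
    rw [h2, rst_zero G hV] at h1
    have h3 := congrArg (coeff (Multiset.toFinsupp σ.1)) h1
    rw [coeff_map, coeff_zero] at h3
    exact h3
  · show eval 0 (∑ τ : Fin (k + 1) × Fin (m + 1), C (a l τ) * X (finProdFinEquiv τ)) = 0
    rw [map_sum]
    refine Finset.sum_eq_zero fun τ _ => ?_
    rw [map_mul, eval_X]
    simp

/-- the equations for a linear subspace -/
theorem eqs_rst {k m c : ℕ} {Ω : Type} [Field Ω] [Algebra ℂ Ω]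
    (a : Fin c → Fin (k + 1) × Fin (m + 1) → Ω)
    (G : MvPolynomial (Fin (k + 1 + (m + 1))) ℂ) (hG : G.IsHomogeneous 3)
    {K : Type} [Field K] [Algebra Ω K] [Algebra ℂ K] [IsScalarTower ℂ Ω K]
    (V : Fin ((k + 1) * (m + 1)) → K) (h : ∀ x : Eqs k c, aeval V (eqs a G x) = 0) :
    rst (fun i j => V (finProdFinEquiv (i, j))) G = 0 := by
  classical
  have h1 := rst_map (eval₂Hom (algebraMap Ω K) V) (fun c => by
      rw [MvPolynomial.algebraMap_apply]
      show eval₂ _ _ (C (algebraMap ℂ Ω c)) = _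
      rw [eval₂_C]
      exact (IsScalarTower.algebraMap_apply ℂ Ω K c).symm)
      (fun (i : Fin (k + 1)) (j : Fin (m + 1)) => X (finProdFinEquiv (i, j))) G
  have h2 : (fun (i : Fin (k + 1)) (j : Fin (m + 1)) => eval₂Hom (algebraMap Ω K) V
      (X (finProdFinEquiv (i, j)))) = fun i j => V (finProdFinEquiv (i, j)) := by
    funext i j
    exact eval₂_X _ _ _
  rw [h2] at h1
  ext β
  rw [coeff_zero]
  by_cases hβ : β.degree = 3
  · have hcard : (Finsupp.toMultiset β).card = 3 := by
      rw [Finsupp.card_toMultiset]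
      rw [Finsupp.degree_eq_sum] at hβ
      rw [← hβ, Finsupp.sum_fintype _ _ (fun _ => rfl)]
      rfl
    have h3 := h (Sum.inl ⟨Finsupp.toMultiset β, hcard⟩)
    have h4 : Multiset.toFinsupp (Finsupp.toMultiset β) = β := Finsupp.toMultiset_toFinsupp β
    have h5 : eqs a G (Sum.inl ⟨Finsupp.toMultiset β, hcard⟩) =
        coeff β (rst (fun (i : Fin (k + 1)) (j : Fin (m + 1)) =>
          (X (finProdFinEquiv (i, j)) : MvPolynomial (Fin ((k + 1) * (m + 1))) Ω)) G) := by
      show coeff (Multiset.toFinsupp (Finsupp.toMultiset β)) _ = _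
      rw [h4]
    rw [h5] at h3
    rw [← h1, coeff_map]
    exact h3
  · exact (rst_hom _ G hG).coeff_eq_zero hβ

theorem eqs_lin {k m c : ℕ} {Ω : Type} [Field Ω] [Algebra ℂ Ω]
    (a : Fin c → Fin (k + 1) × Fin (m + 1) → Ω)
    (G : MvPolynomial (Fin (k + 1 + (m + 1))) ℂ)
    {K : Type} [Field K] [Algebra Ω K]
    (V : Fin ((k + 1) * (m + 1)) → K) (h : ∀ x : Eqs k c, aeval V (eqs a G x) = 0) (l : Fin c) :
    ∑ τ : Fin (k + 1) × Fin (m + 1), algebraMap Ω K (a l τ) * V (finProdFinEquiv τ) = 0 := by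
  have h1 := h (Sum.inr l)
  have h2 : eqs a G (Sum.inr l) =
    ∑ τ : Fin (k + 1) × Fin (m + 1), C (a l τ) * X (finProdFinEquiv τ) := rfl
  rw [h2, map_sum] at h1
  rw [← h1]
  refine Finset.sum_congr rfl fun τ _ => ?_
  rw [map_mul, aeval_C, aeval_X]

theorem card_eqs (k c : ℕ) : Fintype.card (Eqs k c) = (k + 3).choose 3 + c := by
  rw [Fintype.card_sum, Sym.card_sym_eq_choose, Fintype.card_fin, Fintype.card_fin]
  congr 2

/-- the case of many linear subspaces, over a given field -/
theorem at_large_aux (gen : S_GEN) (curve : S_CURVE) (trans : S_TRANS) (trda : S_TRDA)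
    (trdb : S_TRDB) (k m : ℕ) (hkm : k + 1 ≤ m) (c : ℕ)
    (hc : c = (k + 1) * (m + 1) - (k + 3).choose 3 - 1)
    (hD : (k + 3).choose 3 < (k + 1) * (m + 1))
    (F : MvPolynomial (Fin (k + 1 + (m + 1))) ℂ) (hF : F.IsHomogeneous 3) (hS : Sm F)
    (hind : AlgebraicIndependent ℚ
      (fun β : {β : Fin (k + 1 + (m + 1)) →₀ ℕ // β.degree = 3} => coeff β.1 F))
    (U : Fin (k + 1) → Fin (m + 1) → ℂ) (hV : VanW (shear U F)) (hI : Iso (shear U F))
    (Ω : Type) [Field Ω] [Algebra ℂ Ω] [IsAlgClosed Ω] [CharZero Ω]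
    (a : Fin c → Fin (k + 1) × Fin (m + 1) → Ω)
    (ha : AlgebraicIndependent ℂ (fun q : Fin c × (Fin (k + 1) × Fin (m + 1)) => a q.1 q.2)) :
    False := by
  have hF'h : (shear U F).IsHomogeneous 3 := shear_hom U F hF
  have hF's : Sm (shear U F) := sm_shear U F hS
  have hJ : Fintype.card (Eqs k c) = (k + 1) * (m + 1) - 1 := by
    rw [card_eqs]
    omega
  obtain ⟨g⟩ : Nonempty (Eqs k c ≃ Fin ((k + 1) * (m + 1) - 1)) :=
    ⟨Fintype.equivFinOfCardEq hJ⟩
  have hDpos : 0 < (k + 1) * (m + 1) := Nat.mul_pos (Nat.succ_pos _) (Nat.succ_pos _)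
  obtain ⟨K, fK, aK, P, V, hVP, hV0, hVp⟩ := curve Ω ((k + 1) * (m + 1))
    ((k + 1) * (m + 1) - 1) (by omega) (fun l => eqs a (shear U F) (g.symm l))
    (fun l => eqs_zero a (shear U F) hV _)
  have hVp' : ∀ x : Eqs k c, aeval V (eqs a (shear U F) x) = 0 := by
    intro x
    have := hVp (g x)
    rwa [g.symm_apply_apply] at this
  letI aC : Algebra ℂ K := ((algebraMap Ω K).comp (algebraMap ℂ Ω)).toAlgebra
  haveI tC : IsScalarTower ℂ Ω K := IsScalarTower.of_algebraMap_eq (fun c => rfl)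
  clear_value aC
  haveI : CharZero K := charZero_of_injective_algebraMap (algebraMap ℂ K).injective
  have hV'P : ∀ (i : Fin (k + 1)) (j : Fin (m + 1)), V (finProdFinEquiv (i, j)) = 0 ∨
      0 < P.ord (V (finProdFinEquiv (i, j))) := fun i j => hVP _
  have hrst := eqs_rst a (shear U F) hF'h V hVp'
  have hVan : VanW (shear (fun (i : Fin (k + 1)) (j : Fin (m + 1)) => V (finProdFinEquiv (i, j)))
      (map (algebraMap ℂ K) (shear U F))) := by
    unfold VanW
    rw [rst_shear]
    exact hrst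
  have hIso := trans k m (shear U F) hF'h hF's hV hI Ω K P _ hV'P hVan
  -- a transcendental entry
  have htr : ∃ τ : Fin (k + 1) × Fin (m + 1), Transcendental Ω (V (finProdFinEquiv τ)) := by
    obtain ⟨τ, hτ⟩ := Function.ne_iff.mp hV0
    refine ⟨finProdFinEquiv.symm τ, ?_⟩
    rw [Equiv.apply_symm_apply]
    rcases hVP τ with h | h
    · exact absurd h hτ
    · exact transcendental_of_ord P _ hτ h
  have hlin := eqs_lin a (shear U F) V hVp'
  obtain ⟨Θ, hΘ, hind2⟩ := trdb (Fin (k + 1) × Fin (m + 1)) (Fin c) Ω K a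
    (fun τ => U τ.1 τ.2) (fun τ => V (finProdFinEquiv τ)) ha htr hlin
  rw [Fintype.card_fin] at hΘ
  have hUV : shear (fun i j => algebraMap ℂ K (U i j) + V (finProdFinEquiv (i, j)))
      (map (algebraMap ℂ K) F) =
      shear (fun (i : Fin (k + 1)) (j : Fin (m + 1)) => V (finProdFinEquiv (i, j)))
        (map (algebraMap ℂ K) (shear U F)) := by
    rw [map_shear, shear_shear]
  obtain ⟨-, hfin⟩ := trda k m F hF hind K
    (fun i j => algebraMap ℂ K (U i j) + V (finProdFinEquiv (i, j))) Θ hind2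
    (by omega) (by rw [hUV]; exact hVan)
  rw [hUV] at hfin
  have hF'K : (map (algebraMap ℂ K) (shear U F)).IsHomogeneous 3 := hF'h.map _
  exact gen k m hkm K _ (shear_hom _ _ hF'K) hVan hfin hIso

/-- the case of many linear subspaces -/
theorem at_large (gen : S_GEN) (curve : S_CURVE) (trans : S_TRANS) (trda : S_TRDA)
    (trdb : S_TRDB) (k m : ℕ) (hkm : k + 1 ≤ m) (hD : (k + 3).choose 3 < (k + 1) * (m + 1))
    (F : MvPolynomial (Fin (k + 1 + (m + 1))) ℂ) (hF : F.IsHomogeneous 3) (hS : Sm F)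
    (hind : AlgebraicIndependent ℚ
      (fun β : {β : Fin (k + 1 + (m + 1)) →₀ ℕ // β.degree = 3} => coeff β.1 F))
    (U : Fin (k + 1) → Fin (m + 1) → ℂ) (hV : VanW (shear U F)) : ¬ Iso (shear U F) := by
  intro hI
  obtain ⟨Ω, fΩ, aΩ, cΩ, a, ha⟩ := exists_generic
    (Fin ((k + 1) * (m + 1) - (k + 3).choose 3 - 1) × (Fin (k + 1) × Fin (m + 1)))
  haveI : CharZero Ω := charZero_of_injective_algebraMap (algebraMap ℂ Ω).injective
  exact at_large_aux gen curve trans trda trdb k m hkm _ rfl hD F hF hS hind U hV hI Ω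
    (fun l τ => a (l, τ)) ha

/-- job AT -/
theorem at_of (gen : S_GEN) (curve : S_CURVE) (trans : S_TRANS) (trda : S_TRDA)
    (trdb : S_TRDB) : S_AT := by
  intro k m h3 F hF hS hind U hV hI
  rcases Nat.lt_or_ge ((k + 3).choose 3) ((k + 1) * (m + 1)) with hD | hD
  · have hkm : k + 1 ≤ m := by
      by_contra hc
      have := num_lt h3 (show m ≤ k by omega)
      omega
    exact at_large gen curve trans trda trdb k m hkm hD F hF hS hind U hV hI
  · have hmap : ∀ G : MvPolynomial (Fin (k + 1 + (m + 1))) ℂ, map (algebraMap ℂ ℂ) G = G := by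
      intro G
      rw [Algebra.algebraMap_self]
      exact map_id G
    have h1 := trda k m F hF hind ℂ U ∅ (by
      have : IsEmpty (∅ : Finset (Fin (k + 1) × Fin (m + 1))) :=
        ⟨fun x => absurd x.2 (Finset.notMem_empty _)⟩
      rw [algebraicIndependent_empty_type_iff]
      exact (algebraMap ℂ ℂ).injective) (by simpa using hD) (by rw [hmap]; exact hV)
    rw [hmap] at h1
    obtain ⟨hDC, hfin⟩ := h1
    rw [Finset.card_empty, zero_add] at hDC
    by_cases hkm : k + 1 ≤ m
    · exact gen k m hkm ℂ _ (shear_hom U F hF) hV hfin hI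
    · have := num_lt h3 (show m ≤ k by omega)
      omega

end

end Pool.Agent.R845.E3
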