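import Pool.Agent.R845.E3.Stm2
import Pool.Agent.R845.E3.Cc

/-! # Project E3: job CON (the conics given by the lines through a base point) -/

set_option autoImplicit false

namespace Pool.Agent.R845.E3

open MvPolynomial Pool.Agent.TH314.PD Module Pool.Agent.Y201.C3

noncomputable section

/-- Taylor expansion of a cubic form -/
theorem con_taylor {σ : Type} [Fintype σ] [DecidableEq σ] {R : Type} [CommRing R] [Algebra ℂ R]
    {T : σ → σ → σ → ℂ} (hT : SymG T) (t : R) (b w : σ → R) :
    aeval (fun i => t * b i + w i) (Bg T X X X : MvPolynomial σ ℂ) =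
      t ^ 3 * Bg T b b b + t ^ 2 * (3 * Bg T b b w) + t * (3 * Bg T b w w) + Bg T w w w := by
  rw [aeval_frmG]
  simp only [Bg_add1, Bg_add2, Bg_add3, Bg_smul1, Bg_smul2, Bg_smul3]
  rw [Bg_swap23 hT b w b, Bg_swap12 hT w b b, Bg_swap23 hT b w b, Bg_swap12 hT w b w,
    Bg_swap23 hT w w b, Bg_swap12 hT w b w]
  ring

/-- the algebraic part -/
theorem con_transc (n : ℕ) (S : Finset (Rn n)) (hS : S.card < n) (t om : Rn n)
    (hz0 : ∀ l : Fin (n + 1), ∃ (a c : Rn n), a ∈ IntermediateField.adjoin ℂ (S : Set (Rn n)) ∧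
      c ∈ IntermediateField.adjoin ℂ (S : Set (Rn n)) ∧
      algebraMap (MvPolynomial (Fin n) ℂ) (Rn n)
        ((Fin.cons 1 X : Fin (n + 1) → MvPolynomial (Fin n) ℂ) l) = om * (t * a + c)) :
    Transcendental (IntermediateField.adjoin ℂ (S : Set (Rn n))) t := by
  intro halg
  set L := IntermediateField.adjoin ℂ (S : Set (Rn n)) with hL
  -- every element is algebraic over L
  have hLmem : ∀ a : Rn n, a ∈ L → a ∈ algebraicClosure L (Rn n) := by
    intro a ha
    exact (algebraicClosure L (Rn n)).algebraMap_mem (⟨a, ha⟩ : L)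
  have htmem : t ∈ algebraicClosure L (Rn n) := mem_algebraicClosure_iff.2 halg
  have hom : om ∈ algebraicClosure L (Rn n) := by
    obtain ⟨a, c, ha, hc, h⟩ := hz0 0
    rw [Fin.cons_zero, map_one] at h
    have h1 : om = (t * a + c)⁻¹ := by
      rw [eq_comm, inv_eq_iff_eq_inv]
      exact (eq_inv_of_mul_eq_one_right h.symm)
    rw [h1]
    exact inv_mem (add_mem (mul_mem htmem (hLmem _ ha)) (hLmem _ hc))
  have hX : ∀ i : Fin n, algebraMap (MvPolynomial (Fin n) ℂ) (Rn n) (X i) ∈
      algebraicClosure L (Rn n) := by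
    intro i
    obtain ⟨a, c, ha, hc, h⟩ := hz0 i.succ
    rw [Fin.cons_succ] at h
    rw [h]
    exact mul_mem hom (add_mem (mul_mem htmem (hLmem _ ha)) (hLmem _ hc))
  have hpoly : ∀ p : MvPolynomial (Fin n) ℂ, algebraMap (MvPolynomial (Fin n) ℂ) (Rn n) p ∈
      algebraicClosure L (Rn n) := by
    intro p
    induction p using MvPolynomial.induction_on with
    | C a =>
      have : algebraMap (MvPolynomial (Fin n) ℂ) (Rn n) (C a) = algebraMap ℂ (Rn n) a := by
        rw [IsScalarTower.algebraMap_apply ℂ (MvPolynomial (Fin n) ℂ) (Rn n)]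
        rfl
      rw [this]
      exact hLmem _ (L.algebraMap_mem a)
    | add p q hp hq => rw [map_add]; exact add_mem hp hq
    | mul_X p i hp => rw [map_mul]; exact mul_mem hp (hX i)
  have hall : ∀ a : Rn n, IsAlgebraic L a := by
    intro a
    rw [← mem_algebraicClosure_iff]
    obtain ⟨p, q, hq, rfl⟩ := IsFractionRing.div_surjective (A := MvPolynomial (Fin n) ℂ) a
    exact div_mem (hpoly p) (hpoly q)
  have h1 : Algebra.IsAlgebraic L (Rn n) := ⟨hall⟩
  have h2 : Algebra.IsAlgebraic (Algebra.adjoin ℂ (S : Set (Rn n))) (Rn n) := by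
    open scoped IntermediateField.algebraAdjoinAdjoin in
    exact (IsFractionRing.comap_isAlgebraic_iff (A := Algebra.adjoin ℂ (S : Set (Rn n)))
      (K := L)).2 h1
  have h3 : Algebra.trdeg ℂ (Rn n) ≤ Cardinal.mk (S : Set (Rn n)) :=
    Algebra.IsAlgebraic.trdeg_le_cardinalMk ℂ (S : Set (Rn n))
  have h4 : AlgebraicIndependent ℂ
      (fun i : Fin n => algebraMap (MvPolynomial (Fin n) ℂ) (Rn n) (X i)) := by
    rw [algebraicIndependent_iff]
    intro p hp
    have h5 := aeval_algebraMap_apply (Rn n) (X : Fin n → MvPolynomial (Fin n) ℂ) p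
    have h6 : (algebraMap (MvPolynomial (Fin n) ℂ) (Rn n) ∘ (X : Fin n → MvPolynomial (Fin n) ℂ)) =
      (fun i : Fin n => algebraMap (MvPolynomial (Fin n) ℂ) (Rn n) (X i)) := rfl
    rw [h6, hp, aeval_X_left_apply] at h5
    exact (IsFractionRing.injective (MvPolynomial (Fin n) ℂ) (Rn n)) (h5.symm.trans (map_zero _).symm)
  have h5 := h4.cardinalMk_le_trdeg
  have h6 := h5.trans h3
  simp only [Cardinal.mk_fin, Finset.coe_sort_coe, Cardinal.mk_coe_finset, Nat.cast_le] at h6
  omega

theorem con_A {σ : Type} [Fintype σ] [DecidableEq σ] {R : Type} [CommRing R] [Algebra ℂ R]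
    {T : σ → σ → σ → ℂ} (hT : SymG T) (b : σ → ℂ) (w : σ → R) :
    ∑ l, w l * algebraMap ℂ R (eval b (pderiv l (Bg T X X X : MvPolynomial σ ℂ))) =
      3 * Bg T (fun l => algebraMap ℂ R (b l)) (fun l => algebraMap ℂ R (b l)) w := by
  have h1 : ∀ l, algebraMap ℂ R (eval b (pderiv l (Bg T X X X : MvPolynomial σ ℂ))) =
      3 * Bg T (fun i => if i = l then 1 else 0) (fun l => algebraMap ℂ R (b l))
        (fun l => algebraMap ℂ R (b l)) := by
    intro l
    rw [← pderiv_frmG hT]
    have h2 := aeval_algebraMap_apply R b (pderiv l (Bg T X X X : MvPolynomial σ ℂ))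
    rw [← coe_aeval_eq_eval]
    exact h2.symm
  have h2 : ∀ l, w l * algebraMap ℂ R (eval b (pderiv l (Bg T X X X : MvPolynomial σ ℂ))) =
      3 * Bg T (fun i => w l * (if i = l then 1 else 0)) (fun l => algebraMap ℂ R (b l))
        (fun l => algebraMap ℂ R (b l)) := by
    intro l
    rw [h1, Bg_smul1]
    ring
  rw [Finset.sum_congr rfl (fun l _ => h2 l), ← Finset.mul_sum, ← Bg_sum1]
  have h3 : (fun i => ∑ l, w l * (if i = l then (1 : R) else 0)) = w := by
    funext i
    simp
  rw [h3, Bg_swap12 hT, Bg_swap23 hT]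

/-- the first part -/
theorem con_one {r N : ℕ} (F : MvPolynomial (Fin N) ℂ) (hF : F.IsHomogeneous 3)
    (T : Fin N → Fin r → Fin r → Fin r → ℂ) (hT : ∀ i, SymG (T i))
    (hFH : aeval (fun i => (Bg (T i) X X X : MvPolynomial (Fin r) ℂ)) F = 0)
    (b : Fin r → ℂ) (hb : ∀ i, Bg (T i) b b b = 0) (a : Fin r → ℂ) :
    eval (fun i => 3 * Bg (T i) b b a) F = 0 := by
  let ap : Fin r → Polynomial ℂ := fun l => Polynomial.C (a l)
  let bp : Fin r → Polynomial ℂ := fun l => Polynomial.C (b l)
  have hbp : ∀ i, Bg (T i) bp bp bp = 0 := by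
    intro i
    have h1 := map_Bg (Algebra.ofId ℂ (Polynomial ℂ)) (T i) b b b
    rw [hb i, map_zero] at h1
    exact h1.symm
  have h1 : ∀ i, aeval (fun l => Polynomial.X * ap l + bp l)
      (Bg (T i) X X X : MvPolynomial (Fin r) ℂ) =
      Polynomial.X * (Polynomial.X ^ 2 * Bg (T i) ap ap ap +
        Polynomial.X * (3 * Bg (T i) ap ap bp) + 3 * Bg (T i) ap bp bp) := by
    intro i
    rw [con_taylor (hT i), hbp i]
    ring
  have h2 := congrArg (aeval (fun l => Polynomial.X * ap l + bp l)) hFH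
  rw [map_zero, comp_aeval_apply] at h2
  simp only [h1] at h2
  rw [aeval_smul_form hF] at h2
  have h3 := (mul_eq_zero.1 h2).resolve_left (pow_ne_zero _ Polynomial.X_ne_zero)
  have h4 := congrArg (Polynomial.aeval (0 : ℂ)) h3
  rw [map_zero, comp_aeval_apply] at h4
  rw [← coe_aeval_eq_eval, RingHom.coe_coe, ← h4]
  congr 2
  funext i
  have h5 : ∀ x y z : Fin r → ℂ, Polynomial.aeval (0 : ℂ) (Bg (T i)
      (fun l => (Polynomial.C (x l) : Polynomial ℂ)) (fun l => Polynomial.C (y l))
      (fun l => Polynomial.C (z l))) = Bg (T i) x y z := by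
    intro x y z
    rw [map_Bg]
    simp only [Polynomial.aeval_C]
    rfl
  simp only [map_add, map_mul, map_pow, Polynomial.aeval_X, map_ofNat]
  rw [h5, h5, h5, Bg_swap12 (hT i) a b b, Bg_swap23 (hT i) b a b]
  ring

theorem con_lin (n : ℕ) (j0 j1 : Fin (n + 1)) (h : j1 ≠ j0) (c : ℂ) :
    ((Fin.cons 1 X : Fin (n + 1) → MvPolynomial (Fin n) ℂ) j1) -
      C c * ((Fin.cons 1 X : Fin (n + 1) → MvPolynomial (Fin n) ℂ) j0) ≠ 0 := by
  intro h0
  rcases Fin.eq_zero_or_eq_succ j1 with rfl | ⟨i1, rfl⟩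
  · rcases Fin.eq_zero_or_eq_succ j0 with rfl | ⟨i0, rfl⟩
    · exact h rfl
    · have := congrArg (eval (0 : Fin n → ℂ)) h0
      simp at this
  · rcases Fin.eq_zero_or_eq_succ j0 with rfl | ⟨i0, rfl⟩
    · have := congrArg (eval (fun _ : Fin n => c + 1)) h0
      simp at this
    · have h1 : i0 ≠ i1 := fun h' => h (by rw [h'])
      have := congrArg (eval (Pi.single i1 1 : Fin n → ℂ)) h0
      simp [h1] at this

theorem con : S_CON := by
  classical
  intro n hn F hF H hH hFH b hb hHb
  choose T hT hTH using fun i => exists_tri (H i) (hH i)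
  obtain rfl : H = fun i => Bg (T i) X X X := funext hTH
  obtain ⟨j0, hj0⟩ := Function.ne_iff.1 hb
  rw [Pi.zero_apply] at hj0
  have hnt : Nontrivial (Fin (n + 1)) := Fin.nontrivial_iff_two_le.2 (by omega)
  obtain ⟨j1, hj1⟩ := exists_ne j0
  have hbbb : ∀ i, Bg (T i) b b b = 0 := by
    intro i
    have h1 := hHb i
    rw [← coe_aeval_eq_eval, RingHom.coe_coe, aeval_frmG] at h1
    exact h1
  refine ⟨fun i l => eval b (pderiv l (Bg (T i) X X X)), ?_, ?_⟩
  · intro a
    rw [← con_one F hF T hT hFH b hbbb a]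
    congr 2
    funext i
    exact con_A (hT i) b a
  · set z : Fin (n + 1) → Rn n := fun l => algebraMap (MvPolynomial (Fin n) ℂ) (Rn n)
      ((Fin.cons 1 X : Fin (n + 1) → MvPolynomial (Fin n) ℂ) l) with hz
    set b' : Fin (n + 1) → Rn n := fun l => algebraMap ℂ (Rn n) (b l) with hb'
    have hb'0 : b' j0 ≠ 0 := by
      rw [hb']
      simp only
      intro h
      exact hj0 ((algebraMap ℂ (Rn n)).injective (h.trans (map_zero _).symm))
    set om : Rn n := z j1 - z j0 / b' j0 * b' j1 with hom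
    have hom0 : om ≠ 0 := by
      intro h
      apply con_lin n j0 j1 hj1 (b j1 / b j0)
      apply IsFractionRing.injective (MvPolynomial (Fin n) ℂ) (Rn n)
      rw [map_zero, map_sub, map_mul, ← h, hom]
      have h1 : algebraMap (MvPolynomial (Fin n) ℂ) (Rn n) (C (b j1 / b j0)) =
          b' j1 / b' j0 := by
        rw [hb']
        simp only
        rw [← map_div₀, IsScalarTower.algebraMap_apply ℂ (MvPolynomial (Fin n) ℂ) (Rn n)]
        rfl
      rw [h1]
      simp only [hz]
      ring
    set t : Rn n := z j0 / b' j0 / om with ht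
    set w : Fin (n + 1) → Rn n := fun l => (z l - z j0 / b' j0 * b' l) / om with hw
    have hzw : ∀ l, z l = om * (t * b' l + w l) := by
      intro l
      rw [ht, hw]
      field_simp
      ring
    have hw0 : w j0 = 0 := by
      rw [hw]
      simp only
      rw [div_mul_cancel₀ _ hb'0, sub_self, zero_div]
    have hw1 : w j1 = 1 := by
      rw [hw]
      simp only
      exact div_self hom0
    set S : Finset (Rn n) := ((Finset.univ.erase j0).erase j1).image w with hS
    have hSc : S.card < n := by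
      have h1 : S.card ≤ ((Finset.univ.erase j0).erase j1).card := Finset.card_image_le
      rw [Finset.card_erase_of_mem (Finset.mem_erase.2 ⟨hj1, Finset.mem_univ _⟩),
        Finset.card_erase_of_mem (Finset.mem_univ _), Finset.card_univ, Fintype.card_fin] at h1
      omega
    set L := IntermediateField.adjoin ℂ (S : Set (Rn n)) with hL
    have hwL : ∀ l, w l ∈ L := by
      intro l
      by_cases h0 : l = j0
      · rw [h0, hw0]; exact zero_mem _
      by_cases h1 : l = j1
      · rw [h1, hw1]; exact one_mem _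
      · apply IntermediateField.subset_adjoin
        rw [hS, Finset.coe_image]
        exact ⟨l, by simp [h0, h1], rfl⟩
    have hbL : ∀ l, b' l ∈ L := fun l => L.algebraMap_mem _
    have htr : Transcendental L t := by
      apply con_transc n S hSc t om
      intro l
      exact ⟨b' l, w l, hbL l, hwL l, hzw l⟩
    refine ⟨L, t, (om ^ 3)⁻¹, htr, inv_ne_zero (pow_ne_zero _ hom0), w,
      fun i => 3 * Bg (T i) b' w w, fun i => Bg (T i) w w w, hwL, ?_, ?_, ?_⟩
    · intro i
      exact mul_mem (by have h3 := L.algebraMap_mem (3 : ℂ); rwa [map_ofNat] at h3) (Bg_mem L _ _ _ _ hbL hwL hwL)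
    · intro i
      exact Bg_mem L _ _ _ _ hwL hwL hwL
    · intro i
      have h1 : dh (fun i => (Bg (T i) X X X : MvPolynomial (Fin (n + 1)) ℂ)) i =
          aeval z (Bg (T i) X X X : MvPolynomial (Fin (n + 1)) ℂ) := by
        unfold dh
        exact (aeval_algebraMap_apply (Rn n) (Fin.cons 1 X : Fin (n + 1) → MvPolynomial (Fin n) ℂ)
          (Bg (T i) X X X : MvPolynomial (Fin (n + 1)) ℂ)).symm
      have h2 : z = fun l => om * (t * b' l + w l) := funext hzw
      have h3 : Bg (T i) b' b' b' = 0 := by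
        have h4 := map_Bg (Algebra.ofId ℂ (Rn n)) (T i) b b b
        rw [hbbb i, map_zero] at h4
        exact h4.symm
      rw [h1, h2, aeval_smul_form (hH i), con_taylor (hT i), h3, con_A (hT i)]
      rw [inv_mul_cancel_left₀ (pow_ne_zero _ hom0)]
      ring

end

end Pool.Agent.R845.E3
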