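import Pool.Agent.R845.E3.Crva
import Pool.Agent.Helper386.D5V.Helper386_FF_Fund

/-! # Job CRVB: a place of a curve over the origin -/

set_option autoImplicit false

namespace Pool.Agent.R845.E3

open MvPolynomial IntermediateField FF IsDedekindDomain

noncomputable section

namespace Crvb

/-- A place over a maximal ideal of a ring which is integral over a Dedekind domain. -/
theorem place_over {Ω A K0 S K : Type} [Field Ω] [CommRing A] [IsDedekindDomain A] [Algebra Ω A]
    [Field K0] [Algebra A K0] [IsFractionRing A K0]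
    [CommRing S] [Field K] [Algebra A S] [Algebra S K] [Algebra A K] [Algebra Ω K] [Algebra K0 K]
    [IsScalarTower A S K] [IsScalarTower Ω A K] [IsScalarTower A K0 K] [Algebra.IsIntegral A S]
    [FiniteDimensional K0 K] [Algebra.IsSeparable K0 K]
    (hinj : Function.Injective (algebraMap S K)) (M : Ideal S) [M.IsPrime] (s0 : S) (hs0 : s0 ∈ M)
    (hs0' : s0 ≠ 0) : ∃ P : Place Ω K, ∀ s ∈ M, algebraMap S K s = 0 ∨
      0 < P.ord (algebraMap S K s) := by
  let B := integralClosure A K
  have hB : IsDedekindDomain B := integralClosure.isDedekindDomain A K0 K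
  have hBK : IsFractionRing B K := integralClosure.isFractionRing_of_finite_extension K0 K
  have hint : ∀ s : S, algebraMap S K s ∈ B := fun s =>
    ((Algebra.IsIntegral.isIntegral (R := A) s).map (IsScalarTower.toAlgHom A S K) :)
  let f : S →+* B := (algebraMap S K).codRestrict B hint
  let : Algebra S B := f.toAlgebra
  have htow : IsScalarTower A S B := by
    refine IsScalarTower.of_algebraMap_eq fun x => ?_
    apply Subtype.ext
    change algebraMap A K x = algebraMap S K (algebraMap A S x)
    rw [← IsScalarTower.algebraMap_apply]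
  have hSB : Algebra.IsIntegral S B := by
    constructor
    intro b
    exact (Algebra.IsIntegral.isIntegral (R := A) b).tower_top
  have hfinj : Function.Injective (algebraMap S B) := by
    intro x y h
    exact hinj (congrArg Subtype.val h)
  obtain ⟨Q, -, hQ, hQM⟩ := Ideal.exists_ideal_over_prime_of_isIntegral M (⊥ : Ideal B) (by
    rw [← RingHom.ker_eq_comap_bot, (RingHom.injective_iff_ker_eq_bot _).mp hfinj]
    exact bot_le)
  have hQ0 : Q ≠ ⊥ := by
    rintro rfl
    rw [← hQM, ← RingHom.ker_eq_comap_bot, (RingHom.injective_iff_ker_eq_bot _).mp hfinj] at hs0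
    exact hs0' ((Submodule.mem_bot _).mp hs0)
  have htow2 : IsScalarTower Ω B K := by
    exact IsScalarTower.of_algebraMap_eq fun x => rfl
  refine ⟨placeOf (B := B) ⟨Q, hQ, hQ0⟩, fun s hs => ?_⟩
  have hsQ : f s ∈ Q := by
    rw [← hQM] at hs
    exact hs
  have h1 := (placeOf_red_eq_zero (k := Ω) (L := K) (B := B) ⟨Q, hQ, hQ0⟩ (f s)).mpr hsQ
  exact (Place.red_eq_zero_iff _ (placeOf_reg (k := Ω) (L := K) (B := B) ⟨Q, hQ, hQ0⟩ (f s))).mp h1

/-- generators of a field of transcendence degree one are not all zero -/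
theorem exists_ne {Ω K : Type} [Field Ω] [Field K] [Algebra Ω K] {D : ℕ} (V : Fin D → K)
    (hV : adjoin Ω (Set.range V) = ⊤) (htr : Algebra.trdeg Ω K = 1) : ∃ τ, V τ ≠ 0 := by
  by_contra hall
  push Not at hall
  have h1 : adjoin Ω (Set.range V) = ⊥ := by
    rw [adjoin_eq_bot_iff]
    rintro _ ⟨τ, rfl⟩
    rw [hall τ]
    exact zero_mem _
  rw [hV] at h1
  have h2 : Algebra.IsAlgebraic Ω K := by
    constructor
    intro x
    have hx : x ∈ (⊥ : IntermediateField Ω K) := by rw [← h1]; trivial
    rw [mem_bot] at hx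
    obtain ⟨c, rfl⟩ := hx
    exact isAlgebraic_algebraMap c
  rw [trdeg_eq_zero (R := Ω) (A := K)] at htr
  exact zero_ne_one htr

end Crvb

open Crvb in
/-- job CRVB: a place of a curve over the origin -/
theorem crvb : S_CRVB := by
  intro Ω K _ _ _ _ _ D V hV htr hq
  let S : Subalgebra Ω K := (aeval V : MvPolynomial (Fin D) Ω →ₐ[Ω] K).range
  have hSadj : Algebra.adjoin Ω (Set.range V) = S := Algebra.adjoin_range_eq_range_aeval _ _
  have hSK : IsFractionRing S K := by
    refine IsFractionRing.of_field S K fun z => ?_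
    have hz : z ∈ adjoin Ω (Set.range V) := by rw [hV]; trivial
    rw [mem_adjoin_iff_div] at hz
    obtain ⟨r, hr, s, hs, rfl⟩ := hz
    rw [hSadj] at hr hs
    exact ⟨⟨r, hr⟩, ⟨s, hs⟩, rfl⟩
  have hft : Algebra.FiniteType Ω S :=
    Algebra.FiniteType.of_surjective (aeval V : MvPolynomial (Fin D) Ω →ₐ[Ω] K).rangeRestrict
      (AlgHom.rangeRestrict_surjective _)
  obtain ⟨r, g, ginj, gint⟩ := exists_integral_inj_algHom_of_fg Ω S
  have hr : r = 1 := by
    have h := Crva.trdeg_of_noether (S := S) (K := K) g ginj gint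
    rw [htr] at h
    exact_mod_cast h.symm
  subst hr
  -- the polynomial ring in one variable
  let e : Polynomial Ω ≃ₐ[Ω] MvPolynomial (Fin 1) Ω := (MvPolynomial.uniqueAlgEquiv Ω (Fin 1)).symm
  let gA : Polynomial Ω →+* S := g.toRingHom.comp e.toRingEquiv.toRingHom
  have hgAinj : Function.Injective gA := ginj.comp e.injective
  have hgAint : gA.IsIntegral :=
    RingHom.IsIntegral.trans _ _ (RingHom.isIntegral_of_surjective _ e.surjective) gint
  have hgAc : ∀ c : Ω, gA (algebraMap Ω (Polynomial Ω) c) = algebraMap Ω S c := by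
    intro c
    change g (e (algebraMap Ω (Polynomial Ω) c)) = _
    rw [e.commutes, g.commutes]
  let : Algebra (Polynomial Ω) S := gA.toAlgebra
  let : Algebra (Polynomial Ω) K := ((algebraMap S K).comp gA).toAlgebra
  have ht1 : IsScalarTower (Polynomial Ω) S K := IsScalarTower.of_algebraMap_eq fun x => rfl
  have hSint : Algebra.IsIntegral (Polynomial Ω) S := ⟨hgAint⟩
  have ht2 : IsScalarTower Ω (Polynomial Ω) K := by
    refine IsScalarTower.of_algebraMap_eq fun x => ?_
    change _ = algebraMap S K (gA (algebraMap Ω (Polynomial Ω) x))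
    rw [hgAc]
    rfl
  have hfs : FaithfulSMul (Polynomial Ω) K := by
    rw [faithfulSMul_iff_algebraMap_injective]
    exact (IsFractionRing.injective S K).comp hgAinj
  let K0 := FractionRing (Polynomial Ω)
  let : Algebra K0 K := FractionRing.liftAlgebra (Polynomial Ω) K
  have ht3 : IsScalarTower (Polynomial Ω) K0 K := FractionRing.isScalarTower_liftAlgebra _ _
  have ht4 : IsScalarTower Ω K0 K := by
    refine IsScalarTower.of_algebraMap_eq fun x => ?_
    rw [IsScalarTower.algebraMap_apply Ω (Polynomial Ω) K,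
      IsScalarTower.algebraMap_apply Ω (Polynomial Ω) K0,
      IsScalarTower.algebraMap_apply (Polynomial Ω) K0 K]
  have hc0 : CharZero K0 := charZero_of_injective_algebraMap (algebraMap Ω K0).injective
  have hVS : ∀ τ, V τ ∈ S := fun τ => ⟨X τ, by simp⟩
  have hfd1 : FiniteDimensional K0 (adjoin K0 (Set.range V)) := by
    refine finiteDimensional_adjoin ?_
    rintro _ ⟨τ, rfl⟩
    have h1 : IsIntegral (Polynomial Ω) (algebraMap S K ⟨V τ, hVS τ⟩) :=
      (Algebra.IsIntegral.isIntegral (R := Polynomial Ω) (⟨V τ, hVS τ⟩ : S)).map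
        (IsScalarTower.toAlgHom (Polynomial Ω) S K)
    exact h1.tower_top
  have htop : adjoin K0 (Set.range V) = ⊤ := by
    rw [eq_top_iff]
    rintro z -
    have hz : z ∈ adjoin Ω (Set.range V) := by rw [hV]; trivial
    have hle : adjoin Ω (Set.range V) ≤ (adjoin K0 (Set.range V)).restrictScalars Ω := by
      rw [adjoin_le_iff]
      exact subset_adjoin K0 (Set.range V)
    exact hle hz
  rw [htop] at hfd1
  have hfd : FiniteDimensional K0 K := topEquiv.toLinearEquiv.finiteDimensional
  have hsep : Algebra.IsSeparable K0 K := inferInstance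
  let φ : MvPolynomial (Fin D) Ω →+* S :=
    ((aeval V : MvPolynomial (Fin D) Ω →ₐ[Ω] K).rangeRestrict).toRingHom
  have hφs : Function.Surjective φ := AlgHom.rangeRestrict_surjective _
  have hp0 : (RingHom.ker (eval (0 : Fin D → Ω))).IsPrime := RingHom.ker_isPrime _
  have hMp : (Ideal.map φ (RingHom.ker (eval (0 : Fin D → Ω)))).IsPrime := by
    refine Ideal.map_isPrime_of_surjective hφs ?_
    intro f hf
    rw [RingHom.mem_ker] at hf ⊢
    exact hq f (congrArg Subtype.val hf)
  have hVM : ∀ τ, φ (X τ) ∈ Ideal.map φ (RingHom.ker (eval (0 : Fin D → Ω))) := fun τ =>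
    Ideal.mem_map_of_mem _ (by rw [RingHom.mem_ker]; simp)
  have hφX : ∀ τ, algebraMap S K (φ (X τ)) = V τ := fun τ => aeval_X V τ
  obtain ⟨τ0, hτ0⟩ := exists_ne V hV htr
  obtain ⟨P, hP⟩ := place_over (Ω := Ω) (A := Polynomial Ω) (K0 := K0) (S := S) (K := K)
    (IsFractionRing.injective S K) (Ideal.map φ (RingHom.ker (eval (0 : Fin D → Ω))))
    (φ (X τ0)) (hVM τ0) (by
      intro h
      apply hτ0
      rw [← hφX, h, map_zero])
  refine ⟨P, fun τ => ?_⟩
  have h := hP _ (hVM τ)
  rwa [hφX] at h

/-- job CURVE: fewer than `D` equations in `D` unknowns which are satisfied by the origin are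
satisfied by a curve through the origin -/
theorem curve : S_CURVE := by
  intro Ω _ _ _ D s hs p hp
  obtain ⟨K, iF, iA, V, h1, h2, h3, h4⟩ := crva Ω D s hs p hp
  obtain ⟨P, hP⟩ := crvb Ω K D V h1 h2 h4
  refine ⟨K, iF, iA, P, V, hP, ?_, h3⟩
  obtain ⟨τ, hτ⟩ := Crvb.exists_ne V h1 h2
  intro h
  exact hτ (congrFun h τ)

end

end Pool.Agent.R845.E3
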