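import Mathlib
import Pool.Agent.R845.E3.Stm

/-! # Project E3, job GEN: the generic cubic form vanishing on `W` -/

set_option autoImplicit false

namespace Pool.Agent.R845.E3

open MvPolynomial

noncomputable section

theorem spc_homog (k m : ℕ) (h : k + 1 ≤ m) (K : Type) [Field K] :
    (spc k m h K).IsHomogeneous 3 := by
  unfold spc
  apply IsHomogeneous.add
  · apply IsHomogeneous.sum
    intro i _
    exact (isHomogeneous_X K _).mul ((isHomogeneous_X K _).pow 2)
  · exact ((isHomogeneous_X K _).pow 2).mul (isHomogeneous_X K _)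

theorem spc_vanW (k m : ℕ) (h : k + 1 ≤ m) (K : Type) [Field K] : VanW (spc k m h K) := by
  unfold VanW spc
  simp [map_sum]

theorem map_spc (k m : ℕ) (h : k + 1 ≤ m) (K L : Type) [Field K] [Field L] (f : K →+* L) :
    map f (spc k m h K) = spc k m h L := by
  unfold spc
  simp [map_sum]

theorem gen (ani : S_ANI) (spec : S_SPEC) : S_GEN := by
  intro k m h K _ _ F hF hW hind hiso
  obtain ⟨κ, _, _, hκ⟩ := spec k m K F hF hW hind hiso (spc k m h ℚ) (spc_homog k m h ℚ)
    (spc_vanW k m h ℚ)
  rw [map_spc] at hκ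
  exact ani k m h κ hκ

end

end Pool.Agent.R845.E3
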