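import Mathlib
import Pool.Agent.R845.E3.Stm

/-! # Project E3, job GFI: the fundamental identity for the Gauss extension of a place -/

set_option autoImplicit false
set_option linter.all false

namespace Pool.Agent.R845.E3.Gfi

open MvPolynomial Pool.Agent.TH314.PD IntermediateField Module FF

noncomputable section

section abs

variable {Ω : Type*} [Field Ω] {R0 : Type*} [CommRing R0] [IsDomain R0] [IsNoetherianRing R0]
  [Algebra Ω R0]
  (K0 : Type*) [Field K0] [Algebra R0 K0] [IsFractionRing R0 K0] {E : Type*} [Field E] [Algebra K0 E]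
  [Algebra R0 E] [IsScalarTower R0 K0 E] [FiniteDimensional K0 E] [Algebra.IsSeparable K0 E]
  [Algebra Ω E] [IsScalarTower Ω R0 E]

theorem absF {π : R0} (hπ : Prime π) :
    ∃ S : Finset (Place Ω E),
      (∀ w, w ∈ S ↔ (∀ a : R0, w.Reg (algebraMap R0 E a)) ∧
        (∀ a : R0, w.red (algebraMap R0 E a) = 0 ↔ π ∣ a)) ∧
      ∑ w ∈ S, (w.ord (algebraMap R0 E π)).toNat *
        finrank (Subfield.closure (Set.range fun a : R0 => w.red (algebraMap R0 E a))) w.RF =
        finrank K0 E := by
  let P0 : Ideal R0 := Ideal.span {π}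
  have hP0 : P0.IsPrime := (Ideal.span_singleton_prime hπ.ne_zero).mpr hπ
  have hmem : ∀ a, a ∈ P0 ↔ π ∣ a := fun a => Ideal.mem_span_singleton
  let A := Localization.AtPrime P0
  letI : Algebra A K0 := IsLocalization.localizationAlgebraOfSubmonoidLe A K0 P0.primeCompl (nonZeroDivisors R0)
    P0.primeCompl_le_nonZeroDivisors
  have t1 : IsScalarTower R0 A K0 := IsLocalization.localization_isScalarTower_of_submonoid_le A K0 P0.primeCompl
    (nonZeroDivisors R0) P0.primeCompl_le_nonZeroDivisors
  have t2 : IsFractionRing A K0 :=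
    IsFractionRing.isFractionRing_of_isDomain_of_isLocalization P0.primeCompl A K0
  letI : Algebra A E := ((algebraMap K0 E).comp (algebraMap A K0)).toAlgebra
  have t3 : IsScalarTower A K0 E := IsScalarTower.of_algebraMap_eq' rfl
  have t4 : IsScalarTower R0 A E := IsScalarTower.of_algebraMap_eq fun x => by
    rw [IsScalarTower.algebraMap_apply R0 K0 E, IsScalarTower.algebraMap_apply R0 A K0]; rfl
  have t5 : IsScalarTower Ω A E := IsScalarTower.of_algebraMap_eq fun c => by
    rw [IsScalarTower.algebraMap_apply Ω R0 A, ← IsScalarTower.algebraMap_apply R0 A E,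
      ← IsScalarTower.algebraMap_apply Ω R0 E]
  have t6 : IsDomain A := IsLocalization.isDomain_localization P0.primeCompl_le_nonZeroDivisors
  have t7 : IsNoetherianRing A := IsLocalization.isNoetherianRing P0.primeCompl A inferInstance
  have hmaxid : IsLocalRing.maximalIdeal A = Ideal.span {algebraMap R0 A π} := by
    rw [← IsLocalization.AtPrime.map_eq_maximalIdeal P0 A, Ideal.map_span, Set.image_singleton]
  have h42 : (IsLocalRing.maximalIdeal A).IsPrincipal ↔ IsDedekindDomain A :=
    (tfae_of_isNoetherianRing_of_isLocalRing_of_isDomain A).out 4 2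
  have t8 : IsDedekindDomain A := h42.mp ⟨⟨_, hmaxid⟩⟩
  have hinj : Function.Injective (algebraMap R0 A) :=
    IsLocalization.injective A P0.primeCompl_le_nonZeroDivisors
  have hπA : algebraMap R0 A π ≠ 0 := by
    intro h
    exact hπ.ne_zero (hinj (h.trans (map_zero _).symm))
  have hinjE : Function.Injective (algebraMap R0 E) := by
    rw [IsScalarTower.algebraMap_eq R0 K0 E]
    exact (algebraMap K0 E).injective.comp (IsFractionRing.injective R0 K0)
  obtain ⟨S, h1, h2, h3⟩ := FF.fundamental (k := Ω) (A := A) (L := E) K0 (algebraMap R0 A π) hπA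
    (by rw [← hmaxid]; exact IsLocalRing.maximalIdeal.isMaximal A)
  have key : ∀ w : Place Ω E, ((∀ a : A, w.Reg (algebraMap A E a)) ∧
      0 < w.ord (algebraMap A E (algebraMap R0 A π))) ↔ ((∀ a : R0, w.Reg (algebraMap R0 E a)) ∧
        (∀ a : R0, w.red (algebraMap R0 E a) = 0 ↔ π ∣ a)) := by
    intro w
    constructor
    · rintro ⟨hr, ho⟩
      have hr0 : ∀ a : R0, w.Reg (algebraMap R0 E a) := fun a => by
        rw [IsScalarTower.algebraMap_apply R0 A E]; exact hr _
      refine ⟨hr0, fun a => ⟨fun h => ?_, ?_⟩⟩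
      · by_contra hna
        have hu : IsUnit (algebraMap R0 A a) :=
          IsLocalization.map_units A (⟨a, fun hh => hna ((hmem a).mp hh)⟩ : P0.primeCompl)
        obtain ⟨b, hb⟩ := hu.exists_right_inv
        have h4 := w.red_mul (hr (algebraMap R0 A a)) (hr b)
        rw [← map_mul, hb, map_one, w.red_one, ← IsScalarTower.algebraMap_apply R0 A E, h, zero_mul] at h4
        exact one_ne_zero h4
      · rintro ⟨c, rfl⟩
        rw [map_mul, w.red_mul (hr0 _) (hr0 _)]
        have : w.red (algebraMap R0 E π) = 0 := by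
          rw [w.red_eq_zero_iff (hr0 _)]
          right
          rw [IsScalarTower.algebraMap_apply R0 A E]; exact ho
        rw [this, zero_mul]
    · rintro ⟨hr, ho⟩
      constructor
      · intro x
        obtain ⟨a, s, rfl⟩ := IsLocalization.exists_mk'_eq P0.primeCompl x
        have hs : ¬ π ∣ s.1 := fun hh => s.2 ((hmem _).mpr hh)
        have hs1 : w.red (algebraMap R0 E s.1) ≠ 0 := fun hh => hs ((ho _).mp hh)
        rw [Ne, w.red_eq_zero_iff (hr _)] at hs1
        push Not at hs1
        have hs2 := (w.reg_iff hs1.1).1 (hr s.1)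
        have e : algebraMap A E (IsLocalization.mk' A a s) = algebraMap R0 E a / algebraMap R0 E s.1 := by
          rw [eq_div_iff hs1.1, IsScalarTower.algebraMap_apply R0 A E s.1, ← map_mul,
            IsLocalization.mk'_spec, ← IsScalarTower.algebraMap_apply R0 A E]
        rw [e]
        by_cases ha : algebraMap R0 E a = 0
        · left; rw [ha, zero_div]
        · right
          rw [w.ord_div ha hs1.1]
          have := (w.reg_iff ha).1 (hr a)
          have := hs1.2
          omega
      · rw [← IsScalarTower.algebraMap_apply R0 A E]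
        have h4 := (ho π).mpr dvd_rfl
        rw [w.red_eq_zero_iff (hr _)] at h4
        rcases h4 with h4 | h4
        · exact absurd (hinjE (h4.trans (map_zero _).symm)) hπ.ne_zero
        · exact h4
  have hcl : ∀ w ∈ S, Subfield.closure (Set.range fun a : A => w.red (algebraMap A E a)) =
      Subfield.closure (Set.range fun a : R0 => w.red (algebraMap R0 E a)) := by
    intro w hw
    have hw1 := (h1 w).mp hw
    obtain ⟨hr, ho⟩ := (key w).mp hw1
    apply le_antisymm
    · rw [Subfield.closure_le]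
      rintro _ ⟨x, rfl⟩
      obtain ⟨a, s, rfl⟩ := IsLocalization.exists_mk'_eq P0.primeCompl x
      have hs : ¬ π ∣ s.1 := fun hh => s.2 ((hmem _).mpr hh)
      have hs1 : w.red (algebraMap R0 E s.1) ≠ 0 := fun hh => hs ((ho _).mp hh)
      have e : w.red (algebraMap A E (IsLocalization.mk' A a s)) * w.red (algebraMap R0 E s.1) =
          w.red (algebraMap R0 E a) := by
        rw [← w.red_mul (hw1.1 _) (hr _), IsScalarTower.algebraMap_apply R0 A E s.1, ← map_mul,
            IsLocalization.mk'_spec, ← IsScalarTower.algebraMap_apply R0 A E]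
      have e2 : w.red (algebraMap A E (IsLocalization.mk' A a s)) =
          w.red (algebraMap R0 E a) / w.red (algebraMap R0 E s.1) := by
        rw [eq_div_iff hs1, e]
      show w.red (algebraMap A E (IsLocalization.mk' A a s)) ∈ _
      rw [e2]
      exact div_mem (Subfield.subset_closure ⟨a, rfl⟩) (Subfield.subset_closure ⟨s.1, rfl⟩)
    · rw [Subfield.closure_le]
      rintro _ ⟨a, rfl⟩
      refine Subfield.subset_closure ⟨algebraMap R0 A a, ?_⟩
      show w.red (algebraMap A E (algebraMap R0 A a)) = w.red (algebraMap R0 E a)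
      rw [← IsScalarTower.algebraMap_apply R0 A E]
  refine ⟨S, fun w => (h1 w).trans (key w), ?_⟩
  rw [← h3]
  refine Finset.sum_congr rfl fun w hw => ?_
  unfold Place.relf
  rw [hcl w hw, ← IsScalarTower.algebraMap_apply R0 A E]

end abs

section dvr

variable {Ω K : Type*} [Field Ω] [Field K] [Algebra Ω K] (P : Place Ω K)

theorem irr {ϖ : K} (h0 : ϖ ≠ 0) (h1 : P.ord ϖ = 1) (hr : P.Reg ϖ) :
    Irreducible (⟨ϖ, hr⟩ : P.O) := by
  constructor
  · rw [P.isUnit_O_iff hr]
    rintro ⟨_, h⟩
    omega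
  · rintro ⟨a, ha⟩ ⟨b, hb⟩ hab
    have hab' : ϖ = a * b := congrArg Subtype.val hab
    have ha0 : a ≠ 0 := by rintro rfl; rw [zero_mul] at hab'; exact h0 hab'
    have hb0 : b ≠ 0 := by rintro rfl; rw [mul_zero] at hab'; exact h0 hab'
    have h2 := P.ord_mul ha0 hb0
    rw [← hab', h1] at h2
    have h3 := (P.reg_iff ha0).1 ha
    have h4 := (P.reg_iff hb0).1 hb
    rw [P.isUnit_O_iff ha, P.isUnit_O_iff hb]
    rcases eq_or_lt_of_le h3 with h5 | h5
    · left; exact ⟨ha0, h5.symm⟩
    · right; exact ⟨hb0, by omega⟩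

theorem dvr {ϖ : K} (h0 : ϖ ≠ 0) (h1 : P.ord ϖ = 1) (hr : P.Reg ϖ) :
    IsDiscreteValuationRing P.O := by
  refine IsDiscreteValuationRing.ofHasUnitMulPowIrreducibleFactorization
    ⟨⟨ϖ, hr⟩, irr P h0 h1 hr, ?_⟩
  rintro ⟨x, hx⟩ hx0
  have hx0' : x ≠ 0 := fun h => hx0 (Subtype.ext h)
  have hx1 := (P.reg_iff hx0').1 hx
  have hpow : ϖ ^ (P.ord x).toNat ≠ 0 := pow_ne_zero _ h0
  have hu0 : x / ϖ ^ (P.ord x).toNat ≠ 0 := div_ne_zero hx0' hpow
  have hu : P.ord (x / ϖ ^ (P.ord x).toNat) = 0 := by
    rw [P.ord_div hx0' hpow, P.ord_pow, h1]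
    have : ((P.ord x).toNat : ℤ) = P.ord x := Int.toNat_of_nonneg hx1
    rw [this]; ring
  have hur : P.Reg (x / ϖ ^ (P.ord x).toNat) := Or.inr hu.ge
  have hunit := (P.isUnit_O_iff hur).2 ⟨hu0, hu⟩
  obtain ⟨u, hu'⟩ := hunit
  refine ⟨(P.ord x).toNat, u, ?_⟩
  rw [hu']
  apply Subtype.ext
  show ((⟨ϖ, hr⟩ : P.O) ^ (P.ord x).toNat : P.O).1 * (x / ϖ ^ (P.ord x).toNat) = x
  rw [show (((⟨ϖ, hr⟩ : P.O) ^ (P.ord x).toNat : P.O).1 : K) = ϖ ^ (P.ord x).toNat from rfl]
  field_simp

end dvr

/-- a polynomial with regular coefficients -/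
theorem exists_map {Ω K : Type*} [Field Ω] [Field K] [Algebra Ω K] (P : Place Ω K) {m : ℕ}
    (p : MvPolynomial (Fin m) K) (hp : ∀ α, P.Reg (coeff α p)) :
    ∃ q : MvPolynomial (Fin m) P.O, map P.O.subtype q = p := by
  classical
  refine ⟨∑ α ∈ p.support, monomial α (⟨coeff α p, hp α⟩ : P.O), ?_⟩
  rw [map_sum]
  conv_rhs => rw [← support_sum_monomial_coeff p]
  refine Finset.sum_congr rfl fun α _ => ?_
  rw [map_monomial]
  rfl

/-- clearing denominators -/
theorem exists_clear {Ω K : Type*} [Field Ω] [Field K] [Algebra Ω K] (P : Place Ω K) {ϖ : K}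
    (h0 : ϖ ≠ 0) (h1 : P.ord ϖ = 1) {m : ℕ} (p : MvPolynomial (Fin m) K) :
    ∃ n : ℕ, ∀ k, n ≤ k → ∀ α, P.Reg (coeff α (C (ϖ ^ k) * p)) := by
  classical
  refine ⟨∑ α ∈ p.support, (P.ord (coeff α p)).natAbs, fun k hk α => ?_⟩
  rw [coeff_C_mul]
  by_cases hα : coeff α p = 0
  · left; rw [hα, mul_zero]
  · right
    rw [P.ord_mul (pow_ne_zero _ h0) hα, P.ord_pow, h1]
    have h2 : (P.ord (coeff α p)).natAbs ≤ k := by
      refine le_trans ?_ hk
      exact Finset.single_le_sum (f := fun α => (P.ord (coeff α p)).natAbs)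
        (fun _ _ => Nat.zero_le _) (mem_support_iff.mpr hα)
    omega

theorem gfi : S_GFI := by
  intro Ω K E _ _ _ _ _ _ _ _ m P ϖ y hϖ0 hϖ1 hy hfin
  have hϖr : P.Reg ϖ := Or.inr (by omega)
  haveI hd : IsDiscreteValuationRing P.O := dvr P hϖ0 hϖ1 hϖr
  letI aΩO : Algebra Ω P.O :=
    ((algebraMap Ω K).codRestrict P.O.toSubring (fun c => P.reg_const c)).toAlgebra
  let ϖ' : P.O := ⟨ϖ, hϖr⟩
  have hϖirr : Irreducible ϖ' := irr P hϖ0 hϖ1 hϖr
  have hϖp : Prime ϖ' := hϖirr.prime
  let R0 := MvPolynomial (Fin m) P.O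
  let φ : R0 →+* E := (aeval y : MvPolynomial (Fin m) K →ₐ[K] E).toRingHom.comp (map P.O.subtype)
  have hφ : ∀ p : R0, φ p = aeval y (map P.O.subtype p) := fun _ => rfl
  have hφinj : Function.Injective φ := by
    intro p q h
    have h2 : map P.O.subtype p = map P.O.subtype q := hy h
    exact map_injective _ Subtype.coe_injective h2
  have hmem : ∀ p : MvPolynomial (Fin m) K, aeval y p ∈ adjoin K (Set.range y) := by
    intro p
    rw [mem_adjoin_range_iff]
    exact ⟨p, 1, by rw [map_one, div_one]⟩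
  letI : Algebra R0 E := φ.toAlgebra
  letI : Algebra R0 (adjoin K (Set.range y)) :=
    (φ.codRestrict (adjoin K (Set.range y)).toSubfield.toSubring (fun P => hmem _)).toAlgebra
  have a1 : ∀ p : R0, algebraMap R0 E p = φ p := fun _ => rfl
  have t1 : IsScalarTower R0 (adjoin K (Set.range y)) E := IsScalarTower.of_algebraMap_eq fun p => rfl
  have t2 : IsScalarTower Ω R0 E := IsScalarTower.of_algebraMap_eq fun c => by
    rw [a1, hφ]
    have : algebraMap Ω R0 c = C (algebraMap Ω P.O c) := rfl
    rw [this, map_C, aeval_C]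
    show algebraMap Ω E c = algebraMap K E (algebraMap Ω K c)
    rw [← IsScalarTower.algebraMap_apply]
  have t4 : IsFractionRing R0 (adjoin K (Set.range y)) := by
    have t3 : FaithfulSMul R0 (adjoin K (Set.range y)) := by
      rw [faithfulSMul_iff_algebraMap_injective]
      intro p q h
      exact hφinj (congrArg (algebraMap (adjoin K (Set.range y)) E) h)
    refine IsFractionRing.of_field _ _ ?_
    rintro ⟨z, hz⟩
    obtain ⟨p, q, hz'⟩ := (mem_adjoin_range_iff K y z).1 hz
    obtain ⟨n1, hn1⟩ := exists_clear P hϖ0 hϖ1 p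
    obtain ⟨n2, hn2⟩ := exists_clear P hϖ0 hϖ1 q
    obtain ⟨p', hp'⟩ := exists_map P (C (ϖ ^ (n1 + n2)) * p) (hn1 _ (Nat.le_add_right _ _))
    obtain ⟨q', hq'⟩ := exists_map P (C (ϖ ^ (n1 + n2)) * q) (hn2 _ (Nat.le_add_left _ _))
    refine ⟨p', q', ?_⟩
    apply Subtype.ext
    show z = φ p' / φ q'
    rw [hφ, hφ, hp', hq', map_mul, map_mul, aeval_C, hz']
    have : algebraMap K E (ϖ ^ (n1 + n2)) ≠ 0 := by
      rw [Ne, map_eq_zero]
      exact pow_ne_zero _ hϖ0
    rw [mul_div_mul_left _ _ this]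
  have t5 : CharZero (adjoin K (Set.range y)) := by
    have hc : CharZero K := charZero_of_injective_algebraMap (algebraMap Ω K).injective
    exact charZero_of_injective_algebraMap (algebraMap K (adjoin K (Set.range y))).injective
  have t6 : Algebra.IsSeparable (adjoin K (Set.range y)) E := inferInstance
  have hπ : Prime (C ϖ' : R0) := (MvPolynomial.prime_C_iff (Fin m)).2 hϖp
  obtain ⟨S, h1, h2⟩ := absF (Ω := Ω) (adjoin K (Set.range y)) (E := E) hπ
  have eC : ∀ (a : K) (ha : P.Reg a), φ (C (⟨a, ha⟩ : P.O)) = algebraMap K E a := by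
    intro a ha
    rw [hφ, map_C, aeval_C]
    rfl
  have eX : ∀ j, φ (X j) = y j := by
    intro j
    rw [hφ, map_X, aeval_X]
  -- ord of a coefficient
  have hdvd : ∀ a : P.O, ϖ' ∣ a ↔ ¬ (a.1 ≠ 0 ∧ P.ord a.1 = 0) := by
    intro a
    rw [← P.isUnit_O_iff a.2]
    constructor
    · intro h hu
      exact hϖp.not_unit (isUnit_of_dvd_unit h hu)
    · intro h
      have h3 : a ∈ IsLocalRing.maximalIdeal P.O := h
      rw [hϖirr.maximalIdeal_eq, Ideal.mem_span_singleton] at h3
      exact h3
  refine ⟨S, fun w => ?_, ?_⟩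
  · rw [h1 w]
    constructor
    · rintro ⟨hr, ho⟩
      refine ⟨fun a ha => ?_, ?_, fun j => ?_, fun p hp hα => ?_⟩
      · rw [← eC a ha]; exact hr _
      · have h3 := (ho (C ϖ')).2 dvd_rfl
        rw [w.red_eq_zero_iff (hr _), a1, eC ϖ hϖr] at h3
        rcases h3 with h3 | h3
        · rw [map_eq_zero] at h3
          exact absurd h3 hϖ0
        · exact h3
      · rw [← eX j]; exact hr _
      · obtain ⟨q, hq⟩ := exists_map P p hp
        obtain ⟨α, hα0, hα1⟩ := hα
        intro h3
        rw [← hq] at h3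
        have h4 := (ho q).1 h3
        rw [C_dvd_iff_dvd_coeff] at h4
        have h5 := (hdvd _).1 (h4 α)
        apply h5
        have h6 : (coeff α q).1 = coeff α p := by
          rw [← hq, coeff_map]; rfl
        rw [h6]
        exact ⟨hα0, hα1⟩
    · rintro ⟨hK, hϖ, hyr, hG⟩
      have hreg : ∀ q : R0, w.Reg (φ q) := by
        intro q
        induction q using MvPolynomial.induction_on with
        | C a => rw [show φ (C a) = algebraMap K E a.1 from eC a.1 a.2]; exact hK _ a.2
        | add p q hp hq => rw [map_add]; exact w.reg_add hp hq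
        | mul_X p j hp => rw [map_mul, eX]; exact w.reg_mul hp (hyr j)
      refine ⟨hreg, fun q => ⟨fun h => ?_, ?_⟩⟩
      · by_contra hnd
        rw [C_dvd_iff_dvd_coeff] at hnd
        push Not at hnd
        obtain ⟨α, hα⟩ := hnd
        rw [hdvd] at hα
        push Not at hα
        refine hG (map P.O.subtype q) (fun β => ?_) ⟨α, ?_⟩ h
        · rw [coeff_map]; exact (coeff β q).2
        · rw [coeff_map]; exact hα
      · rintro ⟨b, rfl⟩
        rw [a1, map_mul, w.red_mul (hreg _) (hreg _)]
        have : w.red (φ (C ϖ')) = 0 := by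
          rw [w.red_eq_zero_iff (hreg _), eC ϖ hϖr]
          right; exact hϖ
        rw [this, zero_mul]
  · rw [← h2]
    refine Finset.sum_congr rfl fun w hw => ?_
    obtain ⟨hr, ho⟩ := (h1 w).mp hw
    have e1 : algebraMap R0 E (C ϖ') = algebraMap K E ϖ := eC ϖ hϖr
    rw [e1]
    have hsub : Subfield.closure ({c : w.RF | ∃ a : K, P.Reg a ∧ w.red (algebraMap K E a) = c} ∪
          Set.range fun j => w.red (y j)) =
        Subfield.closure (Set.range fun a : R0 => w.red (algebraMap R0 E a)) := by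
      apply le_antisymm
      · rw [Subfield.closure_le]
        rintro z (⟨a, ha, rfl⟩ | ⟨j, rfl⟩)
        · refine Subfield.subset_closure ⟨C ⟨a, ha⟩, ?_⟩
          show w.red (φ _) = _
          rw [eC a ha]
        · refine Subfield.subset_closure ⟨X j, ?_⟩
          show w.red (φ _) = _
          rw [eX]
      · rw [Subfield.closure_le]
        rintro _ ⟨q, rfl⟩
        show w.red (φ q) ∈ _
        have hh : w.Reg (φ q) ∧ w.red (φ q) ∈ Subfield.closure
            ({c : w.RF | ∃ a : K, P.Reg a ∧ w.red (algebraMap K E a) = c} ∪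
              Set.range fun j => w.red (y j)) := by
          induction q using MvPolynomial.induction_on with
          | C a =>
            refine ⟨hr _, ?_⟩
            rw [show φ (C a) = algebraMap K E a.1 from eC a.1 a.2]
            exact Subfield.subset_closure (Or.inl ⟨a.1, a.2, rfl⟩)
          | add p q hp hq =>
            refine ⟨hr _, ?_⟩
            rw [map_add, w.red_add hp.1 hq.1]
            exact add_mem hp.2 hq.2
          | mul_X p j hp =>
            refine ⟨hr _, ?_⟩
            rw [map_mul, eX, w.red_mul hp.1 (by rw [← eX]; exact hr _)]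
            exact mul_mem hp.2 (Subfield.subset_closure (Or.inr ⟨j, rfl⟩))
        exact hh.2
    rw [hsub]

end

end Pool.Agent.R845.E3.Gfi

namespace Pool.Agent.R845.E3

/-- the fundamental identity for the Gauss extension of a place -/
theorem gfi : S_GFI := Gfi.gfi

end Pool.Agent.R845.E3
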