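import Mathlib
import Pool.Agent.R845.E3.Stm
import Pool.Agent.R845.E3.TrdAux

/-! # Project E3: generic linear equations (job TRDB) -/

set_option autoImplicit false

namespace Pool.Agent.R845.E3

open Set Trd

theorem trdb : Pool.Agent.R845.E3.S_TRDB := by
  classical
  intro ι κ _ _ _ _ Ω K _ _ _ _ _ _ a U0 V ha hV hrel
  obtain ⟨i0, hi0⟩ := hV
  have hne : V i0 ≠ 0 := by
    intro h
    rw [h] at hi0
    exact hi0 isAlgebraic_zero
  -- the algebraically independent family
  have hind : AlgebraicIndependent ℂ (Sum.elim (fun _ : Unit => V i0)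
      (algebraMap Ω K ∘ fun q : κ × ι => a q.1 q.2)) := by
    refine ha.sumElim_comp ?_
    exact (algebraicIndependent_unique_type_iff (R := Ω) (x := fun _ : Unit => V i0)).mpr hi0
  have hcard := rk_range hind
  -- the set of generators
  set T : Set K := range (fun q : κ × {i : ι // i ≠ i0} => algebraMap Ω K (a q.1 q.2.1)) with hT
  have hsub : range (Sum.elim (fun _ : Unit => V i0)
      (algebraMap Ω K ∘ fun q : κ × ι => a q.1 q.2)) ⊆
      (IntermediateField.adjoin ℂ (range V ∪ T) : Set K) := by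
    have hVm : ∀ i, V i ∈ IntermediateField.adjoin ℂ (range V ∪ T) := fun i =>
      IntermediateField.subset_adjoin ℂ _ (Or.inl ⟨i, rfl⟩)
    have hTm : ∀ l i, i ≠ i0 → algebraMap Ω K (a l i) ∈
        IntermediateField.adjoin ℂ (range V ∪ T) := fun l i hi =>
      IntermediateField.subset_adjoin ℂ _ (Or.inr ⟨(l, ⟨i, hi⟩), rfl⟩)
    rintro _ ⟨(_ | ⟨l, i⟩), rfl⟩
    · exact hVm i0
    · simp only [Sum.elim_inr, Function.comp_apply]
      by_cases hi : i = i0
      · subst hi
        have h1 := hrel l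
        rw [← Finset.add_sum_erase _ _ (Finset.mem_univ i)] at h1
        have h2 : algebraMap Ω K (a l i) =
            -(∑ j ∈ Finset.univ.erase i, algebraMap Ω K (a l j) * V j) / V i := by
          field_simp
          linear_combination h1
        rw [h2]
        refine div_mem (neg_mem (sum_mem fun j hj => ?_)) (hVm i)
        exact mul_mem (hTm l j (Finset.ne_of_mem_erase hj)) (hVm j)
      · exact hTm l i hi
  have h1 : rk ℂ K (range (Sum.elim (fun _ : Unit => V i0)
      (algebraMap Ω K ∘ fun q : κ × ι => a q.1 q.2))) ≤ rk ℂ K (range V) + T.encard :=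
    (rk_le_of_subset_adjoin ℂ K hsub).trans (rk_union_le ℂ K _ _)
  rw [hcard] at h1
  have hTc : T.encard ≤ ENat.card (κ × {i : ι // i ≠ i0}) := encard_range_le K _
  have hUV : rk ℂ K (range V) ≤ rk ℂ K (range fun i => algebraMap ℂ K (U0 i) + V i) := by
    refine rk_le_of_subset_adjoin ℂ K ?_
    rintro _ ⟨i, rfl⟩
    have h2 : V i = (algebraMap ℂ K (U0 i) + V i) - algebraMap ℂ K (U0 i) := by ring
    rw [h2]
    refine sub_mem (IntermediateField.subset_adjoin ℂ _ ⟨i, rfl⟩)
      (IntermediateField.algebraMap_mem _ _)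
  obtain ⟨Θ, hΘ, hΘi⟩ := exists_finset (k := ℂ) (fun i => algebraMap ℂ K (U0 i) + V i)
  refine ⟨Θ, ?_, hΘi⟩
  have h3 : ENat.card (Unit ⊕ κ × ι) ≤ (Θ.card : ℕ∞) + ENat.card (κ × {i : ι // i ≠ i0}) := by
    refine h1.trans ?_
    rw [hΘ]
    exact add_le_add hUV hTc
  rw [ENat.card_eq_coe_fintype_card, ENat.card_eq_coe_fintype_card] at h3
  have h4 : Fintype.card (Unit ⊕ κ × ι) ≤ Θ.card + Fintype.card (κ × {i : ι // i ≠ i0}) := by
    exact_mod_cast h3
  rw [Fintype.card_sum, Fintype.card_prod, Fintype.card_prod, Fintype.card_subtype_compl] at h4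
  simp only [Fintype.card_unit, Fintype.card_unique] at h4
  have h5 : 1 ≤ Fintype.card ι := Fintype.card_pos_iff.mpr ⟨i0⟩
  obtain ⟨n, hn⟩ : ∃ n, Fintype.card ι = n + 1 := ⟨Fintype.card ι - 1, by omega⟩
  rw [hn] at h4
  have h6 : n + 1 - 1 = n := by omega
  rw [h6] at h4
  have h7 : Fintype.card κ * (n + 1) = Fintype.card κ * n + Fintype.card κ := by ring
  omega

end Pool.Agent.R845.E3
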