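import Mathlib
import Pool.Agent.R845.VG
import Pool.Agent.R845.E3.Main
import Pool.Agent.R845.E3.Cc3
import Pool.Agent.R845.E3.At
import Pool.Agent.R845.E3.Gen
import Pool.Agent.R845.E3.Ani
import Pool.Agent.R845.E3.Spec
import Pool.Agent.R845.E3.Spr
import Pool.Agent.R845.E3.Crvb
import Pool.Agent.R845.E3.Gfi
import Pool.Agent.R845.E3.Evn
import Pool.Agent.R845.E3.Trans
import Pool.Agent.R845.E3.Trda
import Pool.Agent.R845.E3.Trdb
import Pool.Agent.R845.E3.Desc
import Pool.Agent.R845.E3.Bas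
import Pool.Agent.R845.E3.ConP

/-! # Project E3: final assembly -/

set_option autoImplicit false

namespace Pool.Agent.R845.E3

open MvPolynomial Pool.Agent.TH314.PD IntermediateField Module

theorem at_all : S_AT := at_of (gen ani spec) curve (trans gfi evn spr) trda trdb

theorem final {n : ℕ} (hn : 3 ≤ n)
    {F : MvPolynomial (Fin (n + 2)) ℂ} (hF : F.IsHomogeneous 3)
    (hsm : ∀ z : Fin (n + 2) → ℂ, (∀ i, eval z (pderiv i F) = 0) → z = 0)
    (hind : AlgebraicIndependent ℚ (Pool.Agent.R845.VG.cf 3 F))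
    (G : Fin (n + 2) → MvPolynomial (Fin n) ℂ) (hG : ∀ i, (G i).totalDegree ≤ 3)
    (h1 : aeval G F = 0)
    (h2 : ∀ (e : ℕ) (H : MvPolynomial (Fin (n + 2)) ℂ), H.IsHomogeneous e →
      aeval G H = 0 → F ∣ H) :
    0 < Module.finrank (IntermediateField.adjoin ℂ {z : FractionRing (MvPolynomial (Fin n) ℂ) |
      ∃ i j, z = algebraMap (MvPolynomial (Fin n) ℂ) (FractionRing (MvPolynomial (Fin n) ℂ)) (G i) /
        algebraMap (MvPolynomial (Fin n) ℂ) (FractionRing (MvPolynomial (Fin n) ℂ)) (G j)})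
      (FractionRing (MvPolynomial (Fin n) ℂ)) ∧
    Even (Module.finrank (IntermediateField.adjoin ℂ {z : FractionRing (MvPolynomial (Fin n) ℂ) |
      ∃ i j, z = algebraMap (MvPolynomial (Fin n) ℂ) (FractionRing (MvPolynomial (Fin n) ℂ)) (G i) /
        algebraMap (MvPolynomial (Fin n) ℂ) (FractionRing (MvPolynomial (Fin n) ℂ)) (G j)})
      (FractionRing (MvPolynomial (Fin n) ℂ))) := by
  have hsm' : Sm F := hsm
  refine ⟨?_, ?_⟩
  · obtain ⟨hfin, -⟩ := bound (k := 3) (by norm_num) F hF hsm' G hG h1 h2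
    have h3 : 0 < Module.finrank (ratioField fun i =>
        algebraMap (MvPolynomial (Fin n) ℂ) (FractionRing (MvPolynomial (Fin n) ℂ)) (G i))
        (FractionRing (MvPolynomial (Fin n) ℂ)) := Module.finrank_pos
    exact h3
  · refine no_odd (cc spr desc) at_all bas con hn hF hsm' hind G hG ⟨?_, ?_⟩
    · have h3 : aeval (fun i => algebraMap (MvPolynomial (Fin n) ℂ) (Rn n) (G i)) F =
          algebraMap (MvPolynomial (Fin n) ℂ) (Rn n) (aeval G F) :=
        (comp_aeval_apply (φ := IsScalarTower.toAlgHom ℂ (MvPolynomial (Fin n) ℂ) (Rn n)) G F).symm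
      rw [h3, h1, map_zero]
    · intro e P hP h0
      refine h2 e P hP ?_
      have h3 : aeval (fun i => algebraMap (MvPolynomial (Fin n) ℂ) (Rn n) (G i)) P =
          algebraMap (MvPolynomial (Fin n) ℂ) (Rn n) (aeval G P) :=
        (comp_aeval_apply (φ := IsScalarTower.toAlgHom ℂ (MvPolynomial (Fin n) ℂ) (Rn n)) G P).symm
      rw [h3] at h0
      exact (IsFractionRing.injective (MvPolynomial (Fin n) ℂ) (Rn n)) (h0.trans (map_zero _).symm)

end Pool.Agent.R845.E3
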