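import Mathlib
import Pool.Agent.R845.E3.Stm2
import Pool.Agent.R845.E3.Evn
import Pool.Agent.TH314.PD.Main

/-! # Project E3: job BAS -/

set_option autoImplicit false

namespace Pool.Agent.R845.E3

open MvPolynomial Pool.Agent.TH314.PD IntermediateField Module

noncomputable section

/-- top coefficient of a product -/
theorem coeff_prod_top {R ι : Type} [CommRing R] (s : Finset ι) (f : ι → Polynomial R) (N : ι → ℕ)
    (h : ∀ i ∈ s, (f i).natDegree ≤ N i) :
    (∏ i ∈ s, f i).natDegree ≤ ∑ i ∈ s, N i ∧
      (∏ i ∈ s, f i).coeff (∑ i ∈ s, N i) = ∏ i ∈ s, (f i).coeff (N i) := by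
  classical
  induction s using Finset.induction_on with
  | empty => simp
  | insert a s ha ih =>
    obtain ⟨h1, h2⟩ := ih fun i hi => h i (Finset.mem_insert_of_mem hi)
    have h3 := h a (Finset.mem_insert_self _ _)
    rw [Finset.prod_insert ha, Finset.sum_insert ha, Finset.prod_insert ha]
    refine ⟨Polynomial.natDegree_mul_le.trans (add_le_add h3 h1), ?_⟩
    rw [Polynomial.coeff_mul_add_eq_of_natDegree_le h3 h1, h2]

/-- the top coefficient of a form evaluated at linear polynomials -/
theorem form_top {R : Type} [CommRing R] [Algebra ℂ R] {σ : Type} [Fintype σ]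
    {F : MvPolynomial σ ℂ} {d : ℕ}
    (hF : F.IsHomogeneous d) (g : σ → Polynomial R) (hg : ∀ i, (g i).natDegree ≤ 1) :
    (aeval g F).natDegree ≤ d ∧ (aeval g F).coeff d = aeval (fun i => (g i).coeff 1) F := by
  have key : ∀ β ∈ F.support, (∏ i, g i ^ β i).natDegree ≤ d ∧
      (∏ i, g i ^ β i).coeff d = ∏ i, (g i).coeff 1 ^ β i := by
    intro β hβ
    have h3 : ∑ i, β i = d := by
      have h4 : β.degree = d := by
        rw [Finsupp.degree_eq_weight_one]
        exact hF (mem_support_iff.1 hβ)
      rw [← h4, Finsupp.degree_eq_sum]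
    obtain ⟨h1, h2⟩ := coeff_prod_top Finset.univ (fun i => g i ^ β i) (fun i => β i) (by
      intro i _
      refine Polynomial.natDegree_pow_le.trans ?_
      exact (Nat.mul_le_mul_left _ (hg i)).trans (mul_one _).le)
    rw [h3] at h1 h2
    refine ⟨h1, h2.trans (Finset.prod_congr rfl fun i _ => ?_)⟩
    have := Polynomial.coeff_pow_of_natDegree_le (m := β i) (hg i)
    rwa [mul_one] at this
  have hx : ∀ (S : Type) [CommRing S] [Algebra ℂ S] (z : σ → S), aeval z F =
      ∑ β ∈ F.support, algebraMap ℂ S (coeff β F) * ∏ i, z i ^ β i := by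
    intro S _ _ z
    rw [aeval_def, eval₂_eq']
  rw [hx _ g, hx _ fun i => (g i).coeff 1]
  constructor
  · refine Polynomial.natDegree_sum_le_of_forall_le _ _ fun β hβ => ?_
    refine (Polynomial.natDegree_C_mul_le _ _).trans (key β hβ).1
  · rw [Polynomial.finsetSum_coeff]
    refine Finset.sum_congr rfl fun β hβ => ?_
    have h1 : algebraMap ℂ (Polynomial R) (coeff β F) = Polynomial.C (algebraMap ℂ R (coeff β F)) :=
      rfl
    rw [h1, Polynomial.coeff_C_mul, (key β hβ).2]

/-- the part of a form which does not involve the last variable -/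
theorem last_dvd {n : ℕ} (P : MvPolynomial (Fin (n + 2)) ℂ) :
    (X (Fin.last (n + 1)) : MvPolynomial (Fin (n + 2)) ℂ) ∣ P -
      rename Fin.castSucc (aeval (Fin.snoc X 0 : Fin (n + 2) → MvPolynomial (Fin (n + 1)) ℂ) P) := by
  induction P using MvPolynomial.induction_on with
  | C a =>
    rw [aeval_C, algebraMap_eq, rename_C, sub_self]
    exact dvd_zero _
  | add p q hp hq =>
    rw [map_add, map_add, add_sub_add_comm]
    exact dvd_add hp hq
  | mul_X p i hp =>
    rw [map_mul, map_mul, aeval_X]
    refine Fin.lastCases ?_ (fun i => ?_) i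
    · rw [Fin.snoc_last, map_zero, mul_zero, sub_zero]
      exact dvd_mul_left _ _
    · rw [Fin.snoc_castSucc, rename_X, ← sub_mul]
      exact Dvd.dvd.mul_right hp _

theorem bas : S_BAS := by
  classical
  intro n F hF hF0 H hH hb0 hFH hfin
  set K := Rn n with hK
  have hchar : CharZero K := algebraRat.charZero _
  let al : MvPolynomial (Fin n) ℂ →ₐ[ℂ] K :=
    IsScalarTower.toAlgHom ℂ (MvPolynomial (Fin n) ℂ) (FractionRing (MvPolynomial (Fin n) ℂ))
  have hal : Function.Injective al :=
    IsFractionRing.injective (MvPolynomial (Fin n) ℂ) (FractionRing (MvPolynomial (Fin n) ℂ))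
  have hbas : IsTranscendenceBasis ℂ (fun l : Fin n => al (X l)) := by
    have : Algebra.IsAlgebraic (MvPolynomial (Fin n) ℂ) (FractionRing (MvPolynomial (Fin n) ℂ)) :=
      (IsFractionRing.comap_isAlgebraic_iff (K := FractionRing (MvPolynomial (Fin n) ℂ))).2
        inferInstance
    exact (IsTranscendenceBasis.mvPolynomial (Fin n) ℂ).algebraMap_comp
      (A := FractionRing (MvPolynomial (Fin n) ℂ))
  have hfrac : ∀ z : K, ∃ a b, z = al a / al b := by
    intro z
    obtain ⟨a, b, h⟩ := IsFractionRing.div_surjective (A := MvPolynomial (Fin n) ℂ) z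
    exact ⟨a, b, h.2.symm⟩
  have htr : Algebra.trdeg ℂ K = n := by
    have := hbas.cardinalMk_eq_trdeg
    rw [← this, Cardinal.mk_fin]
  -- evaluation at `(1, t)`
  let dhc : MvPolynomial (Fin (n + 1)) ℂ →ₐ[ℂ] K :=
    al.comp (aeval (Fin.cons 1 X : Fin (n + 1) → MvPolynomial (Fin n) ℂ))
  have hdhc0 : ∀ {e : ℕ} {P : MvPolynomial (Fin (n + 1)) ℂ}, P.IsHomogeneous e → dhc P = 0 →
      P = 0 := by
    intro e P hP h
    apply dehom_inj hP
    apply hal
    rw [map_zero]
    exact h
  -- the coordinates
  obtain ⟨c, hc⟩ : ∃ c : Fin (n + 2) → ℂ, eval c F ≠ 0 := by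
    by_contra hcon
    push Not at hcon
    exact hF0 (MvPolynomial.funext fun z => by rw [hcon, map_zero])
  have hc0 : c ≠ 0 := by
    rintro rfl
    apply hc
    have := aeval_smul_form hF (0 : ℂ) (0 : Fin (n + 2) → ℂ)
    simpa [aeval_eq_eval] using this
  obtain ⟨R, Q, hRQ, hQR, hRc⟩ := exists_matrix c hc0
  let pall : Fin (n + 2) → MvPolynomial (Fin (n + 1)) ℂ := fun j => ∑ i, C (Q j i) * H i
  have hpall : ∀ j, (pall j).IsHomogeneous 3 := fun j => hom_comb _ fun i => hH i
  have hHp : ∀ i, H i = ∑ j, C (R i j) * pall j := by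
    intro i
    have := invert Q R hQR (A := MvPolynomial (Fin (n + 1)) ℂ)
    have h1 : ∑ j, C (R i j) * pall j = ∑ l, C ((R * Q) i l) * H l := by
      simp only [pall, Matrix.mul_apply, map_sum, map_mul, Finset.sum_mul, Finset.mul_sum]
      rw [Finset.sum_comm]
      refine Finset.sum_congr rfl fun l _ => Finset.sum_congr rfl fun j _ => ?_
      ring
    rw [h1, hRQ, Finset.sum_eq_single i]
    · rw [Matrix.one_apply_eq, C_1, one_mul]
    · intro b _ hb
      rw [Matrix.one_apply_ne (Ne.symm hb), C_0, zero_mul]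
    · intro h
      exact absurd (Finset.mem_univ _) h
  -- if the first `n + 1` vanish
  have hvan : ∀ (S : Type) [CommRing S] [IsDomain S] [Algebra ℂ S]
      (φ : MvPolynomial (Fin (n + 1)) ℂ →ₐ[ℂ] S), (∀ j : Fin (n + 1), φ (pall j.castSucc) = 0) →
      ∀ i, φ (H i) = 0 := by
    intro S _ _ _ φ hφ
    have h1 : ∀ i, φ (H i) = φ (pall (Fin.last (n + 1))) * algebraMap ℂ S (c i) := by
      intro i
      rw [hHp i, map_sum, Fin.sum_univ_castSucc, Finset.sum_eq_zero, zero_add, map_mul, hRc,
        mul_comm]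
      · congr 1
        exact φ.commutes _
      · intro j _
        rw [map_mul, hφ j, mul_zero]
    have h2 : aeval (fun i => φ (H i)) F = 0 := by
      have : (aeval (fun i => φ (H i)) : MvPolynomial (Fin (n + 2)) ℂ →ₐ[ℂ] S) =
          φ.comp (aeval H) := by
        apply MvPolynomial.algHom_ext
        intro i
        rw [aeval_X, AlgHom.comp_apply, aeval_X]
      rw [this, AlgHom.comp_apply, hFH, map_zero]
    have h3 : (fun i => φ (H i)) = fun i => φ (pall (Fin.last (n + 1))) * algebraMap ℂ S (c i) :=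
      funext h1
    rw [h3, aeval_smul_form hF] at h2
    have h4 : aeval (fun i => algebraMap ℂ S (c i)) F = algebraMap ℂ S (eval c F) := by
      rw [← aeval_eq_eval]
      exact aeval_algebraMap_apply S c F
    rw [h4] at h2
    have h5 : φ (pall (Fin.last (n + 1))) = 0 := by
      rcases mul_eq_zero.1 h2 with h | h
      · exact eq_zero_of_pow_eq_zero h
      · exfalso
        apply hc
        have hnt : Nontrivial S := inferInstance
        exact (algebraMap ℂ S).injective (by rw [h, map_zero])
    intro i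
    rw [h1, h5, zero_mul]
  -- one of them is nonzero
  obtain ⟨a, ha⟩ : ∃ a : Fin (n + 1), pall a.castSucc ≠ 0 := by
    by_contra hcon
    push Not at hcon
    have h1 := hvan (MvPolynomial (Fin (n + 1)) ℂ) (AlgHom.id ℂ _) (fun j => hcon j)
    have h2 := hb0 1 (fun i => by
      have h3 : H i = 0 := h1 i
      rw [h3, map_zero])
    exact one_ne_zero (congrFun h2 0)
  let sw : Equiv.Perm (Fin (n + 1)) := Equiv.swap 0 a
  let p : Fin (n + 1) → MvPolynomial (Fin (n + 2)) ℂ := fun j =>
    rename Fin.castSucc (pall (sw j).castSucc)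
  have hp : ∀ j, (p j).IsHomogeneous 3 := fun j => (hpall _).rename_isHomogeneous
  let F' : MvPolynomial (Fin (n + 2)) ℂ := X (Fin.last (n + 1))
  have hF' : F'.IsHomogeneous 1 := isHomogeneous_X _ _
  have hz : ∀ z : Fin (n + 2) → ℂ, (∀ i, eval z (p i) = 0) → eval z F' = 0 → z = 0 := by
    intro z hz1 hz2
    have h1 : z (Fin.last (n + 1)) = 0 := by
      have : eval z F' = z (Fin.last (n + 1)) := eval_X _
      rw [← this, hz2]
    have h2 : ∀ j : Fin (n + 1), aeval (fun i : Fin (n + 1) => z i.castSucc) (pall j.castSucc) =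
        0 := by
      intro j
      have h3 := hz1 (sw.symm j)
      change eval z (rename Fin.castSucc (pall (sw (sw.symm j)).castSucc)) = 0 at h3
      rw [Equiv.apply_symm_apply, eval_rename] at h3
      rw [aeval_eq_eval]
      exact h3
    have h4 := hvan ℂ (aeval fun i : Fin (n + 1) => z i.castSucc) h2
    have h5 := hb0 (fun i : Fin (n + 1) => z i.castSucc) (fun i => by
      rw [← aeval_eq_eval]
      exact h4 i)
    funext i
    refine Fin.lastCases ?_ (fun i => ?_) i
    · exact h1
    · exact congrFun h5 i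
  obtain ⟨e0, hg1, hg2⟩ := gen F' hF' p hp hz
  have hg : Gen F' p 3 e0 := ⟨hg1, hg2⟩
  let x0 : Fin (n + 1) → K := fun i => al ((Fin.cons 1 X : Fin (n + 1) → MvPolynomial (Fin n) ℂ) i)
  let x : Fin (n + 2) → K := Fin.snoc x0 0
  have hdx : ∀ P : MvPolynomial (Fin (n + 1)) ℂ, aeval x0 P = dhc P := by
    intro P
    have : (aeval x0 : MvPolynomial (Fin (n + 1)) ℂ →ₐ[ℂ] K) = dhc := by
      apply MvPolynomial.algHom_ext
      intro i
      rw [aeval_X]
      show _ = al (aeval _ (X i))
      rw [aeval_X]
    rw [this]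
  have hFx : aeval x F' = 0 := by
    rw [aeval_X]
    exact Fin.snoc_last _ _
  have hxr : ∀ P : MvPolynomial (Fin (n + 1)) ℂ, aeval x (rename Fin.castSucc P) = dhc P := by
    intro P
    rw [aeval_rename, ← hdx]
    have h1 : x ∘ Fin.castSucc = x0 := by
      funext i
      exact Fin.snoc_castSucc (α := fun _ => K) _ _ _
    rw [h1]
  have hx0 : ∀ P : MvPolynomial (Fin (n + 2)) ℂ, aeval x P =
      dhc (aeval (Fin.snoc X 0 : Fin (n + 2) → MvPolynomial (Fin (n + 1)) ℂ) P) := by
    intro P
    have : (aeval x : MvPolynomial (Fin (n + 2)) ℂ →ₐ[ℂ] K) =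
        dhc.comp (aeval (Fin.snoc X 0 : Fin (n + 2) → MvPolynomial (Fin (n + 1)) ℂ)) := by
      apply MvPolynomial.algHom_ext
      intro i
      rw [aeval_X, AlgHom.comp_apply, aeval_X]
      refine Fin.lastCases ?_ (fun i => ?_) i
      · rw [Fin.snoc_last, map_zero]
        exact Fin.snoc_last _ _
      · rw [Fin.snoc_castSucc, ← hdx, aeval_X]
        exact Fin.snoc_castSucc _ _ _
    rw [this, AlgHom.comp_apply]
  have hker : ∀ e (P : MvPolynomial (Fin (n + 2)) ℂ), P.IsHomogeneous e → aeval x P = 0 →
      F' ∣ P := by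
    intro e P hP h
    have h1 : (aeval (Fin.snoc X 0 : Fin (n + 2) → MvPolynomial (Fin (n + 1)) ℂ) P).IsHomogeneous
        (1 * e) := by
      refine hP.aeval _ fun i => ?_
      refine Fin.lastCases ?_ (fun i => ?_) i
      · rw [Fin.snoc_last]
        exact isHomogeneous_zero _ _ _
      · rw [Fin.snoc_castSucc]
        exact isHomogeneous_X _ _
    have h2 := hdhc0 h1 (by rw [← hx0, h])
    have h3 := last_dvd P
    rwa [h2, map_zero, sub_zero] at h3
  have hPP : ∀ j, PP x p j = dhc (pall (sw j).castSucc) := fun j => hxr _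
  have hsw : sw 0 = a := Equiv.swap_apply_left _ _
  have h0 : PP x p 0 ≠ 0 := by
    rw [hPP, hsw]
    intro h
    exact ha (hdhc0 (hpall _) h)
  have halg : Algebra.IsAlgebraic (LL x p) K :=
    algebraic_LL htr hF' le_rfl (X_ne_zero _) hker (by norm_num) hg hFx h0
  have hfd : FiniteDimensional (LL x p) K := finite_dim al hfrac (LL x p)
  have hlow : 1 * 3 ^ n ≤ Module.finrank (LL x p) (⊤ : IntermediateField (LL x p) K) :=
    lower (by norm_num) hg hFx h0 hF' hker ⊤ fun _ _ => IntermediateField.mem_top
  rw [one_mul, IntermediateField.finrank_top'] at hlow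
  -- the extension by `τ`
  set A := PP x p 0 with hA
  have hAa : A = dhc (pall a.castSucc) := by rw [hA, hPP, hsw]
  let τ : K := dhc (pall (Fin.last (n + 1))) / A
  have hyL : ∀ j : Fin (n + 1), dhc (pall j.castSucc) / A ∈ LL x p := by
    intro j
    refine IntermediateField.subset_adjoin _ _ ⟨sw.symm j, ?_⟩
    unfold yy
    rw [hPP (sw.symm j), Equiv.apply_symm_apply]
  let w : Fin (n + 1) → LL x p := fun j => ⟨dhc (pall j.castSucc) / A, hyL j⟩
  let g : Fin (n + 2) → Polynomial (LL x p) := fun i =>
    Polynomial.C (∑ j : Fin (n + 1), algebraMap ℂ (LL x p) (R i j.castSucc) * w j) +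
      Polynomial.C (algebraMap ℂ (LL x p) (c i)) * Polynomial.X
  have hg1 : ∀ i, (g i).natDegree ≤ 1 := by
    intro i
    refine (Polynomial.natDegree_add_le _ _).trans (max_le ?_ ?_)
    · rw [Polynomial.natDegree_C]
      exact Nat.zero_le _
    · exact (Polynomial.natDegree_C_mul_le _ _).trans Polynomial.natDegree_X_le
  have hg1c : ∀ i, (g i).coeff 1 = algebraMap ℂ (LL x p) (c i) := by
    intro i
    simp [g, Polynomial.coeff_C]
  obtain ⟨hq1, hq2⟩ := form_top hF g hg1
  set q : Polynomial (LL x p) := aeval g F with hq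
  have hq3 : q.coeff 3 ≠ 0 := by
    rw [hq2]
    have h1 : (fun i => (g i).coeff 1) = fun i => algebraMap ℂ (LL x p) (c i) := funext hg1c
    have h4 : aeval (fun i => algebraMap ℂ (LL x p) (c i)) F =
        algebraMap ℂ (LL x p) (eval c F) := by
      rw [← aeval_eq_eval]
      exact aeval_algebraMap_apply (LL x p) c F
    rw [h1, h4]
    intro h
    exact hc ((algebraMap ℂ (LL x p)).injective (by rw [h, map_zero]))
  have hqne : q ≠ 0 := by
    rintro h
    rw [h, Polynomial.coeff_zero] at hq3
    exact hq3 rfl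
  have hgτ : ∀ i, Polynomial.aeval τ (g i) = A⁻¹ * dhc (H i) := by
    intro i
    rw [hHp i, map_sum, Fin.sum_univ_castSucc, mul_add, Finset.mul_sum]
    simp only [g, map_add, map_mul, Polynomial.aeval_C, Polynomial.aeval_X]
    congr 1
    · rw [map_sum]
      refine Finset.sum_congr rfl fun j _ => ?_
      rw [map_mul]
      have h1 : algebraMap (LL x p) K (w j) = dhc (pall j.castSucc) / A := rfl
      have h2 : algebraMap (LL x p) K (algebraMap ℂ (LL x p) (R i j.castSucc)) =
          dhc (C (R i j.castSucc)) := (dhc.commutes _).symm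
      rw [h1, h2, div_eq_mul_inv]
      ring
    · have h2 : algebraMap (LL x p) K (algebraMap ℂ (LL x p) (c i)) =
          dhc (C (c i)) := (dhc.commutes _).symm
      rw [h2, hRc]
      show _ * (dhc (pall (Fin.last (n + 1))) / A) = _
      rw [div_eq_mul_inv]
      ring
  have hqτ : Polynomial.aeval τ q = 0 := by
    have h1 : Polynomial.aeval τ q = aeval (fun i => Polynomial.aeval τ (g i)) F := by
      have : ((Polynomial.aeval τ : Polynomial (LL x p) →ₐ[LL x p] K).restrictScalars ℂ).comp
          (aeval g) = (aeval (fun i => Polynomial.aeval τ (g i)) :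
            MvPolynomial (Fin (n + 2)) ℂ →ₐ[ℂ] K) := by
        apply MvPolynomial.algHom_ext
        intro i
        rw [aeval_X, AlgHom.comp_apply, aeval_X]
        rfl
      rw [← this]
      rfl
    have h2 : aeval (fun i => dhc (H i)) F = 0 := by
      have : (aeval (fun i => dhc (H i)) : MvPolynomial (Fin (n + 2)) ℂ →ₐ[ℂ] K) =
          dhc.comp (aeval H) := by
        apply MvPolynomial.algHom_ext
        intro i
        rw [aeval_X]
        show dhc (H i) = dhc (aeval H (X i))
        rw [aeval_X]
      rw [this, AlgHom.comp_apply, hFH, map_zero]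
    rw [h1, funext hgτ, aeval_smul_form hF, h2, mul_zero]
  have hint : IsIntegral (LL x p) τ := (Algebra.IsAlgebraic.isAlgebraic τ).isIntegral
  set N : IntermediateField (LL x p) K := (LL x p)⟮τ⟯ with hN
  have hN3 : finrank (LL x p) N ≤ 3 := by
    rw [hN, IntermediateField.adjoin.finrank hint]
    have h1 := minpoly.degree_le_of_ne_zero (LL x p) τ hqne hqτ
    exact (Polynomial.natDegree_le_natDegree h1).trans hq1
  have htow := Module.finrank_mul_finrank (LL x p) N K
  let N' : IntermediateField ℂ K := N.restrictScalars ℂ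
  have hsub : ratioField (dh H) ≤ N' := by
    unfold ratioField
    rw [IntermediateField.adjoin_le_iff]
    rintro _ ⟨i, j, rfl⟩
    have h1 : ∀ i, A⁻¹ * dhc (H i) ∈ N := by
      intro i
      rw [← hgτ i]
      have h2 : ∀ P : Polynomial (LL x p), Polynomial.aeval τ P ∈ N := by
        intro P
        have h3 : τ ∈ N := IntermediateField.mem_adjoin_simple_self _ _
        induction P using Polynomial.induction_on' with
        | add f g hf hg =>
          rw [map_add]
          exact add_mem hf hg
        | monomial n a =>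
          rw [← Polynomial.C_mul_X_pow_eq_monomial, map_mul, map_pow, Polynomial.aeval_C,
            Polynomial.aeval_X]
          exact mul_mem (IntermediateField.algebraMap_mem _ _) (pow_mem h3 n)
      exact h2 _
    have h4 : dh H i / dh H j = (A⁻¹ * dhc (H i)) / (A⁻¹ * dhc (H j)) := by
      rw [mul_div_mul_left _ _ (inv_ne_zero h0)]
      rfl
    show dh H i / dh H j ∈ N
    rw [h4]
    exact div_mem (h1 i) (h1 j)
  have hle : finrank N' K ≤ finrank (ratioField (dh H)) K :=
    IntermediateField.finrank_le_of_le_left hsub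
  have hNN : finrank N' K = finrank N K := rfl
  calc 3 ^ n ≤ finrank (LL x p) K := hlow
    _ = finrank (LL x p) N * finrank N K := htow.symm
    _ ≤ 3 * finrank N K := Nat.mul_le_mul_right _ hN3
    _ ≤ 3 * finrank (ratioField (dh H)) K := Nat.mul_le_mul_left _ (hNN ▸ hle)

end

end Pool.Agent.R845.E3
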