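import Pool.Agent.R845.E3.Stm

/-! # Job CRVA: an integral curve through the origin -/

set_option autoImplicit false

namespace Pool.Agent.R845.E3

open MvPolynomial IntermediateField

noncomputable section

namespace Crva

variable (Ω : Type) [Field Ω]

/-- kill the first `j` variables -/
def zf (D j : ℕ) : MvPolynomial (Fin D) Ω →ₐ[Ω] MvPolynomial (Fin D) Ω :=
  aeval (fun i : Fin D => if i.1 < j then 0 else X i)

theorem zf_lt {D j : ℕ} (hj : j < D) :
    RingHom.ker (zf Ω D j) < RingHom.ker (zf Ω D (j + 1)) := by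
  refine lt_of_le_of_ne ?_ ?_
  · intro p hp
    rw [RingHom.mem_ker] at hp ⊢
    have : (zf Ω D (j + 1)).comp (zf Ω D j) = zf Ω D (j + 1) := by
      ext i
      simp only [zf, AlgHom.comp_apply, aeval_X]
      by_cases h : i.1 < j
      · rw [if_pos h, if_pos (by omega), map_zero]
      · rw [if_neg h, aeval_X]
    rw [← this, AlgHom.comp_apply, hp, map_zero]
  · intro he
    have h1 : (X ⟨j, hj⟩ : MvPolynomial (Fin D) Ω) ∈ RingHom.ker (zf Ω D (j + 1)) := by
      rw [RingHom.mem_ker]
      simp [zf]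
    rw [← he, RingHom.mem_ker] at h1
    simp [zf] at h1

theorem zf_height {D : ℕ} (j : ℕ) (hj : j ≤ D) :
    (j : ℕ∞) ≤ (RingHom.ker (zf Ω D j)).height := by
  induction j with
  | zero => simp
  | succ j ih =>
    have h1 := ih (by omega)
    have hp1 : (RingHom.ker (zf Ω D j)).IsPrime := RingHom.ker_isPrime _
    have hp2 : (RingHom.ker (zf Ω D (j + 1))).IsPrime := RingHom.ker_isPrime _
    have h2 := Ideal.height_add_one_le_of_lt_of_isPrime (zf_lt Ω (D := D) (j := j) (by omega))
    push_cast
    exact (add_le_add_left h1 1).trans h2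

theorem height_origin (D : ℕ) : (D : ℕ∞) ≤ (RingHom.ker (eval (0 : Fin D → Ω))).height := by
  refine (zf_height Ω D le_rfl).trans (Ideal.height_mono ?_)
  intro p hp
  rw [RingHom.mem_ker] at hp ⊢
  have h : ∀ q, eval (0 : Fin D → Ω) (zf Ω D D q) = eval 0 q := by
    intro q
    have : ((eval (0 : Fin D → Ω)).comp (zf Ω D D).toRingHom) = eval 0 := by
      refine MvPolynomial.ringHom_ext (fun r => ?_) (fun i => ?_)
      · simp [zf]
      · simp [zf]
    exact congrArg (fun f => f q) this
  rw [← h, hp, map_zero]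

theorem exists_prime {D s : ℕ} (hs : s < D) (p : Fin s → MvPolynomial (Fin D) Ω)
    (hp : ∀ l, eval 0 (p l) = 0) : ∃ q : Ideal (MvPolynomial (Fin D) Ω), q.IsPrime ∧
      Ideal.span (Set.range p) ≤ q ∧ q < RingHom.ker (eval (0 : Fin D → Ω)) := by
  have hI : Ideal.span (Set.range p) ≤ RingHom.ker (eval (0 : Fin D → Ω)) := by
    rw [Ideal.span_le]
    rintro _ ⟨l, rfl⟩
    exact hp l
  have hm : (RingHom.ker (eval (0 : Fin D → Ω))).IsPrime := RingHom.ker_isPrime _
  obtain ⟨P, hP, hPm⟩ := Ideal.exists_minimalPrimes_le hI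
  refine ⟨P, hP.1.1, hP.1.2, lt_of_le_of_ne hPm ?_⟩
  intro he
  have h1 := Ideal.height_le_card_of_mem_minimalPrimes_span (Set.finite_range p) hP
  rw [he] at h1
  have h2 := (height_origin Ω D).trans h1
  have h3 : (Set.range p).ncard ≤ s := by
    rw [← Set.image_univ]
    refine (Set.ncard_image_le Set.finite_univ).trans ?_
    rw [Set.ncard_univ, Nat.card_fin]
  have h4 : (D : ℕ∞) ≤ (s : ℕ∞) := h2.trans (by exact_mod_cast h3)
  rw [Nat.cast_le] at h4
  omega

theorem exists_prime_max {D s : ℕ} (hs : s < D) (p : Fin s → MvPolynomial (Fin D) Ω)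
    (hp : ∀ l, eval 0 (p l) = 0) : ∃ q : Ideal (MvPolynomial (Fin D) Ω), q.IsPrime ∧
      (∀ l, p l ∈ q) ∧ q < RingHom.ker (eval (0 : Fin D → Ω)) ∧
      ∀ q' : Ideal (MvPolynomial (Fin D) Ω), q'.IsPrime → q < q' →
        ¬ q' < RingHom.ker (eval (0 : Fin D → Ω)) := by
  obtain ⟨q0, h1, h2, h3⟩ := exists_prime Ω hs p hp
  obtain ⟨q, ⟨hq1, hq2, hq3⟩, hmax⟩ := (wellFounded_gt : WellFounded
    ((· > ·) : Ideal (MvPolynomial (Fin D) Ω) → Ideal (MvPolynomial (Fin D) Ω) → Prop)).has_min
    {q | q.IsPrime ∧ Ideal.span (Set.range p) ≤ q ∧ q < RingHom.ker (eval (0 : Fin D → Ω))}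
    ⟨q0, h1, h2, h3⟩
  refine ⟨q, hq1, fun l => hq2 (Ideal.subset_span ⟨l, rfl⟩), hq3, fun q' hq' hlt hlt' => ?_⟩
  exact hmax q' ⟨hq', hq2.trans hlt.le, hlt'⟩ hlt

/-- A prime ideal of a domain `S`, finitely generated over an algebraically closed field, which is
maximal and has no nonzero prime ideal strictly below: then Noether normalization has at most one
variable. -/
theorem noether_le_one [IsAlgClosed Ω] {S : Type} [CommRing S] [IsDomain S] [Algebra Ω S] {r : ℕ}
    (g : MvPolynomial (Fin r) Ω →ₐ[Ω] S) (ginj : Function.Injective g) (gint : g.IsIntegral)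
    (M : Ideal S) (hM : M.IsMaximal) (hbot : ∀ q : Ideal S, q.IsPrime → q ≠ ⊥ → ¬ q < M) :
    r ≤ 1 := by
  by_contra hr
  push Not at hr
  let : Algebra (MvPolynomial (Fin r) Ω) S := g.toRingHom.toAlgebra
  have hint : Algebra.IsIntegral (MvPolynomial (Fin r) Ω) S := ⟨gint⟩
  have hinj : FaithfulSMul (MvPolynomial (Fin r) Ω) S :=
    (faithfulSMul_iff_algebraMap_injective _ _).mpr ginj
  have hMu : (M.under (MvPolynomial (Fin r) Ω)).IsMaximal :=
    Ideal.isMaximal_comap_of_isIntegral_of_isMaximal M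
  obtain ⟨a, ha⟩ := eq_vanishingIdeal_singleton_of_isMaximal Ω hMu
  set i0 : Fin r := ⟨0, by omega⟩ with hi0
  set i1 : Fin r := ⟨1, by omega⟩ with hi1
  have h01 : i1 ≠ i0 := by
    rw [hi0, hi1]
    intro h
    rw [Fin.mk.injEq] at h
    omega
  set φ : MvPolynomial (Fin r) Ω →ₐ[Ω] MvPolynomial (Fin r) Ω :=
    aeval (fun i : Fin r => if i = i0 then C (a i0) else X i) with hφ
  have hpr : (RingHom.ker φ).IsPrime := RingHom.ker_isPrime _
  have hlt : RingHom.ker φ < M.under (MvPolynomial (Fin r) Ω) := by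
    refine lt_of_le_of_ne ?_ ?_
    · intro p hp
      rw [RingHom.mem_ker] at hp
      rw [ha, mem_vanishingIdeal_singleton_iff]
      have h : ∀ q, aeval a (φ q) = aeval a q := by
        intro q
        have : (aeval a).comp φ = aeval (R := Ω) a := by
          ext i
          simp only [hφ, AlgHom.comp_apply, aeval_X]
          by_cases h : i = i0
          · subst h; simp
          · simp [h]
        exact congrArg (fun f => f q) this
      rw [← h, hp, map_zero]
    · intro he
      have h1 : (X i1 - C (a i1) : MvPolynomial (Fin r) Ω) ∈ M.under (MvPolynomial (Fin r) Ω) := by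
        rw [ha, mem_vanishingIdeal_singleton_iff]
        simp
      rw [← he, RingHom.mem_ker] at h1
      simp only [hφ, map_sub, aeval_X, if_neg h01, algHom_C, algebraMap_eq] at h1
      have h2 := congrArg (eval (fun _ => a i1 + 1)) h1
      simp at h2
  have hMp : M.IsPrime := hM.isPrime
  obtain ⟨P, hPM, hP, hPl⟩ := Ideal.exists_ideal_lt_liesOver_of_lt M hlt
  refine hbot P hP ?_ hPM
  rintro rfl
  have h1 := hPl.over
  have h2 : (X i0 - C (a i0) : MvPolynomial (Fin r) Ω) ∈ RingHom.ker φ := by
    rw [RingHom.mem_ker]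
    simp [hφ]
  rw [h1, Ideal.under_bot] at h2
  have h3 := congrArg (eval (fun _ => a i0 + 1)) ((Submodule.mem_bot _).mp h2)
  simp at h3

/-- The transcendence degree is the number of variables in Noether normalization. -/
theorem trdeg_of_noether {Ω S K : Type} [Field Ω] [CommRing S] [IsDomain S] [Algebra Ω S]
    [Field K] [Algebra S K] [Algebra Ω K] [IsScalarTower Ω S K] [IsFractionRing S K] {r : ℕ}
    (g : MvPolynomial (Fin r) Ω →ₐ[Ω] S) (ginj : Function.Injective g) (gint : g.IsIntegral) :
    Algebra.trdeg Ω K = r := by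
  let : Algebra (MvPolynomial (Fin r) Ω) S := g.toRingHom.toAlgebra
  let : Algebra (MvPolynomial (Fin r) Ω) K := ((algebraMap S K).comp g.toRingHom).toAlgebra
  have hint : Algebra.IsIntegral (MvPolynomial (Fin r) Ω) S := ⟨gint⟩
  have htower1 : IsScalarTower (MvPolynomial (Fin r) Ω) S K :=
    IsScalarTower.of_algebraMap_eq fun x => rfl
  have hfs : FaithfulSMul (MvPolynomial (Fin r) Ω) S :=
    (faithfulSMul_iff_algebraMap_injective _ _).mpr ginj
  have hfs2 : FaithfulSMul (MvPolynomial (Fin r) Ω) K := by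
    rw [faithfulSMul_iff_algebraMap_injective]
    exact (IsFractionRing.injective S K).comp ginj
  have halg : Algebra.IsAlgebraic (MvPolynomial (Fin r) Ω) K := by
    have h1 : Algebra.IsAlgebraic S K := (IsFractionRing.comap_isAlgebraic_iff (A := S)
      (K := K) (C := K)).mpr inferInstance
    have h2 : Algebra.IsAlgebraic (MvPolynomial (Fin r) Ω) S := inferInstance
    exact Algebra.IsAlgebraic.trans (MvPolynomial (Fin r) Ω) S K
  have htower2 : IsScalarTower Ω (MvPolynomial (Fin r) Ω) K := by
    refine IsScalarTower.of_algebraMap_eq fun x => ?_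
    rw [IsScalarTower.algebraMap_apply Ω S K, ← g.commutes x]
    rfl
  have h3 := trdeg_add_eq Ω (MvPolynomial (Fin r) Ω) (A := K)
  rw [trdeg_eq_zero (R := MvPolynomial (Fin r) Ω) (A := K), add_zero,
    MvPolynomial.trdeg_of_isDomain] at h3
  rw [← h3]
  simp

end Crva

open Crva in
/-- job CRVA: an integral curve through the origin -/
theorem crva : S_CRVA := by
  intro Ω _ _ D s hs p hp
  obtain ⟨q, hq, hpq, hlt, hmax⟩ := exists_prime_max Ω hs p hp
  let S := MvPolynomial (Fin D) Ω ⧸ q
  let K := FractionRing S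
  have hker : ∀ f, aeval (fun i => algebraMap S K (Ideal.Quotient.mk q (X i))) f =
      algebraMap S K (Ideal.Quotient.mk q f) := by
    intro f
    have : aeval (fun i => algebraMap S K (Ideal.Quotient.mk q (X i))) =
        (IsScalarTower.toAlgHom Ω S K).comp (Ideal.Quotient.mkₐ Ω q) := by
      ext i
      rw [aeval_X]
      rfl
    rw [this]
    rfl
  have hinj : Function.Injective (algebraMap S K) := IsFractionRing.injective S K
  have hzero : ∀ f, aeval (fun i => algebraMap S K (Ideal.Quotient.mk q (X i))) f = 0 ↔ f ∈ q := by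
    intro f
    rw [hker, map_eq_zero_iff _ hinj, Ideal.Quotient.eq_zero_iff_mem]
  refine ⟨K, inferInstance, inferInstance, fun i => algebraMap S K (Ideal.Quotient.mk q (X i)),
    ?_, ?_, fun l => (hzero _).mpr (hpq l), fun f hf => hlt.le ((hzero f).mp hf)⟩
  · have hmem : ∀ f : MvPolynomial (Fin D) Ω, aeval (fun i => algebraMap S K (Ideal.Quotient.mk q (X i))) f ∈
        Algebra.adjoin Ω (Set.range fun i => algebraMap S K (Ideal.Quotient.mk q (X i))) := by
      intro f
      rw [Algebra.adjoin_range_eq_range_aeval]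
      exact ⟨f, rfl⟩
    rw [eq_top_iff]
    rintro x -
    obtain ⟨a, b, hb, rfl⟩ := IsFractionRing.div_surjective (A := S) x
    obtain ⟨a, rfl⟩ := Ideal.Quotient.mk_surjective a
    obtain ⟨b, rfl⟩ := Ideal.Quotient.mk_surjective b
    rw [← hker, ← hker]
    refine div_mem ?_ ?_
    · exact algebra_adjoin_le_adjoin _ _ (hmem _)
    · exact algebra_adjoin_le_adjoin _ _ (hmem _)
  · obtain ⟨r, g, ginj, gint⟩ := exists_integral_inj_algHom_of_fg Ω S
    have hMax : (RingHom.ker (eval (0 : Fin D → Ω))).IsMaximal :=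
      RingHom.ker_isMaximal_of_surjective _ fun z => ⟨C z, by simp⟩
    have hlift : ∀ f ∈ q, eval (0 : Fin D → Ω) f = 0 := fun f hf => hlt.le hf
    set e : S →+* Ω := Ideal.Quotient.lift q (eval (0 : Fin D → Ω)) hlift with he
    have hcomap : (RingHom.ker e).comap (Ideal.Quotient.mk q) =
        RingHom.ker (eval (0 : Fin D → Ω)) := by
      ext f
      rw [Ideal.mem_comap, RingHom.mem_ker, RingHom.mem_ker, he, Ideal.Quotient.lift_mk]
    have hMx : (RingHom.ker e).IsMaximal :=
      RingHom.ker_isMaximal_of_surjective _ fun z => ⟨Ideal.Quotient.mk q (C z), by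
        rw [he, Ideal.Quotient.lift_mk, eval_C]⟩
    have hr1 : r ≤ 1 := by
      refine noether_le_one Ω g ginj gint (RingHom.ker e) hMx ?_
      intro Q hQ hne hQlt
      have hcinj := Ideal.comap_injective_of_surjective (Ideal.Quotient.mk q)
        Ideal.Quotient.mk_surjective
      have hQp : (Q.comap (Ideal.Quotient.mk q)).IsPrime := Ideal.comap_isPrime _ _
      have hbot : (⊥ : Ideal S).comap (Ideal.Quotient.mk q) = q := by
        rw [← RingHom.ker_eq_comap_bot, Ideal.mk_ker]
      refine hmax _ hQp ?_ ?_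
      · refine lt_of_le_of_ne ?_ ?_
        · conv_lhs => rw [← hbot]
          exact Ideal.comap_mono bot_le
        · intro h
          exact hne (hcinj (hbot.trans h)).symm
      · rw [← hcomap]
        refine lt_of_le_of_ne (Ideal.comap_mono hQlt.le) ?_
        intro h
        exact hQlt.ne (hcinj h)
    let : Algebra (MvPolynomial (Fin r) Ω) S := g.toRingHom.toAlgebra
    have hint : Algebra.IsIntegral (MvPolynomial (Fin r) Ω) S := ⟨gint⟩
    have hfs : FaithfulSMul (MvPolynomial (Fin r) Ω) S :=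
      (faithfulSMul_iff_algebraMap_injective _ _).mpr ginj
    have hr0 : r ≠ 0 := by
      intro h0
      have hempty : IsEmpty (Fin r) := by rw [h0]; infer_instance
      have hF : IsField (MvPolynomial (Fin r) Ω) :=
        MulEquiv.isField (Field.toIsField Ω) (isEmptyRingEquiv Ω (Fin r)).toMulEquiv
      have hS : IsField S := isField_of_isIntegral_of_isField' hF
      have hqm : q.IsMaximal := Ideal.Quotient.maximal_of_isField q hS
      exact hlt.ne (hqm.eq_of_le hMax.ne_top hlt.le)
    have hr : r = 1 := by omega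
    rw [trdeg_of_noether (S := S) (K := K) g ginj gint, hr]
    simp

end

end Pool.Agent.R845.E3
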